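import Mathlib

namespace Run7.h46

open FirstOrder FirstOrder.Language

/-- `M` is cellular: it is partitioned into a finite set `K` and finitely many families
`c i : ℕ → (tuples of length k i)` such that every permutation of the tuples of one family,
fixing everything else, is an automorphism. -/
def IsCellular (L : FirstOrder.Language.{0, 0}) (M : Type) [L.Structure M] : Prop :=
  ∃ (n : ℕ) (k : Fin n → ℕ) (K : Set M) (c : ∀ i : Fin n, ℕ → Fin (k i) → M),
    K.Finite ∧ (∀ i j l, c i j l ∉ K) ∧
    Function.Injective (fun p : (Σ i : Fin n, ℕ × Fin (k i)) => c p.1 p.2.1 p.2.2) ∧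
    (∀ x, x ∈ K ∨ ∃ i j l, x = c i j l) ∧
    ∀ (i : Fin n) (σ : Equiv.Perm ℕ), ∃ g : M ≃[L] M, (∀ j l, g (c i j l) = c i (σ j) l) ∧
      ∀ x, (∀ j l, x ≠ c i j l) → g x = x

/-- An age (given as a class of structures) is cellular: every countable structure whose age is
contained in it is cellular. -/
def CellularAge (L : FirstOrder.Language.{0, 0})
    (K : Set (CategoryTheory.Bundled.{0} L.Structure)) : Prop :=
  ∀ (N : Type) [L.Structure N], Countable N → L.age N ⊆ K → IsCellular L N

end Run7.h46
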