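import Pool.Agent.Run7.h46.Unst
import Pool.Agent.Run7.h46.CellDef

namespace Run7.h46

open Filter Function FirstOrder FirstOrder.Language

section

variable {L : FirstOrder.Language.{0, 0}}

/-- ultrapower of a raw structure -/
noncomputable def upw {M : Type} (A : Str L M) : Str L ((hyperfilter ℕ : Filter ℕ).Germ M) :=
  fun R x => ∀ᶠ n in (hyperfilter ℕ : Filter ℕ), A R (fun i => (Quotient.out (x i)) n)

theorem germ_same [Finite (Σ n, L.Relations n)] {M V : Type} [Finite V] (A : Str L M)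
    (v : V → ℕ → M) : ∀ᶠ n in (hyperfilter ℕ : Filter ℕ),
      SameQ (upw A) A (fun i => ((v i : ℕ → M) : (hyperfilter ℕ : Filter ℕ).Germ M))
        (fun i => v i n) := by
  have aux : ∀ (P : Prop) (p : ℕ → Prop), (P ↔ ∀ᶠ n in (hyperfilter ℕ : Filter ℕ), p n) →
      ∀ᶠ n in (hyperfilter ℕ : Filter ℕ), (P ↔ p n) := by
    intro P p h
    by_cases hP : P
    · exact (h.1 hP).mono fun n hn => ⟨fun _ => hn, fun _ => hP⟩
    · have h1 : ¬ ∀ᶠ n in (hyperfilter ℕ : Filter ℕ), p n := fun h1 => hP (h.2 h1)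
      exact ((Ultrafilter.eventually_not (f := hyperfilter ℕ)).2 h1).mono
        fun n hn => ⟨fun h2 => absurd h2 hP, fun h2 => absurd h2 hn⟩
  have h1 : ∀ᶠ n in (hyperfilter ℕ : Filter ℕ), ∀ i j,
      (((v i : ℕ → M) : (hyperfilter ℕ : Filter ℕ).Germ M) = (v j : ℕ → M) ↔ v i n = v j n) :=
    eventually_all.2 fun i => eventually_all.2 fun j => aux _ _ Germ.coe_eq
  have h2 : ∀ᶠ n in (hyperfilter ℕ : Filter ℕ), ∀ p : (Σ R : (Σ n, L.Relations n), Fin R.1 → V),
      (upw A p.1 (fun i => ((v (p.2 i) : ℕ → M) : (hyperfilter ℕ : Filter ℕ).Germ M)) ↔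
        A p.1 (fun i => v (p.2 i) n)) := by
    refine eventually_all.2 fun p => aux _ _ ?_
    unfold upw
    have h3 : ∀ i, ∀ᶠ n in (hyperfilter ℕ : Filter ℕ), (Quotient.out
        ((v (p.2 i) : ℕ → M) : (hyperfilter ℕ : Filter ℕ).Germ M)) n = v (p.2 i) n := by
      intro i
      have h4 : ((Quotient.out ((v (p.2 i) : ℕ → M) : (hyperfilter ℕ : Filter ℕ).Germ M) : ℕ → M) :
          (hyperfilter ℕ : Filter ℕ).Germ M) = (v (p.2 i) : ℕ → M) := Quotient.out_eq _
      exact Germ.coe_eq.1 h4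
    have h5 := eventually_all.2 h3
    constructor
    · intro h6
      filter_upwards [h5, h6] with n h7 h8
      have : (fun i => v (p.2 i) n) = fun i => (Quotient.out
        ((v (p.2 i) : ℕ → M) : (hyperfilter ℕ : Filter ℕ).Germ M)) n := funext fun i => (h7 i).symm
      rw [this]; exact h8
    · intro h6
      filter_upwards [h5, h6] with n h7 h8
      have : (fun i => v (p.2 i) n) = fun i => (Quotient.out
        ((v (p.2 i) : ℕ → M) : (hyperfilter ℕ : Filter ℕ).Germ M)) n := funext fun i => (h7 i).symm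
      rw [this] at h8; exact h8
  filter_upwards [h1, h2] with n h3 h4
  exact ⟨h3, fun R s => h4 ⟨R, s⟩⟩

theorem upw_finEmb [Finite (Σ n, L.Relations n)] {M : Type} (A : Str L M) :
    FinEmb (upw A) A := by
  intro s
  obtain ⟨n, h1, h2⟩ := (germ_same A (fun u : s => Quotient.out (u.1))).exists
  have e : ∀ u : s, ((Quotient.out (u.1) : ℕ → M) : (hyperfilter ℕ : Filter ℕ).Germ M) = u.1 :=
    fun u => Quotient.out_eq _
  refine ⟨fun u => Quotient.out u n, ?_, ?_⟩
  · intro u hu u' hu' h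
    have := (h1 ⟨u, hu⟩ ⟨u', hu'⟩).2 h
    exact ((e ⟨u, hu⟩).symm.trans this).trans (e ⟨u', hu'⟩)
  · intro R x hx
    have := h2 R (fun i => ⟨x i, hx i⟩)
    have e1 : ((fun i : s => ((Quotient.out (i.1) : ℕ → M) : (hyperfilter ℕ : Filter ℕ).Germ M)) ∘
      fun i => (⟨x i, hx i⟩ : s)) = x := by
      funext i
      exact e _
    rw [e1] at this
    exact this

theorem infinite_of_order [L.IsRelational] {M : Type} (A : Str L M) {X Y : Type} [Finite X]
    (φ : L.Formula (X ⊕ Y))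
    (hord : ∀ n : ℕ, ∃ (a : Fin n → X → M) (b : Fin n → Y → M),
      ∀ i j, (@Formula.Realize L M (toS A) _ φ (Sum.elim (a i) (b j)) ↔ i < j)) : Infinite M := by
  by_contra hM
  rw [not_infinite_iff_finite] at hM
  have : Finite (X → M) := inferInstance
  have hf : Fintype (X → M) := Fintype.ofFinite _
  obtain ⟨a, b, hab⟩ := hord (Fintype.card (X → M) + 1)
  have hinj : Injective a := by
    intro i j hij
    rcases lt_trichotomy i j with h | h | h
    · have h1 := (hab i j).2 h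
      rw [hij] at h1
      exact absurd ((hab j j).1 h1) (lt_irrefl _)
    · exact h
    · have h1 := (hab j i).2 h
      rw [← hij] at h1
      exact absurd ((hab i i).1 h1) (lt_irrefl _)
  have := Fintype.card_le_of_injective a hinj
  simp at this

theorem halfgraph_inf [L.IsRelational] [Finite (Σ n, L.Relations n)] {M : Type} [Nonempty M]
    (A : Str L M) {X Y : Type} [Finite X] [Finite Y]
    (φ : L.Formula (X ⊕ Y)) (hφ : φ.IsQF)
    (hord : ∀ n : ℕ, ∃ (a : Fin n → X → M) (b : Fin n → Y → M),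
      ∀ i j, (@Formula.Realize L M (toS A) _ φ (Sum.elim (a i) (b j)) ↔ i < j)) :
    ∃ (a : ℕ → X → (hyperfilter ℕ : Filter ℕ).Germ M)
      (b : ℕ → Y → (hyperfilter ℕ : Filter ℕ).Germ M),
      ∀ i j, (@Formula.Realize L _ (toS (upw A)) _ φ (Sum.elim (a i) (b j)) ↔ i < j) := by
  classical
  choose a b hab using hord
  obtain ⟨m0⟩ := ‹Nonempty M›
  let a' : ℕ → X → ℕ → M := fun i x n => if h : i < n then a n ⟨i, h⟩ x else m0
  let b' : ℕ → Y → ℕ → M := fun i x n => if h : i < n then b n ⟨i, h⟩ x else m0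
  refine ⟨fun i x => (a' i x : (hyperfilter ℕ : Filter ℕ).Germ M),
    fun i x => (b' i x : (hyperfilter ℕ : Filter ℕ).Germ M), fun i j => ?_⟩
  have h1 := germ_same A (Sum.elim (a' i) (b' j) : X ⊕ Y → ℕ → M)
  have h𝒰 : (hyperfilter ℕ : Filter ℕ) ≤ atTop := by
    rw [← Nat.cofinite_eq_atTop]; exact hyperfilter_le_cofinite
  have h2 : ∀ᶠ n in (hyperfilter ℕ : Filter ℕ), max i j < n := h𝒰 (eventually_gt_atTop _)
  obtain ⟨n, h3, h4⟩ := (h1.and h2).exists
  have hi : i < n := lt_of_le_of_lt (le_max_left _ _) h4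
  have hj : j < n := lt_of_le_of_lt (le_max_right _ _) h4
  have h5 := qf_iff' _ _ _ _ φ hφ h3
  have e1 : (fun k => ((Sum.elim (a' i) (b' j) k : ℕ → M) : (hyperfilter ℕ : Filter ℕ).Germ M))
      = Sum.elim (fun x => (a' i x : (hyperfilter ℕ : Filter ℕ).Germ M))
        (fun x => (b' j x : (hyperfilter ℕ : Filter ℕ).Germ M)) := by
    funext k
    rcases k with k | k <;> rfl
  have e2 : (fun k => Sum.elim (a' i) (b' j) k n) = Sum.elim (a n ⟨i, hi⟩) (b n ⟨j, hj⟩) := by
    funext k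
    rcases k with k | k
    · simp [a', hi]
    · simp [b', hj]
  rw [e1, e2] at h5
  rw [h5, hab]
  simp

theorem toS_ofS [L.IsRelational] (M : Type) [inst : L.Structure M] : toS (ofS (L := L) M) = inst := by
  apply Structure.ext
  · funext n f
    exact isEmptyElim f
  · rfl

theorem age_subset_of_finEmb [L.IsRelational] {M N : Type} (A : Str L M) (A' : Str L N)
    (h : FinEmb A A') : @age L M (toS A) ⊆ @age L N (toS A') := by
  classical
  intro P hP
  obtain ⟨hfg, ⟨f⟩⟩ := hP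
  have hfin : Finite P := @Structure.FG.finite L P _ _ hfg
  refine ⟨hfg, ?_⟩
  have : Fintype P := Fintype.ofFinite P
  let _ := toS A
  let _ := toS A'
  obtain ⟨g, hg, hg'⟩ := h (Finset.univ.image f)
  have hmem : ∀ p, f p ∈ Finset.univ.image f := fun p =>
    Finset.mem_image_of_mem _ (Finset.mem_univ _)
  refine ⟨{ toFun := fun p => g (f p)
            inj' := ?_
            map_fun' := fun F _ => isEmptyElim F
            map_rel' := ?_ }⟩
  · intro p q hpq
    exact f.injective (hg (hmem p) (hmem q) hpq)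
  · intro n R x
    have h1 := hg' ⟨n, R⟩ (fun i => f (x i)) (fun i => hmem _)
    have h2 := f.map_rel R x
    exact h1.symm.trans h2

theorem cellular_no_order {M : Type} [L.Structure M] (hc : IsCellular L M) {X Y : Type} [Finite X]
    [Finite Y] (φ : L.Formula (X ⊕ Y)) (a : ℕ → X → M) (b : ℕ → Y → M)
    (hab : ∀ i j, i ≠ j → (φ.Realize (Sum.elim (a i) (b j)) ↔ i < j)) : False := by
  classical
  obtain ⟨n, k, K, c, hK, hcK, hinj, hcov, haut⟩ := hc
  -- joint automorphism
  have hjoint : ∀ (σ : Equiv.Perm ℕ) (s : Finset (Fin n)), ∃ g : M ≃[L] M,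
      (∀ i ∈ s, ∀ j l, g (c i j l) = c i (σ j) l) ∧ (∀ i ∉ s, ∀ j l, g (c i j l) = c i j l) ∧
      ∀ x ∈ K, g x = x := by
    intro σ s
    induction s using Finset.induction_on with
    | empty =>
      exact ⟨FirstOrder.Language.Equiv.refl L M, by simp, by simp, by simp⟩
    | insert i0 s hi0 ih =>
      obtain ⟨g, h1, h2, h3⟩ := ih
      obtain ⟨g', h4, h5⟩ := haut i0 σ
      have hne : ∀ i, i ≠ i0 → ∀ j l j' l', c i j l ≠ c i0 j' l' := by
        intro i hi j l j' l' heq
        have := @hinj ⟨i, j, l⟩ ⟨i0, j', l'⟩ heq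
        exact hi (congrArg Sigma.fst this)
      refine ⟨g'.comp g, ?_, ?_, ?_⟩
      · intro i hi j l
        rw [FirstOrder.Language.Equiv.comp_apply]
        rcases Finset.mem_insert.1 hi with rfl | hi
        · rw [h2 i hi0, h4]
        · rw [h1 i hi, h5]
          exact hne i (fun h => hi0 (h ▸ hi)) _ _
      · intro i hi j l
        rw [Finset.mem_insert, not_or] at hi
        rw [FirstOrder.Language.Equiv.comp_apply, h2 i hi.2, h5]
        exact hne i hi.1 _ _
      · intro x hx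
        rw [FirstOrder.Language.Equiv.comp_apply, h3 x hx, h5]
        intro j l h
        exact hcK i0 j l (h ▸ hx)
  -- codes
  have hKf : Finite K := hK
  have hcode : ∀ x : M, ∃ (p : K ⊕ (Σ i : Fin n, Fin (k i))) (j : ℕ),
      x = Sum.elim (fun y => y.1) (fun q => c q.1 j q.2) p := by
    intro x
    rcases hcov x with h | ⟨i, j, l, rfl⟩
    · exact ⟨Sum.inl ⟨x, h⟩, 0, rfl⟩
    · exact ⟨Sum.inr ⟨i, l⟩, j, rfl⟩
  choose ty cl hty using hcode
  let d : ℕ → X ⊕ Y → M := fun i => Sum.elim (a i) (b i)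
  obtain ⟨T, hT, κ, e, ρ, hκ, he, hd⟩ := thin (fun i v => cl (d i v))
  -- avoid constants
  let Bad : Set ℕ := {m | ∃ t v m', e m t = m' ∧ ρ v = Sum.inl m'}
  have hBad : Bad.Finite := by
    have h1 : Bad ⊆ ⋃ t : T, ⋃ v : X ⊕ Y, {m | Sum.inl (e m t) = ρ v} := by
      rintro m ⟨t, v, m', h1, h2⟩
      exact Set.mem_iUnion.2 ⟨t, Set.mem_iUnion.2 ⟨v, by simp [h1, h2]⟩⟩
    refine Set.Finite.subset (Set.finite_iUnion fun t => Set.finite_iUnion fun v => ?_) h1
    apply Set.Subsingleton.finite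
    intro m hm m' hm'
    have h2 : e m t = e m' t := by
      have := hm.trans hm'.symm
      simpa using this
    have := @he (m, t) (m', t) h2
    exact congrArg Prod.fst this
  obtain ⟨N0, hN0⟩ : ∃ N0, ∀ m, N0 ≤ m → m ∉ Bad := by
    obtain ⟨N0, h⟩ := hBad.bddAbove
    exact ⟨N0 + 1, fun m hm hb => absurd (h hb) (by omega)⟩
  let Φ : ℕ → (X ⊕ Y → K ⊕ (Σ i : Fin n, Fin (k i))) := fun m v => ty (d (κ (N0 + m)) v)
  obtain ⟨p, q, hpq, hΦ⟩ : ∃ p q, p < q ∧ Φ p = Φ q := by
    obtain ⟨k1, k2, hne, hΦ⟩ := Finite.exists_ne_map_eq_of_infinite Φ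
    rcases lt_or_gt_of_ne hne with h1 | h1
    · exact ⟨k1, k2, h1, hΦ⟩
    · exact ⟨k2, k1, h1, hΦ.symm⟩
  let P := N0 + p
  let Q := N0 + q
  have hPQ : P < Q := by simp only [P, Q]; omega
  -- the swap
  let f : ℕ → ℕ := fun m => if h : ∃ t, e P t = m then e Q h.choose else
    if h : ∃ t, e Q t = m then e P h.choose else m
  have hPQne : ∀ t t', e P t ≠ e Q t' := by
    intro t t' h
    have := @he (P, t) (Q, t') h
    exact absurd (congrArg Prod.fst this) hPQ.ne
  have hein : ∀ m t t', e m t = e m t' → t = t' := by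
    intro m t t' h
    have := @he (m, t) (m, t') h
    exact congrArg Prod.snd this
  have hf1 : ∀ t, f (e P t) = e Q t := by
    intro t
    have h : ∃ t', e P t' = e P t := ⟨t, rfl⟩
    simp only [f]
    rw [dif_pos h]
    rw [hein _ _ _ h.choose_spec]
  have hf2 : ∀ t, f (e Q t) = e P t := by
    intro t
    have h0 : ¬ ∃ t', e P t' = e Q t := fun ⟨t', h⟩ => hPQne _ _ h
    have h : ∃ t', e Q t' = e Q t := ⟨t, rfl⟩
    simp only [f]
    rw [dif_neg h0, dif_pos h]
    rw [hein _ _ _ h.choose_spec]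
  have hf3 : ∀ m, (∀ t, e P t ≠ m) → (∀ t, e Q t ≠ m) → f m = m := by
    intro m h1 h2
    simp only [f]
    rw [dif_neg (fun ⟨t, h⟩ => h1 t h), dif_neg (fun ⟨t, h⟩ => h2 t h)]
  have hinv : Involutive f := by
    intro m
    by_cases h1 : ∃ t, e P t = m
    · obtain ⟨t, rfl⟩ := h1
      rw [hf1, hf2]
    · by_cases h2 : ∃ t, e Q t = m
      · obtain ⟨t, rfl⟩ := h2
        rw [hf2, hf1]
      · push Not at h1 h2
        rw [hf3 m h1 h2, hf3 m h1 h2]
  obtain ⟨g, hg1, -, hg3⟩ := hjoint hinv.toPerm Finset.univ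
  have hg : ∀ (p' : K ⊕ (Σ i : Fin n, Fin (k i))) j,
      g (Sum.elim (fun y => y.1) (fun q => c q.1 j q.2) p') =
        Sum.elim (fun y => y.1) (fun q => c q.1 (f j) q.2) p' := by
    rintro (y | q) j
    · exact hg3 _ y.2
    · exact hg1 _ (Finset.mem_univ _) _ _
  have hclP : ∀ v, f (cl (d (κ P) v)) = cl (d (κ Q) v) := by
    intro v
    have h1 : cl (d (κ P) v) = Sum.elim id (e P) (ρ v) := hd P v
    have h2 : cl (d (κ Q) v) = Sum.elim id (e Q) (ρ v) := hd Q v
    rw [h1, h2]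
    rcases hρ : ρ v with m | t
    · simp only [Sum.elim_inl, id]
      apply hf3
      · intro t h
        exact hN0 P (by simp [P]) ⟨t, v, m, h, hρ⟩
      · intro t h
        exact hN0 Q (by simp [Q]) ⟨t, v, m, h, hρ⟩
    · simp only [Sum.elim_inr]
      exact hf1 t
  have hgPQ : ∀ v, g (d (κ P) v) = d (κ Q) v := by
    intro v
    rw [hty (d (κ P) v), hg, hclP]
    have : ty (d (κ P) v) = ty (d (κ Q) v) := congrFun hΦ v
    rw [this, ← hty]
  have hgQP : ∀ v, g (d (κ Q) v) = d (κ P) v := by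
    intro v
    have h1 : f (cl (d (κ Q) v)) = cl (d (κ P) v) := by
      rw [← hclP, hinv]
    rw [hty (d (κ Q) v), hg, h1]
    have : ty (d (κ P) v) = ty (d (κ Q) v) := congrFun hΦ v
    rw [← this, ← hty]
  have hreal := StrongHomClass.realize_formula g φ (v := Sum.elim (a (κ P)) (b (κ Q)))
  have e1 : ⇑g ∘ Sum.elim (a (κ P)) (b (κ Q)) = Sum.elim (a (κ Q)) (b (κ P)) := by
    funext v
    rcases v with x | y
    · exact hgPQ (Sum.inl x)
    · exact hgQP (Sum.inr y)
  have hlt := hκ hPQ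
  rw [e1, hab _ _ hlt.ne, hab _ _ hlt.ne'] at hreal
  exact absurd (hreal.2 hlt) (not_lt.2 hlt.le)

theorem unstable_main (L : FirstOrder.Language.{0, 0}) [L.IsRelational] [Finite L.Symbols]
    (M : Type) [L.Structure M] [Countable M] (X Y : Type) [Finite X] [Finite Y]
    (φ : L.Formula (X ⊕ Y)) (hφ : φ.IsQF)
    (hord : ∀ n : ℕ, ∃ (a : Fin n → X → M) (b : Fin n → Y → M),
      ∀ i j, (φ.Realize (Sum.elim (a i) (b j)) ↔ i < j)) :
    (∃ F : Set ℕ → L.Structure ℕ, (∀ S, @age L ℕ (F S) = L.age M) ∧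
      ∀ S S', S ≠ S' → ¬ @ElementarilyEquivalent L ℕ ℕ (F S) (F S')) ∧
    ¬ CellularAge L (L.age M) := by
  classical
  have hfin : Finite (Σ n, L.Relations n) :=
    Finite.of_injective (fun R : (Σ n, L.Relations n) => (Sum.inr R : L.Symbols))
      (fun a b h => Sum.inr_injective h)
  let A : Str L M := ofS M
  have hA : toS A = ‹L.Structure M› := toS_ofS M
  have hord' : ∀ n : ℕ, ∃ (a : Fin n → X → M) (b : Fin n → Y → M),
      ∀ i j, (@Formula.Realize L M (toS A) _ φ (Sum.elim (a i) (b j)) ↔ i < j) := by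
    rw [hA]; exact hord
  have hinf : Infinite M := infinite_of_order A φ hord'
  obtain ⟨ε⟩ : Nonempty (ℕ ≃ M) := nonempty_equiv_of_countable
  let B : Str L ℕ := A.pull ε
  have hAB : FinEmb A B := FinEmb.pull_equiv A ε
  have hBA : FinEmb B A := FinEmb.of_injective A _ ε.injective
  obtain ⟨a, b, hab⟩ := halfgraph_inf A φ hφ hord'
  have hUA : FinEmb (upw A) A := upw_finEmb A
  have hUinf : Infinite ((hyperfilter ℕ : Filter ℕ).Germ M) :=
    Infinite.of_injective (fun m : M => ((m : M) : (hyperfilter ℕ : Filter ℕ).Germ M))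
      (fun m m' h => Germ.const_inj.1 h)
  have hage : L.age M = @age L M (toS A) := by rw [hA]
  constructor
  · obtain ⟨T, hT, hodi⟩ := odi_of_halfgraph (upw A) B (hUA.trans hAB) φ hφ a b
      (fun i j _ => hab i j)
    obtain ⟨F, hF1, hF2⟩ := family B T hT _ _ hodi
    refine ⟨fun S => toS (F S), fun S => ?_, hF2⟩
    rw [hage]
    apply Set.Subset.antisymm
    · exact age_subset_of_finEmb (F S) A ((hF1 S).1.trans hBA)
    · exact age_subset_of_finEmb A (F S) (hAB.trans (hF1 S).2)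
  · intro hcell
    let N0 : Set ((hyperfilter ℕ : Filter ℕ).Germ M) :=
      Set.range (fun p : ℕ × X => a p.1 p.2) ∪ Set.range (fun p : ℕ × Y => b p.1 p.2)
    have hN0 : Countable N0 := (Set.countable_range _).union (Set.countable_range _)
    let A0 : Str L N0 := (upw A).pull Subtype.val
    let _ := toS A0
    have hsub : L.age N0 ⊆ L.age M := by
      rw [hage]
      exact age_subset_of_finEmb A0 A ((FinEmb.of_injective _ _ Subtype.val_injective).trans hUA)
    refine cellular_no_order (hcell N0 hN0 hsub) φ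
      (fun i x => ⟨a i x, Or.inl ⟨(i, x), rfl⟩⟩) (fun i y => ⟨b i y, Or.inr ⟨(i, y), rfl⟩⟩) ?_
    intro i j _
    rw [← hab i j]
    apply qf_iff' A0 (upw A) _ _ φ hφ
    constructor
    · intro v w
      rcases v with v | v <;> rcases w with w | w <;> simp
    · intro R s
      change (upw A) R (Subtype.val ∘ _) ↔ _
      refine iff_of_eq (congrArg (upw A R) ?_)
      funext k
      rcases hs : s k with x | y
      · simp [hs]
      · simp [hs]

end

end Run7.h46
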