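import Pool.Agent.Run7.h46.JE

namespace Run7.h46

open Filter Function FirstOrder FirstOrder.Language

section SimV

variable {L : FirstOrder.Language.{0, 0}} {K : Type} [LinearOrder K] {T : Type} (srt : T → K)
  {M V : Type}

/-- `Sim` for arbitrary index types -/
def SimV (v v' : V → Un M T) : Prop :=
  (∀ a, (∃ m, v a = Sum.inl m ∧ v' a = Sum.inl m) ∨
    (∃ q q' t, v a = Sum.inr (q, t) ∧ v' a = Sum.inr (q', t))) ∧
  ∀ a b q1 t1 q1' q2 t2 q2', v a = Sum.inr (q1, t1) → v' a = Sum.inr (q1', t1) →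
    v b = Sum.inr (q2, t2) → v' b = Sum.inr (q2', t2) →
    (mkp q1 (srt t1) < mkp q2 (srt t2) → mkp q1' (srt t1) < mkp q2' (srt t2)) ∧
      (mkp q1 (srt t1) = mkp q2 (srt t2) → q1' = q2')

theorem SimV.sameQ {D : Str L (Un M T)} (hD : IsTemp srt D) {v v' : V → Un M T}
    (h : SimV srt v v') : SameQ D D v v' := by
  constructor
  · intro a b
    rcases h.1 a with ⟨m, h1, h1'⟩ | ⟨q, q', t, h1, h1'⟩ <;>
    rcases h.1 b with ⟨m2, h2, h2'⟩ | ⟨q2, q2', t2, h2, h2'⟩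
    · rw [h1, h1', h2, h2']
    · rw [h1, h1', h2, h2']; simp
    · rw [h1, h1', h2, h2']; simp
    · have hab := h.2 a b q t q' q2 t2 q2' h1 h1' h2 h2'
      have hba := h.2 b a q2 t2 q2' q t q' h2 h2' h1 h1'
      rw [h1, h1', h2, h2']
      simp only [Sum.inr.injEq, Prod.mk.injEq]
      constructor
      · rintro ⟨rfl, rfl⟩
        exact ⟨hab.2 rfl, rfl⟩
      · rintro ⟨rfl, rfl⟩
        refine ⟨?_, rfl⟩
        rcases lt_trichotomy (mkp q (srt t)) (mkp q2 (srt t)) with h3 | h3 | h3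
        · exact absurd (hab.1 h3) (lt_irrefl _)
        · exact (mkp_inj.1 h3).1
        · exact absurd (hba.1 h3) (lt_irrefl _)
  · intro R s
    apply hD.sim
    exact ⟨fun i => h.1 (s i), fun i j => h.2 (s i) (s j)⟩

end SimV

section

variable {L : FirstOrder.Language.{0, 0}} {B : Str L ℕ} {c : Cfg B} {D : Str L (Un ℕ c.T)}
  {E : Set (Un ℕ c.T)} {S : Set ℕ} {bd : BD S}

theorem NC_cases (h : HE c D E) {u : Un ℕ c.T} (hu : u ∈ NC c E bd) :
    (∃ m, u = Sum.inl m) ∨ (∃ q t, u = Sum.inr (q, t) ∧ (q ≤ -2 ∨ 2 ≤ q)) ∨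
      ∃ i j t, j < 2 * bd.ν i ∧ u = Sum.inr (bd.f i j, t) ∧ c.srt t = c.col j := by
  rcases hu with ⟨m, rfl⟩ | hE | ⟨q, t, rfl, i, j, hj, hp⟩
  · exact Or.inl ⟨m, rfl⟩
  · rcases u with m | ⟨q, t⟩
    · exact Or.inl ⟨m, rfl⟩
    · exact Or.inr (Or.inl ⟨q, t, rfl, h.far q t hE⟩)
  · rw [posn, mkp_inj] at hp
    exact Or.inr (Or.inr ⟨i, j, t, hj, by rw [hp.1], hp.2⟩)

theorem mem_NC {i : bd.I} {j : ℕ} (hj : j < 2 * bd.ν i) {t : c.T} (ht : c.srt t = c.col j) :
    (Sum.inr (bd.f i j, t) : Un ℕ c.T) ∈ NC c E bd :=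
  Or.inr (Or.inr ⟨_, _, rfl, i, j, hj, by rw [posn, ht]⟩)

theorem gap_up (hSn : S.Nonempty) (Fb : Set bd.I) (hF : Fb.Finite) (i : bd.I) :
    ∃ i1, i < i1 ∧ ∀ b ∈ Fb, i < b → i1 < b := by
  classical
  obtain ⟨j, hj⟩ := bd.up i
  let W : Finset bd.I := insert j (hF.toFinset.filter (fun b => i < b))
  have hW : W.Nonempty := ⟨j, Finset.mem_insert_self _ _⟩
  have h1 : i < W.min' hW := by
    have := Finset.min'_mem W hW
    rcases Finset.mem_insert.1 this with h | h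
    · rw [h]; exact hj
    · exact (Finset.mem_filter.1 h).2
  obtain ⟨i1, h2, h3, -⟩ := bd.dense _ _ h1 _ hSn.some_mem
  refine ⟨i1, h2, fun b hb hib => lt_of_lt_of_le h3 (Finset.min'_le _ _ ?_)⟩
  exact Finset.mem_insert_of_mem (Finset.mem_filter.2 ⟨hF.mem_toFinset.2 hb, hib⟩)

theorem gap_down (hSn : S.Nonempty) (Fb : Set bd.I) (hF : Fb.Finite) (i : bd.I) :
    ∃ i1, i1 < i ∧ ∀ b ∈ Fb, b < i → b < i1 := by
  classical
  obtain ⟨j, hj⟩ := bd.down i
  let W : Finset bd.I := insert j (hF.toFinset.filter (fun b => b < i))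
  have hW : W.Nonempty := ⟨j, Finset.mem_insert_self _ _⟩
  have h1 : W.max' hW < i := by
    have := Finset.max'_mem W hW
    rcases Finset.mem_insert.1 this with h | h
    · rw [h]; exact hj
    · exact (Finset.mem_filter.1 h).2
  obtain ⟨i1, h2, h3, -⟩ := bd.dense _ _ h1 _ hSn.some_mem
  refine ⟨i1, h3, fun b hb hib => lt_of_le_of_lt (Finset.le_max' _ _ ?_) h2⟩
  exact Finset.mem_insert_of_mem (Finset.mem_filter.2 ⟨hF.mem_toFinset.2 hb, hib⟩)

/-- blocks touched by the parameters -/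
def Bk (e : E → NC c E bd) : Set bd.I :=
  {i | ∃ (u : E) (j : ℕ) (t : c.T), (e u).1 = Sum.inr (bd.f i j, t)}

theorem blk_sub (u : Un ℕ c.T) : {i : bd.I | ∃ j t, u = Sum.inr (bd.f i j, t)}.Finite := by
  apply Set.Subsingleton.finite
  rintro i ⟨j, t, hu⟩ i' ⟨j', t', hu'⟩
  rw [hu] at hu'
  simp only [Sum.inr.injEq, Prod.mk.injEq] at hu'
  exact ((f_inj bd).1 hu'.1).1

theorem Bk_finite (h : HE c D E) (e : E → NC c E bd) : (Bk e).Finite := by
  have : Finite E := h.fin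
  have : Bk e ⊆ ⋃ u : E, {i : bd.I | ∃ j t, (e u).1 = Sum.inr (bd.f i j, t)} := by
    rintro i ⟨u, j, t, hu⟩
    exact Set.mem_iUnion.2 ⟨u, j, t, hu⟩
  exact (Set.finite_iUnion fun u => blk_sub _).subset this

/-- position of far elements -/
theorem far_cmp {q : ℚ} {k : c.K} (hq : q ≤ -2 ∨ 2 ≤ q) (i i' : bd.I) (j j' : ℕ) :
    (mkp q k < posn c bd i j ↔ mkp q k < posn c bd i' j') ∧
    (posn c bd i j < mkp q k ↔ posn c bd i' j' < mkp q k) ∧ mkp q k ≠ posn c bd i j := by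
  have h1 := bd.hf1 i j
  have h2 := bd.hf2 i j
  have h3 := bd.hf1 i' j'
  have h4 := bd.hf2 i' j'
  unfold posn
  refine ⟨?_, ?_, ?_⟩
  · rw [mkp_lt, mkp_lt]
    rcases hq with hq | hq
    · exact ⟨fun _ => Or.inl (by linarith), fun _ => Or.inl (by linarith)⟩
    · constructor
      · rintro (h | ⟨h, -⟩) <;> (exfalso; linarith)
      · rintro (h | ⟨h, -⟩) <;> (exfalso; linarith)
  · rw [mkp_lt, mkp_lt]
    rcases hq with hq | hq
    · constructor
      · rintro (h | ⟨h, -⟩) <;> (exfalso; linarith)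
      · rintro (h | ⟨h, -⟩) <;> (exfalso; linarith)
    · exact ⟨fun _ => Or.inl (by linarith), fun _ => Or.inl (by linarith)⟩
  · intro h
    rw [mkp_inj] at h
    rcases hq with hq | hq <;> linarith [h.1]

/-- `z` is a cell at `(i,j)` -/
def Cell (k : c.K) (w : c.T → NC c E bd) (i : bd.I) (j : ℕ) : Prop :=
  ∀ t, c.srt t = k → ∃ τ, c.srt τ = c.col j ∧ (w t).1 = Sum.inr (bd.f i j, τ)

section Step1

variable (h : HE c D E) (hS : ∀ n ∈ S, 1 ≤ n) (hSn : S.Nonempty) {e : E → NC c E bd}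
  (hN : Nice c D E (AC c D E bd) e)
include h hS hSn hN

theorem single_pos (z : JE c D E (AC c D E bd) e) (t0 : c.T) (ht0 : c.srt t0 = z.k) (i : bd.I)
    (j : ℕ) (hj : j < 2 * bd.ν i) (τ0 : c.T) (hτ0 : c.srt τ0 = c.col j)
    (hw0 : (z.w t0).1 = Sum.inr (bd.f i j, τ0)) (hi : i ∉ Bk e) : Cell z.k z.w i j := by
  classical
  -- occupied indices in the block i
  let Js : Finset ℕ := (Finset.range (2 * bd.ν i)).filter fun j' =>
    ∃ t τ, c.srt t = z.k ∧ c.srt τ = c.col j' ∧ (z.w t).1 = Sum.inr (bd.f i j', τ)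
  have hJs : j ∈ Js := Finset.mem_filter.2 ⟨Finset.mem_range.2 hj, t0, τ0, ht0, hτ0, hw0⟩
  let jm := Js.max' ⟨j, hJs⟩
  have hjm : jm ∈ Js := Finset.max'_mem _ _
  obtain ⟨hjm1, tm, τm, htm, hτm, hwm⟩ := Finset.mem_filter.1 hjm
  rw [Finset.mem_range] at hjm1
  have hjmax : ∀ j' τ t, j' < 2 * bd.ν i → c.srt t = z.k → c.srt τ = c.col j' →
      (z.w t).1 = Sum.inr (bd.f i j', τ) → j' ≤ jm := fun j' τ t h1 h2 h3 h4 =>
    Finset.le_max' _ _ (Finset.mem_filter.2 ⟨Finset.mem_range.2 h1, t, τ, h2, h3, h4⟩)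
  -- blocks touched by w
  let Wb : Set bd.I := {b | ∃ t j' τ, (z.w t).1 = Sum.inr (bd.f b j', τ)}
  have hWb : Wb.Finite := by
    have : Wb ⊆ ⋃ t : c.T, {i : bd.I | ∃ j τ, (z.w t).1 = Sum.inr (bd.f i j, τ)} := by
      rintro b ⟨t, j', τ, hu⟩
      exact Set.mem_iUnion.2 ⟨t, j', τ, hu⟩
    exact (Set.finite_iUnion fun t => blk_sub _).subset this
  obtain ⟨i1, hi1, hgap⟩ := gap_up hSn (Bk e ∪ Wb) ((Bk_finite h e).union hWb) i
  have hνi1 : 1 ≤ bd.ν i1 := hS _ (bd.hν i1)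
  let js := jm % 2
  have hjs : js < 2 * bd.ν i1 := by have : jm % 2 < 2 := Nat.mod_lt _ (by norm_num); omega
  have hcol : c.col js = c.col jm := col_eq_of c _ _ (by simp [js])
  let g : Ps c.K → ℚ := fun p => if p = posn c bd i jm then bd.f i1 js else rc p
  have hgm : g (posn c bd i jm) = bd.f i1 js := by simp [g]
  have hgo : ∀ p, p ≠ posn c bd i jm → g p = rc p := fun p hp => by simp [g, hp]
  -- act on elements
  have hact : ∀ u : Un ℕ c.T, u ∈ NC c E bd → act c.srt g u ∈ NC c E bd := by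
    rintro (m | ⟨q, t⟩) hu
    · exact Or.inl ⟨m, rfl⟩
    · by_cases hp : mkp q (c.srt t) = posn c bd i jm
      · rw [act_inr, hp, hgm]
        apply mem_NC hjs
        rw [hcol]
        rw [posn, mkp_inj] at hp
        exact hp.2
      · rw [act_inr, hgo _ hp]
        exact hu
  let w' : c.T → NC c E bd := fun t => ⟨act c.srt g (z.w t).1, hact _ (z.w t).2⟩
  have hi1' : i ≠ i1 := hi1.ne
  -- the SimV statement
  have hsim : SimV c.srt (Subtype.val ∘ Sum.elim (rs c.srt z.k z.w) e)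
      (Subtype.val ∘ Sum.elim (rs c.srt z.k w') e) := by
    -- classification of positions
    have key : ∀ (a : {t : c.T // c.srt t = z.k} ⊕ E) (q : ℚ) (t : c.T) (q' : ℚ),
        (Subtype.val ∘ Sum.elim (rs c.srt z.k z.w) e) a = Sum.inr (q, t) →
        (Subtype.val ∘ Sum.elim (rs c.srt z.k w') e) a = Sum.inr (q', t) →
        ((mkp q (c.srt t) = posn c bd i jm ∧ mkp q' (c.srt t) = posn c bd i1 js) ∨
          (mkp q (c.srt t) ≠ posn c bd i jm ∧ q = q' ∧ (q ≤ -2 ∨ 2 ≤ q)) ∨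
          (q = q' ∧ ∃ b j', mkp q (c.srt t) = posn c bd b j' ∧ ((b = i ∧ j' < jm) ∨ (b ≠ i ∧
            (i < b → i1 < b))))) := by
      rintro (⟨t1, ht1⟩ | u) q t q' ha ha'
      · simp only [comp_apply, Sum.elim_inl, rs] at ha ha'
        simp only [w', ha, act_inr, Sum.inr.injEq, Prod.mk.injEq, and_true] at ha'
        by_cases hp : mkp q (c.srt t) = posn c bd i jm
        · left
          refine ⟨hp, ?_⟩
          rw [← ha', hp, hgm]
          rw [posn, mkp_inj] at hp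
          rw [posn, hcol, hp.2]
        · right
          have hqq : q = q' := by rw [← ha', hgo _ hp]; rfl
          rcases NC_cases h (z.w t1).2 with ⟨m, hm⟩ | ⟨q2, t2, hm, hm'⟩ | ⟨b, j', t2, hm, hm', hm''⟩
          · rw [ha] at hm; simp at hm
          · rw [ha] at hm
            simp only [Sum.inr.injEq, Prod.mk.injEq] at hm
            left
            exact ⟨hp, hqq, by rw [hm.1]; exact hm'⟩
          · right
            refine ⟨hqq, b, j', ?_, ?_⟩
            · rw [ha] at hm'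
              simp only [Sum.inr.injEq, Prod.mk.injEq] at hm'
              rw [posn, hm'.1, hm'.2, hm'']
            · by_cases hb : b = i
              · left
                subst hb
                refine ⟨rfl, lt_of_le_of_ne (hjmax j' t2 t1 hm ht1 hm'' hm') ?_⟩
                rintro rfl
                apply hp
                rw [ha] at hm'
                simp only [Sum.inr.injEq, Prod.mk.injEq] at hm'
                rw [posn, hm'.1, hm'.2, hm'']
              · right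
                refine ⟨hb, hgap b (Or.inr ⟨t1, j', t2, hm'⟩)⟩
      · simp only [comp_apply, Sum.elim_inr] at ha ha'
        rw [ha] at ha'
        simp only [Sum.inr.injEq, Prod.mk.injEq, and_true] at ha'
        right
        rcases NC_cases h (e u).2 with ⟨m, hm⟩ | ⟨q2, t2, hm, hm'⟩ | ⟨b, j', t2, hm, hm', hm''⟩
        · rw [ha] at hm; simp at hm
        · rw [ha] at hm
          simp only [Sum.inr.injEq, Prod.mk.injEq] at hm
          left
          refine ⟨?_, ha', by rw [hm.1]; exact hm'⟩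
          rw [hm.1, hm.2]
          exact (far_cmp hm' i i jm jm).2.2
        · right
          have hbB : b ∈ Bk e := ⟨u, j', t2, hm'⟩
          have hbi : b ≠ i := fun hb => hi (hb ▸ hbB)
          refine ⟨ha', b, j', ?_, Or.inr ⟨hbi, hgap b (Or.inl hbB)⟩⟩
          rw [ha] at hm'
          simp only [Sum.inr.injEq, Prod.mk.injEq] at hm'
          rw [posn, hm'.1, hm'.2, hm'']
    constructor
    · rintro (⟨t1, ht1⟩ | u)
      · rcases hz : (z.w t1).1 with m | ⟨q, t⟩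
        · left; exact ⟨m, by simp [rs, hz], by simp [rs, w', hz]⟩
        · right
          exact ⟨q, g (mkp q (c.srt t)), t, by simp [rs, hz], by simp [rs, w', hz]⟩
      · rcases hz : (e u).1 with m | ⟨q, t⟩
        · left; exact ⟨m, by simp [hz], by simp [hz]⟩
        · right; exact ⟨q, q, t, by simp [hz], by simp [hz]⟩
    · intro a b q1 t1 q1' q2 t2 q2' h1 h2 h3 h4
      have F1 := @far_cmp L B c S bd
      rcases key a q1 t1 q1' h1 h2 with ⟨hp, hp'⟩ | ⟨hp, rfl, hf⟩ | ⟨rfl, b1, j1, hp, hb1⟩ <;>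
      rcases key b q2 t2 q2' h3 h4 with ⟨hp2, hp2'⟩ | ⟨hp2, rfl, hf2⟩ | ⟨rfl, b2, j2, hp2, hb2⟩
      · rw [hp, hp', hp2, hp2']
        refine ⟨fun hh => absurd hh (lt_irrefl _), fun _ => ?_⟩
        rw [posn, mkp_inj] at hp' hp2'
        rw [hp'.1, hp2'.1]
      · rw [hp, hp']
        have := F1 (k := c.srt t2) hf2 i i1 jm js
        exact ⟨this.2.1.1, fun hh => absurd hh.symm this.2.2⟩
      · rw [hp, hp', hp2, posn_lt, posn_lt, posn_inj]
        constructor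
        · rintro (hh | ⟨hh, hh'⟩)
          · rcases hb2 with ⟨hb2, -⟩ | ⟨hb2, hb3⟩
            · exact absurd hh (by rw [hb2]; exact lt_irrefl _)
            · exact Or.inl (hb3 hh)
          · rcases hb2 with ⟨hb2, hb3⟩ | ⟨hb2, hb3⟩
            · omega
            · exact absurd hh.symm hb2
        · rintro ⟨hh, hh'⟩
          rcases hb2 with ⟨hb2, hb3⟩ | ⟨hb2, hb3⟩
          · omega
          · exact absurd hh.symm hb2
      · rw [hp2, hp2']
        have := F1 (k := c.srt t1) hf i i1 jm js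
        exact ⟨this.1.1, fun hh => absurd hh this.2.2⟩
      · exact ⟨fun hh => hh, fun hh => (mkp_inj.1 hh).1⟩
      · rw [hp2]
        have := F1 (k := c.srt t1) hf b2 b2 j2 j2
        exact ⟨fun hh => hh, fun hh => absurd hh this.2.2⟩
      · rw [hp, hp2, hp2', posn_lt, posn_lt, posn_inj]
        constructor
        · rintro (hh | ⟨hh, hh'⟩)
          · left; exact hh.trans hi1
          · left; rw [hh]; exact hi1
        · rintro ⟨hh, hh'⟩
          rcases hb1 with ⟨hb2, hb3⟩ | ⟨hb2, hb3⟩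
          · omega
          · exact absurd hh hb2
      · rw [hp]
        have := F1 (k := c.srt t2) hf2 b1 b1 j1 j1
        exact ⟨fun hh => hh, fun hh => absurd hh.symm this.2.2⟩
      · exact ⟨fun hh => hh, fun hh => (mkp_inj.1 hh).1⟩
  have hsq := hsim.sameQ c.srt h.hD.1
  have hmem' : JJ c D E (AC c D E bd) e z.k w' := by
    have hz := z.mem
    unfold JJ QJ at hz ⊢
    rw [sameQ_AC (V' := Unit)] at hz ⊢
    exact hsq.symm.trans hz
  let z' : JE c D E (AC c D E bd) e := ⟨z.k, w', hmem'⟩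
  -- every element is at the position (i, jm)
  have hall : ∀ t, c.srt t = z.k → ∃ τ, c.srt τ = c.col jm ∧ (z.w t).1 = Sum.inr (bd.f i jm, τ) := by
    intro t ht
    by_contra hcon
    -- w' t = w t
    have hfix : w' t = z.w t := by
      apply Subtype.ext
      change act c.srt g (z.w t).1 = (z.w t).1
      rcases hz : (z.w t).1 with m | ⟨q, τ⟩
      · rfl
      · rw [act_inr, hgo]
        · rfl
        · intro hp
          rw [posn, mkp_inj] at hp
          exact hcon ⟨τ, hp.2, by rw [hz, hp.1]⟩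
    have hov : z.ov z' := ⟨t, t, ht, ht, hfix.symm⟩
    obtain ⟨t2, ht2, he2⟩ := JE.ov_range hN hov tm htm
    have he3 : (z.w tm).1 = act c.srt g (z.w t2).1 := congrArg Subtype.val he2
    rw [hwm] at he3
    rcases hz : (z.w t2).1 with m | ⟨q, τ⟩
    · rw [hz] at he3; simp at he3
    · rw [hz, act_inr] at he3
      simp only [Sum.inr.injEq, Prod.mk.injEq] at he3
      obtain ⟨he4, rfl⟩ := he3
      by_cases hp : mkp q (c.srt τm) = posn c bd i jm
      · rw [hp, hgm] at he4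
        exact hi1' ((f_inj bd).1 he4).1
      · rw [hgo _ hp] at he4
        apply hp
        rw [posn, mkp_inj]
        exact ⟨he4.symm, hτm⟩
  -- in particular j = jm
  obtain ⟨τ, h5, h6⟩ := hall t0 ht0
  rw [hw0] at h6
  simp only [Sum.inr.injEq, Prod.mk.injEq] at h6
  have h7 := ((f_inj bd).1 h6.1).2
  rw [h7]
  exact hall

end Step1

section Class

/-- class of blocks with the same cut over the parameters -/
def CC (e : E → NC c E bd) (i0 : bd.I) : Set bd.I :=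
  {i | i ∉ Bk e ∧ ∀ b ∈ Bk e, (b < i ↔ b < i0)}

/-- the element lies in a block of the class -/
def InC (e : E → NC c E bd) (i0 : bd.I) (u : Un ℕ c.T) : Prop :=
  ∃ i ∈ CC e i0, ∃ j t, c.srt t = c.col j ∧ u = Sum.inr (bd.f i j, t)

theorem out_cmp {e : E → NC c E bd} {i0 b : bd.I} (hb : b ∉ CC e i0) {i i' : bd.I}
    (hi : i ∈ CC e i0) (hi' : i' ∈ CC e i0) : (b < i ∧ b < i') ∨ (i < b ∧ i' < b) := by
  by_cases hbB : b ∈ Bk e
  · have h1 : b ≠ i := fun h => hi.1 (h ▸ hbB)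
    have h2 : b ≠ i' := fun h => hi'.1 (h ▸ hbB)
    by_cases h3 : b < i0
    · exact Or.inl ⟨(hi.2 b hbB).2 h3, (hi'.2 b hbB).2 h3⟩
    · right
      have h4 : ¬ b < i := fun h => h3 ((hi.2 b hbB).1 h)
      have h5 : ¬ b < i' := fun h => h3 ((hi'.2 b hbB).1 h)
      exact ⟨lt_of_le_of_ne (not_lt.1 h4) h1.symm, lt_of_le_of_ne (not_lt.1 h5) h2.symm⟩
  · have hcut : ∃ b0 ∈ Bk e, ¬ (b0 < b ↔ b0 < i0) := by
      by_contra hcon
      push Not at hcon
      exact hb ⟨hbB, fun b0 hb0 => hcon b0 hb0⟩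
    obtain ⟨b0, hb0, hne⟩ := hcut
    have h1 : b0 ≠ b := fun h => hbB (h ▸ hb0)
    have h2 : b0 ≠ i := fun h => hi.1 (h ▸ hb0)
    have h3 : b0 ≠ i' := fun h => hi'.1 (h ▸ hb0)
    have h4 := hi.2 b0 hb0
    have h5 := hi'.2 b0 hb0
    by_cases h6 : b0 < i0
    · have h7 : ¬ b0 < b := fun h => hne ⟨fun _ => h6, fun _ => h⟩
      have h8 : b < b0 := lt_of_le_of_ne (not_lt.1 h7) h1.symm
      exact Or.inl ⟨h8.trans (h4.2 h6), h8.trans (h5.2 h6)⟩
    · have h7 : b0 < b := by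
        by_contra h7
        exact hne ⟨fun h => absurd h h7, fun h => absurd h h6⟩
      have h8 : ¬ b0 < i := fun h => h6 (h4.1 h)
      have h9 : ¬ b0 < i' := fun h => h6 (h5.1 h)
      exact Or.inr ⟨(lt_of_le_of_ne (not_lt.1 h8) h2.symm).trans h7,
        (lt_of_le_of_ne (not_lt.1 h9) h3.symm).trans h7⟩

/-- Moving a tuple: either fixed and outside the class, or moved from a position of the class to
another one. -/
def Mv (e : E → NC c E bd) (i0 : bd.I) {V : Type} (v v' : V → NC c E bd)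
    (o : Option ((bd.I × ℕ) × (bd.I × ℕ))) : Prop :=
  match o with
  | none => ∀ a, v' a = v a ∧ ¬ InC e i0 (v a).1
  | some (x, y) => x.1 ∈ CC e i0 ∧ y.1 ∈ CC e i0 ∧ ∀ a, ∃ τ, c.srt τ = c.col x.2 ∧
      c.srt τ = c.col y.2 ∧ (v a).1 = Sum.inr (bd.f x.1 x.2, τ) ∧
      (v' a).1 = Sum.inr (bd.f y.1 y.2, τ)

/-- compatibility of two moves -/
def Cmp (c : Cfg B) (bd : BD S) (o o' : Option ((bd.I × ℕ) × (bd.I × ℕ))) : Prop :=
  ∀ x y x' y', o = some (x, y) → o' = some (x', y') →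
    (posn c bd x.1 x.2 < posn c bd x'.1 x'.2 → posn c bd y.1 y.2 < posn c bd y'.1 y'.2) ∧
    (posn c bd x'.1 x'.2 < posn c bd x.1 x.2 → posn c bd y'.1 y'.2 < posn c bd y.1 y.2) ∧
    (posn c bd x.1 x.2 = posn c bd x'.1 x'.2 → posn c bd y.1 y.2 = posn c bd y'.1 y'.2)

theorem Mv.sim (h : HE c D E) {e : E → NC c E bd} {i0 : bd.I} {V V' : Type} {v v' : V → NC c E bd}
    {u u' : V' → NC c E bd} {o o' : Option ((bd.I × ℕ) × (bd.I × ℕ))} (hv : Mv e i0 v v' o)
    (hu : Mv e i0 u u' o') (hc : Cmp c bd o o') {a : V} {b : V'} {q1 q1' q2 q2' : ℚ} {t1 t2 : c.T}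
    (h1 : (v a).1 = Sum.inr (q1, t1)) (h2 : (v' a).1 = Sum.inr (q1', t1))
    (h3 : (u b).1 = Sum.inr (q2, t2)) (h4 : (u' b).1 = Sum.inr (q2', t2)) :
    (mkp q1 (c.srt t1) < mkp q2 (c.srt t2) → mkp q1' (c.srt t1) < mkp q2' (c.srt t2)) ∧
    (mkp q2 (c.srt t2) < mkp q1 (c.srt t1) → mkp q2' (c.srt t2) < mkp q1' (c.srt t1)) ∧
      (mkp q1 (c.srt t1) = mkp q2 (c.srt t2) → q1' = q2') := by
  -- comparison of an outside element with a position of the class
  have aux : ∀ (w : NC c E bd) (q : ℚ) (t : c.T), w.1 = Sum.inr (q, t) → ¬ InC e i0 w.1 →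
      ∀ (x y : bd.I × ℕ), x.1 ∈ CC e i0 → y.1 ∈ CC e i0 →
      (mkp q (c.srt t) < posn c bd x.1 x.2 ↔ mkp q (c.srt t) < posn c bd y.1 y.2) ∧
      (posn c bd x.1 x.2 < mkp q (c.srt t) ↔ posn c bd y.1 y.2 < mkp q (c.srt t)) ∧
      mkp q (c.srt t) ≠ posn c bd x.1 x.2 := by
    intro w q t hw hnot x y hx hy
    rcases NC_cases h w.2 with ⟨m, hm⟩ | ⟨q2, t2, hm, hm'⟩ | ⟨b, j', t2, hm, hm', hm''⟩
    · rw [hw] at hm; simp at hm
    · rw [hw] at hm
      simp only [Sum.inr.injEq, Prod.mk.injEq] at hm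
      rw [hm.1]
      exact far_cmp hm' x.1 y.1 x.2 y.2
    · have hb : b ∉ CC e i0 := fun hb => hnot ⟨b, hb, j', t2, hm'', hm'⟩
      rw [hw] at hm'
      simp only [Sum.inr.injEq, Prod.mk.injEq] at hm'
      have hp : mkp q (c.srt t) = posn c bd b j' := by rw [posn, hm'.1, hm'.2, hm'']
      rw [hp, posn_lt, posn_lt, posn_lt, posn_lt, Ne, posn_inj]
      rcases out_cmp hb hx hy with ⟨h5, h6⟩ | ⟨h5, h6⟩
      · exact ⟨⟨fun _ => Or.inl h6, fun _ => Or.inl h5⟩,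
          ⟨fun hh => hh.elim (fun hh => absurd hh (not_lt.2 h5.le)) (fun hh => absurd hh.1 h5.ne'),
            fun hh => hh.elim (fun hh => absurd hh (not_lt.2 h6.le))
              (fun hh => absurd hh.1 h6.ne')⟩, fun hh => absurd hh.1 h5.ne⟩
      · exact ⟨⟨fun hh => hh.elim (fun hh => absurd hh (not_lt.2 h5.le))
          (fun hh => absurd hh.1 h5.ne'),
            fun hh => hh.elim (fun hh => absurd hh (not_lt.2 h6.le))
              (fun hh => absurd hh.1 h6.ne')⟩,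
          ⟨fun _ => Or.inl h6, fun _ => Or.inl h5⟩, fun hh => absurd hh.1 h5.ne'⟩
  rcases o with _ | ⟨x, y⟩ <;> rcases o' with _ | ⟨x', y'⟩
  · obtain ⟨hv1, hv2⟩ := hv a
    obtain ⟨hu1, hu2⟩ := hu b
    rw [hv1, h1] at h2
    rw [hu1, h3] at h4
    simp only [Sum.inr.injEq, Prod.mk.injEq, and_true] at h2 h4
    rw [← h2, ← h4]
    exact ⟨fun hh => hh, fun hh => hh, fun hh => (mkp_inj.1 hh).1⟩
  · obtain ⟨hv1, hv2⟩ := hv a
    obtain ⟨hx, hy, hall⟩ := hu
    obtain ⟨τ, hτ1, hτ2, hu1, hu2⟩ := hall b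
    rw [hv1, h1] at h2
    rw [h3] at hu1
    rw [h4] at hu2
    simp only [Sum.inr.injEq, Prod.mk.injEq, and_true] at h2 hu1 hu2
    have hp : mkp q2 (c.srt t2) = posn c bd x'.1 x'.2 := by rw [posn, hu1.1, hu1.2, hτ1]
    have hp' : mkp q2' (c.srt t2) = posn c bd y'.1 y'.2 := by rw [posn, hu2.1, hu2.2, hτ2]
    rw [hp, hp', ← h2]
    obtain ⟨g1, g2, g3⟩ := aux (v a) q1 t1 h1 hv2 x' y' hx hy
    exact ⟨g1.1, g2.1, fun hh => absurd hh g3⟩
  · obtain ⟨hu1, hu2⟩ := hu b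
    obtain ⟨hx, hy, hall⟩ := hv
    obtain ⟨τ, hτ1, hτ2, hv1, hv2⟩ := hall a
    rw [hu1, h3] at h4
    rw [h1] at hv1
    rw [h2] at hv2
    simp only [Sum.inr.injEq, Prod.mk.injEq, and_true] at h4 hv1 hv2
    have hp : mkp q1 (c.srt t1) = posn c bd x.1 x.2 := by rw [posn, hv1.1, hv1.2, hτ1]
    have hp' : mkp q1' (c.srt t1) = posn c bd y.1 y.2 := by rw [posn, hv2.1, hv2.2, hτ2]
    rw [hp, hp', ← h4]
    obtain ⟨g1, g2, g3⟩ := aux (u b) q2 t2 h3 hu2 x y hx hy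
    exact ⟨g2.1, g1.1, fun hh => absurd hh.symm g3⟩
  · obtain ⟨hx, hy, hall⟩ := hv
    obtain ⟨τ, hτ1, hτ2, hv1, hv2⟩ := hall a
    obtain ⟨hx', hy', hall'⟩ := hu
    obtain ⟨τ', hτ1', hτ2', hu1, hu2⟩ := hall' b
    rw [h1] at hv1
    rw [h2] at hv2
    rw [h3] at hu1
    rw [h4] at hu2
    simp only [Sum.inr.injEq, Prod.mk.injEq] at hv1 hv2 hu1 hu2
    have hp : mkp q1 (c.srt t1) = posn c bd x.1 x.2 := by rw [posn, hv1.1, hv1.2, hτ1]
    have hp' : mkp q1' (c.srt t1) = posn c bd y.1 y.2 := by rw [posn, hv2.1, hv2.2, hτ2]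
    have hp2 : mkp q2 (c.srt t2) = posn c bd x'.1 x'.2 := by rw [posn, hu1.1, hu1.2, hτ1']
    have hp2' : mkp q2' (c.srt t2) = posn c bd y'.1 y'.2 := by rw [posn, hu2.1, hu2.2, hτ2']
    obtain ⟨g1, g2, g3⟩ := hc x y x' y' rfl rfl
    rw [hp, hp', hp2, hp2']
    refine ⟨g1, g2, fun hh => ?_⟩
    have := g3 hh
    rw [← hp', ← hp2', mkp_inj] at this
    exact this.1

theorem Mv.elem {e : E → NC c E bd} {i0 : bd.I} {V : Type} {v v' : V → NC c E bd}
    {o : Option ((bd.I × ℕ) × (bd.I × ℕ))} (hv : Mv e i0 v v' o) (a : V) :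
    (∃ m, (v a).1 = Sum.inl m ∧ (v' a).1 = Sum.inl m) ∨
    (∃ q q' t, (v a).1 = Sum.inr (q, t) ∧ (v' a).1 = Sum.inr (q', t)) := by
  rcases o with _ | ⟨x, y⟩
  · obtain ⟨h1, -⟩ := hv a
    rw [h1]
    rcases (v a).1 with m | ⟨q, t⟩
    · exact Or.inl ⟨m, rfl, rfl⟩
    · exact Or.inr ⟨q, q, t, rfl, rfl⟩
  · obtain ⟨-, -, hall⟩ := hv
    obtain ⟨τ, -, -, h1, h2⟩ := hall a
    exact Or.inr ⟨_, _, τ, h1, h2⟩

theorem Mv_e (e : E → NC c E bd) (i0 : bd.I) : Mv e i0 e e none := by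
  intro u
  refine ⟨rfl, ?_⟩
  rintro ⟨i, hi, j, t, -, hu⟩
  exact hi.1 ⟨u, j, t, hu⟩

theorem Cmp_none_right (o : Option ((bd.I × ℕ) × (bd.I × ℕ))) : Cmp c bd o none := by
  intro x y x' y' _ h
  simp at h

theorem Cmp_none_left (o : Option ((bd.I × ℕ) × (bd.I × ℕ))) : Cmp c bd none o := by
  intro x y x' y' h
  simp at h

theorem Cmp_self (o : Option ((bd.I × ℕ) × (bd.I × ℕ))) : Cmp c bd o o := by
  intro x y x' y' h h'
  rw [h] at h'
  simp only [Option.some.injEq, Prod.mk.injEq] at h'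
  obtain ⟨rfl, rfl⟩ := h'
  exact ⟨fun h => absurd h (lt_irrefl _), fun h => absurd h (lt_irrefl _), fun _ => rfl⟩

theorem Cmp.symm {o o' : Option ((bd.I × ℕ) × (bd.I × ℕ))} (h : Cmp c bd o o') :
    Cmp c bd o' o := by
  intro x y x' y' h1 h2
  obtain ⟨g1, g2, g3⟩ := h x' y' x y h2 h1
  exact ⟨g2, g1, fun hh => (g3 hh.symm).symm⟩

/-- Moving preserves membership. -/
theorem JJ_move (h : HE c D E) {e : E → NC c E bd} {i0 : bd.I} {k : c.K} {x x' : c.T → NC c E bd}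
    {o : Option ((bd.I × ℕ) × (bd.I × ℕ))} (hx : Mv e i0 (rs c.srt k x) (rs c.srt k x') o)
    (hJ : JJ c D E (AC c D E bd) e k x) : JJ c D E (AC c D E bd) e k x' := by
  have hsim : SimV c.srt (Subtype.val ∘ Sum.elim (rs c.srt k x) e)
      (Subtype.val ∘ Sum.elim (rs c.srt k x') e) := by
    constructor
    · rintro (a | a)
      · exact hx.elem a
      · exact (Mv_e e i0).elem a
    · rintro (a | a) (b | b) q1 t1 q1' q2 t2 q2' h1 h2 h3 h4
      · have := Mv.sim h hx hx (Cmp_self o) h1 h2 h3 h4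
        exact ⟨this.1, this.2.2⟩
      · have := Mv.sim h hx (Mv_e e i0) (Cmp_none_right o) h1 h2 h3 h4
        exact ⟨this.1, this.2.2⟩
      · have := Mv.sim h (Mv_e e i0) hx (Cmp_none_left o) h1 h2 h3 h4
        exact ⟨this.1, this.2.2⟩
      · have := Mv.sim h (Mv_e e i0) (Mv_e e i0) (Cmp_none_left none) h1 h2 h3 h4
        exact ⟨this.1, this.2.2⟩
  have hsq := hsim.sameQ c.srt h.hD.1
  unfold JJ QJ at hJ ⊢
  rw [sameQ_AC (V' := Unit)] at hJ ⊢
  exact hsq.symm.trans hJ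

theorem lt0_move (h : HE c D E) {e : E → NC c E bd} {i0 : bd.I} {k k' : c.K}
    {x x' y y' : c.T → NC c E bd}
    {o o' : Option ((bd.I × ℕ) × (bd.I × ℕ))} (hx : Mv e i0 (rs c.srt k x) (rs c.srt k x') o)
    (hy : Mv e i0 (rs c.srt k' y) (rs c.srt k' y') o') (hc : Cmp c bd o o')
    (hl : lt0 c D E (AC c D E bd) e k k' x y) : lt0 c D E (AC c D E bd) e k k' x' y' := by
  refine ⟨hl.1, ?_⟩
  have hsim : SimV c.srt (Subtype.val ∘ Sum.elim (Sum.elim (rs c.srt k x) (rs c.srt k' y)) e)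
      (Subtype.val ∘ Sum.elim (Sum.elim (rs c.srt k x') (rs c.srt k' y')) e) := by
    constructor
    · rintro ((a | a) | a)
      · exact hx.elem a
      · exact hy.elem a
      · exact (Mv_e e i0).elem a
    · rintro ((a | a) | a) ((b | b) | b) q1 t1 q1' q2 t2 q2' h1 h2 h3 h4
      · have := Mv.sim h hx hx (Cmp_self o) h1 h2 h3 h4
        exact ⟨this.1, this.2.2⟩
      · have := Mv.sim h hx hy hc h1 h2 h3 h4
        exact ⟨this.1, this.2.2⟩
      · have := Mv.sim h hx (Mv_e e i0) (Cmp_none_right o) h1 h2 h3 h4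
        exact ⟨this.1, this.2.2⟩
      · have := Mv.sim h hy hx hc.symm h1 h2 h3 h4
        exact ⟨this.1, this.2.2⟩
      · have := Mv.sim h hy hy (Cmp_self o') h1 h2 h3 h4
        exact ⟨this.1, this.2.2⟩
      · have := Mv.sim h hy (Mv_e e i0) (Cmp_none_right o') h1 h2 h3 h4
        exact ⟨this.1, this.2.2⟩
      · have := Mv.sim h (Mv_e e i0) hx (Cmp_none_left o) h1 h2 h3 h4
        exact ⟨this.1, this.2.2⟩
      · have := Mv.sim h (Mv_e e i0) hy (Cmp_none_left o') h1 h2 h3 h4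
        exact ⟨this.1, this.2.2⟩
      · have := Mv.sim h (Mv_e e i0) (Mv_e e i0) (Cmp_none_left none) h1 h2 h3 h4
        exact ⟨this.1, this.2.2⟩
  have hsq := hsim.sameQ c.srt h.hD.1
  have hl2 := hl.2
  rw [sameQ_AC (V' := Unit)] at hl2 ⊢
  exact hsq.symm.trans hl2

end Class

end

end Run7.h46
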