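import Pool.Agent.Run7.h46.Back1

namespace Run7.h46

open Filter Function FirstOrder FirstOrder.Language

section

variable {L : FirstOrder.Language.{0, 0}} {B : Str L ℕ} {c : Cfg B} {D : Str L (Un ℕ c.T)}
  {E : Set (Un ℕ c.T)} {S : Set ℕ} {bd : BD S}

theorem rel_iff (k k' : c.K) : c.rel k k' ↔ c.ka = c.kb ∨ k ≠ k' := by
  unfold Cfg.rel
  rcases c.hK k with h | h <;> rcases c.hK k' with h' | h' <;> rw [h, h']
  · constructor
    · rintro (⟨-, h1⟩ | ⟨h1, -⟩) <;> exact Or.inl h1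
    · rintro (h1 | h1)
      · exact Or.inl ⟨rfl, h1⟩
      · exact absurd rfl h1
  · constructor
    · intro _
      by_cases h1 : c.ka = c.kb
      · exact Or.inl h1
      · exact Or.inr h1
    · intro _; exact Or.inl ⟨rfl, rfl⟩
  · constructor
    · intro _
      by_cases h1 : c.ka = c.kb
      · exact Or.inl h1
      · exact Or.inr (Ne.symm h1)
    · intro _; exact Or.inr ⟨rfl, rfl⟩
  · constructor
    · rintro (⟨h1, -⟩ | ⟨-, h1⟩) <;> exact Or.inl h1.symm
    · rintro (h1 | h1)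
      · exact Or.inl ⟨h1.symm, rfl⟩
      · exact absurd rfl h1

variable {e : E → NC c E bd} {i0 : bd.I}

theorem CC_up (h : HE c D E) (hSn : S.Nonempty) {i : bd.I} (hi : i ∈ CC e i0) :
    ∃ i' ∈ CC e i0, i < i' := by
  obtain ⟨i', h1, h2⟩ := gap_up hSn (Bk e) (Bk_finite h e) i
  refine ⟨i', ⟨fun hB => absurd (h2 i' hB h1) (lt_irrefl _), fun b hb => ?_⟩, h1⟩
  rw [← hi.2 b hb]
  constructor
  · intro hlt
    by_contra hcon
    have hne : i ≠ b := fun hh => hi.1 (hh ▸ hb)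
    exact absurd (h2 b hb (lt_of_le_of_ne (not_lt.1 hcon) hne)) (not_lt.2 hlt.le)
  · exact fun hlt => hlt.trans h1

theorem CC_down (h : HE c D E) (hSn : S.Nonempty) {i : bd.I} (hi : i ∈ CC e i0) :
    ∃ i' ∈ CC e i0, i' < i := by
  obtain ⟨i', h1, h2⟩ := gap_down hSn (Bk e) (Bk_finite h e) i
  refine ⟨i', ⟨fun hB => absurd (h2 i' hB h1) (lt_irrefl _), fun b hb => ?_⟩, h1⟩
  rw [← hi.2 b hb]
  exact ⟨fun hlt => hlt.trans h1, fun hlt => h2 b hb hlt⟩

theorem CC_convex {i i' i'' : bd.I} (hi : i ∈ CC e i0) (hi' : i' ∈ CC e i0) (h1 : i ≤ i'')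
    (h2 : i'' ≤ i') : i'' ∈ CC e i0 := by
  refine ⟨fun hB => ?_, fun b hb => ?_⟩
  · have h3 : i ≠ i'' := fun hh => hi.1 (hh ▸ hB)
    have h4 : i'' ≠ i' := fun hh => hi'.1 (hh ▸ hB)
    have h5 := (hi'.2 _ hB).1 (lt_of_le_of_ne h2 h4)
    have h6 := (hi.2 _ hB).2 h5
    exact absurd h6 (not_lt.2 h1)
  · constructor
    · intro hlt
      exact (hi'.2 b hb).1 (lt_of_lt_of_le hlt h2)
    · intro hlt
      exact lt_of_lt_of_le ((hi.2 b hb).2 hlt) h1

/-- a member which is a cell in the class -/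
def CellC (e : E → NC c E bd) (i0 : bd.I) (z : JE c D E (AC c D E bd) e) (P : bd.I × ℕ) : Prop :=
  P.1 ∈ CC e i0 ∧ P.2 < 2 * bd.ν P.1 ∧ Cell z.k z.w P.1 P.2

/-- shifting a cell -/
theorem shift (h : HE c D E) (z : JE c D E (AC c D E bd) e) {P : bd.I × ℕ} (hz : CellC e i0 z P)
    (Q : bd.I × ℕ) (hQ : Q.1 ∈ CC e i0) (hQ' : Q.2 < 2 * bd.ν Q.1) (hcol : c.col Q.2 = c.col P.2) :
    ∃ z' : JE c D E (AC c D E bd) e, z'.k = z.k ∧ CellC e i0 z' Q ∧
      Mv e i0 (rs c.srt z.k z.w) (rs c.srt z.k z'.w) (some (P, Q)) := by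
  classical
  obtain ⟨hP1, hP2, hcell⟩ := hz
  choose! τ hτ1 hτ2 using hcell
  let w' : c.T → NC c E bd := fun t => if ht : c.srt t = z.k then
    ⟨Sum.inr (bd.f Q.1 Q.2, τ t), mem_NC hQ' (by rw [hcol]; exact hτ1 t ht)⟩
    else ⟨Sum.inl 0, Or.inl ⟨0, rfl⟩⟩
  have hw' : ∀ t, c.srt t = z.k → (w' t).1 = Sum.inr (bd.f Q.1 Q.2, τ t) := by
    intro t ht
    simp [w', ht]
  have hmv : Mv e i0 (rs c.srt z.k z.w) (rs c.srt z.k w') (some (P, Q)) := by
    refine ⟨hP1, hQ, ?_⟩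
    rintro ⟨t, ht⟩
    exact ⟨τ t, hτ1 t ht, by rw [hcol]; exact hτ1 t ht, hτ2 t ht, hw' t ht⟩
  exact ⟨⟨z.k, w', JJ_move h hmv z.mem⟩, rfl, ⟨hQ, hQ', fun t ht => ⟨τ t, by
    rw [hcol]; exact hτ1 t ht, hw' t ht⟩⟩, hmv⟩

theorem l0_move (h : HE c D E) {x x' y y' : JE c D E (AC c D E bd) e}
    {o o' : Option ((bd.I × ℕ) × (bd.I × ℕ))} (hk : x'.k = x.k) (hk' : y'.k = y.k)
    (hx : Mv e i0 (rs c.srt x.k x.w) (rs c.srt x.k x'.w) o)
    (hy : Mv e i0 (rs c.srt y.k y.w) (rs c.srt y.k y'.w) o') (hc : Cmp c bd o o')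
    (hl : x.l0 y) : x'.l0 y' := by
  unfold JE.l0
  rw [hk, hk']
  exact lt0_move h hx hy hc hl

/-- foreign members -/
def Frn (e : E → NC c E bd) (i0 : bd.I) (z : JE c D E (AC c D E bd) e) : Prop :=
  ∀ t, c.srt t = z.k → ¬ InC e i0 (z.w t).1

theorem Frn.mv {z : JE c D E (AC c D E bd) e} (hz : Frn e i0 z) :
    Mv e i0 (rs c.srt z.k z.w) (rs c.srt z.k z.w) none := fun a => ⟨rfl, hz a.1 a.2⟩

/-- a target with the same comparison pattern -/
theorem target (h : HE c D E) (hS : ∀ n ∈ S, 1 ≤ n) (hSn : S.Nonempty) {P Q R : bd.I × ℕ}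
    (hQ : Q.1 ∈ CC e i0)
    (hQ' : Q.2 < 2 * bd.ν Q.1) (hcol : c.col Q.2 = c.col P.2) :
    ∃ R' : bd.I × ℕ, R'.1 ∈ CC e i0 ∧ R'.2 < 2 * bd.ν R'.1 ∧ c.col R'.2 = c.col R.2 ∧
      Cmp c bd (some (P, Q)) (some (R, R')) := by
  rcases lt_trichotomy (posn c bd P.1 P.2) (posn c bd R.1 R.2) with h1 | h1 | h1
  · obtain ⟨r, hr, hlt⟩ := CC_up h hSn hQ
    have hν := hS _ (bd.hν r)
    refine ⟨(r, R.2 % 2), hr, ?_, col_eq_of c _ _ (by simp), ?_⟩
    · have : R.2 % 2 < 2 := Nat.mod_lt _ (by norm_num)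
      simp only; omega
    · intro x y x' y' hx hx'
      simp only [Option.some.injEq, Prod.mk.injEq] at hx hx'
      obtain ⟨rfl, rfl⟩ := hx
      obtain ⟨rfl, rfl⟩ := hx'
      have h2 : posn c bd Q.1 Q.2 < posn c bd r (R.2 % 2) := (posn_lt c bd).2 (Or.inl hlt)
      exact ⟨fun _ => h2, fun hh => absurd hh (not_lt.2 h1.le), fun hh => absurd hh h1.ne⟩
  · have h1' := (posn_inj c bd).1 h1
    refine ⟨Q, hQ, hQ', by rw [hcol, h1'.2], ?_⟩
    intro x y x' y' hx hx'
    simp only [Option.some.injEq, Prod.mk.injEq] at hx hx'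
    obtain ⟨rfl, rfl⟩ := hx
    obtain ⟨rfl, rfl⟩ := hx'
    exact ⟨fun hh => absurd hh (h1 ▸ lt_irrefl _), fun hh => absurd hh (h1 ▸ lt_irrefl _),
      fun _ => rfl⟩
  · obtain ⟨r, hr, hlt⟩ := CC_down h hSn hQ
    have hν := hS _ (bd.hν r)
    refine ⟨(r, R.2 % 2), hr, ?_, col_eq_of c _ _ (by simp), ?_⟩
    · have : R.2 % 2 < 2 := Nat.mod_lt _ (by norm_num)
      simp only; omega
    · intro x y x' y' hx hx'
      simp only [Option.some.injEq, Prod.mk.injEq] at hx hx'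
      obtain ⟨rfl, rfl⟩ := hx
      obtain ⟨rfl, rfl⟩ := hx'
      have h2 : posn c bd r (R.2 % 2) < posn c bd Q.1 Q.2 := (posn_lt c bd).2 (Or.inl hlt)
      exact ⟨fun hh => absurd hh (not_lt.2 h1.le), fun _ => h2, fun hh => absurd hh h1.ne'⟩

/-- The region data: two members, the second a shift of the first, with all members in between
being foreign or cells. -/
structure Reg (e : E → NC c E bd) (i0 : bd.I) (z1 z2 : JE c D E (AC c D E bd) e)
    (P1 P2 : bd.I × ℕ) : Prop where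
  hk : z2.k = z1.k
  c1 : CellC e i0 z1 P1
  c2 : CellC e i0 z2 P2
  mv : Mv e i0 (rs c.srt z1.k z1.w) (rs c.srt z1.k z2.w) (some (P1, P2))
  lt : z1.lt z2
  mid : ∀ z : JE c D E (AC c D E bd) e, z1.lt z → z.lt z2 → Frn e i0 z ∨ ∃ P, CellC e i0 z P

theorem Mv.col_eq {V : Type} [Nonempty V] {v v' : V → NC c E bd} {P Q : bd.I × ℕ}
    (hm : Mv e i0 v v' (some (P, Q))) : c.col Q.2 = c.col P.2 := by
  obtain ⟨-, -, hall⟩ := hm
  obtain ⟨τ, h1, h2, -, -⟩ := hall (Classical.arbitrary V)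
  rw [← h1, ← h2]

section reg

variable (h : HE c D E) (hS : ∀ n ∈ S, 1 ≤ n) (hSn : S.Nonempty)
  (hN : Nice c D E (AC c D E bd) e) {z1 z2 : JE c D E (AC c D E bd) e} {P1 P2 : bd.I × ℕ}
  (hR : Reg e i0 z1 z2 P1 P2)
include h hS hSn hN hR

omit hS hSn in
theorem regA {z : JE c D E (AC c D E bd) e} (h1 : z1.lt z) (h2 : z.lt z2) (hf : Frn e i0 z) :
    ¬ c.rel z1.k z.k := by
  intro hr
  have h3 := JE.l0_of_lt hN hr h1
  have h4 : z2.l0 z := l0_move h hR.hk rfl hR.mv hf.mv (Cmp_none_right _) h3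
  exact JE.lt_asymm hN h2 (JE.lt_of_l0 h4)

theorem regR {z : JE c D E (AC c D E bd) e} (h1 : z1.lt z) (h2 : z.lt z2) :
    ∃ P, CellC e i0 z P := by
  rcases hR.mid z h1 h2 with hf | hf
  · exfalso
    have hnr := regA h hN hR h1 h2 hf
    rcases h1' : h1 with hl | ⟨kv, v, hv, hl1, hl2⟩
    · exact hnr hl.1
    · let vz : JE c D E (AC c D E bd) e := ⟨kv, v, hv⟩
      have g1 : z1.l0 vz := hl1
      have g2 : vz.l0 z := hl2
      have g3 : vz.lt z2 := JE.lt_trans hN (JE.lt_of_l0 g2) h2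
      rcases hR.mid vz (JE.lt_of_l0 g1) g3 with hfv | ⟨R, hcv⟩
      · exact regA h hN hR (JE.lt_of_l0 g1) g3 hfv hl1.1
      · obtain ⟨t0, ht0⟩ := exists_sort c z1.k
        have : Nonempty {t : c.T // c.srt t = z1.k} := ⟨⟨t0, ht0⟩⟩
        have hcol : c.col P2.2 = c.col P1.2 := hR.mv.col_eq
        obtain ⟨R', hR1, hR2, hR3, hcmp⟩ := target (P := P1) (R := R) h hS hSn hR.c2.1 hR.c2.2.1 hcol
        obtain ⟨v', hk', hcell', hmv'⟩ := shift h vz hcv R' hR1 hR2 hR3
        have g4 : z2.l0 v' := l0_move h hR.hk hk' hR.mv hmv' hcmp g1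
        have g5 : v'.l0 z := l0_move h hk' rfl hmv' hf.mv (Cmp_none_right _) g2
        exact JE.lt_asymm hN h2 (JE.lt_trans hN (JE.lt_of_l0 g4) (JE.lt_of_l0 g5))
  · exact hf

/-- every sort occurs as a cell in the class -/
theorem exK (k : c.K) : ∃ (z : JE c D E (AC c D E bd) e) (P : bd.I × ℕ), z.k = k ∧
    CellC e i0 z P := by
  by_cases hk : k = z1.k
  · exact ⟨z1, P1, hk.symm, hR.c1⟩
  · have hne : c.ka ≠ c.kb := by
      intro hab
      apply hk
      rcases c.hK k with h1 | h1 <;> rcases c.hK z1.k with h2 | h2 <;> rw [h1, h2]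
      · exact hab
      · exact hab.symm
    have hnr : ¬ c.rel z1.k z1.k := by
      rw [rel_iff]
      push Not
      exact ⟨hne, rfl⟩
    rcases hR.lt with hl | ⟨kv, v, hv, hl1, hl2⟩
    · exfalso
      have := hl.1
      rw [hR.hk] at this
      exact hnr this
    · let vz : JE c D E (AC c D E bd) e := ⟨kv, v, hv⟩
      obtain ⟨P, hP⟩ := regR h hS hSn hN hR (z := vz) (Or.inl hl1) (Or.inl hl2)
      refine ⟨vz, P, ?_, hP⟩
      have h3 := (rel_iff z1.k kv).1 hl1.1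
      have h4 : z1.k ≠ kv := h3.resolve_left hne
      change kv = k
      rcases c.hK k with h1 | h1 <;> rcases c.hK z1.k with h2 | h2 <;>
        rcases c.hK kv with h5 | h5 <;> simp_all

theorem cell_ncard {z : JE c D E (AC c D E bd) e} {P : bd.I × ℕ} (hz : CellC e i0 z P) :
    ∃ I : Set c.T, I = {ρ | ∃ t, c.srt t = z.k ∧ (z.w t).1 = Sum.inr (bd.f P.1 P.2, ρ)} ∧
      I ⊆ {ρ | c.srt ρ = c.col P.2} ∧ I.ncard = {t | c.srt t = z.k}.ncard := by
  refine ⟨_, rfl, ?_, ?_⟩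
  · rintro ρ ⟨t, ht, hw⟩
    obtain ⟨τ, h1, h2⟩ := hz.2.2 t ht
    rw [h2] at hw
    simp only [Sum.inr.injEq, Prod.mk.injEq, true_and] at hw
    rw [← hw]
    exact h1
  · have hcell := hz.2.2
    choose! τ hτ1 hτ2 using hcell
    have hinj : ∀ t t', c.srt t = z.k → c.srt t' = z.k → z.w t = z.w t' → t = t' := by
      intro t t' ht ht' hh
      have hm := z.mem
      have := (hm.1 (Sum.inl ⟨t, ht⟩) (Sum.inl ⟨t', ht'⟩)).1 hh
      simpa [rs, cc] using this
    have himg : {ρ | ∃ t, c.srt t = z.k ∧ (z.w t).1 = Sum.inr (bd.f P.1 P.2, ρ)}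
        = τ '' {t | c.srt t = z.k} := by
      ext ρ
      constructor
      · rintro ⟨t, ht, hw⟩
        rw [hτ2 t ht] at hw
        simp only [Sum.inr.injEq, Prod.mk.injEq, true_and] at hw
        exact ⟨t, ht, hw⟩
      · rintro ⟨t, ht, rfl⟩
        exact ⟨t, ht, hτ2 t ht⟩
    rw [himg]
    apply Set.ncard_image_of_injOn
    intro t ht t' ht' hh
    apply hinj t t' ht ht'
    apply Subtype.ext
    rw [hτ2 t ht, hτ2 t' ht', hh]

/-- every cell is full, and every position of the class is occupied -/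
theorem full : (∀ (P : bd.I × ℕ), P.1 ∈ CC e i0 → P.2 < 2 * bd.ν P.1 →
      ∃ Y : JE c D E (AC c D E bd) e, CellC e i0 Y P) ∧
    (∀ (z : JE c D E (AC c D E bd) e) (P : bd.I × ℕ), CellC e i0 z P → ∀ ρ, c.srt ρ = c.col P.2 →
      ∃ t, c.srt t = z.k ∧ (z.w t).1 = Sum.inr (bd.f P.1 P.2, ρ)) := by
  classical
  choose Z P hZk hZ using exK h hS hSn hN hR
  have : Fintype c.K := Fintype.ofFinite _
  let χ : c.K → c.K := fun k => c.col (P k).2
  let nn : c.K → ℕ := fun k => {t : c.T | c.srt t = k}.ncard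
  have hpos : ∀ k, 0 < nn k := by
    intro k
    obtain ⟨t, ht⟩ := exists_sort c k
    exact (Set.ncard_pos (Set.toFinite _)).2 ⟨t, ht⟩
  have hle : ∀ k, nn k ≤ nn (χ k) := by
    intro k
    obtain ⟨I, -, hI1, hI2⟩ := cell_ncard h hS hSn hN hR (hZ k)
    rw [hZk] at hI2
    have h3 : I.ncard ≤ nn (χ k) := Set.ncard_le_ncard hI1 (Set.toFinite _)
    exact hI2.symm.le.trans h3
  have hinj : Injective χ := by
    intro k1 k2 hk
    by_contra hne
    obtain ⟨Z', hk', hc', -⟩ := shift h (Z k1) (hZ k1) (P k2) (hZ k2).1 (hZ k2).2.1 hk.symm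
    obtain ⟨I1, hI1e, hI1, hI1c⟩ := cell_ncard h hS hSn hN hR hc'
    obtain ⟨I2, hI2e, hI2, hI2c⟩ := cell_ncard h hS hSn hN hR (hZ k2)
    have hdis : Disjoint I1 I2 := by
      rw [Set.disjoint_left]
      intro ρ h1 h2
      rw [hI1e] at h1
      rw [hI2e] at h2
      obtain ⟨t, ht, hw⟩ := h1
      obtain ⟨t', ht', hw'⟩ := h2
      have hov : Z'.ov (Z k2) := ⟨t, t', ht, ht', Subtype.ext (hw.trans hw'.symm)⟩
      have := JE.ov_k hN hov
      rw [hk', hZk, hZk] at this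
      exact hne this
    have hsum : nn k1 + nn k2 ≤ nn (χ k2) := by
      have h1 : (I1 ∪ I2).ncard = I1.ncard + I2.ncard :=
        Set.ncard_union_eq hdis (Set.toFinite _) (Set.toFinite _)
      have h2 : (I1 ∪ I2).ncard ≤ nn (χ k2) :=
        Set.ncard_le_ncard (Set.union_subset hI1 hI2) (Set.toFinite _)
      rw [h1, hI1c, hI2c, hk', hZk, hZk] at h2
      exact h2
    have h1 := hpos k1
    have h2 := hpos k2
    have hcase : χ k2 = k1 ∨ χ k2 = k2 := by
      rcases c.hK (χ k2) with h5 | h5 <;> rcases c.hK k1 with h3 | h3 <;>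
        rcases c.hK k2 with h4 | h4 <;> simp_all
    rcases hcase with h3 | h3 <;> rw [h3] at hsum <;> omega
  have hbij : Bijective χ := Finite.injective_iff_bijective.1 hinj
  have hsumeq : ∑ k, nn k = ∑ k, nn (χ k) :=
    ((Equiv.ofBijective χ hbij).sum_comp nn).symm
  have heq : ∀ k, nn k = nn (χ k) := by
    intro k
    have := (Finset.sum_eq_sum_iff_of_le (fun k _ => hle k)).1 hsumeq
    exact this k (Finset.mem_univ _)
  have hfullZ : ∀ k (Y : JE c D E (AC c D E bd) e) (Q : bd.I × ℕ), Y.k = k → CellC e i0 Y Q →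
      c.col Q.2 = χ k → ∀ ρ, c.srt ρ = c.col Q.2 →
      ∃ t, c.srt t = Y.k ∧ (Y.w t).1 = Sum.inr (bd.f Q.1 Q.2, ρ) := by
    intro k Y Q hk hY hcol ρ hρ
    obtain ⟨I, hIe, hI1, hI2⟩ := cell_ncard h hS hSn hN hR hY
    have : I = {ρ | c.srt ρ = c.col Q.2} := by
      apply Set.eq_of_subset_of_ncard_le hI1 _ (Set.toFinite _)
      rw [hI2, hk, hcol]
      exact (heq k).symm.le
    have hmem : ρ ∈ I := by rw [this]; exact hρ
    rw [hIe] at hmem
    exact hmem
  have hocc : ∀ (Q : bd.I × ℕ), Q.1 ∈ CC e i0 → Q.2 < 2 * bd.ν Q.1 →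
      ∃ (Y : JE c D E (AC c D E bd) e), CellC e i0 Y Q ∧ ∀ ρ, c.srt ρ = c.col Q.2 →
      ∃ t, c.srt t = Y.k ∧ (Y.w t).1 = Sum.inr (bd.f Q.1 Q.2, ρ) := by
    intro Q hQ1 hQ2
    obtain ⟨k, hk⟩ := hbij.2 (c.col Q.2)
    obtain ⟨Y, hYk, hY, -⟩ := shift h (Z k) (hZ k) Q hQ1 hQ2 hk.symm
    exact ⟨Y, hY, hfullZ k Y Q (hYk.trans (hZk k)) hY hk.symm⟩
  refine ⟨fun Q hQ1 hQ2 => ?_, ?_⟩
  · obtain ⟨Y, hY, -⟩ := hocc Q hQ1 hQ2
    exact ⟨Y, hY⟩
  · intro z Q hz ρ hρ
    obtain ⟨Y, hY, hYf⟩ := hocc Q hz.1 hz.2.1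
    obtain ⟨t0, ht0⟩ := exists_sort c z.k
    obtain ⟨τ, hτ1, hτ2⟩ := hz.2.2 t0 ht0
    obtain ⟨t1, ht1, hw1⟩ := hYf τ hτ1
    have hov : Y.ov z := ⟨t1, t0, ht1, ht0, Subtype.ext (hw1.trans hτ2.symm)⟩
    obtain ⟨t2, ht2, hw2⟩ := hYf ρ hρ
    obtain ⟨t3, ht3, he3⟩ := JE.ov_range hN hov t2 ht2
    exact ⟨t3, ht3, by rw [← he3]; exact hw2⟩

/-- cells at the same position overlap -/
theorem ov_same {z z' : JE c D E (AC c D E bd) e} {P : bd.I × ℕ} (hz : CellC e i0 z P)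
    (hz' : CellC e i0 z' P) : z.ov z' := by
  obtain ⟨t0, ht0⟩ := exists_sort c z.k
  obtain ⟨τ, hτ1, hτ2⟩ := hz.2.2 t0 ht0
  obtain ⟨t1, ht1, hw1⟩ := (full h hS hSn hN hR).2 z' P hz' τ hτ1
  exact ⟨t0, t1, ht0, ht1, Subtype.ext (hτ2.trans hw1.symm)⟩

omit h hS hSn hN hR in
theorem pos_of_ov {z z' : JE c D E (AC c D E bd) e} {P Q : bd.I × ℕ} (hz : CellC e i0 z P)
    (hz' : CellC e i0 z' Q) (ho : z.ov z') : P = Q := by
  obtain ⟨t, t', ht, ht', he⟩ := ho
  obtain ⟨τ, -, h1⟩ := hz.2.2 t ht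
  obtain ⟨τ', -, h2⟩ := hz'.2.2 t' ht'
  rw [he, h2] at h1
  simp only [Sum.inr.injEq, Prod.mk.injEq] at h1
  have := (f_inj bd).1 h1.1
  exact Prod.ext this.1.symm this.2.symm

theorem k_iff_col {z z' : JE c D E (AC c D E bd) e} {P Q : bd.I × ℕ} (hz : CellC e i0 z P)
    (hz' : CellC e i0 z' Q) (hcol : c.col Q.2 = c.col P.2) : z.k = z'.k := by
  obtain ⟨z'', hk, hc, -⟩ := shift h z hz Q hz'.1 hz'.2.1 hcol
  rw [← hk]
  exact JE.ov_k hN (ov_same h hS hSn hN hR hc hz')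

theorem col_of_k {z z' : JE c D E (AC c D E bd) e} {P Q : bd.I × ℕ} (hz : CellC e i0 z P)
    (hz' : CellC e i0 z' Q) (hk : z.k = z'.k) : c.col Q.2 = c.col P.2 := by
  classical
  -- the map from colours to sorts is injective hence surjective
  by_contra hne
  have hab : c.ka ≠ c.kb := by
    intro hab
    apply hne
    rcases c.hK (c.col Q.2) with h1 | h1 <;> rcases c.hK (c.col P.2) with h2 | h2 <;> rw [h1, h2]
    · exact hab
    · exact hab.symm
  -- take a member of the other sort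
  obtain ⟨k', hk'⟩ : ∃ k', k' ≠ z.k := by
    rcases c.hK z.k with h1 | h1
    · exact ⟨c.kb, by rw [h1]; exact hab.symm⟩
    · exact ⟨c.ka, by rw [h1]; exact hab⟩
  obtain ⟨y, R, hyk, hy⟩ := exK h hS hSn hN hR k'
  have hcase : c.col R.2 = c.col P.2 ∨ c.col R.2 = c.col Q.2 := by
    rcases c.hK (c.col Q.2) with h1 | h1 <;> rcases c.hK (c.col P.2) with h2 | h2 <;>
      rcases c.hK (c.col R.2) with h3 | h3 <;> simp_all
  rcases hcase with h1 | h1
  · exact hk' (by rw [k_iff_col h hS hSn hN hR hz hy h1, hyk])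
  · exact hk' (by rw [hk, k_iff_col h hS hSn hN hR hz' hy h1, hyk])

/-- transfer of order between pairs of cells -/
theorem transfer {z z' y y' : JE c D E (AC c D E bd) e} {P Q P' Q' : bd.I × ℕ}
    (hz : CellC e i0 z P) (hz' : CellC e i0 z' Q) (hy : CellC e i0 y P') (hy' : CellC e i0 y' Q')
    (hk : y.k = z.k) (hk' : y'.k = z'.k) (hr : c.rel z.k z'.k)
    (hcmp : (posn c bd P.1 P.2 < posn c bd Q.1 Q.2 ∧ posn c bd P'.1 P'.2 < posn c bd Q'.1 Q'.2) ∨
      (posn c bd Q.1 Q.2 < posn c bd P.1 P.2 ∧ posn c bd Q'.1 Q'.2 < posn c bd P'.1 P'.2))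
    (hlt : z.lt z') : y.lt y' := by
  have h1 := JE.l0_of_lt hN hr hlt
  obtain ⟨s, hsk, hsc, hsm⟩ := shift h z hz P' hy.1 hy.2.1 (col_of_k h hS hSn hN hR hz hy hk.symm)
  obtain ⟨s', hsk', hsc', hsm'⟩ := shift h z' hz' Q' hy'.1 hy'.2.1
    (col_of_k h hS hSn hN hR hz' hy' hk'.symm)
  have h2 : s.l0 s' := by
    refine l0_move h hsk hsk' hsm hsm' ?_ h1
    intro x y x' y' hx hx'
    simp only [Option.some.injEq, Prod.mk.injEq] at hx hx'
    obtain ⟨rfl, rfl⟩ := hx
    obtain ⟨rfl, rfl⟩ := hx'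
    rcases hcmp with ⟨h3, h4⟩ | ⟨h3, h4⟩
    · exact ⟨fun _ => h4, fun hh => absurd hh (not_lt.2 h3.le), fun hh => absurd hh h3.ne⟩
    · exact ⟨fun hh => absurd hh (not_lt.2 h3.le), fun _ => h4, fun hh => absurd hh h3.ne'⟩
  have h3 := ov_same h hS hSn hN hR hsc hy
  have h4 := ov_same h hS hSn hN hR hsc' hy'
  exact JE.lt_of_ov_lt hN (JE.ov_symm h3) (JE.lt_of_lt_ov hN (JE.lt_of_l0 h2) h4)

/-- monotonicity for comparable pairs, up to a global sign -/
theorem mono_rel :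
    (∀ (y y' : JE c D E (AC c D E bd) e) (P Q : bd.I × ℕ), CellC e i0 y P → CellC e i0 y' Q →
      c.rel y.k y'.k → posn c bd P.1 P.2 < posn c bd Q.1 Q.2 → y.lt y') ∨
    (∀ (y y' : JE c D E (AC c D E bd) e) (P Q : bd.I × ℕ), CellC e i0 y P → CellC e i0 y' Q →
      c.rel y.k y'.k → posn c bd P.1 P.2 < posn c bd Q.1 Q.2 → y'.lt y) := by
  have hne12 : posn c bd P1.1 P1.2 ≠ posn c bd P2.1 P2.2 := by
    intro hh
    have := (posn_inj c bd).1 hh
    have h3 : P1 = P2 := Prod.ext this.1 this.2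
    have h4 := hR.c2
    rw [← h3] at h4
    exact JE.not_lt_of_ov hN (ov_same h hS hSn hN hR hR.c1 h4) hR.lt
  by_cases hab : c.ka = c.kb
  · have hall : ∀ k k' : c.K, k = k' := by
      intro k k'
      rcases c.hK k with h1 | h1 <;> rcases c.hK k' with h2 | h2 <;> rw [h1, h2]
      · exact hab
      · exact hab.symm
    rcases lt_or_gt_of_ne hne12 with h12 | h12
    · left
      intro y y' P Q hy hy' _ hlt
      exact transfer h hS hSn hN hR hR.c1 hR.c2 hy hy' (hall _ _) (hall _ _)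
        ((rel_iff _ _).2 (Or.inl hab)) (Or.inl ⟨h12, hlt⟩) hR.lt
    · right
      intro y y' P Q hy hy' _ hlt
      exact transfer h hS hSn hN hR hR.c1 hR.c2 hy' hy (hall _ _) (hall _ _)
        ((rel_iff _ _).2 (Or.inl hab)) (Or.inr ⟨h12, hlt⟩) hR.lt
  · have hnr : ¬ c.rel z1.k z1.k := by
      rw [rel_iff]; push Not; exact ⟨hab, rfl⟩
    have hnr2 : ¬ c.rel z1.k z2.k := by rw [hR.hk]; exact hnr
    rcases hR.lt with hl | ⟨kv, vw, hv, hl1, hl2⟩
    · exact absurd hl.1 hnr2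
    · let v : JE c D E (AC c D E bd) e := ⟨kv, vw, hv⟩
      have g1 : z1.lt v := Or.inl hl1
      have g2 : v.lt z2 := Or.inl hl2
      have r1 : c.rel z1.k v.k := hl1.1
      have r2 : c.rel v.k z2.k := hl2.1
      obtain ⟨Pv, hPv⟩ := regR h hS hSn hN hR g1 g2
      have hkv : v.k ≠ z1.k := fun hh => hnr (by rw [hh] at r1; exact r1)
      have two : ∀ k, k = z1.k ∨ k = v.k := by
        intro k
        rcases c.hK k with h1 | h1 <;> rcases c.hK z1.k with h2 | h2 <;>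
          rcases c.hK v.k with h3 | h3 <;> simp_all
      have hne1 : posn c bd P1.1 P1.2 ≠ posn c bd Pv.1 Pv.2 := by
        intro hh
        have := (posn_inj c bd).1 hh
        have h3 : P1 = Pv := Prod.ext this.1 this.2
        have h4 := hPv
        rw [← h3] at h4
        exact JE.not_lt_of_ov hN (ov_same h hS hSn hN hR hR.c1 h4) g1
      have hne2 : posn c bd Pv.1 Pv.2 ≠ posn c bd P2.1 P2.2 := by
        intro hh
        have := (posn_inj c bd).1 hh
        have h3 : Pv = P2 := Prod.ext this.1 this.2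
        have h4 := hR.c2
        rw [← h3] at h4
        exact JE.not_lt_of_ov hN (ov_same h hS hSn hN hR hPv h4) g2
      rcases lt_or_gt_of_ne hne1 with h1v | h1v <;> rcases lt_or_gt_of_ne hne2 with hv2 | hv2
      · left
        intro y y' P Q hy hy' hr hlt
        rcases two y.k with hk | hk <;> rcases two y'.k with hk' | hk'
        · rw [hk, hk'] at hr; exact absurd hr hnr
        · exact transfer h hS hSn hN hR hR.c1 hPv hy hy' hk hk' r1 (Or.inl ⟨h1v, hlt⟩) g1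
        · exact transfer h hS hSn hN hR hPv hR.c2 hy hy' hk (hk'.trans hR.hk.symm) r2
            (Or.inl ⟨hv2, hlt⟩) g2
        · exfalso
          rw [hk, hk', rel_iff] at hr
          rcases hr with hr | hr
          · exact hab hr
          · exact hr rfl
      · exfalso
        have := transfer h hS hSn hN hR hR.c1 hPv hR.c2 hPv hR.hk rfl r1
          (Or.inl ⟨h1v, hv2⟩) g1
        exact JE.lt_asymm hN this g2
      · exfalso
        have := transfer h hS hSn hN hR hR.c1 hPv hR.c2 hPv hR.hk rfl r1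
          (Or.inr ⟨h1v, hv2⟩) g1
        exact JE.lt_asymm hN this g2
      · right
        intro y y' P Q hy hy' hr hlt
        rcases two y.k with hk | hk <;> rcases two y'.k with hk' | hk'
        · rw [hk, hk'] at hr; exact absurd hr hnr
        · exact transfer h hS hSn hN hR hPv hR.c2 hy' hy hk' (hk.trans hR.hk.symm) r2
            (Or.inr ⟨hv2, hlt⟩) g2
        · exact transfer h hS hSn hN hR hR.c1 hPv hy' hy hk' hk r1 (Or.inr ⟨h1v, hlt⟩) g1
        · exfalso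
          rw [hk, hk', rel_iff] at hr
          rcases hr with hr | hr
          · exact hab hr
          · exact hr rfl

/-- monotonicity, up to a global sign -/
theorem mono :
    (∀ (y y' : JE c D E (AC c D E bd) e) (P Q : bd.I × ℕ), CellC e i0 y P → CellC e i0 y' Q →
      posn c bd P.1 P.2 < posn c bd Q.1 Q.2 → y.lt y') ∨
    (∀ (y y' : JE c D E (AC c D E bd) e) (P Q : bd.I × ℕ), CellC e i0 y P → CellC e i0 y' Q →
      posn c bd P.1 P.2 < posn c bd Q.1 Q.2 → y'.lt y) := by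
  have mid : ∀ (y y' : JE c D E (AC c D E bd) e) (P Q : bd.I × ℕ), CellC e i0 y P →
      CellC e i0 y' Q → ¬ c.rel y.k y'.k → posn c bd P.1 P.2 < posn c bd Q.1 Q.2 →
      ∃ (x : JE c D E (AC c D E bd) e) (R : bd.I × ℕ), CellC e i0 x R ∧ c.rel y.k x.k ∧
        c.rel x.k y'.k ∧ posn c bd P.1 P.2 < posn c bd R.1 R.2 ∧
        posn c bd R.1 R.2 < posn c bd Q.1 Q.2 := by
    intro y y' P Q hy hy' hr hlt
    rw [rel_iff] at hr
    push Not at hr
    obtain ⟨hab, hkk⟩ := hr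
    have hcol : c.col Q.2 = c.col P.2 := col_of_k h hS hSn hN hR hy hy' hkk
    have hnr : ¬ c.rel (kc (posn c bd P.1 P.2)) (kc (posn c bd Q.1 Q.2)) := by
      rw [rel_iff]; push Not; exact ⟨hab, hcol.symm⟩
    obtain ⟨p, ⟨r, s, hs, rfl⟩, h1, h2, h3, h4⟩ := altern c bd ⟨P.1, P.2, hy.2.1, rfl⟩
      ⟨Q.1, Q.2, hy'.2.1, rfl⟩ hlt hnr
    have hr : r ∈ CC e i0 := by
      apply CC_convex hy.1 hy'.1
      · rcases (posn_lt c bd).1 h1 with h5 | ⟨h5, -⟩
        · exact h5.le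
        · exact h5.le
      · rcases (posn_lt c bd).1 h2 with h5 | ⟨h5, -⟩
        · exact h5.le
        · exact h5.le
    obtain ⟨x, hx⟩ := (full h hS hSn hN hR).1 (r, s) hr hs
    refine ⟨x, (r, s), hx, ?_, ?_, h1, h2⟩
    · rw [rel_iff]; right
      intro hk
      have h5 : c.col s = c.col P.2 := col_of_k h hS hSn hN hR hy hx hk
      change c.rel (c.col P.2) (c.col s) at h3
      rw [h5, rel_iff] at h3
      rcases h3 with h6 | h6
      · exact hab h6
      · exact h6 rfl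
    · rw [rel_iff]; right
      intro hk
      have h5 : c.col Q.2 = c.col s := col_of_k h hS hSn hN hR hx hy' hk
      change c.rel (c.col s) (c.col Q.2) at h4
      rw [h5, rel_iff] at h4
      rcases h4 with h6 | h6
      · exact hab h6
      · exact h6 rfl
  rcases mono_rel h hS hSn hN hR with hm | hm
  · left
    intro y y' P Q hy hy' hlt
    by_cases hr : c.rel y.k y'.k
    · exact hm y y' P Q hy hy' hr hlt
    · obtain ⟨x, R, hx, hr1, hr2, h1, h2⟩ := mid y y' P Q hy hy' hr hlt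
      exact JE.lt_trans hN (hm _ _ _ _ hy hx hr1 h1) (hm _ _ _ _ hx hy' hr2 h2)
  · right
    intro y y' P Q hy hy' hlt
    by_cases hr : c.rel y.k y'.k
    · exact hm y y' P Q hy hy' hr hlt
    · obtain ⟨x, R, hx, hr1, hr2, h1, h2⟩ := mid y y' P Q hy hy' hr hlt
      exact JE.lt_trans hN (hm _ _ _ _ hx hy' hr2 h2) (hm _ _ _ _ hy hx hr1 h1)

omit h hS hSn hN hR in
/-- betweenness of positions -/
def Btw (c : Cfg B) (bd : BD S) (P Q R : bd.I × ℕ) : Prop :=
  (posn c bd P.1 P.2 < posn c bd Q.1 Q.2 ∧ posn c bd Q.1 Q.2 < posn c bd R.1 R.2) ∨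
  (posn c bd R.1 R.2 < posn c bd Q.1 Q.2 ∧ posn c bd Q.1 Q.2 < posn c bd P.1 P.2)

theorem bt {x y z : JE c D E (AC c D E bd) e} {P Q R : bd.I × ℕ} (hx : CellC e i0 x P)
    (hy : CellC e i0 y Q) (hz : CellC e i0 z R) (h1 : x.lt y) (h2 : y.lt z) : Btw c bd P Q R := by
  have key : ∀ (x y : JE c D E (AC c D E bd) e) (P Q : bd.I × ℕ), CellC e i0 x P →
      CellC e i0 y Q → x.lt y → posn c bd P.1 P.2 ≠ posn c bd Q.1 Q.2 := by
    intro x y P Q hx hy hlt hh
    have := (posn_inj c bd).1 hh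
    have h3 : P = Q := Prod.ext this.1 this.2
    rw [← h3] at hy
    exact JE.not_lt_of_ov hN (ov_same h hS hSn hN hR hx hy) hlt
  rcases mono h hS hSn hN hR with hm | hm
  · left
    constructor
    · rcases lt_or_gt_of_ne (key _ _ _ _ hx hy h1) with h3 | h3
      · exact h3
      · exact absurd (hm _ _ _ _ hy hx h3) (JE.lt_asymm hN h1)
    · rcases lt_or_gt_of_ne (key _ _ _ _ hy hz h2) with h3 | h3
      · exact h3
      · exact absurd (hm _ _ _ _ hz hy h3) (JE.lt_asymm hN h2)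
  · right
    constructor
    · rcases lt_or_gt_of_ne (key _ _ _ _ hy hz h2) with h3 | h3
      · exact absurd (hm _ _ _ _ hy hz h3) (JE.lt_asymm hN h2)
      · exact h3
    · rcases lt_or_gt_of_ne (key _ _ _ _ hx hy h1) with h3 | h3
      · exact absurd (hm _ _ _ _ hx hy h3) (JE.lt_asymm hN h1)
      · exact h3

theorem bt' {x y z : JE c D E (AC c D E bd) e} {P Q R : bd.I × ℕ} (hx : CellC e i0 x P)
    (hy : CellC e i0 y Q) (hz : CellC e i0 z R) (h1 : x.lt z) (h2 : Btw c bd P Q R) :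
    x.lt y ∧ y.lt z := by
  rcases mono h hS hSn hN hR with hm | hm
  · rcases h2 with ⟨h3, h4⟩ | ⟨h3, h4⟩
    · exact ⟨hm _ _ _ _ hx hy h3, hm _ _ _ _ hy hz h4⟩
    · exact absurd (hm _ _ _ _ hz hx (h3.trans h4)) (JE.lt_asymm hN h1)
  · rcases h2 with ⟨h3, h4⟩ | ⟨h3, h4⟩
    · exact absurd (hm _ _ _ _ hx hz (h3.trans h4)) (JE.lt_asymm hN h1)
    · exact ⟨hm _ _ _ _ hy hx h4, hm _ _ _ _ hz hy h3⟩

omit h hS hSn hN hR in
/-- nothing lies between consecutive positions of a block -/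
theorem not_btw {i : bd.I} {a a' : ℕ} (ha : a + 1 = a' ∨ a' + 1 = a) (Q : bd.I × ℕ) :
    ¬ Btw c bd (i, a) Q (i, a') := by
  rintro (⟨h1, h2⟩ | ⟨h1, h2⟩)
  · rw [posn_lt] at h1 h2
    rcases h1 with h1 | ⟨h1, h1'⟩ <;> rcases h2 with h2 | ⟨h2, h2'⟩
    · exact absurd (h1.trans h2) (lt_irrefl _)
    · simp only at h1 h2; exact absurd h2 h1.ne'
    · simp only at h1 h2; exact absurd h1 h2.ne'
    · simp only at h1' h2'; omega
  · rw [posn_lt] at h1 h2
    rcases h1 with h1 | ⟨h1, h1'⟩ <;> rcases h2 with h2 | ⟨h2, h2'⟩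
    · exact absurd (h1.trans h2) (lt_irrefl _)
    · simp only at h1 h2; exact absurd h2 h1.ne'
    · simp only at h1 h2; exact absurd h1 h2.ne'
    · simp only at h1' h2'; omega

omit h hS hSn hN hR in
theorem exists_adjacent (m : ℕ) (H : Finset ℕ) (hH : H.Nonempty) (hHm : ∀ a ∈ H, a < m)
    (hne : ∃ a < m, a ∉ H) : ∃ a a', a < m ∧ a ∉ H ∧ a' ∈ H ∧ (a + 1 = a' ∨ a' + 1 = a) := by
  by_contra hcon
  push Not at hcon
  obtain ⟨b, hb⟩ := hH
  obtain ⟨a, ham, haH⟩ := hne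
  -- closure
  have up : ∀ k, b + k < m → b + k ∈ H := by
    intro k
    induction k with
    | zero => intro _; exact hb
    | succ k ih =>
      intro hk
      by_contra hnot
      exact (hcon (b + (k + 1)) (b + k) hk hnot (ih (by omega))).2 (by omega)
  have down : ∀ k, k ≤ b → b - k ∈ H := by
    intro k
    induction k with
    | zero => intro _; exact hb
    | succ k ih =>
      intro hk
      by_contra hnot
      have := hHm b hb
      exact (hcon (b - (k + 1)) (b - k) (by omega) hnot (ih (by omega))).1 (by omega)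
  rcases le_total a b with hab | hab
  · have := down (b - a) (by omega)
    rw [show b - (b - a) = a by omega] at this
    exact haH this
  · have := up (a - b) (by omega)
    rw [show b + (a - b) = a by omega] at this
    exact haH this

/-- A block of members strictly inside the region comes from a block of positions. -/
theorem block_size {n : ℕ} (hn : 1 ≤ n) {x : Fin (2 * n) → JE c D E (AC c D E bd) e}
    (hx : Block n x) (hin : ∀ j, z1.lt (x j) ∧ (x j).lt z2) : n ∈ S := by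
  classical
  have hcell : ∀ j, ∃ P, CellC e i0 (x j) P := fun j =>
    regR h hS hSn hN hR (hin j).1 (hin j).2
  choose P hP using hcell
  -- adjacent members are in the same block
  have hsame : ∀ j j' : Fin (2 * n), j.1 + 1 = j'.1 → (P j).1 = (P j').1 := by
    intro j j' hj
    by_contra hne
    have hadj := hx.adj j j' hj
    rcases lt_or_gt_of_ne hne with hlt | hlt
    · obtain ⟨r, h1, h2, -⟩ := bd.dense _ _ hlt _ hSn.some_mem
      have hr : r ∈ CC e i0 := CC_convex (hP j).1 (hP j').1 h1.le h2.le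
      obtain ⟨Y, hY⟩ := (full h hS hSn hN hR).1 (r, 0) hr (by
        have := hS _ (bd.hν r); simp only; omega)
      have := bt' h hS hSn hN hR (hP j) hY (hP j') hadj.1
        (Or.inl ⟨(posn_lt c bd).2 (Or.inl h1), (posn_lt c bd).2 (Or.inl h2)⟩)
      exact hadj.2 ⟨Y, this⟩
    · obtain ⟨r, h1, h2, -⟩ := bd.dense _ _ hlt _ hSn.some_mem
      have hr : r ∈ CC e i0 := CC_convex (hP j').1 (hP j).1 h1.le h2.le
      obtain ⟨Y, hY⟩ := (full h hS hSn hN hR).1 (r, 0) hr (by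
        have := hS _ (bd.hν r); simp only; omega)
      have := bt' h hS hSn hN hR (hP j) hY (hP j') hadj.1
        (Or.inr ⟨(posn_lt c bd).2 (Or.inl h1), (posn_lt c bd).2 (Or.inl h2)⟩)
      exact hadj.2 ⟨Y, this⟩
  let j0 : Fin (2 * n) := ⟨0, by omega⟩
  let b := (P j0).1
  have hblk : ∀ j, (P j).1 = b := by
    have : ∀ m (hm : m < 2 * n), (P ⟨m, hm⟩).1 = b := by
      intro m
      induction m with
      | zero => intro hm; rfl
      | succ m ih =>
        intro hm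
        rw [← ih (by omega)]
        exact (hsame ⟨m, by omega⟩ ⟨m + 1, hm⟩ rfl).symm
    exact fun j => this j.1 j.2
  have hPeq : ∀ j, P j = (b, (P j).2) := fun j => Prod.ext (hblk j) rfl
  have hbC : b ∈ CC e i0 := (hP j0).1
  have hlt : ∀ j j' : Fin (2 * n), j < j' → (x j).lt (x j') := by
    intro j j' hjj
    have : ∀ k (hk : j.1 + k + 1 < 2 * n), (x j).lt (x ⟨j.1 + k + 1, hk⟩) := by
      intro k
      induction k with
      | zero => intro hk; exact (hx.adj j ⟨j.1 + 0 + 1, hk⟩ rfl).1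
      | succ k ih =>
        intro hk
        exact JE.lt_trans hN (ih (by omega))
          (hx.adj ⟨j.1 + k + 1, by omega⟩ ⟨j.1 + (k + 1) + 1, hk⟩ (by simp only; omega)).1
    have h1 := this (j'.1 - j.1 - 1) (by have := j'.2; have : j.1 < j'.1 := hjj; omega)
    have h2 : (⟨j.1 + (j'.1 - j.1 - 1) + 1, by have := j'.2; have : j.1 < j'.1 := hjj; omega⟩ :
        Fin (2 * n)) = j' := Fin.ext (by have : j.1 < j'.1 := hjj; simp only; omega)
    rwa [h2] at h1
  have hinj : Injective fun j => (P j).2 := by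
    intro j j' hjj
    simp only at hjj
    have hPP : P j = P j' := by rw [hPeq j, hPeq j', hjj]
    by_contra hne
    have hov : (x j).ov (x j') := ov_same h hS hSn hN hR (hP j) (hPP ▸ hP j')
    rcases lt_or_gt_of_ne hne with h1 | h1
    · exact JE.not_lt_of_ov hN hov (hlt _ _ h1)
    · exact JE.not_lt_of_ov hN (JE.ov_symm hov) (hlt _ _ h1)
  let H : Finset ℕ := Finset.univ.image fun j => (P j).2
  have hHcard : H.card = 2 * n := by
    rw [Finset.card_image_of_injective _ hinj]; simp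
  have hHlt : ∀ a ∈ H, a < 2 * bd.ν b := by
    intro a ha
    obtain ⟨j, -, rfl⟩ := Finset.mem_image.1 ha
    have := (hP j).2.1
    rwa [hblk j] at this
  have hHall : ∀ a < 2 * bd.ν b, a ∈ H := by
    by_contra hcon
    push Not at hcon
    obtain ⟨a, a', ham, haH, ha'H, haa⟩ := exists_adjacent (2 * bd.ν b) H
      ⟨_, Finset.mem_image_of_mem _ (Finset.mem_univ j0)⟩ hHlt hcon
    obtain ⟨j, -, hj⟩ := Finset.mem_image.1 ha'H
    obtain ⟨Y, hY⟩ := (full h hS hSn hN hR).1 (b, a) hbC ham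
    have hPj : P j = (b, a') := by rw [hPeq j, hj]
    have hcj : CellC e i0 (x j) (b, a') := hPj ▸ hP j
    have hnotov : ∀ j', ¬ Y.ov (x j') := by
      intro j' hov
      have h1 := pos_of_ov hY (hP j') hov
      apply haH
      rw [Finset.mem_image]
      exact ⟨j', Finset.mem_univ _, (congrArg Prod.snd h1).symm⟩
    rcases JE.tri hN Y (x j) with h1 | h1 | h1
    · exact hnotov j h1
    · -- Y below x j
      by_cases hj0 : j.1 = 0
      · apply hx.first j hj0 Y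
        refine ⟨h1, fun ⟨y, h2, h3⟩ => ?_⟩
        have h4 : z1.lt y := by
          rcases JE.tri hN z1 Y with h5 | h5 | h5
          · exact JE.lt_of_ov_lt hN h5 h2
          · exact JE.lt_trans hN h5 h2
          · exfalso
            exact not_btw haa P1 (bt h hS hSn hN hR hY hR.c1 hcj h5 (hin j).1)
        obtain ⟨Py, hPy⟩ := regR h hS hSn hN hR h4 (JE.lt_trans hN h3 (hin j).2)
        exact not_btw haa Py (bt h hS hSn hN hR hY hPy hcj h2 h3)
      · let j' : Fin (2 * n) := ⟨j.1 - 1, by have := j.2; omega⟩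
        have hjj : j'.1 + 1 = j.1 := by simp only [j']; omega
        have hadj := hx.adj j' j hjj
        rcases JE.tri hN Y (x j') with h2 | h2 | h2
        · exact hnotov j' h2
        · exact not_btw haa (P j') (bt h hS hSn hN hR hY (hP j') hcj h2 hadj.1)
        · exact hadj.2 ⟨Y, h2, h1⟩
    · by_cases hj0 : j.1 + 1 = 2 * n
      · apply hx.last j hj0 Y
        refine ⟨h1, fun ⟨y, h2, h3⟩ => ?_⟩
        have h4 : y.lt z2 := by
          rcases JE.tri hN Y z2 with h5 | h5 | h5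
          · exact JE.lt_of_lt_ov hN h3 h5
          · exact JE.lt_trans hN h3 h5
          · exfalso
            exact not_btw haa.symm P2 (bt h hS hSn hN hR hcj hR.c2 hY (hin j).2 h5)
        obtain ⟨Py, hPy⟩ := regR h hS hSn hN hR (JE.lt_trans hN (hin j).1 h2) h4
        exact not_btw haa.symm Py (bt h hS hSn hN hR hcj hPy hY h2 h3)
      · let j' : Fin (2 * n) := ⟨j.1 + 1, by have := j.2; omega⟩
        have hadj := hx.adj j j' rfl
        rcases JE.tri hN Y (x j') with h2 | h2 | h2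
        · exact hnotov j' h2
        · exact hadj.2 ⟨Y, h1, h2⟩
        · exact not_btw haa.symm (P j') (bt h hS hSn hN hR hcj (hP j') hY hadj.1 h2)
  have hHeq : H = Finset.range (2 * bd.ν b) := by
    ext a
    rw [Finset.mem_range]
    exact ⟨hHlt a, hHall a⟩
  rw [hHeq, Finset.card_range] at hHcard
  have : n = bd.ν b := by omega
  rw [this]
  exact bd.hν b

end reg

end

end Run7.h46
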