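import Pool.Agent.Run7.h46.Back2

namespace Run7.h46

open Filter Function FirstOrder FirstOrder.Language

section

variable {L : FirstOrder.Language.{0, 0}} {B : Str L ℕ} {c : Cfg B} {D : Str L (Un ℕ c.T)}
  {E : Set (Un ℕ c.T)} {S : Set ℕ} {bd : BD S} {e : E → NC c E bd}

/-- elements at far positions or in blocks touched by the parameters -/
def X0 (e : E → NC c E bd) : Set (NC c E bd) :=
  {u | (∃ q t, u.1 = Sum.inr (q, t) ∧ (q ≤ -2 ∨ 2 ≤ q)) ∨
    ∃ i ∈ Bk e, ∃ j < 2 * bd.ν i, ∃ t, u.1 = Sum.inr (bd.f i j, t)}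

theorem X0_finite (h : HE c D E) : (X0 e).Finite := by
  have h1 : (X0 e) ⊆ Subtype.val ⁻¹' E ∪ Subtype.val ⁻¹'
      ((fun p : (Σ i : bd.I, ℕ) × c.T => (Sum.inr (bd.f p.1.1 p.1.2, p.2) : Un ℕ c.T)) ''
        (((Bk e).sigma fun i => Set.Iio (2 * bd.ν i)) ×ˢ Set.univ)) := by
    rintro ⟨u, hu⟩ (⟨q, t, rfl, hq⟩ | ⟨i, hi, j, hj, t, rfl⟩)
    · left
      rcases hu with ⟨m, hm⟩ | hE | ⟨q2, t2, h2, hp⟩
      · simp at hm
      · exact hE
      · exfalso
        simp only [Sum.inr.injEq, Prod.mk.injEq] at h2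
        have := CP_bd c bd hp
        rw [← h2.1] at this
        simp only [rc, mkp] at this
        obtain ⟨h3, h4⟩ := this
        rcases hq with hq | hq
        · exact absurd (h3.trans_le (by simpa using hq)) (by norm_num)
        · exact absurd (lt_of_le_of_lt (by simpa using hq) h4) (by norm_num)
    · right
      refine ⟨(⟨i, j⟩, t), ⟨⟨hi, hj⟩, trivial⟩, rfl⟩
  refine Set.Finite.subset (Set.Finite.union ?_ ?_) h1
  · exact h.fin.preimage Subtype.val_injective.injOn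
  · apply Set.Finite.preimage Subtype.val_injective.injOn
    apply Set.Finite.image
    apply Set.Finite.prod _ Set.finite_univ
    have hB := Bk_finite h e
    have : Finite (Bk e) := hB
    apply Set.Finite.subset (s := ⋃ i ∈ Bk e, (fun j => (⟨i, j⟩ : Σ _ : bd.I, ℕ)) ''
      Set.Iio (2 * bd.ν i))
    · exact hB.biUnion fun i _ => (Set.finite_Iio _).image _
    · rintro ⟨i, j⟩ ⟨hi, hj⟩
      exact Set.mem_biUnion hi ⟨j, hj, rfl⟩

/-- M-type members -/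
def MT (z : JE c D E (AC c D E bd) e) : Prop :=
  ∀ t, c.srt t = z.k → ∃ m, (z.w t).1 = Sum.inl m

/-- C-type members -/
def CT (z : JE c D E (AC c D E bd) e) (P : bd.I × ℕ) : Prop :=
  P.1 ∉ Bk e ∧ P.2 < 2 * bd.ν P.1 ∧ Cell z.k z.w P.1 P.2

section

variable (h : HE c D E) (hS : ∀ n ∈ S, 1 ≤ n) (hSn : S.Nonempty)
  {n : ℕ} (hT : ThetaH (c := c) (D := D) (E := E) (A := AC c D E bd) (e := e) n)
include h hS hSn hT

theorem type_cases (z : JE c D E (AC c D E bd) e) (hz : ¬ z.meets (X0 e)) :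
    MT z ∨ ∃ P, CT z P := by
  by_cases hM : MT z
  · exact Or.inl hM
  · right
    unfold MT at hM
    push Not at hM
    obtain ⟨t, ht, hm⟩ := hM
    rcases NC_cases h (z.w t).2 with ⟨m, hm'⟩ | ⟨q, τ, hw, hq⟩ | ⟨i, j, τ, hj, hw, hτ⟩
    · exact absurd hm' (hm m)
    · exact absurd ⟨t, ht, Or.inl ⟨q, τ, hw, hq⟩⟩ hz
    · have hi : i ∉ Bk e := fun hi => hz ⟨t, ht, Or.inr ⟨i, hi, j, hj, τ, hw⟩⟩
      exact ⟨(i, j), hi, hj, single_pos h hS hSn hT.nice z t ht i j hj τ hτ hw hi⟩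

omit h hS hSn hT in
theorem IsStart.no_pred {N : Type} {A : Str L N} {e : E → N} {z : JE c D E A e}
    (hz : IsStart n z) : ∀ y : JE c D E A e, ¬ y.adj z := by
  obtain ⟨x, hx, j, hj, rfl⟩ := hz.block
  exact hx.first j hj

theorem caseC (hn : 1 ≤ n) {x0 y0 : JE c D E (AC c D E bd) e} (hx0 : IsStart n x0)
    (hy0 : IsStart n y0) (hxy : x0.lt y0)
    (hav : ∀ z : JE c D E (AC c D E bd) e, z.meets (X0 e) → z.lt x0 ∨ y0.lt z)
    (hC : ∀ x y : JE c D E (AC c D E bd) e, IsStart n x → IsStart n y → x.lt y → x0.lt x →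
      y.lt y0 → ∃ z : JE c D E (AC c D E bd) e, ¬ z.lt x ∧ ¬ y.lt z ∧ ∃ P, CT z P) : n ∈ S := by
  classical
  have hN := hT.nice
  obtain ⟨d, hd, hd1, hd2, hd3⟩ := exists_seq hT x0 y0 hx0 hy0 hxy
  have hsel : ∀ k, ∃ z : JE c D E (AC c D E bd) e, ¬ z.lt (d (4 * k)) ∧ ¬ (d (4 * k + 1)).lt z ∧
      ∃ P, CT z P := fun k => hC _ _ (hd _) (hd _) (hd3 _ _ (by omega)) (hd1 _) (hd2 _)
  choose z hz1 hz2 P hP using hsel
  have hτ : ∀ k, ∃ τ : c.T → c.T, ∀ t, c.srt t = (z k).k → c.srt (τ t) = c.col (P k).2 ∧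
      ((z k).w t).1 = Sum.inr (bd.f (P k).1 (P k).2, τ t) := by
    intro k
    have := (hP k).2.2
    choose! τ h1 h2 using this
    exact ⟨τ, fun t ht => ⟨h1 t ht, h2 t ht⟩⟩
  choose τ hτ using hτ
  have : Finite (Bk e) := Bk_finite h e
  let Φ : ℕ → c.K × (c.T → c.T) × c.K × Set (Bk e) := fun k =>
    ((z k).k, τ k, c.col (P k).2, {b | b.1 < (P k).1})
  obtain ⟨k1, k2, hk12, hΦ⟩ : ∃ k1 k2, k1 < k2 ∧ Φ k1 = Φ k2 := by
    obtain ⟨k1, k2, hne, hΦ⟩ := Finite.exists_ne_map_eq_of_infinite Φ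
    rcases lt_or_gt_of_ne hne with h1 | h1
    · exact ⟨k1, k2, h1, hΦ⟩
    · exact ⟨k2, k1, h1, hΦ.symm⟩
  simp only [Φ, Prod.mk.injEq] at hΦ
  obtain ⟨hk, hττ, hcol, hcut⟩ := hΦ
  -- order facts
  have hle1 : ∀ s : JE c D E (AC c D E bd) e, (d (4 * k1 + 1)).lt s → (z k1).lt s := by
    intro s hs
    rcases JE.tri hN (z k1) (d (4 * k1 + 1)) with h1 | h1 | h1
    · exact JE.lt_of_ov_lt hN h1 hs
    · exact JE.lt_trans hN h1 hs
    · exact absurd h1 (hz2 k1)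
  have hle2 : ∀ s : JE c D E (AC c D E bd) e, s.lt (d (4 * k2)) → s.lt (z k2) := by
    intro s hs
    rcases JE.tri hN (z k2) (d (4 * k2)) with h1 | h1 | h1
    · exact JE.lt_of_lt_ov hN hs (JE.ov_symm h1)
    · exact absurd h1 (hz1 k2)
    · exact JE.lt_trans hN hs h1
  have hR : Reg e (P k1).1 (z k1) (z k2) (P k1) (P k2) := by
    refine ⟨hk.symm, ⟨⟨(hP k1).1, fun b _ => Iff.rfl⟩, (hP k1).2⟩,
      ⟨⟨(hP k2).1, fun b hb => ?_⟩, (hP k2).2⟩, ?_, ?_, ?_⟩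
    · have := Set.ext_iff.1 hcut ⟨b, hb⟩
      exact this.symm
    · refine ⟨⟨(hP k1).1, fun b _ => Iff.rfl⟩, ⟨(hP k2).1, fun b hb => ?_⟩, ?_⟩
      · have := Set.ext_iff.1 hcut ⟨b, hb⟩
        exact this.symm
      · rintro ⟨t, ht⟩
        obtain ⟨h1, h2⟩ := hτ k1 t ht
        obtain ⟨h3, h4⟩ := hτ k2 t (ht.trans hk)
        refine ⟨τ k1 t, h1, h1.trans hcol, h2, ?_⟩
        rw [hττ]
        exact h4
    · exact hle1 _ (hle2 _ (hd3 _ _ (by omega)))
    · intro s hs1 hs2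
      have hsm : ¬ s.meets (X0 e) := by
        intro hm
        rcases hav s hm with h1 | h1
        · -- x0 < z k1 < s
          have h2 : x0.lt (z k1) := by
            rcases JE.tri hN (z k1) (d (4 * k1)) with h3 | h3 | h3
            · exact JE.lt_of_lt_ov hN (hd1 _) (JE.ov_symm h3)
            · exact absurd h3 (hz1 k1)
            · exact JE.lt_trans hN (hd1 _) h3
          exact JE.lt_asymm hN h1 (JE.lt_trans hN h2 hs1)
        · have h2 : (z k2).lt y0 := by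
            rcases JE.tri hN (z k2) (d (4 * k2 + 1)) with h3 | h3 | h3
            · exact JE.lt_of_ov_lt hN h3 (hd2 _)
            · exact JE.lt_trans hN h3 (hd2 _)
            · exact absurd h3 (hz2 k2)
          exact JE.lt_asymm hN h1 (JE.lt_trans hN hs2 h2)
      rcases type_cases h hS hSn hT s hsm with h1 | ⟨Q, hQ1, hQ2, hQ3⟩
      · left
        rintro t ht ⟨i, -, j, t', -, hw⟩
        obtain ⟨m, hm⟩ := h1 t ht
        rw [hm] at hw
        simp at hw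
      · by_cases hQC : Q.1 ∈ CC e (P k1).1
        · exact Or.inr ⟨Q, hQC, hQ2, hQ3⟩
        · left
          rintro t ht ⟨i, hi, j, t', -, hw⟩
          obtain ⟨τ', -, hm⟩ := hQ3 t ht
          rw [hm] at hw
          simp only [Sum.inr.injEq, Prod.mk.injEq] at hw
          have := ((f_inj bd).1 hw.1).1
          exact hQC (this ▸ hi)
  obtain ⟨x, hx, j0, hj0, hxj⟩ := (hd (4 * k1 + 2)).block
  refine block_size h hS hSn hN hR hn hx fun j => ⟨?_, ?_⟩
  · refine block_ge hN hx j0 hj0 ?_ j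
    rw [hxj]
    exact hle1 _ (hd3 _ _ (by omega))
  · have h1 : (x j).lt (d (4 * k1 + 3)) := by
      refine block_lt hN hx (hd (4 * k1 + 3)).no_pred j0 hj0 ?_ j
      rw [hxj]
      exact hd3 _ _ (by omega)
    exact JE.lt_trans hN h1 (hle2 _ (hd3 _ _ (by omega)))

end

end

end Run7.h46
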