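import Pool.Agent.Run7.h46.Back3

namespace Run7.h46

open Filter Function FirstOrder FirstOrder.Language

section

variable {L : FirstOrder.Language.{0, 0}}

theorem SameT.sameQ {T : Type} {D : Str L (Un ℕ T)} {V V' : Type} {u u' : V → ℕ}
    (h : SameT D u u') (x : V' → V ⊕ (ℚ × T)) :
    SameQ D D (Sum.map u id ∘ x) (Sum.map u' id ∘ x) := by
  constructor
  · intro i j
    rcases hi : x i with v | y <;> rcases hj : x j with v' | y' <;> simp [hi, hj]
    exact h.1 v v'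
  · intro R s
    exact h.2 R (x ∘ s)

variable {B : Str L ℕ} {c : Cfg B} {D : Str L (Un ℕ c.T)}
  {E : Set (Un ℕ c.T)}

section rep

variable {N : Type} {A : Str L N} {e : E → N}

/-- representative of the overlap class -/
noncomputable def rp (z : JE c D E A e) : JE c D E A e :=
  @Classical.epsilon _ ⟨z⟩ (fun y => y.ov z)

theorem rp_ov (z : JE c D E A e) : (rp z).ov z :=
  Classical.epsilon_spec (p := fun y : JE c D E A e => y.ov z) ⟨z, z.ov_refl⟩

theorem rp_eq (hN : Nice c D E A e) {z z' : JE c D E A e} (h : z.ov z') : rp z = rp z' := by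
  have : (fun y : JE c D E A e => y.ov z) = (fun y => y.ov z') := by
    funext y
    exact propext ⟨fun h1 => JE.ov_trans hN h1 h, fun h1 => JE.ov_trans hN h1 (JE.ov_symm h)⟩
  unfold rp
  rw [this]

theorem JE.inj (z : JE c D E A e) {t t' : c.T} (ht : c.srt t = z.k) (ht' : c.srt t' = z.k)
    (h : z.w t = z.w t') : t = t' := by
  have hm := z.mem
  have := (hm.1 (Sum.inl ⟨t, ht⟩) (Sum.inl ⟨t', ht'⟩)).1 h
  simpa [rs, cc] using this

theorem JE.ne_par (h : HE c D E) (z : JE c D E A e) {t : c.T} (ht : c.srt t = z.k) (u : E) :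
    z.w t ≠ e u := by
  intro heq
  have hm := z.mem
  have := (hm.1 (Sum.inl ⟨t, ht⟩) (Sum.inr u)).1 heq
  have hu : (Sum.inr (0, t) : Un ℕ c.T) ∈ E := by
    have h2 : (Sum.inr (0, t) : Un ℕ c.T) = u.1 := by simpa [rs, cc] using this
    rw [h2]; exact u.2
  rcases h.far 0 t hu with h3 | h3 <;> norm_num at h3

/-- the element lies in a member -/
def IM (D : Str L (Un ℕ c.T)) (E : Set (Un ℕ c.T)) (A : Str L N) (e : E → N) (v : N) : Prop :=
  ∃ z : JE c D E A e, ∃ t, c.srt t = z.k ∧ z.w t = v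

theorem exists_rep (hN : Nice c D E A e) (h0 : Nonempty (JE c D E A e)) :
    ∃ (Z : N → JE c D E A e) (τ : N → c.T),
    (∀ v, IM D E A e v → c.srt (τ v) = (Z v).k ∧ (Z v).w (τ v) = v) ∧
    (∀ v, IM D E A e v → rp (Z v) = Z v) := by
  have : ∀ v, ∃ (z : JE c D E A e) (t : c.T), (IM D E A e v → c.srt t = z.k ∧ z.w t = v) ∧
      (IM D E A e v → rp z = z) := by
    intro v
    by_cases hv : IM D E A e v
    · obtain ⟨z, t, ht, hw⟩ := hv
      obtain ⟨t', ht', he⟩ := JE.ov_range hN (JE.ov_symm (rp_ov z)) t ht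
      exact ⟨rp z, t', fun _ => ⟨ht', by rw [← he, hw]⟩, fun _ => rp_eq hN (rp_ov z)⟩
    · obtain ⟨z⟩ := h0
      obtain ⟨t, -⟩ := exists_sort c z.k
      exact ⟨z, t, fun h => absurd h hv, fun h => absurd h hv⟩
  choose Z τ h1 h2 using this
  exact ⟨Z, τ, h1, h2⟩

end rep

variable {S : Set ℕ} {bd : BD S} {e : E → NC c E bd}

/-- data for the M-type case -/
structure MReg (e : E → NC c E bd) (x0 x1 y1 : JE c D E (AC c D E bd) e)
    (el : ℕ → c.K → JE c D E (AC c D E bd) e) : Prop where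
  nice : Nice c D E (AC c D E bd) e
  mt : ∀ z : JE c D E (AC c D E bd) e, x0.lt z → z.lt y1 → MT z
  mt0 : MT x0
  adj : x0.adj x1
  x1y : x1.lt y1
  elk : ∀ k κ, (el k κ).k = κ
  el1 : ∀ k κ, x0.lt (el k κ)
  el2 : ∀ k κ, (el k κ).lt y1
  elt : ∀ k k' κ κ', k < k' → (el k κ).lt (el k' κ')

/-- rank -/
noncomputable def rk (x0 : JE c D E (AC c D E bd) e) (G : Finset ℕ)
    (z : JE c D E (AC c D E bd) e) : ℕ :=
  {m : ℕ | m ∈ G ∧ ∃ y : JE c D E (AC c D E bd) e, x0.lt y ∧ y.lt z ∧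
    ∃ t, c.srt t = y.k ∧ (y.w t).1 = Sum.inl m}.ncard

theorem rk_lt (hN : Nice c D E (AC c D E bd) e) {x0 z z' : JE c D E (AC c D E bd) e}
    {G : Finset ℕ} (h0 : x0.lt z) (hlt : z.lt z')
    (hG : ∃ m ∈ G, ∃ t, c.srt t = z.k ∧ (z.w t).1 = Sum.inl m) : rk x0 G z < rk x0 G z' := by
  unfold rk
  apply Set.ncard_lt_ncard
  · rw [Set.ssubset_iff_of_subset]
    · obtain ⟨m, hm, t, ht, hw⟩ := hG
      refine ⟨m, ⟨hm, z, h0, hlt, t, ht, hw⟩, ?_⟩
      rintro ⟨-, y, h1, h2, t', ht', hw'⟩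
      exact JE.not_lt_of_ov hN ⟨t', t, ht', ht, Subtype.ext (hw'.trans hw.symm)⟩ h2
    · rintro m ⟨hm, y, h1, h2, h3⟩
      exact ⟨hm, y, h1, JE.lt_trans hN h2 hlt, h3⟩
  · exact (G.finite_toSet).subset fun m hm => hm.1

theorem rk_adj {x0 x1 : JE c D E (AC c D E bd) e} (G : Finset ℕ) (h : x0.adj x1) :
    rk x0 G x1 = 0 := by
  unfold rk
  have : {m : ℕ | m ∈ G ∧ ∃ y : JE c D E (AC c D E bd) e, x0.lt y ∧ y.lt x1 ∧
    ∃ t, c.srt t = y.k ∧ (y.w t).1 = Sum.inl m} = ∅ := by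
    ext m
    simp only [Set.mem_setOf_eq, Set.mem_empty_iff_false, iff_false]
    rintro ⟨-, y, h1, h2, -⟩
    exact h.2 ⟨y, h1, h2⟩
  rw [this, Set.ncard_empty]

open Classical in
/-- the map on members -/
noncomputable def Phi (x0 y1 : JE c D E (AC c D E bd) e)
    (el : ℕ → c.K → JE c D E (AC c D E bd) e) (G : Finset ℕ) (z : JE c D E (AC c D E bd) e) :
    JE c D E (AC c D E bd) e :=
  if x0.lt z ∧ z.lt y1 then el (3 + rk x0 G z) z.k else z

open Classical in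
/-- the map on elements -/
noncomputable def Psi (x0 y1 : JE c D E (AC c D E bd) e)
    (el : ℕ → c.K → JE c D E (AC c D E bd) e) (G : Finset ℕ)
    (Z : NC c E bd → JE c D E (AC c D E bd) e) (τ : NC c E bd → c.T) (v : NC c E bd) :
    NC c E bd :=
  if IM D E (AC c D E bd) e v then (Phi x0 y1 el G (Z v)).w (τ v) else v

section main

variable {x0 x1 y1 : JE c D E (AC c D E bd) e} {el : ℕ → c.K → JE c D E (AC c D E bd) e}
  (hM : MReg e x0 x1 y1 el) (G : Finset ℕ)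
include hM

theorem Phi_k (z : JE c D E (AC c D E bd) e) : (Phi x0 y1 el G z).k = z.k := by
  unfold Phi
  split_ifs
  · exact hM.elk _ _
  · rfl

theorem Phi_lt {z z' : JE c D E (AC c D E bd) e} (hlt : z.lt z')
    (hG : (x0.lt z ∧ z.lt y1) → ∃ m ∈ G, ∃ t, c.srt t = z.k ∧ (z.w t).1 = Sum.inl m) :
    (Phi x0 y1 el G z).lt (Phi x0 y1 el G z') := by
  have hN := hM.nice
  unfold Phi
  split_ifs with h1 h2 h2
  · exact hM.elt _ _ _ _ (by have := rk_lt hN h1.1 hlt (hG h1); omega)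
  · have h3 : ¬ z'.lt y1 := fun h3 => h2 ⟨JE.lt_trans hN h1.1 hlt, h3⟩
    rcases JE.tri hN y1 z' with h4 | h4 | h4
    · exact JE.lt_of_lt_ov hN (hM.el2 _ _) h4
    · exact JE.lt_trans hN (hM.el2 _ _) h4
    · exact absurd h4 h3
  · have h3 : ¬ x0.lt z := fun h3 => h1 ⟨h3, JE.lt_trans hN hlt h2.2⟩
    rcases JE.tri hN z x0 with h4 | h4 | h4
    · exact JE.lt_of_ov_lt hN h4 (hM.el1 _ _)
    · exact JE.lt_trans hN h4 (hM.el1 _ _)
    · exact absurd h4 h3
  · exact hlt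

variable {Z : NC c E bd → JE c D E (AC c D E bd) e} {τ : NC c E bd → c.T}
  (hZ : ∀ v, IM D E (AC c D E bd) e v → c.srt (τ v) = (Z v).k ∧ (Z v).w (τ v) = v)
  (hZr : ∀ v, IM D E (AC c D E bd) e v → rp (Z v) = Z v)
include hZ

omit hM in
theorem Psi_out {v : NC c E bd} (hv : IM D E (AC c D E bd) e v → ¬ (x0.lt (Z v) ∧ (Z v).lt y1)) :
    Psi x0 y1 el G Z τ v = v := by
  unfold Psi
  split_ifs with h1
  · unfold Phi
    rw [if_neg (hv h1)]
    exact (hZ v h1).2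
  · rfl

omit hM in
theorem Psi_in {v : NC c E bd} (hv : IM D E (AC c D E bd) e v) (hi : x0.lt (Z v) ∧ (Z v).lt y1) :
    Psi x0 y1 el G Z τ v = (el (3 + rk x0 G (Z v)) (Z v).k).w (τ v) := by
  unfold Psi
  rw [if_pos hv]
  unfold Phi
  rw [if_pos hi]

theorem Psi_inr {v : NC c E bd} {y : ℚ × c.T} (hv : v.1 = Sum.inr y) :
    Psi x0 y1 el G Z τ v = v := by
  apply Psi_out G hZ
  intro h1 h2
  obtain ⟨m, hm⟩ := hM.mt _ h2.1 h2.2 (τ v) (hZ v h1).1
  rw [(hZ v h1).2, hv] at hm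
  simp at hm

theorem Psi_inl {v : NC c E bd} {m : ℕ} (hv : v.1 = Sum.inl m) :
    ∃ m', (Psi x0 y1 el G Z τ v).1 = Sum.inl m' := by
  by_cases h1 : IM D E (AC c D E bd) e v ∧ (x0.lt (Z v) ∧ (Z v).lt y1)
  · rw [Psi_in G hZ h1.1 h1.2]
    exact hM.mt _ (hM.el1 _ _) (hM.el2 _ _) _ (by rw [hM.elk]; exact (hZ v h1.1).1)
  · rw [Psi_out G hZ (fun h2 h3 => h1 ⟨h2, h3⟩)]
    exact ⟨m, hv⟩

theorem Z_G {v : NC c E bd} (hvG : ∀ m, v.1 = Sum.inl m → m ∈ G)
    (hv : IM D E (AC c D E bd) e v) (hi : x0.lt (Z v) ∧ (Z v).lt y1) :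
    ∃ m ∈ G, ∃ t, c.srt t = (Z v).k ∧ ((Z v).w t).1 = Sum.inl m := by
  obtain ⟨m, hm⟩ := hM.mt _ hi.1 hi.2 (τ v) (hZ v hv).1
  refine ⟨m, hvG m ?_, τ v, (hZ v hv).1, hm⟩
  rw [(hZ v hv).2] at hm
  exact hm

include hZr

omit hM hZ in
theorem Z_eq (hN : Nice c D E (AC c D E bd) e) {v v' : NC c E bd}
    (hv : IM D E (AC c D E bd) e v) (hv' : IM D E (AC c D E bd) e v')
    (ho : (Z v).ov (Z v')) : Z v = Z v' := by
  rw [← hZr v hv, ← hZr v' hv']
  exact rp_eq hN ho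

theorem Psi_inj {v v' : NC c E bd} (hvG : ∀ m, v.1 = Sum.inl m → m ∈ G)
    (hvG' : ∀ m, v'.1 = Sum.inl m → m ∈ G)
    (heq : Psi x0 y1 el G Z τ v = Psi x0 y1 el G Z τ v') : v = v' := by
  have hN := hM.nice
  have haux : ∀ v v' : NC c E bd, IM D E (AC c D E bd) e v → ¬ IM D E (AC c D E bd) e v' →
      Psi x0 y1 el G Z τ v ≠ Psi x0 y1 el G Z τ v' := by
    intro v v' h1 h2 heq
    rw [Psi_out G hZ (fun h3 => absurd h3 h2)] at heq
    apply h2
    unfold Psi at heq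
    rw [if_pos h1] at heq
    exact ⟨_, τ v, (by rw [Phi_k hM]; exact (hZ v h1).1), heq⟩
  by_cases h1 : IM D E (AC c D E bd) e v <;> by_cases h2 : IM D E (AC c D E bd) e v'
  · have heq' := heq
    unfold Psi at heq
    rw [if_pos h1, if_pos h2] at heq
    have hk1 : c.srt (τ v) = (Phi x0 y1 el G (Z v)).k := by rw [Phi_k hM]; exact (hZ v h1).1
    have hk2 : c.srt (τ v') = (Phi x0 y1 el G (Z v')).k := by rw [Phi_k hM]; exact (hZ v' h2).1
    rcases JE.tri hN (Z v) (Z v') with h3 | h3 | h3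
    · have h4 := Z_eq hZr hN h1 h2 h3
      rw [← h4] at heq hk2
      have h5 := JE.inj _ hk1 hk2 heq
      rw [← (hZ v h1).2, ← (hZ v' h2).2, h5, h4]
    · exact absurd (Phi_lt hM G h3 (Z_G hM G hZ hvG h1))
        (JE.not_lt_of_ov hN ⟨_, _, hk1, hk2, heq⟩)
    · exact absurd (Phi_lt hM G h3 (Z_G hM G hZ hvG' h2))
        (JE.not_lt_of_ov hN ⟨_, _, hk2, hk1, heq.symm⟩)
  · exact absurd heq (haux v v' h1 h2)
  · exact absurd heq.symm (haux v' v h2 h1)
  · rwa [Psi_out G hZ (fun h3 => absurd h3 h1), Psi_out G hZ (fun h3 => absurd h3 h2)] at heq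

theorem Psi_iff (R : Σ n, L.Relations n) (x : Fin R.1 → NC c E bd)
    (hx : ∀ i m, (x i).1 = Sum.inl m → m ∈ G) :
    AC c D E bd R x ↔ AC c D E bd R (fun i => Psi x0 y1 el G Z τ (x i)) := by
  classical
  have hN := hM.nice
  let p : Fin R.1 → Option c.T := fun i => if IM D E (AC c D E bd) e (x i) then some (τ (x i))
    else none
  have hp : ∀ i t, p i = some t → IM D E (AC c D E bd) e (x i) ∧ t = τ (x i) := by
    intro i t h
    simp only [p] at h
    split_ifs at h with h1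
    exact ⟨h1, (Option.some.inj h).symm⟩
  have hp' : ∀ i, p i = none → ¬ IM D E (AC c D E bd) e (x i) := by
    intro i h h1
    simp only [p, if_pos h1] at h
    simp at h
  have key := hN.2.2.2.2.2 R p (fun y => (Z (x y.1)).w y.2)
    (fun y => (Phi x0 y1 el G (Z (x y.1))).w y.2) x ?_ ?_ ?_
  · refine Iff.trans (iff_of_eq (congrArg (AC c D E bd R) ?_))
      (key.trans (iff_of_eq (congrArg (AC c D E bd R) ?_)))
    · funext i
      rcases hi : p i with _ | t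
      · rfl
      · obtain ⟨h1, rfl⟩ := hp i t hi
        exact (hZ _ h1).2.symm
    · funext i
      rcases hi : p i with _ | t
      · simp only
        rw [Psi_out G hZ (fun h1 => absurd h1 (hp' i hi))]
      · obtain ⟨h1, rfl⟩ := hp i t hi
        simp only
        unfold Psi
        rw [if_pos h1]
  · intro i t hi
    obtain ⟨h1, rfl⟩ := hp i t hi
    constructor
    · rw [(hZ _ h1).1]
      exact (Z (x i)).mem
    · have := (Phi x0 y1 el G (Z (x i))).mem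
      rw [Phi_k hM] at this
      rw [(hZ _ h1).1]
      exact this
  · intro i j t t' hi hj
    obtain ⟨h1, rfl⟩ := hp i t hi
    obtain ⟨h2, rfl⟩ := hp j t' hj
    have hk1 := (hZ _ h1).1
    have hk2 := (hZ _ h2).1
    have conv : ∀ z z' : JE c D E (AC c D E bd) e, (Phi x0 y1 el G z).lt (Phi x0 y1 el G z') →
        prec c D E (AC c D E bd) e z.k z'.k (Phi x0 y1 el G z).w (Phi x0 y1 el G z').w := by
      intro z z' h
      have h' : prec c D E (AC c D E bd) e (Phi x0 y1 el G z).k (Phi x0 y1 el G z').k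
        (Phi x0 y1 el G z).w (Phi x0 y1 el G z').w := h
      rwa [Phi_k hM, Phi_k hM] at h'
    rcases JE.tri hN (Z (x i)) (Z (x j)) with h3 | h3 | h3
    · left
      have h4 := Z_eq hZr hN h1 h2 h3
      refine ⟨by rw [hk1, hk2, h4], fun s _ => ?_⟩
      simp only
      rw [h4]
      exact ⟨rfl, rfl⟩
    · right; left
      rw [hk1, hk2]
      exact ⟨h3, conv _ _ (Phi_lt hM G h3 (Z_G hM G hZ (hx i) h1))⟩
    · right; right
      rw [hk1, hk2]
      exact ⟨h3, conv _ _ (Phi_lt hM G h3 (Z_G hM G hZ (hx j) h2))⟩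
  · intro i hi k w hw t ht heq
    exact hp' i hi ⟨⟨k, w, hw⟩, t, ht, heq⟩

end main

end

end Run7.h46
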