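import Pool.Agent.Run7.h46.Back4

namespace Run7.h46

open Filter Function FirstOrder FirstOrder.Language

section

variable {L : FirstOrder.Language.{0, 0}} {B : Str L ℕ} {c : Cfg B} {D : Str L (Un ℕ c.T)}
  {E : Set (Un ℕ c.T)} {S : Set ℕ} {bd : BD S} {e : E → NC c E bd}

/-- natural number elements -/
def nl (m : ℕ) : NC c E bd := ⟨Sum.inl m, Or.inl ⟨m, rfl⟩⟩

open Classical in
variable (c bd) in
/-- moving all positions into the coding positions -/
noncomputable def g0 : Ps c.K → ℚ :=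
  fun p => bd.f (bd.emb (rc p)) (if kc p = c.ka then 0 else 1)

theorem g0_mono : StrictMono (mv (g0 c bd)) := by
  intro p p' hp
  have hp1 : mkp (rc p) (kc p) < mkp (rc p') (kc p') := hp
  rw [mkp_lt] at hp1
  change mkp (g0 c bd p) (kc p) < mkp (g0 c bd p') (kc p')
  rw [mkp_lt]
  left
  unfold g0
  rw [f_lt]
  rcases hp1 with h1 | ⟨h1, h2⟩
  · exact Or.inl (bd.hemb h1)
  · right
    refine ⟨by rw [h1], ?_⟩
    have h3 : kc p = c.ka := by
      rcases c.hK (kc p) with h3 | h3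
      · exact h3
      · exfalso
        rcases c.hK (kc p') with h4 | h4
        · rw [h3, h4] at h2
          exact absurd c.hab (not_le.2 h2)
        · rw [h3, h4] at h2
          exact absurd h2 (lt_irrefl _)
    have h4 : kc p' ≠ c.ka := fun h4 => by
      rw [h3, h4] at h2
      exact absurd h2 (lt_irrefl _)
    rw [if_pos h3, if_neg h4]
    norm_num

theorem g0_mem (hS : ∀ n ∈ S, 1 ≤ n) (u : Un ℕ c.T) : act c.srt (g0 c bd) u ∈ NC c E bd := by
  rcases u with m | ⟨q, t⟩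
  · exact Or.inl ⟨m, rfl⟩
  · rw [act_inr]
    unfold g0
    simp only [rc_mkp, kc_mkp]
    have hν := hS _ (bd.hν (bd.emb q))
    split_ifs with h1
    · exact mem_NC (by omega) (by rw [h1, col_even c (by norm_num)])
    · refine mem_NC (by omega) ?_
      rw [col_odd c (by norm_num)]
      rcases c.hK (c.srt t) with h2 | h2
      · exact absurd h2 h1
      · exact h2

theorem agree_pull (h : HE c D E) (hS : ∀ n ∈ S, 1 ≤ n)
    {x0 x1 y1 : JE c D E (AC c D E bd) e} {el : ℕ → c.K → JE c D E (AC c D E bd) e}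
    (hM : MReg e x0 x1 y1 el) (G : Finset ℕ)
    {Z : NC c E bd → JE c D E (AC c D E bd) e} {τ : NC c E bd → c.T}
    (hZ : ∀ v, IM D E (AC c D E bd) e v → c.srt (τ v) = (Z v).k ∧ (Z v).w (τ v) = v)
    (hZr : ∀ v, IM D E (AC c D E bd) e v → rp (Z v) = Z v)
    (ψ : ℕ → ℕ) (hψ : ∀ m, (Psi x0 y1 el G Z τ (nl m)).1 = Sum.inl (ψ m))
    (g : ℕ → ℕ) (hg : ∀ m ∈ G, g m = ψ m) :
    Agree G D (D.pull (Sum.map g id : Un ℕ c.T → Un ℕ c.T)) := by
  intro R x hx
  let x' : Fin R.1 → NC c E bd := fun i => ⟨act c.srt (g0 c bd) (x i), g0_mem hS _⟩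
  have h1 : D R x ↔ D R (act c.srt (g0 c bd) ∘ x) := h.hD.1 R x _ (g0_mono.strictMonoOn _)
  have h2 : D R ((Sum.map g id : Un ℕ c.T → Un ℕ c.T) ∘ x)
      ↔ D R (act c.srt (g0 c bd) ∘ (Sum.map g id : Un ℕ c.T → Un ℕ c.T) ∘ x) :=
    h.hD.1 R _ _ (g0_mono.strictMonoOn _)
  rw [Str.pull_apply, h1, h2]
  have h3 := Psi_iff hM G hZ hZr R x' (by
    intro i m hm
    apply hx i m
    rcases hxi : x i with m' | y
    · simp only [x', hxi, act_inl, Sum.inl.injEq] at hm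
      rw [hm]
    · simp [x', hxi, act] at hm)
  have e2 : (Subtype.val ∘ fun i => Psi x0 y1 el G Z τ (x' i))
      = act c.srt (g0 c bd) ∘ (Sum.map g id : Un ℕ c.T → Un ℕ c.T) ∘ x := by
    funext i
    simp only [comp_apply]
    rcases hxi : x i with m | y
    · have : x' i = nl m := Subtype.ext (by simp [x', hxi, nl])
      rw [this, hψ m]
      simp only [Sum.map_inl, act_inl]
      rw [hg m (hx i m hxi)]
    · have h4 : (x' i).1 = act c.srt (g0 c bd) (Sum.inr y) := by simp only [x', hxi]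
      rw [Psi_inr hM G hZ (v := x' i) (y := (g0 c bd (mkp y.1 (c.srt y.2)), y.2)) (by
        rw [h4]; rfl), h4]
      rfl
  change D R (Subtype.val ∘ x') ↔ _
  rw [← e2]
  exact h3

theorem caseM_false (h : HE c D E) (hgen : IsGen c.srt B D) (hS : ∀ n ∈ S, 1 ≤ n)
    (x0w x1w : c.T → NC c E bd) (hx0 : JJ c D E (AC c D E bd) e c.ka x0w)
    (hx1 : JJ c D E (AC c D E bd) e c.kb x1w) (elw : ℕ → c.K → c.T → NC c E bd)
    (hel : ∀ k κ, JJ c D E (AC c D E bd) e κ (elw k κ)) (y1 : JE c D E (AC c D E bd) e)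
    (hM : MReg e ⟨c.ka, x0w, hx0⟩ ⟨c.kb, x1w, hx1⟩ y1 (fun k κ => ⟨κ, elw k κ, hel k κ⟩))
    (hrp : rp (⟨c.kb, x1w, hx1⟩ : JE c D E (AC c D E bd) e) = ⟨c.kb, x1w, hx1⟩) : False := by
  classical
  have hN := hM.nice
  obtain ⟨Z, τ, hZ, hZr⟩ := exists_rep hN ⟨⟨c.ka, x0w, hx0⟩⟩
  have hm0 : ∀ t, c.srt t = c.ka → ∃ m, (x0w t).1 = Sum.inl m := hM.mt0
  have hm1 : ∀ t, c.srt t = c.kb → ∃ m, (x1w t).1 = Sum.inl m := hM.mt _ hM.adj.1 hM.x1y
  have hme : ∀ k κ t, c.srt t = κ → ∃ m, (elw k κ t).1 = Sum.inl m := fun k κ =>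
    hM.mt _ (hM.el1 k κ) (hM.el2 k κ)
  choose! a0 ha0 using hm0
  choose! a1 ha1 using hm1
  choose! ev hev using hme
  let E' := {u : E // ∃ m, (e u).1 = Sum.inl m}
  let ae : E' → ℕ := fun u => u.2.choose
  have hae : ∀ u : E', (e u.1).1 = Sum.inl (ae u) := fun u => u.2.choose_spec
  have : Finite E := h.fin
  let Ta := {t // c.srt t = c.ka}
  let Tb := {t // c.srt t = c.kb}
  let a : Ta ⊕ (Tb ⊕ E') → ℕ := Sum.elim (fun t => a0 t.1) (Sum.elim (fun t => a1 t.1) ae)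
  let b : Ta ⊕ (Tb ⊕ E') → ℕ := Sum.elim (fun t => a0 t.1) (Sum.elim (fun t => ev 3 c.kb t.1) ae)
  let b' : Tb ⊕ Ta → ℕ := Sum.elim (fun t => ev 1 c.kb t.1) (fun t => ev 2 c.ka t.1)
  have : Fintype (Ta ⊕ (Tb ⊕ E')) := Fintype.ofFinite _
  have : Fintype (Tb ⊕ Ta) := Fintype.ofFinite _
  obtain ⟨z, hz⟩ := hgen.use c.srt a b b' (by
    intro G
    let G' : Finset ℕ := G ∪ (Finset.univ.image a ∪ (Finset.univ.image b ∪ Finset.univ.image b'))
    let x0 : JE c D E (AC c D E bd) e := ⟨c.ka, x0w, hx0⟩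
    let x1 : JE c D E (AC c D E bd) e := ⟨c.kb, x1w, hx1⟩
    let el : ℕ → c.K → JE c D E (AC c D E bd) e := fun k κ => ⟨κ, elw k κ, hel k κ⟩
    have hex : ∀ m, ∃ m', (Psi x0 y1 el G' Z τ (nl m)).1 = Sum.inl m' := fun m =>
      Psi_inl hM G' hZ (v := nl m) rfl
    choose ψ hψ using hex
    have hinj : Set.InjOn ψ G' := by
      intro m hm m' hm' heq
      have h1 : Psi x0 y1 el G' Z τ (nl m) = Psi x0 y1 el G' Z τ (nl m') :=
        Subtype.ext (by rw [hψ, hψ, heq])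
      have h2 : ∀ m ∈ (G' : Set ℕ), ∀ m', ((nl m : NC c E bd)).1 = Sum.inl m' → m' ∈ G' := by
        intro m hm m' h3
        simp only [nl, Sum.inl.injEq] at h3
        rw [← h3]; exact hm
      have h3 := Psi_inj hM G' hZ hZr (h2 m hm) (h2 m' hm') h1
      have h4 := congrArg Subtype.val h3
      simpa [nl] using h4
    obtain ⟨g, hg⟩ := ext_equiv G' ψ hinj
    have hAg : Agree G' D (D.pull (Sum.map g id : Un ℕ c.T → Un ℕ c.T)) :=
      agree_pull h hS hM G' hZ hZr ψ hψ g hg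
    have haG : ∀ v, a v ∈ G' := fun v => Finset.mem_union_right _ (Finset.mem_union_left _
      (Finset.mem_image_of_mem _ (Finset.mem_univ _)))
    have hga : ∀ v, g (a v) = b v := by
      intro v
      rw [hg _ (haG v)]
      have hgoal : ∀ u : NC c E bd, u.1 = Sum.inl (b v) →
          Psi x0 y1 el G' Z τ (nl (a v)) = u → ψ (a v) = b v := by
        intro u h1 h2
        have h3 := hψ (a v)
        rw [h2, h1] at h3
        exact (Sum.inl.inj h3).symm
      rcases v with ⟨t, ht⟩ | ⟨t, ht⟩ | u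
      · refine hgoal (x0w t) (ha0 t ht) ?_
        have h1 : (nl (a (Sum.inl ⟨t, ht⟩)) : NC c E bd) = x0w t :=
          Subtype.ext (ha0 t ht).symm
        rw [h1]
        apply Psi_out G' hZ
        rintro h2 ⟨h3, -⟩
        have hov : x0.ov (Z (x0w t)) := ⟨t, τ (x0w t), ht, (hZ _ h2).1, (hZ _ h2).2.symm⟩
        exact JE.not_lt_of_ov hN hov h3
      · refine hgoal (elw 3 c.kb t) (hev 3 c.kb t ht) ?_
        have h1 : (nl (a (Sum.inr (Sum.inl ⟨t, ht⟩))) : NC c E bd) = x1w t :=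
          Subtype.ext (ha1 t ht).symm
        rw [h1]
        have hIM : IM D E (AC c D E bd) e (x1w t) := ⟨x1, t, ht, rfl⟩
        have hov : (Z (x1w t)).ov x1 := ⟨τ (x1w t), t, (hZ _ hIM).1, ht, (hZ _ hIM).2⟩
        have hZx : Z (x1w t) = x1 := by
          rw [← hZr _ hIM, rp_eq hN hov]
          exact hrp
        rw [Psi_in G' hZ hIM (by rw [hZx]; exact ⟨hM.adj.1, hM.x1y⟩), hZx, rk_adj G' hM.adj]
        have hτ : τ (x1w t) = t := by
          have h4 := hZ _ hIM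
          rw [hZx] at h4
          exact JE.inj x1 h4.1 ht h4.2
        rw [hτ]
      · refine hgoal (e u.1) (hae u) ?_
        have h1 : (nl (a (Sum.inr (Sum.inr u))) : NC c E bd) = e u.1 := Subtype.ext (hae u).symm
        rw [h1]
        apply Psi_out G' hZ
        rintro ⟨z, t, ht, hw⟩
        exact absurd hw (JE.ne_par h z ht u.1)
    have hgg : g ∘ Sum.elim a (g.symm ∘ b') = Sum.elim b b' := by
      funext v
      rcases v with v | w
      · exact hga v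
      · simp
    refine ⟨D.pull (Sum.map g id), Cls.pull_inl _ h.hD g g.injective,
      hAg.mono Finset.subset_union_left, g.symm ∘ b', ?_, ?_⟩
    · intro i j
      rw [← hgg]
      simp only [comp_apply, EmbeddingLike.apply_eq_iff_eq]
    · intro R x
      have h1 := hAg R (Sum.map (Sum.elim b b') id ∘ x) (by
        intro i m hi
        rcases hx : x i with (v | w) | y
        · simp only [comp_apply, hx, Sum.map_inl, Sum.elim_inl, Sum.inl.injEq] at hi
          rw [← hi]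
          exact Finset.mem_union_right _ (Finset.mem_union_right _ (Finset.mem_union_left _
            (Finset.mem_image_of_mem _ (Finset.mem_univ _))))
        · simp only [comp_apply, hx, Sum.map_inl, Sum.elim_inr, Sum.inl.injEq] at hi
          rw [← hi]
          exact Finset.mem_union_right _ (Finset.mem_union_right _ (Finset.mem_union_right _
            (Finset.mem_image_of_mem _ (Finset.mem_univ _))))
        · simp [hx] at hi)
      rw [← h1, Str.pull_apply]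
      have h2 : (Sum.map g id : Un ℕ c.T → Un ℕ c.T) ∘ (Sum.map (Sum.elim a (g.symm ∘ b')) id ∘ x)
          = Sum.map (Sum.elim b b') id ∘ x := by
        rw [← comp_assoc, Sum.map_comp_map, hgg]
        rfl
      rw [h2])
  -- extract the real tuples
  let wb : c.T → NC c E bd := fun t => if ht : c.srt t = c.kb then nl (z (Sum.inl ⟨t, ht⟩)) else nl 0
  let wa : c.T → NC c E bd := fun t => if ht : c.srt t = c.ka then nl (z (Sum.inr ⟨t, ht⟩)) else nl 0
  have hxe : ∃ xe : E → ((Ta ⊕ (Tb ⊕ E')) ⊕ (Tb ⊕ Ta)) ⊕ (ℚ × c.T), ∀ u,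
      Sum.map (Sum.elim a z) id (xe u) = (e u).1 ∧ Sum.map (Sum.elim b b') id (xe u) = (e u).1 := by
    have : ∀ u, ∃ y : ((Ta ⊕ (Tb ⊕ E')) ⊕ (Tb ⊕ Ta)) ⊕ (ℚ × c.T),
      Sum.map (Sum.elim a z) id y = (e u).1 ∧ Sum.map (Sum.elim b b') id y = (e u).1 := by
      intro u
      rcases hu : (e u).1 with m | y
      · let u' : E' := ⟨u, m, hu⟩
        have h1 : ae u' = m := by
          have := hae u'
          rw [show e u'.1 = e u from rfl, hu] at this
          exact (Sum.inl.inj this).symm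
        refine ⟨Sum.inl (Sum.inl (Sum.inr (Sum.inr u'))), ?_, ?_⟩
        · simp [a, h1]
        · simp [b, h1]
      · exact ⟨Sum.inr y, rfl, rfl⟩
    choose xe hxe using this
    exact ⟨xe, hxe⟩
  obtain ⟨xe, hxe⟩ := hxe
  let X : (Ta ⊕ (Tb ⊕ E')) ⊕ ((Tb ⊕ Ta) ⊕ E) → ((Ta ⊕ (Tb ⊕ E')) ⊕ (Tb ⊕ Ta)) ⊕ (ℚ × c.T) :=
    Sum.elim (fun v => Sum.inl (Sum.inl v)) (Sum.elim (fun w => Sum.inl (Sum.inr w)) xe)
  have HH := hz.sameQ X
  have hwb : ∀ t (ht : c.srt t = c.kb), (wb t).1 = Sum.inl (z (Sum.inl ⟨t, ht⟩)) := by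
    intro t ht; simp [wb, ht, nl]
  have hwa : ∀ t (ht : c.srt t = c.ka), (wa t).1 = Sum.inl (z (Sum.inr ⟨t, ht⟩)) := by
    intro t ht; simp [wa, ht, nl]
  have hJb : JJ c D E (AC c D E bd) e c.kb wb := by
    have h1 := hel 1 c.kb
    unfold JJ QJ at h1 ⊢
    rw [sameQ_AC (V' := Unit)] at h1 ⊢
    have h2 := HH.comp (Sum.elim (fun t : Tb => Sum.inr (Sum.inl (Sum.inl t)))
      (fun u => Sum.inr (Sum.inr u)) : Tb ⊕ E → _)
    have e1 : Subtype.val ∘ Sum.elim (rs c.srt c.kb wb) e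
        = (Sum.map (Sum.elim a z) id ∘ X) ∘ (Sum.elim (fun t : Tb => Sum.inr (Sum.inl (Sum.inl t)))
      (fun u => Sum.inr (Sum.inr u)) : Tb ⊕ E → _) := by
      funext i
      rcases i with ⟨t, ht⟩ | u
      · exact hwb t ht
      · exact (hxe u).1.symm
    have e2 : Subtype.val ∘ Sum.elim (rs c.srt c.kb (elw 1 c.kb)) e
        = (Sum.map (Sum.elim b b') id ∘ X) ∘ (Sum.elim (fun t : Tb => Sum.inr (Sum.inl (Sum.inl t)))
      (fun u => Sum.inr (Sum.inr u)) : Tb ⊕ E → _) := by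
      funext i
      rcases i with ⟨t, ht⟩ | u
      · exact hev 1 c.kb t ht
      · exact (hxe u).2.symm
    rw [e1]
    rw [e2] at h1
    exact h2.trans h1
  have hJa : JJ c D E (AC c D E bd) e c.ka wa := by
    have h1 := hel 2 c.ka
    unfold JJ QJ at h1 ⊢
    rw [sameQ_AC (V' := Unit)] at h1 ⊢
    have h2 := HH.comp (Sum.elim (fun t : Ta => Sum.inr (Sum.inl (Sum.inr t)))
      (fun u => Sum.inr (Sum.inr u)) : Ta ⊕ E → _)
    have e1 : Subtype.val ∘ Sum.elim (rs c.srt c.ka wa) e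
        = (Sum.map (Sum.elim a z) id ∘ X) ∘ (Sum.elim (fun t : Ta => Sum.inr (Sum.inl (Sum.inr t)))
      (fun u => Sum.inr (Sum.inr u)) : Ta ⊕ E → _) := by
      funext i
      rcases i with ⟨t, ht⟩ | u
      · exact hwa t ht
      · exact (hxe u).1.symm
    have e2 : Subtype.val ∘ Sum.elim (rs c.srt c.ka (elw 2 c.ka)) e
        = (Sum.map (Sum.elim b b') id ∘ X) ∘ (Sum.elim (fun t : Ta => Sum.inr (Sum.inl (Sum.inr t)))
      (fun u => Sum.inr (Sum.inr u)) : Ta ⊕ E → _) := by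
      funext i
      rcases i with ⟨t, ht⟩ | u
      · exact hev 2 c.ka t ht
      · exact (hxe u).2.symm
    rw [e1]
    rw [e2] at h1
    exact h2.trans h1
  -- the order relations
  let x0 : JE c D E (AC c D E bd) e := ⟨c.ka, x0w, hx0⟩
  let x1 : JE c D E (AC c D E bd) e := ⟨c.kb, x1w, hx1⟩
  let zb : JE c D E (AC c D E bd) e := ⟨c.kb, wb, hJb⟩
  let za : JE c D E (AC c D E bd) e := ⟨c.ka, wa, hJa⟩
  let el : ℕ → c.K → JE c D E (AC c D E bd) e := fun k κ => ⟨κ, elw k κ, hel k κ⟩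
  have hl1 : x0.l0 zb := by
    have h1 : x0.l0 (el 1 c.kb) := JE.l0_of_lt hN (Or.inl ⟨rfl, rfl⟩) (hM.el1 1 c.kb)
    refine ⟨h1.1, ?_⟩
    have h1 := h1.2
    rw [sameQ_AC (V' := Unit)] at h1 ⊢
    have h2 := HH.comp (Sum.elim (Sum.elim (fun t : Ta => Sum.inl (Sum.inl t))
      (fun t : Tb => Sum.inr (Sum.inl (Sum.inl t))))
      (fun u => Sum.inr (Sum.inr u)) : (Ta ⊕ Tb) ⊕ E → _)
    have e1 : Subtype.val ∘ Sum.elim (Sum.elim (rs c.srt c.ka x0w) (rs c.srt c.kb wb)) e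
        = (Sum.map (Sum.elim a z) id ∘ X) ∘ (Sum.elim (Sum.elim (fun t : Ta => Sum.inl (Sum.inl t))
      (fun t : Tb => Sum.inr (Sum.inl (Sum.inl t))))
      (fun u => Sum.inr (Sum.inr u)) : (Ta ⊕ Tb) ⊕ E → _) := by
      funext i
      rcases i with (⟨t, ht⟩ | ⟨t, ht⟩) | u
      · exact ha0 t ht
      · exact hwb t ht
      · exact (hxe u).1.symm
    have e2 : Subtype.val ∘ Sum.elim (Sum.elim (rs c.srt c.ka x0w) (rs c.srt c.kb (elw 1 c.kb))) e
        = (Sum.map (Sum.elim b b') id ∘ X) ∘ (Sum.elim (Sum.elim (fun t : Ta => Sum.inl (Sum.inl t))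
      (fun t : Tb => Sum.inr (Sum.inl (Sum.inl t))))
      (fun u => Sum.inr (Sum.inr u)) : (Ta ⊕ Tb) ⊕ E → _) := by
      funext i
      rcases i with (⟨t, ht⟩ | ⟨t, ht⟩) | u
      · exact ha0 t ht
      · exact hev 1 c.kb t ht
      · exact (hxe u).2.symm
    change SameQ D D (Subtype.val ∘ Sum.elim (Sum.elim (rs c.srt c.ka x0w) (rs c.srt c.kb wb)) e) _
    rw [e1]
    change SameQ D D (Subtype.val ∘ Sum.elim (Sum.elim (rs c.srt c.ka x0w)
      (rs c.srt c.kb (elw 1 c.kb))) e) _ at h1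
    rw [e2] at h1
    exact h2.trans h1
  have hl2 : zb.l0 za := by
    have h1 : (el 1 c.kb).l0 (el 2 c.ka) := JE.l0_of_lt hN (Or.inr ⟨rfl, rfl⟩)
      (hM.elt 1 2 c.kb c.ka (by norm_num))
    refine ⟨h1.1, ?_⟩
    have h1 := h1.2
    rw [sameQ_AC (V' := Unit)] at h1 ⊢
    have h2 := HH.comp (Sum.elim (Sum.elim (fun t : Tb => Sum.inr (Sum.inl (Sum.inl t)))
      (fun t : Ta => Sum.inr (Sum.inl (Sum.inr t))))
      (fun u => Sum.inr (Sum.inr u)) : (Tb ⊕ Ta) ⊕ E → _)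
    have e1 : Subtype.val ∘ Sum.elim (Sum.elim (rs c.srt c.kb wb) (rs c.srt c.ka wa)) e
        = (Sum.map (Sum.elim a z) id ∘ X) ∘ (Sum.elim (Sum.elim
      (fun t : Tb => Sum.inr (Sum.inl (Sum.inl t)))
      (fun t : Ta => Sum.inr (Sum.inl (Sum.inr t))))
      (fun u => Sum.inr (Sum.inr u)) : (Tb ⊕ Ta) ⊕ E → _) := by
      funext i
      rcases i with (⟨t, ht⟩ | ⟨t, ht⟩) | u
      · exact hwb t ht
      · exact hwa t ht
      · exact (hxe u).1.symm
    have e2 : Subtype.val ∘ Sum.elim (Sum.elim (rs c.srt c.kb (elw 1 c.kb))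
        (rs c.srt c.ka (elw 2 c.ka))) e
        = (Sum.map (Sum.elim b b') id ∘ X) ∘ (Sum.elim (Sum.elim
      (fun t : Tb => Sum.inr (Sum.inl (Sum.inl t)))
      (fun t : Ta => Sum.inr (Sum.inl (Sum.inr t))))
      (fun u => Sum.inr (Sum.inr u)) : (Tb ⊕ Ta) ⊕ E → _) := by
      funext i
      rcases i with (⟨t, ht⟩ | ⟨t, ht⟩) | u
      · exact hev 1 c.kb t ht
      · exact hev 2 c.ka t ht
      · exact (hxe u).2.symm
    change SameQ D D (Subtype.val ∘ Sum.elim (Sum.elim (rs c.srt c.kb wb) (rs c.srt c.ka wa)) e) _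
    rw [e1]
    change SameQ D D (Subtype.val ∘ Sum.elim (Sum.elim (rs c.srt c.kb (elw 1 c.kb))
      (rs c.srt c.ka (elw 2 c.ka))) e) _ at h1
    rw [e2] at h1
    exact h2.trans h1
  have hl3 : za.l0 x1 := by
    have h1 : (el 2 c.ka).l0 (el 3 c.kb) := JE.l0_of_lt hN (Or.inl ⟨rfl, rfl⟩)
      (hM.elt 2 3 c.ka c.kb (by norm_num))
    refine ⟨h1.1, ?_⟩
    have h1 := h1.2
    rw [sameQ_AC (V' := Unit)] at h1 ⊢
    have h2 := HH.comp (Sum.elim (Sum.elim (fun t : Ta => Sum.inr (Sum.inl (Sum.inr t)))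
      (fun t : Tb => Sum.inl (Sum.inr (Sum.inl t))))
      (fun u => Sum.inr (Sum.inr u)) : (Ta ⊕ Tb) ⊕ E → _)
    have e1 : Subtype.val ∘ Sum.elim (Sum.elim (rs c.srt c.ka wa) (rs c.srt c.kb x1w)) e
        = (Sum.map (Sum.elim a z) id ∘ X) ∘ (Sum.elim (Sum.elim
      (fun t : Ta => Sum.inr (Sum.inl (Sum.inr t)))
      (fun t : Tb => Sum.inl (Sum.inr (Sum.inl t))))
      (fun u => Sum.inr (Sum.inr u)) : (Ta ⊕ Tb) ⊕ E → _) := by
      funext i
      rcases i with (⟨t, ht⟩ | ⟨t, ht⟩) | u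
      · exact hwa t ht
      · exact ha1 t ht
      · exact (hxe u).1.symm
    have e2 : Subtype.val ∘ Sum.elim (Sum.elim (rs c.srt c.ka (elw 2 c.ka))
        (rs c.srt c.kb (elw 3 c.kb))) e
        = (Sum.map (Sum.elim b b') id ∘ X) ∘ (Sum.elim (Sum.elim
      (fun t : Ta => Sum.inr (Sum.inl (Sum.inr t)))
      (fun t : Tb => Sum.inl (Sum.inr (Sum.inl t))))
      (fun u => Sum.inr (Sum.inr u)) : (Ta ⊕ Tb) ⊕ E → _) := by
      funext i
      rcases i with (⟨t, ht⟩ | ⟨t, ht⟩) | u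
      · exact hev 2 c.ka t ht
      · exact hev 3 c.kb t ht
      · exact (hxe u).2.symm
    change SameQ D D (Subtype.val ∘ Sum.elim (Sum.elim (rs c.srt c.ka wa) (rs c.srt c.kb x1w)) e) _
    rw [e1]
    change SameQ D D (Subtype.val ∘ Sum.elim (Sum.elim (rs c.srt c.ka (elw 2 c.ka))
      (rs c.srt c.kb (elw 3 c.kb))) e) _ at h1
    rw [e2] at h1
    exact h2.trans h1
  apply hM.adj.2
  exact ⟨zb, JE.lt_of_l0 hl1, Or.inr ⟨c.ka, wa, hJa, hl2, hl3⟩⟩

end

end Run7.h46
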