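import Pool.Agent.Run7.h46.Back5

namespace Run7.h46

open Filter Function FirstOrder FirstOrder.Language

section

variable {L : FirstOrder.Language.{0, 0}} {B : Str L ℕ} {c : Cfg B} {D : Str L (Un ℕ c.T)}
  {E : Set (Un ℕ c.T)} {S : Set ℕ} {bd : BD S} {e : E → NC c E bd}

theorem JE.eq_mk {N : Type} {A : Str L N} {e : E → N} (z : JE c D E A e) (k : c.K) (hk : z.k = k) :
    ∃ (w : c.T → N) (hw : JJ c D E A e k w), (⟨k, w, hw⟩ : JE c D E A e) = z := by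
  subst hk
  exact ⟨z.w, z.mem, rfl⟩

theorem caseM (h : HE c D E) (hgen : IsGen c.srt B D) (hS : ∀ n ∈ S, 1 ≤ n) {n : ℕ} (hn : 1 ≤ n)
    (hT : ThetaH (c := c) (D := D) (E := E) (A := AC c D E bd) (e := e) n)
    (x1 y1 : JE c D E (AC c D E bd) e) (hx1 : IsStart n x1) (hy1 : IsStart n y1)
    (hxy : x1.lt y1)
    (hmt : ∀ z : JE c D E (AC c D E bd) e, x1.lt z → z.lt y1 → MT z) : False := by
  have hN := hT.nice
  obtain ⟨d, hd, hd1, hd2⟩ := hT.dense x1 y1 hx1 hy1 hxy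
  obtain ⟨x, hx, j0, hj0, hxj⟩ := hd.block
  let j1 : Fin (2 * n) := ⟨1, by omega⟩
  have hadj : d.adj (x j1) := by
    have := hx.adj j0 j1 (by rw [hj0])
    rwa [hxj] at this
  have hk1 : (x j1).k = c.kb := by rw [hx.col, col_odd c (by simp [j1])]
  have hj1y : (x j1).lt y1 := block_lt hN hx hy1.no_pred j0 hj0 (by rw [hxj]; exact hd2) j1
  have hov := rp_ov (x j1)
  have hrk : (rp (x j1)).k = c.kb := by rw [JE.ov_k hN hov, hk1]
  have hadj' : d.adj (rp (x j1)) := ⟨JE.lt_of_lt_ov hN hadj.1 (JE.ov_symm hov),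
    fun ⟨y, h1, h2⟩ => hadj.2 ⟨y, h1, JE.lt_of_lt_ov hN h2 hov⟩⟩
  have hry : (rp (x j1)).lt y1 := JE.lt_of_ov_lt hN hov hj1y
  have hrr : rp (rp (x j1)) = rp (x j1) := rp_eq hN hov
  obtain ⟨δ, hδ, hδ1, hδ2, hδ3⟩ := exists_seq hT d y1 hd hy1 hd2
  have hsel : ∀ k (κ : c.K), ∃ (w : c.T → NC c E bd) (hw : JJ c D E (AC c D E bd) e κ w),
      ¬ (⟨κ, w, hw⟩ : JE c D E (AC c D E bd) e).lt (δ k) ∧
      (⟨κ, w, hw⟩ : JE c D E (AC c D E bd) e).lt (δ (k + 1)) := by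
    intro k κ
    by_cases hκ : κ = c.ka
    · obtain ⟨w, hw, he⟩ := (δ k).eq_mk κ ((hδ k).1.trans hκ.symm)
      refine ⟨w, hw, ?_, ?_⟩
      · rw [he]; exact JE.lt_irrefl hN _
      · rw [he]; exact hδ3 _ _ (by omega)
    · have hκ' : κ = c.kb := (c.hK κ).resolve_left hκ
      obtain ⟨x', hx', j0', hj0', hxj'⟩ := (hδ k).block
      have hadj2 : (δ k).adj (x' j1) := by
        have := hx'.adj j0' j1 (by rw [hj0'])
        rwa [hxj'] at this
      obtain ⟨w, hw, he⟩ := (x' j1).eq_mk κ (by rw [hx'.col, hκ', col_odd c (by simp [j1])])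
      refine ⟨w, hw, ?_, ?_⟩
      · rw [he]; exact JE.lt_asymm hN hadj2.1
      · rw [he]; exact next_lt hN hadj2 (hδ (k + 1)).no_pred (hδ3 _ _ (by omega))
  choose elw hel hel1 hel2 using hsel
  have hge : ∀ (s : JE c D E (AC c D E bd) e) k κ, s.lt (δ k) → s.lt ⟨κ, elw k κ, hel k κ⟩ := by
    intro s k κ hs
    rcases JE.tri hN ⟨κ, elw k κ, hel k κ⟩ (δ k) with h1 | h1 | h1
    · exact JE.lt_of_lt_ov hN hs (JE.ov_symm h1)
    · exact absurd h1 (hel1 k κ)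
    · exact JE.lt_trans hN hs h1
  obtain ⟨w0, hw0, he0⟩ := d.eq_mk c.ka hd.1
  obtain ⟨w1, hw1, he1⟩ := (rp (x j1)).eq_mk c.kb hrk
  refine caseM_false h hgen hS w0 w1 hw0 hw1 elw hel y1 ?_ (by rw [he1]; exact hrr)
  refine ⟨hN, ?_, ?_, ?_, ?_, ?_, ?_, ?_, ?_⟩
  · intro z h1 h2
    rw [he0] at h1
    exact hmt z (JE.lt_trans hN hd1 h1) h2
  · rw [he0]
    exact hmt d hd1 hd2
  · rw [he0, he1]
    exact hadj'
  · rw [he1]
    exact hry
  · intro k κ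
    rfl
  · intro k κ
    rw [he0]
    exact hge _ _ _ (hδ1 k)
  · intro k κ
    exact JE.lt_trans hN (hel2 k κ) (hδ2 _)
  · intro k k' κ κ' hk
    rcases (Nat.succ_le_of_lt hk).lt_or_eq with h1 | h1
    · exact hge _ _ _ (JE.lt_trans hN (hel2 k κ) (hδ3 _ _ h1))
    · apply hge
      rw [← h1]
      exact hel2 k κ

theorem theta_backward (h : HE c D E) (hgen : IsGen c.srt B D) (hS : ∀ n ∈ S, 1 ≤ n)
    (hSn : S.Nonempty) {n : ℕ} (hn : 1 ≤ n)
    (hΘ : Theta c D E n (NC c E bd) (AC c D E bd) default) : n ∈ S := by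
  obtain ⟨e, hT⟩ := theta_iff hΘ
  have hN := hT.nice
  obtain ⟨x, y, hx, hy, hxy⟩ := hT.ex
  obtain ⟨x', y', hx', hy', hxy', -, -, hav⟩ := avoid hT (X0_finite h (e := e)).toFinset x y hx hy
    hxy
  rw [Set.Finite.coe_toFinset] at hav
  by_cases hC : ∀ x y : JE c D E (AC c D E bd) e, IsStart n x → IsStart n y → x.lt y → x'.lt x →
      y.lt y' → ∃ z : JE c D E (AC c D E bd) e, ¬ z.lt x ∧ ¬ y.lt z ∧ ∃ P, CT z P
  · exact caseC h hS hSn hT hn hx' hy' hxy' hav hC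
  · exfalso
    push Not at hC
    obtain ⟨x1, y1, hx1, hy1, hxy1, h1, h2, h3⟩ := hC
    refine caseM h hgen hS hn hT x1 y1 hx1 hy1 hxy1 ?_
    intro z h4 h5
    have hnm : ¬ z.meets (X0 e) := by
      intro hm
      rcases hav z hm with h6 | h6
      · exact JE.lt_asymm hN h6 (JE.lt_trans hN h1 h4)
      · exact JE.lt_asymm hN h6 (JE.lt_trans hN h5 h2)
    rcases type_cases h hS hSn hT z hnm with h6 | ⟨P, hP⟩
    · exact h6
    · exact absurd hP (h3 z (JE.lt_asymm hN h4) (JE.lt_asymm hN h5) P)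

end

end Run7.h46
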