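import Mathlib

namespace Run7.h46

open FirstOrder FirstOrder.Language

/-- A raw relational structure: an interpretation of every relation symbol. -/
def Str (L : FirstOrder.Language.{0, 0}) (M : Type) : Type :=
  ∀ R : (Σ n, L.Relations n), (Fin R.1 → M) → Prop

variable {L : FirstOrder.Language.{0, 0}}

/-- Pull back a raw structure along a map. -/
def Str.pull {M N : Type} (A : Str L M) (f : N → M) : Str L N := fun R x => A R (f ∘ x)

@[simp] theorem Str.pull_apply {M N : Type} (A : Str L M) (f : N → M) (R : Σ n, L.Relations n)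
    (x : Fin R.1 → N) : A.pull f R x ↔ A R (f ∘ x) := Iff.rfl

theorem Str.pull_pull {M N P : Type} (A : Str L M) (f : N → M) (g : P → N) :
    (A.pull f).pull g = A.pull (f ∘ g) := rfl

/-- The Mathlib structure given by a raw structure. -/
@[reducible] def toS [L.IsRelational] {M : Type} (A : Str L M) : L.Structure M where
  funMap := fun f _ => isEmptyElim f
  RelMap := fun R x => A ⟨_, R⟩ x

/-- The raw structure of a Mathlib structure. -/
def ofS (M : Type) [L.Structure M] : Str L M := fun R x => Structure.RelMap R.2 x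

/-- Every finite part of `A` embeds into `B`. -/
def FinEmb {M N : Type} (A : Str L M) (B : Str L N) : Prop :=
  ∀ s : Finset M, ∃ f : M → N, Set.InjOn f s ∧
    ∀ (R : Σ n, L.Relations n) (x : Fin R.1 → M), (∀ i, x i ∈ s) → (A R x ↔ B R (f ∘ x))

theorem FinEmb.trans {M N P : Type} {A : Str L M} {B : Str L N} {C : Str L P}
    (h1 : FinEmb A B) (h2 : FinEmb B C) : FinEmb A C := by
  classical
  intro s
  obtain ⟨f, hf, hf'⟩ := h1 s
  obtain ⟨g, hg, hg'⟩ := h2 (s.image f)
  refine ⟨g ∘ f, ?_, ?_⟩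
  · intro a ha b hb hab
    exact hf ha hb (hg (by simpa using ⟨a, ha, rfl⟩) (by simpa using ⟨b, hb, rfl⟩) hab)
  · intro R x hx
    rw [hf' R x hx, hg' R (f ∘ x) (fun i => Finset.mem_image_of_mem _ (hx i))]
    rfl

theorem FinEmb.of_injective {M N : Type} (A : Str L M) (f : N → M) (hf : Function.Injective f) :
    FinEmb (A.pull f) A := fun _ => ⟨f, hf.injOn, fun _ _ _ => Iff.rfl⟩

theorem FinEmb.refl {M : Type} (A : Str L M) : FinEmb A A :=
  FinEmb.of_injective A id Function.injective_id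

/-- A property of a raw structure with an assignment that is expressed by a formula. -/
def IsFO [L.IsRelational] (V : Type) (P : ∀ (N : Type), Str L N → (V → N) → Prop) : Prop :=
  ∃ φ : L.Formula V, ∀ (N : Type) (A : Str L N) (v : V → N),
    (@Formula.Realize L N (toS A) V φ v) ↔ P N A v

namespace IsFO

variable [L.IsRelational] {V W : Type}

theorem congr {P Q : ∀ (N : Type), Str L N → (V → N) → Prop} (h : IsFO V P)
    (hPQ : ∀ N A v, P N A v ↔ Q N A v) : IsFO V Q := by
  obtain ⟨φ, hφ⟩ := h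
  exact ⟨φ, fun N A v => (hφ N A v).trans (hPQ N A v)⟩

theorem not {P : ∀ (N : Type), Str L N → (V → N) → Prop} (h : IsFO V P) :
    IsFO V (fun N A v => ¬ P N A v) := by
  obtain ⟨φ, hφ⟩ := h
  refine ⟨φ.not, fun N A v => ?_⟩
  let _ := toS A
  rw [Formula.realize_not, hφ]

theorem and {P Q : ∀ (N : Type), Str L N → (V → N) → Prop} (h : IsFO V P) (h' : IsFO V Q) :
    IsFO V (fun N A v => P N A v ∧ Q N A v) := by
  obtain ⟨φ, hφ⟩ := h
  obtain ⟨ψ, hψ⟩ := h'
  refine ⟨φ ⊓ ψ, fun N A v => ?_⟩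
  let _ := toS A
  rw [Formula.realize_inf, hφ, hψ]

theorem or {P Q : ∀ (N : Type), Str L N → (V → N) → Prop} (h : IsFO V P) (h' : IsFO V Q) :
    IsFO V (fun N A v => P N A v ∨ Q N A v) := by
  obtain ⟨φ, hφ⟩ := h
  obtain ⟨ψ, hψ⟩ := h'
  refine ⟨φ ⊔ ψ, fun N A v => ?_⟩
  let _ := toS A
  rw [Formula.realize_sup, hφ, hψ]

theorem imp {P Q : ∀ (N : Type), Str L N → (V → N) → Prop} (h : IsFO V P) (h' : IsFO V Q) :
    IsFO V (fun N A v => P N A v → Q N A v) := by
  obtain ⟨φ, hφ⟩ := h
  obtain ⟨ψ, hψ⟩ := h'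
  refine ⟨φ.imp ψ, fun N A v => ?_⟩
  let _ := toS A
  rw [Formula.realize_imp, hφ, hψ]

theorem iff {P Q : ∀ (N : Type), Str L N → (V → N) → Prop} (h : IsFO V P) (h' : IsFO V Q) :
    IsFO V (fun N A v => (P N A v ↔ Q N A v)) := by
  obtain ⟨φ, hφ⟩ := h
  obtain ⟨ψ, hψ⟩ := h'
  refine ⟨φ.iff ψ, fun N A v => ?_⟩
  let _ := toS A
  rw [Formula.realize_iff, hφ, hψ]

theorem const (p : Prop) : IsFO (L := L) V (fun _ _ _ => p) := by
  by_cases hp : p
  · refine ⟨⊤, fun N A v => ?_⟩
    let _ := toS A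
    simp [hp]
  · refine ⟨⊥, fun N A v => ?_⟩
    let _ := toS A
    simp [hp]

theorem rel (R : Σ n, L.Relations n) (s : Fin R.1 → V) :
    IsFO V (fun _ A v => A R (v ∘ s)) := by
  refine ⟨R.2.formula (fun i => Term.var (s i)), fun N A v => ?_⟩
  let _ := toS A
  rw [Formula.realize_rel]
  rfl

theorem eq (a b : V) : IsFO (L := L) V (fun _ _ v => v a = v b) := by
  refine ⟨(Term.var a).equal (Term.var b), fun N A v => ?_⟩
  let _ := toS A
  rw [Formula.realize_equal]
  rfl

theorem finall {ι : Type} [Finite ι] {P : ι → ∀ (N : Type), Str L N → (V → N) → Prop}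
    (h : ∀ i, IsFO V (P i)) : IsFO V (fun N A v => ∀ i, P i N A v) := by
  choose φ hφ using h
  refine ⟨Formula.iInf φ, fun N A v => ?_⟩
  let _ := toS A
  rw [Formula.realize_iInf]
  exact forall_congr' fun i => hφ i N A v

theorem finex {ι : Type} [Finite ι] {P : ι → ∀ (N : Type), Str L N → (V → N) → Prop}
    (h : ∀ i, IsFO V (P i)) : IsFO V (fun N A v => ∃ i, P i N A v) := by
  choose φ hφ using h
  refine ⟨Formula.iSup φ, fun N A v => ?_⟩
  let _ := toS A
  rw [Formula.realize_iSup]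
  exact exists_congr fun i => hφ i N A v

theorem reindex {P : ∀ (N : Type), Str L N → (V → N) → Prop} (h : IsFO V P) (f : V → W) :
    IsFO W (fun N A v => P N A (v ∘ f)) := by
  obtain ⟨φ, hφ⟩ := h
  refine ⟨φ.relabel f, fun N A v => ?_⟩
  let _ := toS A
  rw [Formula.realize_relabel, hφ]

theorem all [Finite W] {Q : ∀ (N : Type), Str L N → (V → N) → (W → N) → Prop}
    (h : IsFO (V ⊕ W) (fun N A u => Q N A (u ∘ Sum.inl) (u ∘ Sum.inr))) :
    IsFO V (fun N A v => ∀ w : W → N, Q N A v w) := by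
  obtain ⟨φ, hφ⟩ := h
  refine ⟨φ.iAlls W, fun N A v => ?_⟩
  let _ := toS A
  rw [Formula.realize_iAlls]
  refine forall_congr' fun w => ?_
  have := hφ N A (Sum.elim v w)
  simpa using this

theorem ex [Finite W] {Q : ∀ (N : Type), Str L N → (V → N) → (W → N) → Prop}
    (h : IsFO (V ⊕ W) (fun N A u => Q N A (u ∘ Sum.inl) (u ∘ Sum.inr))) :
    IsFO V (fun N A v => ∃ w : W → N, Q N A v w) := by
  obtain ⟨φ, hφ⟩ := h
  refine ⟨φ.iExs W, fun N A v => ?_⟩
  let _ := toS A
  rw [Formula.realize_iExs]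
  refine exists_congr fun w => ?_
  have := hφ N A (Sum.elim v w)
  simpa using this

end IsFO

/-- First-order properties without free variables are invariant under elementary equivalence. -/
theorem iff_of_equiv [L.IsRelational] {P : ∀ (N : Type), Str L N → (Empty → N) → Prop}
    (h : IsFO Empty P) {N N' : Type} (A : Str L N) (A' : Str L N')
    (hAA : @ElementarilyEquivalent L N N' (toS A) (toS A')) :
    P N A default ↔ P N' A' default := by
  obtain ⟨φ, hφ⟩ := h
  rw [← hφ, ← hφ]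
  have := (@elementarilyEquivalent_iff L N N' (toS A) (toS A')).1 hAA φ
  exact this

end Run7.h46
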