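import Pool.Agent.Run7.h46.Limit

namespace Run7.h46

open Filter Function FirstOrder FirstOrder.Language

section

variable {L : FirstOrder.Language.{0, 0}} {K : Type} [LinearOrder K] {T : Type} (srt : T → K)
  {M N : Type}

theorem ext_equiv [Countable N] [Infinite N] (G : Finset ℕ) (a : ℕ → N) (ha : Set.InjOn a G) :
    ∃ e : ℕ ≃ N, ∀ g ∈ G, e g = a g := by
  classical
  let f : (G : Set ℕ) ↪ N := ⟨fun g => a g, fun g g' h => Subtype.ext (ha g.2 g'.2 h)⟩
  have h1 : Infinite ((G : Set ℕ)ᶜ : Set ℕ) := by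
    have := (G.finite_toSet).infinite_compl
    exact this.to_subtype
  have h2 : Infinite ((Set.range f)ᶜ : Set N) := by
    have := (Set.finite_range f).infinite_compl
    exact this.to_subtype
  obtain ⟨g, hg⟩ := Cardinal.extend_function f (nonempty_equiv_of_countable)
  exact ⟨g, fun x hx => hg ⟨x, hx⟩⟩

theorem ev_strictMonoOn {Q : Type} [LinearOrder Q] (S : Finset Q) (g : Q → ℕ) :
    ∀ᶠ h in (VL S.sort g : Filter (Q → ℕ)), StrictMonoOn h S := by
  filter_upwards [ev_pairwise S.sort (Finset.sort_nodup _ _) g] with h h2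
  have hsort := (S.sortedLT_sort).pairwise
  have hboth := List.Pairwise.and hsort h2
  have this : List.Pairwise (fun a b => (a < b → h a < h b) ∧ (b < a → h b < h a)) S.sort := by
    refine hboth.imp ?_
    rintro a b ⟨hab, hh⟩
    exact ⟨fun _ => hh, fun hba => absurd hba (not_lt.2 hab.le)⟩
  intro a ha b hb hab
  have hsym : Std.Symm (fun a b => (a < b → h a < h b) ∧ (b < a → h b < h a)) :=
    ⟨fun a b h => ⟨h.2, h.1⟩⟩
  exact (this.forall (by simpa using ha) (by simpa using hb) (ne_of_lt hab)).1 hab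

theorem pset_map_inl {n : ℕ} (f : M → N) (x : Fin n → Un M T) :
    pset srt (Sum.map f id ∘ x) = pset srt x := by
  ext p
  constructor
  · rintro ⟨i, q, t, hx, rfl⟩
    rcases h : x i with m | y
    · simp [h] at hx
    · simp only [comp_apply, h, Sum.map_inr, id, Sum.inr.injEq] at hx
      exact ⟨i, q, t, by rw [h, hx], rfl⟩
  · rintro ⟨i, q, t, hx, rfl⟩
    exact ⟨i, q, t, by simp [hx], rfl⟩

theorem act_map_comm (f : M → N) (g : Ps K → ℚ) (u : Un M T) :
    act srt g (Sum.map f id u) = Sum.map f id (act srt g u) := by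
  rcases u with m | y <;> rfl

theorem IsTemp.pull_inl {D : Str L (Un N T)} (hD : IsTemp srt D) (f : M → N) :
    IsTemp srt (D.pull (Sum.map f id : Un M T → Un N T)) := by
  intro R x g hg
  rw [Str.pull_apply, Str.pull_apply, hD R _ g (by rwa [pset_map_inl])]
  have : act srt g ∘ (Sum.map f id : Un M T → Un N T) ∘ x
      = (Sum.map f id : Un M T → Un N T) ∘ act srt g ∘ x := by
    funext i
    exact act_map_comm srt f g (x i)
  rw [this]

/-- Re-extraction: a template sitting inside a structure is recovered by the limit template. -/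
theorem lim_of_template {D : Str L (Un M T)} (hD : IsTemp srt D) (A : Str L N) (f : Un M T → N)
    (hf : D = A.pull f) :
    (lim srt A (fun i t => f (Sum.inr ((i : ℚ), t)))).pull
      (Sum.map (f ∘ Sum.inl) id : Un M T → Un N T) = D := by
  classical
  funext R x
  rw [eq_iff_iff, Str.pull_apply]
  have h0 := lim_eq srt A (fun i t => f (Sum.inr ((i : ℚ), t))) R
    ((Sum.map (f ∘ Sum.inl) id : Un M T → Un N T) ∘ x) (pset_finite srt x).toFinset (by
      rw [pset_map_inl]; simp)
  rw [h0]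
  have key : ∀ᶠ h in (VL ((pset_finite srt x).toFinset.sort) 0 : Filter (Ps K → ℕ)),
      (A R (evl srt (fun i t => f (Sum.inr ((i : ℚ), t))) h ∘
        ((Sum.map (f ∘ Sum.inl) id : Un M T → Un N T) ∘ x)) ↔ D R x) := by
    filter_upwards [ev_strictMonoOn (pset_finite srt x).toFinset (0 : Ps K → ℕ)] with h hh
    rw [hD R x (fun p => (h p : ℚ)) ?_]
    · rw [hf, Str.pull_apply]
      have : evl srt (fun i t => f (Sum.inr ((i : ℚ), t))) h ∘
        ((Sum.map (f ∘ Sum.inl) id : Un M T → Un N T) ∘ x) =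
          f ∘ act srt (fun p => (h p : ℚ)) ∘ x := by
        funext i
        rcases hx : x i with m | ⟨q, t⟩
        · simp [hx, evl]
        · simp [hx, evl]
      rw [this]
    · intro p hp p' hp' hpp
      have := hh (by simpa using hp) (by simpa using hp') hpp
      rw [mv, mv, mkp_lt]
      left
      exact_mod_cast this
  constructor
  · intro h1
    obtain ⟨h, hh1, hh2⟩ := (key.and h1).exists
    exact hh1.1 hh2
  · intro h1
    filter_upwards [key] with h hh
    exact hh.2 h1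

/-- Agreement of templates over a finite part of `M`. -/
def Agree (G : Finset ℕ) (D D' : Str L (Un ℕ T)) : Prop :=
  ∀ (R : Σ n, L.Relations n) (x : Fin R.1 → Un ℕ T), (∀ i m, x i = Sum.inl m → m ∈ G) →
    (D R x ↔ D' R x)

theorem Agree.mono {G G' : Finset ℕ} (h : G ⊆ G') {D D' : Str L (Un ℕ T)} (hA : Agree G' D D') :
    Agree G D D' := fun R x hx => hA R x (fun i m hi => h (hx i m hi))

theorem Agree.symm {G : Finset ℕ} {D D' : Str L (Un ℕ T)} (hA : Agree G D D') : Agree G D' D :=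
  fun R x hx => (hA R x hx).symm

theorem Agree.trans {G : Finset ℕ} {D D' D'' : Str L (Un ℕ T)} (hA : Agree G D D')
    (hA' : Agree G D' D'') : Agree G D D'' :=
  fun R x hx => (hA R x hx).trans (hA' R x hx)

theorem Agree.refl (G : Finset ℕ) (D : Str L (Un ℕ T)) : Agree G D D := fun _ _ _ => Iff.rfl

/-- The class of templates over `ℕ` whose finite parts embed into `B`. -/
def Cls (B : Str L ℕ) : Set (Str L (Un ℕ T)) := {D | IsTemp srt D ∧ FinEmb D B}

theorem Cls.pull_inl {B : Str L ℕ} {D : Str L (Un ℕ T)} (hD : D ∈ Cls srt B) (f : ℕ → ℕ)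
    (hf : Injective f) : D.pull (Sum.map f id : Un ℕ T → Un ℕ T) ∈ Cls srt B := by
  refine ⟨IsTemp.pull_inl srt hD.1 f, ?_⟩
  exact (FinEmb.of_injective D _ (Sum.map_injective.2 ⟨hf, injective_id⟩)).trans hD.2

theorem Cls.closed {B : Str L ℕ} {D : Str L (Un ℕ T)}
    (h : ∀ G : Finset ℕ, ∃ D' ∈ Cls srt B, Agree G D' D) : D ∈ Cls srt B := by
  classical
  constructor
  · intro R x g hg
    let G : Finset ℕ := Finset.univ.biUnion fun i => match x i with
      | Sum.inl m => {m}
      | Sum.inr _ => ∅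
    obtain ⟨D', hD', hA⟩ := h G
    have hG : ∀ i m, x i = Sum.inl m → m ∈ G := by
      intro i m him
      rw [Finset.mem_biUnion]
      exact ⟨i, Finset.mem_univ _, by simp [him]⟩
    rw [← hA R x hG, ← hA R (act srt g ∘ x) (by
      intro i m him
      rcases hx : x i with m' | y
      · simp [hx] at him
        subst him
        exact hG i m' hx
      · simp [hx, act] at him)]
    exact hD'.1 R x g hg
  · intro s
    let G : Finset ℕ := s.biUnion fun u => match u with
      | Sum.inl m => {m}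
      | Sum.inr _ => ∅
    obtain ⟨D', hD', hA⟩ := h G
    obtain ⟨f, hf, hf'⟩ := hD'.2 s
    refine ⟨f, hf, fun R x hx => ?_⟩
    rw [← hf' R x hx]
    refine (hA R x ?_).symm
    intro i m him
    rw [Finset.mem_biUnion]
    exact ⟨x i, hx i, by simp [him]⟩

theorem exists_generic (B : Str L ℕ) {ι : Type} [Countable ι] [Nonempty ι]
    (U : ι → Set (Str L (Un ℕ T)))
    (hU : ∀ n D, D ∈ U n → ∃ G, ∀ D', Agree G D D' → D' ∈ U n)
    (D0 : Str L (Un ℕ T)) (hD0 : D0 ∈ Cls srt B) (G0 : Finset ℕ) :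
    ∃ D ∈ Cls srt B, Agree G0 D0 D ∧
      ∀ n, D ∈ U n ∨ ∃ G, ∀ D' ∈ Cls srt B, Agree G D D' → D' ∉ U n := by
  classical
  obtain ⟨e, he⟩ := exists_surjective_nat ι
  let St := {p : Str L (Un ℕ T) × Finset ℕ // p.1 ∈ Cls srt B}
  let P : ℕ → St → St → Prop := fun n s s' =>
    Agree s.1.2 s.1.1 s'.1.1 ∧ s.1.2 ⊆ s'.1.2 ∧ n ∈ s'.1.2 ∧
      ((∀ D'', Agree s'.1.2 s'.1.1 D'' → D'' ∈ U (e n)) ∨
        ∀ D'' ∈ Cls srt B, Agree s.1.2 s.1.1 D'' → D'' ∉ U (e n))
  have hstep : ∀ n s, ∃ s', P n s s' := by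
    rintro n ⟨⟨D, G⟩, hD⟩
    by_cases h : ∃ D' ∈ Cls srt B, Agree G D D' ∧ D' ∈ U (e n)
    · obtain ⟨D', hD', hA, hU'⟩ := h
      obtain ⟨G', hG'⟩ := hU _ _ hU'
      refine ⟨⟨⟨D', G ∪ G' ∪ {n}⟩, hD'⟩, hA, ?_, by simp, Or.inl ?_⟩
      · intro x hx; exact Finset.mem_union_left _ (Finset.mem_union_left _ hx)
      · intro D'' hA''
        refine hG' _ (hA''.mono ?_)
        intro x hx; exact Finset.mem_union_left _ (Finset.mem_union_right _ hx)
    · push Not at h
      refine ⟨⟨⟨D, G ∪ {n}⟩, hD⟩, Agree.refl _ _, ?_, by simp, Or.inr ?_⟩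
      · intro x hx; exact Finset.mem_union_left _ hx
      · exact fun D'' hD'' hA'' => h D'' hD'' hA''
  choose F hF using hstep
  let S : ℕ → St := fun n => Nat.rec ⟨⟨D0, G0⟩, hD0⟩ (fun n s => F n s) n
  have hS : ∀ n, P n (S n) (S (n + 1)) := fun n => hF n (S n)
  have hmono : ∀ n k, n ≤ k → (S n).1.2 ⊆ (S k).1.2 ∧ Agree (S n).1.2 (S n).1.1 (S k).1.1 := by
    intro n k hnk
    induction k, hnk using Nat.le_induction with
    | base => exact ⟨subset_rfl, Agree.refl _ _⟩
    | succ k _ ih =>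
      refine ⟨ih.1.trans (hS k).2.1, ih.2.trans ((hS k).1.mono ih.1)⟩
  let D : Str L (Un ℕ T) := fun R x => ∀ᶠ n in atTop, (S n).1.1 R x
  have hD : ∀ n, Agree (S n).1.2 (S n).1.1 D := by
    intro n R x hx
    constructor
    · intro h
      filter_upwards [eventually_ge_atTop n] with k hk
      exact ((hmono n k hk).2 R x hx).1 h
    · intro h
      obtain ⟨k, hk, hk'⟩ := (h.and (eventually_ge_atTop n)).exists
      exact ((hmono n k hk').2 R x hx).2 hk
  have hcov : ∀ G : Finset ℕ, ∃ n, G ⊆ (S n).1.2 := by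
    intro G
    refine ⟨G.sup id + 1, fun x hx => ?_⟩
    have h1 : x ≤ G.sup id := Finset.le_sup (f := id) hx
    exact (hmono (x + 1) (G.sup id + 1) (by omega)).1 ((hS x).2.2.1)
  refine ⟨D, ?_, (hD 0), fun i => ?_⟩
  · refine Cls.closed srt fun G => ?_
    obtain ⟨n, hn⟩ := hcov G
    exact ⟨_, (S n).2, (hD n).mono hn⟩
  · obtain ⟨n, rfl⟩ := he i
    rcases (hS n).2.2.2 with h | h
    · left
      exact h D (hD (n + 1))
    · right
      refine ⟨(S n).1.2, fun D' hD' hA => h D' hD' ((hD n).trans hA)⟩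

open Classical in
/-- Joint embedding: any template in the class can be modified away from a finite part so that it
contains a given finite part of `B`. -/
theorem exists_joint [Finite L.Symbols] [Nonempty T] (B : Str L ℕ) [Countable T]
    (D : Str L (Un ℕ T)) (hD : D ∈ Cls srt B) (G s : Finset ℕ) :
    ∃ D' ∈ Cls srt B, Agree G D D' ∧ ∃ f : ℕ → ℕ, Set.InjOn f s ∧
      ∀ (R : Σ n, L.Relations n) (x : Fin R.1 → ℕ), (∀ i, x i ∈ s) →
        (B R x ↔ D' R (Sum.inl ∘ f ∘ x)) := by
  choose φ hφ hφ' using hD.2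
  let 𝒰 : Ultrafilter (Finset (Un ℕ T)) := Ultrafilter.of atTop
  have hcone : ∀ F : Finset (Un ℕ T), ∀ᶠ F' in (𝒰 : Filter (Finset (Un ℕ T))), F ⊆ F' :=
    fun F => Ultrafilter.of_le atTop (eventually_ge_atTop F)
  let s2 : Set ℕ := {v | v ∈ s ∧ ∀ u, ∀ᶠ F in (𝒰 : Filter (Finset (Un ℕ T))), φ F u ≠ v}
  let Nn := Un ℕ T ⊕ s2
  let ψ : Finset (Un ℕ T) → Nn → ℕ := fun F => Sum.elim (φ F) (fun v => v.1)
  let A : Str L Nn := fun R x => ∀ᶠ F in (𝒰 : Filter (Finset (Un ℕ T))), B R (ψ F ∘ x)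
  have hψ : ∀ a b : Nn, a ≠ b → ∀ᶠ F in (𝒰 : Filter (Finset (Un ℕ T))), ψ F a ≠ ψ F b := by
    rintro (u | v) (u' | v') hne
    · filter_upwards [hcone {u, u'}] with F hF
      intro h
      exact hne (by rw [hφ F (hF (by simp)) (hF (by simp)) h])
    · exact v'.2.2 u
    · filter_upwards [v.2.2 u'] with F hF h
      exact hF h.symm
    · refine Eventually.of_forall fun F h => hne ?_
      rw [Subtype.ext (h : v.1 = v'.1)]
  have hAB : FinEmb A B := by
    intro s'
    have e1 : ∀ᶠ F in (𝒰 : Filter (Finset (Un ℕ T))), ∀ p : s' × s', p.1 ≠ p.2 →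
        ψ F p.1 ≠ ψ F p.2 := by
      rw [eventually_all]
      rintro ⟨a, b⟩
      by_cases hab : a = b
      · exact Eventually.of_forall fun F h => absurd hab h
      · filter_upwards [hψ a b (fun h => hab (Subtype.ext h))] with F hF _
        exact hF
    have e2 : ∀ᶠ F in (𝒰 : Filter (Finset (Un ℕ T))),
        ∀ p : (Σ R : (Σ n, L.Relations n), (Fin R.1 → s')),
          (A p.1 (fun i => (p.2 i : Nn)) ↔ B p.1 (ψ F ∘ fun i => (p.2 i : Nn))) := by
      have hfin : Finite (Σ n, L.Relations n) :=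
        Finite.of_injective (fun R : (Σ n, L.Relations n) => (Sum.inr R : L.Symbols))
          (fun a b h => Sum.inr_injective h)
      rw [eventually_all]
      rintro ⟨R, x⟩
      by_cases h : A R (fun i => (x i : Nn))
      · filter_upwards [h] with F hF
        exact ⟨fun _ => hF, fun _ => h⟩
      · have : ∀ᶠ F in (𝒰 : Filter (Finset (Un ℕ T))), ¬ B R (ψ F ∘ fun i => (x i : Nn)) := by
          rw [Ultrafilter.eventually_not]
          exact h
        filter_upwards [this] with F hF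
        exact ⟨fun h1 => absurd h1 h, fun h1 => absurd h1 hF⟩
    obtain ⟨F, hF1, hF2⟩ := (e1.and e2).exists
    refine ⟨ψ F, ?_, ?_⟩
    · intro a ha b hb hab
      by_contra hne
      exact hF1 ⟨⟨a, ha⟩, ⟨b, hb⟩⟩ (fun h => hne (congrArg Subtype.val h)) hab
    · intro R x hx
      exact hF2 ⟨R, fun i => ⟨x i, hx i⟩⟩
  have hDA : D = A.pull Sum.inl := by
    funext R x
    rw [eq_iff_iff, Str.pull_apply]
    have : ∀ᶠ F in (𝒰 : Filter (Finset (Un ℕ T))), (D R x ↔ B R (ψ F ∘ Sum.inl ∘ x)) := by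
      filter_upwards [hcone (Finset.univ.image x)] with F hF
      exact hφ' F R x (fun i => hF (by simp))
    constructor
    · intro h
      filter_upwards [this] with F hF
      exact hF.1 h
    · intro h
      obtain ⟨F, hF, hF'⟩ := (this.and h).exists
      exact hF.2 hF'
  let c : ℕ → T → Nn := fun i t => Sum.inl (Sum.inr ((i : ℚ), t))
  have hc : Injective (fun p : ℕ × T => c p.1 p.2) := by
    rintro ⟨i, t⟩ ⟨i', t'⟩ h
    have h1 := Sum.inr_injective (Sum.inl_injective h)
    rw [Prod.mk.injEq, Nat.cast_inj] at h1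
    rw [Prod.mk.injEq]
    exact h1
  have hlimN := lim_finEmb srt A c hc
  have hlimT := lim_isTemp srt A c
  have hlimD := lim_of_template srt hD.1 A Sum.inl hDA
  -- copy of s
  have hw : ∀ v : ℕ, ∃ w : Nn, v ∈ s → ∀ᶠ F in (𝒰 : Filter (Finset (Un ℕ T))), ψ F w = v := by
    intro v
    by_cases hv : v ∈ s
    · by_cases h : ∃ u, ∀ᶠ F in (𝒰 : Filter (Finset (Un ℕ T))), φ F u = v
      · obtain ⟨u, hu⟩ := h
        exact ⟨Sum.inl u, fun _ => hu⟩
      · refine ⟨Sum.inr ⟨v, hv, fun u => ?_⟩, fun _ => Eventually.of_forall fun F => rfl⟩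
        rw [Ultrafilter.eventually_not]
        exact fun hu => h ⟨u, hu⟩
    · exact ⟨Sum.inl (Sum.inl 0), fun h => absurd h hv⟩
  choose w hw using hw
  have : Infinite Nn := Infinite.of_injective (fun n : ℕ => (Sum.inl (Sum.inl n) : Nn))
    (fun a b h => Sum.inl_injective (Sum.inl_injective h))
  have : Countable Nn := inferInstance
  obtain ⟨j, hj⟩ := ext_equiv (N := Nn) G (fun g => Sum.inl (Sum.inl g)) (fun a _ b _ h =>
    Sum.inl_injective (Sum.inl_injective h))
  refine ⟨(lim srt A c).pull (Sum.map j id), ⟨IsTemp.pull_inl srt hlimT j,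
    (FinEmb.of_injective _ _ (Sum.map_injective.2 ⟨j.injective, injective_id⟩)).trans
      (hlimN.trans hAB)⟩, ?_, fun v => j.symm (w v), ?_, ?_⟩
  · intro R x hx
    rw [← hlimD]
    rw [Str.pull_apply, Str.pull_apply]
    have : (Sum.map ((Sum.inl : Un ℕ T → Nn) ∘ Sum.inl) id : Un ℕ T → Un Nn T) ∘ x
        = Sum.map j id ∘ x := by
      funext i
      rcases hxi : x i with m | y
      · simp only [comp_apply, hxi, Sum.map_inl]
        rw [hj m (hx i m hxi)]
      · simp [hxi]
    rw [this]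
  · intro v hv v' hv' h
    have h' : w v = w v' := j.symm.injective h
    obtain ⟨F, h1, h2⟩ := ((hw v hv).and (hw v' hv')).exists
    rw [← h1, ← h2, h']
  · intro R x hx
    rw [Str.pull_apply]
    have : Sum.map j id ∘ Sum.inl ∘ (fun v => j.symm (w v)) ∘ x
        = (Sum.inl ∘ (w ∘ x) : Fin R.1 → Un Nn T) := by
      funext i
      simp
    rw [this, lim_inl]
    have : ∀ᶠ F in (𝒰 : Filter (Finset (Un ℕ T))), ψ F ∘ w ∘ x = x := by
      have : ∀ᶠ F in (𝒰 : Filter (Finset (Un ℕ T))), ∀ i, ψ F (w (x i)) = x i := by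
        rw [eventually_all]
        exact fun i => hw (x i) (hx i)
      filter_upwards [this] with F hF
      funext i
      exact hF i
    constructor
    · intro h
      filter_upwards [this] with F hF
      rw [hF]; exact h
    · intro h
      obtain ⟨F, hF, hF'⟩ := (this.and h).exists
      rw [hF] at hF'
      exact hF'

end

end Run7.h46
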