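import Pool.Agent.Run7.h46.Cross

namespace Run7.h46

open Filter Function FirstOrder FirstOrder.Language

section

variable {L : FirstOrder.Language.{0, 0}}

theorem ODi.symm {B : Str L ℕ} {T : Type} {A A' : Set T} (h : ODi B T A A') : ODi B T A' A := by
  obtain ⟨D, hD, R, s, h1, h2, h3⟩ := h
  refine ⟨D, hD, R, fun i => Sum.map id Sum.swap (s i), ?_, ?_, ?_⟩
  · intro i t h
    rcases hs : s i with m | t' | t'
    · simp [hs] at h
    · simp [hs] at h
    · simp [hs] at h
      rw [← h]; exact h2 i t' hs
  · intro i t h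
    rcases hs : s i with m | t' | t'
    · simp [hs] at h
    · simp [hs] at h
      rw [← h]; exact h1 i t' hs
    · simp [hs] at h
  · have key : ∀ q q', sub2 (fun i => Sum.map id Sum.swap (s i)) q q' = sub2 s q' q := by
      intro q q'
      funext i
      rcases hs : s i with m | t' | t' <;> simp [sub2, hs]
    rw [key, key]
    exact fun h => h3 h.symm

theorem ODi.mono {B : Str L ℕ} {T : Type} {A A' A1 A1' : Set T} (h : ODi B T A A')
    (h1 : A ⊆ A1) (h2 : A' ⊆ A1') : ODi B T A1 A1' := by
  obtain ⟨D, hD, R, s, h3, h4, h5⟩ := h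
  exact ⟨D, hD, R, s, fun i t h => h1 (h3 i t h), fun i t h => h2 (h4 i t h), h5⟩

theorem ODi.nonempty_left {B : Str L ℕ} {T : Type} {A A' : Set T} (h : ODi B T A A') :
    A.Nonempty := by
  by_contra hA
  rw [Set.not_nonempty_iff_eq_empty] at hA
  subst hA
  obtain ⟨D, hD, R, s, h1, h2, h3⟩ := h
  apply h3
  apply hD.1.sim
  have h1' : ∀ i t, s i ≠ Sum.inr (Sum.inl t) := fun i t h => h1 i t h
  constructor
  · intro i
    rcases hs : s i with m | t' | t'
    · left; exact ⟨m, by simp [sub2, hs], by simp [sub2, hs]⟩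
    · exact absurd hs (h1' i t')
    · right; exact ⟨1, 0, t', by simp [sub2, hs], by simp [sub2, hs]⟩
  · intro i j a1 t1 a1' a2 t2 a2' e1 e2 e3 e4
    rcases hs : s i with m | t' | t'
    · simp [sub2, hs] at e1
    · exact absurd hs (h1' i t')
    rcases hs' : s j with m | t'' | t''
    · simp [sub2, hs'] at e3
    · exact absurd hs' (h1' j t'')
    simp only [sub2, hs, hs', Sum.inr.injEq, Prod.mk.injEq] at e1 e2 e3 e4
    rw [← e1.1, ← e2.1, ← e3.1, ← e4.1]
    exact ⟨fun h => absurd h (lt_irrefl _), fun _ => rfl⟩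

theorem ODi.nonempty_right {B : Str L ℕ} {T : Type} {A A' : Set T} (h : ODi B T A A') :
    A'.Nonempty := h.symm.nonempty_left

/-- The configuration used for coding. -/
structure Cfg (B : Str L ℕ) where
  K : Type
  lin : LinearOrder K
  finK : Finite K
  ka : K
  kb : K
  hab : ka ≤ kb
  hK : ∀ k, k = ka ∨ k = kb
  T : Type
  finT : Finite T
  srt : T → K
  R0 : Σ n, L.Relations n
  s0 : Fin R0.1 → ℕ ⊕ (T ⊕ T)
  hs1 : ∀ i t, s0 i = Sum.inr (Sum.inl t) → srt t = ka
  hs2 : ∀ i t, s0 i = Sum.inr (Sum.inr t) → srt t = kb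
  nea : ∃ t, srt t = ka
  neb : ∃ t, srt t = kb
  minb : ∀ A' : Set T, ODi B T {t | ∃ i, s0 i = Sum.inr (Sum.inl t)} A' →
    {t | srt t = kb}.ncard ≤ A'.ncard
  nnb : ∀ (k' : K) (A' : Set T), A' ⊆ {t | srt t = k'} →
    ODi B T {t | ∃ i, s0 i = Sum.inr (Sum.inl t)} A' →
      A'.ncard ≤ {t | srt t = kb}.ncard → k' = kb
  mina : ka ≠ kb → ∀ A' : Set T, ODi B T {t | ∃ i, s0 i = Sum.inr (Sum.inr t)} A' →
    {t | srt t = ka}.ncard ≤ A'.ncard
  nna : ka ≠ kb → ∀ (k' : K) (A' : Set T), A' ⊆ {t | srt t = k'} →
    ODi B T {t | ∃ i, s0 i = Sum.inr (Sum.inr t)} A' →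
      A'.ncard ≤ {t | srt t = ka}.ncard → k' = ka

attribute [instance] Cfg.lin Cfg.finK Cfg.finT

theorem exists_cfg (B : Str L ℕ) (T : Type) (hT : Finite T) (A A' : Set T) (h : ODi B T A A') :
    ∃ c : Cfg B, ∃ D ∈ Cls c.srt B, ¬ (D c.R0 (sub2 c.s0 0 1) ↔ D c.R0 (sub2 c.s0 1 0)) := by
  classical
  -- minimal size
  let P : ℕ → Prop := fun m => ∃ (T : Type) (_ : Finite T) (A A' : Set T), ODi B T A A' ∧
    A.ncard + A'.ncard = m
  have hP : ∃ m, P m := ⟨_, T, hT, A, A', h, rfl⟩
  let m := Nat.find hP
  have hmin : ∀ (T : Type) (_ : Finite T) (A A' : Set T), ODi B T A A' →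
      m ≤ A.ncard + A'.ncard := fun T hT A A' h => Nat.find_min' hP ⟨T, hT, A, A', h, rfl⟩
  clear h hT A A' T
  by_cases hg : ∃ (T : Type) (_ : Finite T) (A A' : Set T), ODi B T A A' ∧
    A.ncard + A'.ncard = m ∧ A ⊆ A'
  · -- one sort
    obtain ⟨T, hT, A, A', h, hcard, hsub⟩ := hg
    obtain ⟨D, hD, R, s, h1, h2, h3⟩ := h
    let ι : Un ℕ A' → Un ℕ T := Sum.map id (Prod.map id Subtype.val)
    have hι : Injective ι := Sum.map_injective.2 ⟨injective_id,
      injective_id.prodMap Subtype.val_injective⟩
    have hne : A'.Nonempty := ODi.nonempty_right ⟨D, hD, R, s, h1, h2, h3⟩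
    let s1 : Fin R.1 → ℕ ⊕ (A' ⊕ A') := fun i => match s i with
      | Sum.inl m => Sum.inl m
      | Sum.inr (Sum.inl t) => if ht : t ∈ A' then Sum.inr (Sum.inl ⟨t, ht⟩) else Sum.inl 0
      | Sum.inr (Sum.inr t) => if ht : t ∈ A' then Sum.inr (Sum.inr ⟨t, ht⟩) else Sum.inl 0
    have hs1 : ∀ q q', ι ∘ sub2 s1 q q' = sub2 s q q' := by
      intro q q'
      funext i
      rcases hs : s i with m | t' | t'
      · simp [sub2, s1, hs, ι]
      · have ht : t' ∈ A' := hsub (h1 i t' hs)
        simp [sub2, s1, hs, ht, ι]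
      · have ht : t' ∈ A' := h2 i t' hs
        simp [sub2, s1, hs, ht, ι]
    have hD1 : D.pull ι ∈ Cls (fun _ : A' => ()) B := by
      refine ⟨?_, (FinEmb.of_injective D ι hι).trans hD.2⟩
      intro R' x γ hγ
      rw [Str.pull_apply, Str.pull_apply]
      rw [hD.1 R' (ι ∘ x) γ]
      · have : act (fun _ => ()) γ ∘ ι ∘ x = ι ∘ act (fun _ => ()) γ ∘ x := by
          funext i
          rcases hx : x i with m | ⟨q, t⟩ <;> simp [hx, ι]
        rw [this]
      · have : pset (fun _ : T => ()) (ι ∘ x) = pset (fun _ : A' => ()) x := by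
          ext p
          constructor
          · rintro ⟨i, q, t, hx, rfl⟩
            rcases hxi : x i with m | ⟨q', t'⟩
            · simp [hxi, ι] at hx
            · simp only [comp_apply, hxi, ι, Sum.map_inr, Prod.map_apply, id, Sum.inr.injEq,
                Prod.mk.injEq] at hx
              exact ⟨i, q', t', hxi, by rw [hx.1]⟩
          · rintro ⟨i, q, t, hx, rfl⟩
            exact ⟨i, q, t, by simp [hx, ι], rfl⟩
        rw [this]
        exact hγ
    have himg : ∀ X : Set A', X.ncard = (Subtype.val '' X).ncard := fun X =>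
      (Set.ncard_image_of_injective X Subtype.val_injective).symm
    have hAcard : ({t : A' | ∃ i, s1 i = Sum.inr (Sum.inl t)}).ncard ≤ A.ncard := by
      rw [himg]
      apply Set.ncard_le_ncard _ (Set.toFinite _)
      rintro _ ⟨t, ⟨i, hi⟩, rfl⟩
      rcases hs : s i with m | t' | t'
      · simp [s1, hs] at hi
      · simp only [s1, hs] at hi
        split_ifs at hi with ht
        simp only [Sum.inr.injEq, Sum.inl.injEq] at hi
        rw [← hi]
        exact h1 i t' hs
      · simp only [s1, hs] at hi
        split_ifs at hi with ht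
        simp at hi
    have huniv : ({t : A' | (fun _ : A' => ()) t = ()} : Set A').ncard = A'.ncard := by
      have : ({t : A' | (fun _ : A' => ()) t = ()} : Set A') = Set.univ := by
        ext; simp
      rw [this, himg, Set.image_univ, Subtype.range_coe]
    refine ⟨{
      K := Unit
      lin := inferInstance
      finK := inferInstance
      ka := ()
      kb := ()
      hab := le_rfl
      hK := fun k => Or.inl rfl
      T := A'
      finT := inferInstance
      srt := fun _ => ()
      R0 := R
      s0 := s1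
      hs1 := fun _ _ _ => rfl
      hs2 := fun _ _ _ => rfl
      nea := ⟨⟨hne.some, hne.some_mem⟩, rfl⟩
      neb := ⟨⟨hne.some, hne.some_mem⟩, rfl⟩
      minb := ?_
      nnb := fun _ _ _ _ _ => rfl
      mina := fun h => absurd rfl h
      nna := fun h => absurd rfl h }, D.pull ι, hD1, ?_⟩
    · intro A1 hA1
      have := hmin A' inferInstance _ _ hA1
      rw [huniv]
      omega
    · change ¬ (D R (ι ∘ sub2 s1 0 1) ↔ D R (ι ∘ sub2 s1 1 0))
      rw [hs1, hs1]
      exact h3
  · -- two sorts
    obtain ⟨T, hT, A, A', h, hcard⟩ := Nat.find_spec hP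
    have hcard' : A.ncard + A'.ncard = m := hcard
    have hneA := h.nonempty_left
    have hneA' := h.nonempty_right
    obtain ⟨D, hD, R, s, h1, h2, h3⟩ := h
    have hg1 : ∀ (T : Type) (_ : Finite T) (A A' : Set T), ODi B T A A' →
      A.ncard + A'.ncard = m → ¬ A ⊆ A' := fun T hT A A' h h' h'' =>
        hg ⟨T, hT, A, A', h, h', h''⟩
    have hg2 : ∀ (T : Type) (_ : Finite T) (A A' : Set T), ODi B T A A' →
      A.ncard + A'.ncard = m → ¬ A' ⊆ A := fun T hT A A' h h' h'' =>
        hg1 T hT A' A h.symm (by omega) h''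
    have := countable_Ps Bool
    obtain ⟨e, he⟩ := exists_embQ (Ps Bool)
    let srt : A ⊕ A' → Bool := Sum.elim (fun _ => false) (fun _ => true)
    let cv : A ⊕ A' → T := Sum.elim Subtype.val Subtype.val
    let ι : Un ℕ (A ⊕ A') → Un ℕ T := fun u => match u with
      | Sum.inl m => Sum.inl m
      | Sum.inr (q, t) => Sum.inr (e (mkp q (srt t)), cv t)
    have hcv : ∀ t t', srt t = srt t' → cv t = cv t' → t = t' := by
      rintro (t | t) (t' | t') h h'
      · simp only [cv, Sum.elim_inl] at h'; rw [Subtype.ext h']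
      · simp [srt] at h
      · simp [srt] at h
      · simp only [cv, Sum.elim_inr] at h'; rw [Subtype.ext h']
    have hι : Injective ι := by
      rintro (m1 | ⟨q, t⟩) (m2 | ⟨q', t'⟩) hh
      · simp only [ι, Sum.inl.injEq] at hh; rw [hh]
      · simp [ι] at hh
      · simp [ι] at hh
      · simp only [ι, Sum.inr.injEq, Prod.mk.injEq] at hh
        have := he.injective hh.1
        rw [mkp_inj] at this
        rw [this.1, hcv t t' this.2 hh.2]
    let s1 : Fin R.1 → ℕ ⊕ ((A ⊕ A') ⊕ (A ⊕ A')) := fun i => match s i with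
      | Sum.inl m => Sum.inl m
      | Sum.inr (Sum.inl t) => if ht : t ∈ A then Sum.inr (Sum.inl (Sum.inl ⟨t, ht⟩))
          else Sum.inl 0
      | Sum.inr (Sum.inr t) => if ht : t ∈ A' then Sum.inr (Sum.inr (Sum.inr ⟨t, ht⟩))
          else Sum.inl 0
    have hs1 : ∀ q q', ι ∘ sub2 s1 q q' = sub2 s (e (mkp q false)) (e (mkp q' true)) := by
      intro q q'
      funext i
      rcases hs : s i with m | t' | t'
      · simp [sub2, s1, hs, ι]
      · have ht : t' ∈ A := h1 i t' hs
        simp [sub2, s1, hs, ht, ι, srt, cv]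
      · have ht : t' ∈ A' := h2 i t' hs
        simp [sub2, s1, hs, ht, ι, srt, cv]
    have hD1 : D.pull ι ∈ Cls srt B := by
      refine ⟨?_, (FinEmb.of_injective D ι hι).trans hD.2⟩
      intro R' x γ hγ
      rw [Str.pull_apply, Str.pull_apply]
      apply hD.1.sim
      constructor
      · intro i
        rcases hx : x i with m | ⟨q, t⟩
        · left; exact ⟨m, by simp [hx, ι], by simp [hx, ι]⟩
        · right
          exact ⟨e (mkp q (srt t)), e (mkp (γ (mkp q (srt t))) (srt t)), cv t, by simp [hx, ι],
            by simp [hx, ι]⟩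
      · intro i j a1 t1 a1' a2 t2 a2' e1 e2 e3 e4
        rcases hxi : x i with m | ⟨q, t⟩
        · simp [hxi, ι] at e1
        rcases hxj : x j with m | ⟨q', t'⟩
        · simp [hxj, ι] at e3
        simp only [comp_apply, hxi, hxj, ι, act_inr, Sum.inr.injEq, Prod.mk.injEq] at e1 e2 e3 e4
        obtain ⟨rfl, rfl⟩ := e1
        obtain ⟨rfl, -⟩ := e2
        obtain ⟨rfl, rfl⟩ := e3
        obtain ⟨rfl, -⟩ := e4
        have hi : mkp q (srt t) ∈ pset srt x := ⟨i, q, t, hxi, rfl⟩
        have hj : mkp q' (srt t') ∈ pset srt x := ⟨j, q', t', hxj, rfl⟩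
        constructor
        · intro hlt
          rw [mkp_lt] at hlt ⊢
          left
          rcases hlt with hlt | ⟨-, hlt⟩
          · exact he (hγ hi hj (he.lt_iff_lt.1 hlt))
          · simp at hlt
        · intro heq
          rw [mkp_inj] at heq
          have := he.injective heq.1
          rw [this]
          rw [mkp_inj] at this
          rw [this.2]
    refine ⟨{
      K := Bool
      lin := inferInstance
      finK := inferInstance
      ka := false
      kb := true
      hab := Bool.false_le _
      hK := fun k => by cases k <;> simp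
      T := A ⊕ A'
      finT := inferInstance
      srt := srt
      R0 := R
      s0 := s1
      hs1 := ?_
      hs2 := ?_
      nea := ⟨Sum.inl ⟨hneA.some, hneA.some_mem⟩, rfl⟩
      neb := ⟨Sum.inr ⟨hneA'.some, hneA'.some_mem⟩, rfl⟩
      minb := ?_
      nnb := ?_
      mina := ?_
      nna := ?_ }, D.pull ι, hD1, ?_⟩
    · intro i t ht
      rcases hs : s i with m | t' | t'
      · simp [s1, hs] at ht
      · simp only [s1, hs] at ht
        split_ifs at ht
        simp only [Sum.inr.injEq, Sum.inl.injEq] at ht
        rw [← ht]; rfl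
      · simp only [s1, hs] at ht
        split_ifs at ht
        simp at ht
    · intro i t ht
      rcases hs : s i with m | t' | t'
      · simp [s1, hs] at ht
      · simp only [s1, hs] at ht
        split_ifs at ht
        simp at ht
      · simp only [s1, hs] at ht
        split_ifs at ht
        simp only [Sum.inr.injEq] at ht
        rw [← ht]; rfl
    all_goals
      have hcA : ({t : A ⊕ A' | srt t = false} : Set (A ⊕ A')).ncard = A.ncard := by
        have : ({t : A ⊕ A' | srt t = false} : Set (A ⊕ A')) = Set.range Sum.inl := by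
          ext t
          rcases t with t | t <;> simp [srt]
        rw [this, ← Set.image_univ, Set.ncard_image_of_injective _ Sum.inl_injective,
          Set.ncard_univ]
        rfl
      have hcA' : ({t : A ⊕ A' | srt t = true} : Set (A ⊕ A')).ncard = A'.ncard := by
        have : ({t : A ⊕ A' | srt t = true} : Set (A ⊕ A')) = Set.range Sum.inr := by
          ext t
          rcases t with t | t <;> simp [srt]
        rw [this, ← Set.image_univ, Set.ncard_image_of_injective _ Sum.inr_injective,
          Set.ncard_univ]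
        rfl
      have hsub1 : {t : A ⊕ A' | ∃ i, s1 i = Sum.inr (Sum.inl t)} ⊆ {t | srt t = false} := by
        rintro t ⟨i, ht⟩
        rcases hs : s i with m | t' | t'
        · simp [s1, hs] at ht
        · simp only [s1, hs] at ht
          split_ifs at ht
          simp only [Sum.inr.injEq, Sum.inl.injEq] at ht
          rw [← ht]; rfl
        · simp only [s1, hs] at ht
          split_ifs at ht
          simp at ht
      have hsub2 : {t : A ⊕ A' | ∃ i, s1 i = Sum.inr (Sum.inr t)} ⊆ {t | srt t = true} := by
        rintro t ⟨i, ht⟩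
        rcases hs : s i with m | t' | t'
        · simp [s1, hs] at ht
        · simp only [s1, hs] at ht
          split_ifs at ht
          simp at ht
        · simp only [s1, hs] at ht
          split_ifs at ht
          simp only [Sum.inr.injEq] at ht
          rw [← ht]; rfl
    · intro A1 hA1
      change ({t : A ⊕ A' | srt t = true} : Set (A ⊕ A')).ncard ≤ A1.ncard
      have h4 := hmin (A ⊕ A') inferInstance _ _ (hA1.mono hsub1 subset_rfl)
      rw [hcA']
      rw [hcA] at h4
      omega
    · intro k' A1 hA1 hod hc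
      change A1.ncard ≤ ({t : A ⊕ A' | srt t = true} : Set (A ⊕ A')).ncard at hc
      by_contra hk
      have hk' : k' = false := by simpa using hk
      subst hk'
      have hod' := hod.mono hsub1 subset_rfl
      have h4 := hmin (A ⊕ A') inferInstance _ _ hod'
      rw [hcA'] at hc
      have h5 := h4
      rw [hcA] at h5
      exact hg2 _ inferInstance _ _ hod' (by rw [hcA]; omega) hA1
    · intro _ A1 hA1
      change ({t : A ⊕ A' | srt t = false} : Set (A ⊕ A')).ncard ≤ A1.ncard
      have h4 := hmin (A ⊕ A') inferInstance _ _ (hA1.mono hsub2 subset_rfl)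
      rw [hcA]
      rw [hcA'] at h4
      omega
    · intro _ k' A1 hA1 hod hc
      change A1.ncard ≤ ({t : A ⊕ A' | srt t = false} : Set (A ⊕ A')).ncard at hc
      by_contra hk
      have hk' : k' = true := by simpa using hk
      subst hk'
      have hod' := hod.mono hsub2 subset_rfl
      have h4 := hmin (A ⊕ A') inferInstance _ _ hod'
      rw [hcA] at hc
      have h5 := h4
      rw [hcA'] at h5
      exact hg2 _ inferInstance _ _ hod' (by rw [hcA']; omega) hA1
    · change ¬ (D R (ι ∘ sub2 s1 0 1) ↔ D R (ι ∘ sub2 s1 1 0))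
      rw [hs1, hs1]
      have hinv : ∀ a b a' b' : ℚ, (a < b ∧ a' < b') ∨ (b < a ∧ b' < a') →
          (D R (sub2 s a b) ↔ D R (sub2 s a' b')) := by
        intro a b a' b' hab
        apply hD.1.sim
        constructor
        · intro i
          rcases hs : s i with m | t' | t'
          · left; exact ⟨m, by simp [sub2, hs], by simp [sub2, hs]⟩
          · right; exact ⟨a, a', t', by simp [sub2, hs], by simp [sub2, hs]⟩
          · right; exact ⟨b, b', t', by simp [sub2, hs], by simp [sub2, hs]⟩
        · intro i j a1 t1 a1' a2 t2 a2' e1 e2 e3 e4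
          rcases hs : s i with m | t' | t'
          · simp [sub2, hs] at e1
          all_goals
            rcases hs' : s j with m | t'' | t''
            · simp [sub2, hs'] at e3
            all_goals
              simp only [sub2, hs, hs', Sum.inr.injEq, Prod.mk.injEq] at e1 e2 e3 e4
              rw [← e1.1, ← e2.1, ← e3.1, ← e4.1, mkp_lt, mkp_lt, mkp_inj]
              constructor
              · rintro (h | ⟨-, h⟩)
                · left
                  rcases hab with ⟨h5, h6⟩ | ⟨h5, h6⟩
                  all_goals first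
                    | exact h6
                    | exact absurd h (lt_irrefl _)
                    | exact absurd h (not_lt.2 h5.le)
                · simp at h
              · rintro ⟨h, -⟩
                rcases hab with ⟨h5, h6⟩ | ⟨h5, h6⟩
                all_goals first
                  | rfl
                  | exact absurd h (ne_of_lt h5)
                  | exact absurd h (ne_of_gt h5)
      rw [hinv _ _ 0 1 (Or.inl ⟨he (by rw [mkp_lt]; left; norm_num), by norm_num⟩),
        hinv (e (mkp 1 false)) (e (mkp 0 true)) 1 0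
          (Or.inr ⟨he (by rw [mkp_lt]; left; norm_num), by norm_num⟩)]
      exact h3

end

end Run7.h46
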