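import Pool.Agent.Run7.h46.Cls

namespace Run7.h46

open Filter Function FirstOrder FirstOrder.Language

section

variable {L : FirstOrder.Language.{0, 0}} {K : Type} [LinearOrder K] {T : Type} (srt : T → K)
  {M N : Type}

/-- Two tuples of a template universe with the same `M`-part, the same coordinates and the same
order pattern of positions. -/
def Sim {n : ℕ} (x x' : Fin n → Un M T) : Prop :=
  (∀ i, (∃ m, x i = Sum.inl m ∧ x' i = Sum.inl m) ∨
    (∃ q q' t, x i = Sum.inr (q, t) ∧ x' i = Sum.inr (q', t))) ∧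
  ∀ i j q1 t1 q1' q2 t2 q2', x i = Sum.inr (q1, t1) → x' i = Sum.inr (q1', t1) →
    x j = Sum.inr (q2, t2) → x' j = Sum.inr (q2', t2) →
    (mkp q1 (srt t1) < mkp q2 (srt t2) → mkp q1' (srt t1) < mkp q2' (srt t2)) ∧
      (mkp q1 (srt t1) = mkp q2 (srt t2) → q1' = q2')

theorem IsTemp.sim {D : Str L (Un M T)} (hD : IsTemp srt D) {R : Σ n, L.Relations n}
    {x x' : Fin R.1 → Un M T} (h : Sim srt x x') : D R x ↔ D R x' := by
  classical
  obtain ⟨h1, h2⟩ := h
  let Q : Ps K → ℚ → Prop := fun p q' => ∃ i q t, x i = Sum.inr (q, t) ∧ x' i = Sum.inr (q', t) ∧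
    p = mkp q (srt t)
  let g : Ps K → ℚ := fun p => if h : ∃ q', Q p q' then h.choose else 0
  have hg : ∀ i q t q', x i = Sum.inr (q, t) → x' i = Sum.inr (q', t) →
      g (mkp q (srt t)) = q' := by
    intro i q t q' hx hx'
    have hex : ∃ q', Q (mkp q (srt t)) q' := ⟨q', i, q, t, hx, hx', rfl⟩
    have : g (mkp q (srt t)) = hex.choose := by simp only [g]; rw [dif_pos hex]
    rw [this]
    obtain ⟨j, q2, t2, hx2, hx2', he⟩ := hex.choose_spec
    exact ((h2 i j q t q' q2 t2 _ hx hx' hx2 hx2').2 he).symm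
  rw [hD R x g ?_]
  · have : act srt g ∘ x = x' := by
      funext i
      rcases h1 i with ⟨m, hm, hm'⟩ | ⟨q, q', t, hq, hq'⟩
      · simp [hm, hm']
      · simp only [comp_apply, hq, hq', act_inr]
        rw [hg i q t q' hq hq']
    rw [this]
  · rintro p ⟨i, q, t, hx, rfl⟩ p' ⟨j, q2, t2, hx2, rfl⟩ hlt
    rcases h1 i with ⟨m, hm, -⟩ | ⟨q0, q', t0, hq, hq'⟩
    · rw [hm] at hx; simp at hx
    rcases h1 j with ⟨m, hm, -⟩ | ⟨q20, q2', t20, hq2, hq2'⟩
    · rw [hm] at hx2; simp at hx2
    rw [hx] at hq
    rw [hx2] at hq2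
    simp only [Sum.inr.injEq, Prod.mk.injEq] at hq hq2
    obtain ⟨rfl, rfl⟩ := hq
    obtain ⟨rfl, rfl⟩ := hq2
    rw [mv, mv, hg i q t q' hx hq', hg j q2 t2 q2' hx2 hq2']
    exact (h2 i j q t q' q2 t2 q2' hx hq' hx2 hq2').1 hlt

/-- substitute two positions in a pattern -/
def sub2 {n : ℕ} (s : Fin n → M ⊕ (T ⊕ T)) (q q' : ℚ) : Fin n → Un M T := fun i =>
  match s i with
  | Sum.inl m => Sum.inl m
  | Sum.inr (Sum.inl t) => Sum.inr (q, t)
  | Sum.inr (Sum.inr t) => Sum.inr (q', t)

/-- Order dependence between coordinates in `A` and `A'` in some one-sorted template. -/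
def ODi (B : Str L ℕ) (T : Type) (A A' : Set T) : Prop :=
  ∃ D ∈ Cls (fun _ : T => ()) B, ∃ (R : Σ n, L.Relations n) (s : Fin R.1 → ℕ ⊕ (T ⊕ T)),
    (∀ i t, s i = Sum.inr (Sum.inl t) → t ∈ A) ∧ (∀ i t, s i = Sum.inr (Sum.inr t) → t ∈ A') ∧
    ¬ (D R (sub2 s 0 1) ↔ D R (sub2 s 1 0))

/-- substitute one position in a pattern with parameters -/
def sub1 {n : ℕ} (y : Fin n → Un M T ⊕ T) (q : ℚ) : Fin n → Un M T := fun i =>
  match y i with
  | Sum.inl u => u
  | Sum.inr t => Sum.inr (q, t)

theorem exists_embQ (Q : Type) [LinearOrder Q] [Countable Q] : ∃ e : Q → ℚ, StrictMono e := by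
  obtain ⟨f⟩ := Order.embedding_from_countable_to_dense Q ℚ
  exact ⟨f, f.strictMono⟩

theorem exists_embIoo (Q : Type) [LinearOrder Q] [Countable Q] (a b : ℚ) (hab : a < b) :
    ∃ e : Q → ℚ, StrictMono e ∧ ∀ q, a < e q ∧ e q < b := by
  have : Nontrivial (Set.Ioo a b) := by
    obtain ⟨c, h1, h2⟩ := exists_between hab
    obtain ⟨d, h3, h4⟩ := exists_between h2
    exact ⟨⟨⟨c, h1, h2⟩, ⟨d, h1.trans h3, h4⟩, fun h => h3.ne (congrArg Subtype.val h)⟩⟩
  obtain ⟨f⟩ := Order.embedding_from_countable_to_dense Q (Set.Ioo a b)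
  exact ⟨fun q => f q, fun x y h => f.strictMono h, fun q => (f q).2⟩

/-- Step 2 of the crossing lemma: a purely combinatorial statement. -/
theorem cross_comb (Z : Finset ℚ) (f : ℚ → Prop)
    (hf : ∀ r r', r < r' → (∀ z ∈ Z, ¬ (r ≤ z ∧ z ≤ r')) → (f r ↔ f r')) :
    ∀ (n : ℕ) (r1 r2 : ℚ), (Z.filter (fun z => r1 < z ∧ z < r2)).card = n → r1 < r2 → r1 ∉ Z →
      r2 ∉ Z → ¬ (f r1 ↔ f r2) →
      ∃ z ∈ Z, ∃ a b, r1 ≤ a ∧ a < z ∧ z < b ∧ b ≤ r2 ∧ (∀ z' ∈ Z, a ≤ z' → z' ≤ b → z' = z) ∧
        ¬ (f a ↔ f b) := by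
  intro n
  induction n with
  | zero =>
    intro r1 r2 hn h12 h1 h2 hne
    exfalso
    apply hne
    apply hf r1 r2 h12
    intro z hz hh
    have hz1 : r1 ≠ z := fun h => h1 (h ▸ hz)
    have hz2 : z ≠ r2 := fun h => h2 (h ▸ hz)
    have : z ∈ Z.filter (fun z => r1 < z ∧ z < r2) := by
      rw [Finset.mem_filter]
      exact ⟨hz, lt_of_le_of_ne hh.1 hz1, lt_of_le_of_ne hh.2 hz2⟩
    rw [Finset.card_eq_zero.1 hn] at this
    simp at this
  | succ n ih =>
    intro r1 r2 hn h12 h1 h2 hne
    have hnonempty : (Z.filter (fun z => r1 < z ∧ z < r2)).Nonempty := by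
      rw [← Finset.card_pos, hn]; omega
    set W := Z.filter (fun z => r1 < z ∧ z < r2) with hW
    let z := W.min' hnonempty
    have hzW : z ∈ W := Finset.min'_mem _ _
    have hz := Finset.mem_filter.1 hzW
    -- choose b just above z
    obtain ⟨b, hb1, hb2, hb3⟩ : ∃ b, z < b ∧ b < r2 ∧ ∀ z' ∈ Z, z' ≤ b → z' ≤ z ∨ r2 < z' := by
      let V := insert r2 (Z.filter (fun z' => z < z'))
      have hV : V.Nonempty := ⟨r2, Finset.mem_insert_self _ _⟩
      let v := V.min' hV
      have hv : z < v := by
        have := Finset.min'_mem V hV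
        rcases Finset.mem_insert.1 this with h | h
        · have : v = r2 := h
          rw [this]; exact hz.2.2
        · exact (Finset.mem_filter.1 h).2
      obtain ⟨b, hb1, hb2⟩ := exists_between hv
      refine ⟨b, hb1, lt_of_lt_of_le hb2 (Finset.min'_le _ _ (Finset.mem_insert_self _ _)), ?_⟩
      intro z' hz' hz'b
      left
      by_contra hcon
      push Not at hcon
      have : v ≤ z' := Finset.min'_le _ _ (Finset.mem_insert_of_mem (Finset.mem_filter.2 ⟨hz', hcon⟩))
      exact absurd (lt_of_lt_of_le hb2 this) (not_lt.2 hz'b)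
    have huniq : ∀ z' ∈ Z, r1 ≤ z' → z' ≤ b → z' = z := by
      intro z' hz' h1' h2'
      rcases hb3 z' hz' h2' with h | h
      · apply le_antisymm h
        apply Finset.min'_le
        rw [hW, Finset.mem_filter]
        refine ⟨hz', lt_of_le_of_ne h1' (fun h => h1 (h ▸ hz')), ?_⟩
        exact lt_of_le_of_lt h hz.2.2
      · exact absurd (h.trans_le h2') (not_lt.2 hb2.le)
    by_cases hc : f r1 ↔ f b
    · have hbZ : b ∉ Z := by
        intro hbZ
        rcases hb3 b hbZ le_rfl with h | h
        · exact absurd h (not_le.2 hb1)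
        · exact absurd h (not_lt.2 hb2.le)
      have hcard : (Z.filter (fun z => b < z ∧ z < r2)).card = n := by
        have : Z.filter (fun z => b < z ∧ z < r2) = W.erase z := by
          ext z'
          simp only [hW, Finset.mem_filter, Finset.mem_erase]
          constructor
          · rintro ⟨h3, h4, h5⟩
            refine ⟨?_, h3, ?_, h5⟩
            · rintro rfl; exact absurd h4 (not_lt.2 hb1.le)
            · exact (hz.2.1.trans hb1).trans h4
          · rintro ⟨h3, h4, h5, h6⟩
            refine ⟨h4, ?_, h6⟩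
            by_contra hcon
            exact h3 (huniq z' h4 h5.le (not_lt.1 hcon))
        rw [this, Finset.card_erase_of_mem hzW, hn]
        simp
      obtain ⟨z', hz', a', b', h3, h4, h5, h6, h7, h8⟩ := ih b r2 hcard hb2 hbZ h2
        (fun h => hne (hc.trans h))
      exact ⟨z', hz', a', b', (hz.2.1.trans hb1).le.trans h3, h4, h5, h6, h7, h8⟩
    · exact ⟨z, hz.1, r1, b, le_rfl, hz.2.1, hb1, hb2.le, huniq, hc⟩

theorem sub1_pset {n : ℕ} (y : Fin n → Un M T ⊕ T) (q : ℚ) (k : K)
    (hk : ∀ i t, y i = Sum.inr t → srt t = k) (p : Ps K) (hp : p ∈ pset srt (sub1 y q)) :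
    p = mkp q k ∨ ∃ i q' t, y i = Sum.inl (Sum.inr (q', t)) ∧ p = mkp q' (srt t) := by
  obtain ⟨i, q', t, hx, rfl⟩ := hp
  rcases hy : y i with u | t'
  · simp only [sub1, hy] at hx
    right
    exact ⟨i, q', t, by rw [hy, hx], rfl⟩
  · simp only [sub1, hy, Sum.inr.injEq, Prod.mk.injEq] at hx
    left
    rw [← hx.1, ← hx.2, hk i t' hy]

theorem countable_Ps (K : Type) [Countable K] : Countable (Ps K) :=
  inferInstanceAs (Countable (ℚ × K))

/-- The crossing lemma. -/
theorem crossing [Countable K] [Countable T] {B : Str L ℕ} {D : Str L (Un ℕ T)}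
    (hD : D ∈ Cls srt B)
    (R : Σ n, L.Relations n) (y : Fin R.1 → Un ℕ T ⊕ T) (k : K)
    (hk : ∀ i t, y i = Sum.inr t → srt t = k) (q1 q2 : ℚ) (h12 : q1 < q2)
    (h1 : ∀ i t, y i = Sum.inl (Sum.inr (q1, t)) → srt t ≠ k)
    (h2 : ∀ i t, y i = Sum.inl (Sum.inr (q2, t)) → srt t ≠ k)
    (hne : ¬ (D R (sub1 y q1) ↔ D R (sub1 y q2))) :
    ∃ (q : ℚ) (k' : K), mkp q1 k < mkp q k' ∧ mkp q k' < mkp q2 k ∧
      ODi B T {t | ∃ i, y i = Sum.inr t} {t | srt t = k' ∧ ∃ i, y i = Sum.inl (Sum.inr (q, t))} := by
  classical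
  have := countable_Ps K
  obtain ⟨e, he⟩ := exists_embQ (Ps K)
  -- transformed pattern
  let y' : Fin R.1 → Un ℕ T ⊕ T := fun i => Sum.map (act srt e) id (y i)
  have hy'k : ∀ i t, y' i = Sum.inr t → srt t = k := by
    intro i t h
    rcases hy : y i with u | t'
    · simp [y', hy] at h
    · simp [y', hy] at h
      rw [← h]; exact hk i t' hy
  have hf1 : ∀ q, D R (sub1 y q) ↔ D R (sub1 y' (e (mkp q k))) := by
    intro q
    rw [hD.1 R (sub1 y q) e (fun p _ p' _ h => by
      rw [mv, mv, mkp_lt]; exact Or.inl (he h))]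
    have : act srt e ∘ sub1 y q = sub1 y' (e (mkp q k)) := by
      funext i
      rcases hy : y i with u | t'
      · simp [y', hy, sub1]
      · simp [y', hy, sub1, hk i t' hy]
    rw [this]
  -- rational coordinates of parameters
  let Z : Finset ℚ := Finset.univ.biUnion fun i => match y' i with
    | Sum.inl (Sum.inr (q, _)) => {q}
    | _ => ∅
  have hZ : ∀ i q t, y' i = Sum.inl (Sum.inr (q, t)) → q ∈ Z := by
    intro i q t h
    rw [Finset.mem_biUnion]
    exact ⟨i, Finset.mem_univ _, by simp [h]⟩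
  have hZ' : ∀ z ∈ Z, ∃ i t, y' i = Sum.inl (Sum.inr (z, t)) := by
    intro z hz
    rw [Finset.mem_biUnion] at hz
    obtain ⟨i, -, hi⟩ := hz
    rcases hy : y' i with (m | ⟨q, t⟩) | t
    · simp [hy] at hi
    · simp [hy] at hi
      exact ⟨i, t, by rw [hy, hi]⟩
    · simp [hy] at hi
  -- back to y
  have hback : ∀ i z t, y' i = Sum.inl (Sum.inr (z, t)) → ∃ q, y i = Sum.inl (Sum.inr (q, t)) ∧
      z = e (mkp q (srt t)) := by
    intro i z t h
    rcases hy : y i with (m | ⟨q, t'⟩) | t'
    · simp [y', hy] at h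
    · simp only [y', hy, Sum.map_inl, act_inr, Sum.inl.injEq, Sum.inr.injEq, Prod.mk.injEq] at h
      obtain ⟨h3, rfl⟩ := h
      exact ⟨q, rfl, h3.symm⟩
    · simp [y', hy] at h
  have hr1 : e (mkp q1 k) ∉ Z := by
    intro h
    obtain ⟨i, t, hi⟩ := hZ' _ h
    obtain ⟨q, hq, heq⟩ := hback i _ t hi
    have := he.injective heq
    rw [mkp_inj] at this
    obtain ⟨rfl, h4⟩ := this
    exact h1 i t hq h4.symm
  have hr2 : e (mkp q2 k) ∉ Z := by
    intro h
    obtain ⟨i, t, hi⟩ := hZ' _ h
    obtain ⟨q, hq, heq⟩ := hback i _ t hi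
    have := he.injective heq
    rw [mkp_inj] at this
    obtain ⟨rfl, h4⟩ := this
    exact h2 i t hq h4.symm
  have hr12 : e (mkp q1 k) < e (mkp q2 k) := he (by rw [mkp_lt]; exact Or.inl h12)
  have hinv : ∀ r r', r < r' → (∀ z ∈ Z, ¬ (r ≤ z ∧ z ≤ r')) →
      (D R (sub1 y' r) ↔ D R (sub1 y' r')) := by
    intro r r' hrr hz
    apply hD.1.sim
    constructor
    · intro i
      rcases hy : y' i with (m | ⟨q, t⟩) | t
      · left; exact ⟨m, by simp [sub1, hy], by simp [sub1, hy]⟩
      · right; exact ⟨q, q, t, by simp [sub1, hy], by simp [sub1, hy]⟩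
      · right; exact ⟨r, r', t, by simp [sub1, hy], by simp [sub1, hy]⟩
    · intro i j a1 t1 a1' a2 t2 a2' e1 e2 e3 e4
      rcases hyi : y' i with (m | ⟨q, t⟩) | t
      · simp [sub1, hyi] at e1
      · rcases hyj : y' j with (m' | ⟨q', t'⟩) | t'
        · simp [sub1, hyj] at e3
        · simp only [sub1, hyi, Sum.inr.injEq, Prod.mk.injEq] at e1 e2
          simp only [sub1, hyj, Sum.inr.injEq, Prod.mk.injEq] at e3 e4
          obtain ⟨rfl, rfl⟩ := e1
          obtain ⟨rfl, -⟩ := e2
          obtain ⟨rfl, rfl⟩ := e3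
          obtain ⟨rfl, -⟩ := e4
          exact ⟨fun h => h, fun h => (mkp_inj.1 h).1⟩
        · simp only [sub1, hyi, Sum.inr.injEq, Prod.mk.injEq] at e1 e2
          simp only [sub1, hyj, Sum.inr.injEq, Prod.mk.injEq] at e3 e4
          obtain ⟨rfl, rfl⟩ := e1
          obtain ⟨rfl, -⟩ := e2
          obtain ⟨rfl, rfl⟩ := e3
          obtain ⟨rfl, -⟩ := e4
          have hq := hz q (hZ i q t hyi)
          constructor
          · intro h
            rw [mkp_lt] at h ⊢
            left
            rcases h with h | ⟨h, -⟩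
            · exact h.trans hrr
            · exact absurd ⟨h.ge, (h ▸ hrr.le)⟩ hq
          · intro h
            exact absurd ⟨(mkp_inj.1 h).1.ge, ((mkp_inj.1 h).1 ▸ hrr.le)⟩ hq
      · rcases hyj : y' j with (m' | ⟨q', t'⟩) | t'
        · simp [sub1, hyj] at e3
        · simp only [sub1, hyi, Sum.inr.injEq, Prod.mk.injEq] at e1 e2
          simp only [sub1, hyj, Sum.inr.injEq, Prod.mk.injEq] at e3 e4
          obtain ⟨rfl, rfl⟩ := e1
          obtain ⟨rfl, -⟩ := e2
          obtain ⟨rfl, rfl⟩ := e3
          obtain ⟨rfl, -⟩ := e4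
          have hq := hz q' (hZ j q' t' hyj)
          constructor
          · intro h
            rw [mkp_lt] at h ⊢
            rcases h with h | ⟨h, -⟩
            · left
              by_contra hcon
              exact hq ⟨h.le, not_lt.1 hcon⟩
            · exact absurd ⟨h.le, (h ▸ hrr.le)⟩ hq
          · intro h
            exact absurd ⟨(mkp_inj.1 h).1.le, ((mkp_inj.1 h).1 ▸ hrr.le)⟩ hq
        · simp only [sub1, hyi, Sum.inr.injEq, Prod.mk.injEq] at e1 e2
          simp only [sub1, hyj, Sum.inr.injEq, Prod.mk.injEq] at e3 e4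
          obtain ⟨rfl, rfl⟩ := e1
          obtain ⟨rfl, -⟩ := e2
          obtain ⟨rfl, rfl⟩ := e3
          obtain ⟨rfl, -⟩ := e4
          refine ⟨fun h => ?_, fun _ => rfl⟩
          rw [hy'k i _ hyi, hy'k j _ hyj] at h
          exact absurd h (lt_irrefl _)
  obtain ⟨z, hzZ, a, b, h3, h4, h5, h6, h7, h8⟩ := cross_comb Z (fun r => D R (sub1 y' r)) hinv _ _ _
    rfl hr12 hr1 hr2 (by rw [← hf1, ← hf1]; exact hne)
  obtain ⟨i0, t0, hi0⟩ := hZ' z hzZ
  obtain ⟨qs, hqs, hzq⟩ := hback i0 z t0 hi0
  refine ⟨qs, srt t0, ?_, ?_, ?_⟩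
  · rw [← he.lt_iff_lt, ← hzq]; exact lt_of_le_of_lt h3 h4
  · rw [← he.lt_iff_lt, ← hzq]; exact lt_of_lt_of_le h5 h6
  -- build the one-sorted template
  obtain ⟨g, hg, hgab⟩ := exists_embIoo ℚ a b (h4.trans h5)
  let MM : Set (Un ℕ T) := {u | ∀ q t, u = Sum.inr (q, t) → q ∉ Set.Ioo a b}
  have hinf : Infinite MM := Infinite.of_injective
    (fun n : ℕ => (⟨Sum.inl n, by intro q t h; simp at h⟩ : MM))
    (fun m n h => by simpa using congrArg Subtype.val h)
  obtain ⟨e2⟩ : Nonempty (ℕ ≃ MM) := nonempty_equiv_of_countable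
  let Φ : Un ℕ T → Un ℕ T := fun u => match u with
    | Sum.inl m => (e2 m).1
    | Sum.inr (q, t) => Sum.inr (g q, t)
  have hΦ : Injective Φ := by
    rintro (m | ⟨q, t⟩) (m' | ⟨q', t'⟩) h
    · simp only [Φ] at h
      rw [e2.injective (Subtype.ext h)]
    · simp only [Φ] at h
      exact absurd ⟨(hgab q').1, (hgab q').2⟩ ((e2 m).2 _ _ h)
    · simp only [Φ] at h
      exact absurd ⟨(hgab q).1, (hgab q).2⟩ ((e2 m').2 _ _ h.symm)
    · simp only [Φ, Sum.inr.injEq, Prod.mk.injEq] at h
      rw [hg.injective h.1, h.2]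
  have hT : IsTemp (fun _ : T => ()) (D.pull Φ) := by
    intro R' x γ hγ
    rw [Str.pull_apply, Str.pull_apply]
    apply hD.1.sim
    constructor
    · intro i
      rcases hx : x i with m | ⟨q, t⟩
      · rcases hm : (e2 m).1 with m' | ⟨q, t⟩
        · left; exact ⟨m', by simp [Φ, hx, hm], by simp [Φ, hx, hm]⟩
        · right; exact ⟨q, q, t, by simp [Φ, hx, hm], by simp [Φ, hx, hm]⟩
      · right
        exact ⟨g q, g (γ (mkp q ())), t, by simp [Φ, hx], by simp [Φ, hx]⟩
    · intro i j a1 t1 a1' a2 t2 a2' e1 e2' e3 e4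
      rcases hxi : x i with m | ⟨q, t⟩ <;> rcases hxj : x j with m' | ⟨q', t'⟩
      · simp only [comp_apply, Φ, hxi, hxj, act_inl] at e1 e2' e3 e4
        rw [e1] at e2'
        rw [e3] at e4
        simp only [Sum.inr.injEq, Prod.mk.injEq] at e2' e4
        obtain ⟨rfl, -⟩ := e2'
        obtain ⟨rfl, -⟩ := e4
        exact ⟨fun h => h, fun h => (mkp_inj.1 h).1⟩
      · simp only [comp_apply, Φ, hxi, hxj, act_inl, act_inr, Sum.inr.injEq, Prod.mk.injEq]
          at e1 e2' e3 e4
        rw [e1] at e2'
        simp only [Sum.inr.injEq, Prod.mk.injEq] at e2'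
        obtain ⟨rfl, -⟩ := e2'
        obtain ⟨rfl, rfl⟩ := e3
        obtain ⟨rfl, -⟩ := e4
        have hout := (e2 m).2 _ _ e1
        have hA := hgab q'
        have hB := hgab (γ (mkp q' ()))
        constructor
        · intro h
          rw [mkp_lt] at h ⊢
          left
          rcases h with h | ⟨h, -⟩
          · have : a1 ≤ a := by
              by_contra hcon
              exact hout ⟨not_le.1 hcon, h.trans hA.2⟩
            exact lt_of_le_of_lt this hB.1
          · exact absurd (h ▸ hA) hout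
        · intro h
          exact absurd ((mkp_inj.1 h).1 ▸ hA) hout
      · simp only [comp_apply, Φ, hxi, hxj, act_inl, act_inr, Sum.inr.injEq, Prod.mk.injEq]
          at e1 e2' e3 e4
        rw [e3] at e4
        simp only [Sum.inr.injEq, Prod.mk.injEq] at e4
        obtain ⟨rfl, -⟩ := e4
        obtain ⟨rfl, rfl⟩ := e1
        obtain ⟨rfl, -⟩ := e2'
        have hout := (e2 m').2 _ _ e3
        have hA := hgab q
        have hB := hgab (γ (mkp q ()))
        constructor
        · intro h
          rw [mkp_lt] at h ⊢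
          left
          rcases h with h | ⟨h, -⟩
          · have : b ≤ a2 := by
              by_contra hcon
              exact hout ⟨hA.1.trans h, not_le.1 hcon⟩
            exact lt_of_lt_of_le hB.2 this
          · exact absurd (h ▸ hA) hout
        · intro h
          exact absurd ((mkp_inj.1 h).1 ▸ hA) hout
      · simp only [comp_apply, Φ, hxi, hxj, act_inr, Sum.inr.injEq, Prod.mk.injEq]
          at e1 e2' e3 e4
        obtain ⟨rfl, rfl⟩ := e1
        obtain ⟨rfl, -⟩ := e2'
        obtain ⟨rfl, rfl⟩ := e3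
        obtain ⟨rfl, -⟩ := e4
        constructor
        · intro h
          rw [mkp_lt] at h ⊢
          rcases h with h | ⟨h, h'⟩
          · left
            apply hg
            have hqq := hg.lt_iff_lt.1 h
            have := hγ (show mkp q () ∈ pset (fun _ : T => ()) x from ⟨i, q, t, hxi, rfl⟩)
              (show mkp q' () ∈ pset (fun _ : T => ()) x from ⟨j, q', t', hxj, rfl⟩)
              (by rw [mkp_lt]; exact Or.inl hqq)
            rw [mv, mv, mkp_lt] at this
            rcases this with h | ⟨-, h⟩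
            · exact h
            · simp at h
          · right
            have := hg.injective h
            rw [this]
            exact ⟨rfl, h'⟩
        · intro h
          rw [mkp_inj] at h
          rw [hg.injective h.1]
  refine ⟨D.pull Φ, ⟨hT, (FinEmb.of_injective D Φ hΦ).trans hD.2⟩, R, fun i => match y' i with
    | Sum.inr t => Sum.inr (Sum.inl t)
    | Sum.inl u => if h : ∃ t, u = Sum.inr (z, t) then Sum.inr (Sum.inr h.choose)
        else if h' : u ∈ MM then Sum.inl (e2.symm ⟨u, h'⟩) else Sum.inl 0, ?_, ?_, ?_⟩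
  · intro i t h
    rcases hy : y' i with u | t'
    · simp only [hy] at h
      split_ifs at h <;> simp at h
    · simp only [hy, Sum.inr.injEq, Sum.inl.injEq] at h
      subst h
      rcases hyi : y i with u | t''
      · simp [y', hyi] at hy
      · simp [y', hyi] at hy
        exact ⟨i, by rw [hyi, hy]⟩
  · intro i t h
    rcases hy : y' i with u | t'
    · simp only [hy] at h
      split_ifs at h with hh hh'
      · simp only [Sum.inr.injEq] at h
        have := hh.choose_spec
        rw [h] at this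
        subst this
        obtain ⟨q, hq, hzq'⟩ := hback i z t hy
        rw [hzq] at hzq'
        have := he.injective hzq'
        rw [mkp_inj] at this
        obtain ⟨rfl, h9⟩ := this
        exact ⟨h9.symm, i, hq⟩
    · simp only [hy] at h
      simp at h
  · -- compute the two values
    set s : Fin R.1 → ℕ ⊕ (T ⊕ T) := fun i => match y' i with
    | Sum.inr t => Sum.inr (Sum.inl t)
    | Sum.inl u => if h : ∃ t, u = Sum.inr (z, t) then Sum.inr (Sum.inr h.choose)
        else if h' : u ∈ MM then Sum.inl (e2.symm ⟨u, h'⟩) else Sum.inl 0 with hs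
    have hval : ∀ (q q' : ℚ) (i : Fin R.1), Φ (sub2 s q q' i) = match y' i with
        | Sum.inr t => Sum.inr (g q, t)
        | Sum.inl (Sum.inl m) => Sum.inl m
        | Sum.inl (Sum.inr (r, t)) => if r = z then Sum.inr (g q', t) else Sum.inr (r, t) := by
      intro q q' i
      rcases hy : y' i with (m | ⟨r, t⟩) | t
      · have hnot : ¬ ∃ t, (Sum.inl m : Un ℕ T) = Sum.inr (z, t) := by simp
        have hmem : (Sum.inl m : Un ℕ T) ∈ MM := by intro q t h; simp at h
        have hsi : s i = Sum.inl (e2.symm ⟨_, hmem⟩) := by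
          simp only [hs, hy]
          rw [dif_neg hnot, dif_pos hmem]
        simp [sub2, hsi, Φ]
      · by_cases hr : r = z
        · subst hr
          have hex : ∃ t', (Sum.inr (r, t) : Un ℕ T) = Sum.inr (r, t') := ⟨t, rfl⟩
          have hch : hex.choose = t :=
            (Prod.ext_iff.1 (Sum.inr_injective hex.choose_spec)).2.symm
          have hsi : s i = Sum.inr (Sum.inr t) := by
            simp only [hs, hy]
            rw [dif_pos hex, hch]
          simp [sub2, hsi, Φ]
        · have hnot : ¬ ∃ t', (Sum.inr (r, t) : Un ℕ T) = Sum.inr (z, t') := by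
            rintro ⟨t', h⟩
            simp only [Sum.inr.injEq, Prod.mk.injEq] at h
            exact hr h.1
          have hmem : (Sum.inr (r, t) : Un ℕ T) ∈ MM := by
            intro q t' h
            simp only [Sum.inr.injEq, Prod.mk.injEq] at h
            rw [← h.1]
            intro hio
            exact hr (h7 r (hZ i r t hy) hio.1.le hio.2.le)
          have hsi : s i = Sum.inl (e2.symm ⟨_, hmem⟩) := by
            simp only [hs, hy]
            rw [dif_neg hnot, dif_pos hmem]
          simp [sub2, hsi, Φ, hr]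
      · have hsi : s i = Sum.inr (Sum.inl t) := by simp only [hs, hy]
        simp [sub2, hsi, Φ]
    have hmain : ∀ (c q q' : ℚ), ((c = a ∧ q < q') ∨ (c = b ∧ q' < q)) →
        (D R (sub1 y' c) ↔ (D.pull Φ) R (sub2 s q q')) := by
      intro c q q' hc
      rw [Str.pull_apply]
      apply hD.1.sim
      have hval' : ∀ i, (Φ ∘ sub2 s q q') i = _ := fun i => hval q q' i
      constructor
      · intro i
        rw [hval']
        rcases hy : y' i with (m | ⟨r, t⟩) | t
        · left; exact ⟨m, by simp [sub1, hy], rfl⟩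
        · right
          by_cases hr : r = z
          · exact ⟨r, g q', t, by simp [sub1, hy], by simp [hr]⟩
          · exact ⟨r, r, t, by simp [sub1, hy], by simp [hr]⟩
        · right; exact ⟨c, g q, t, by simp [sub1, hy], rfl⟩
      · -- the position map
        let G : ℚ → Prop → ℚ := fun r v => if v then g q else (if r = z then g q' else r)
        have hG : ∀ i r t r', sub1 y' c i = Sum.inr (r, t) → (Φ ∘ sub2 s q q') i = Sum.inr (r', t) →
            (r = c ∧ srt t = k ∧ r' = g q) ∨ (r = z ∧ z = e (mkp qs (srt t0)) ∧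
              srt t = srt t0 ∧ r' = g q') ∨
              (r ≠ z ∧ (r < a ∨ b < r) ∧ r' = r) := by
          intro i r t r' hr hr'
          rw [hval'] at hr'
          rcases hy : y' i with (m | ⟨r0, t'⟩) | t'
          · simp [sub1, hy] at hr
          · simp only [sub1, hy, Sum.inr.injEq, Prod.mk.injEq] at hr
            obtain ⟨rfl, rfl⟩ := hr
            by_cases hrz : r0 = z
            · right; left
              subst hrz
              simp only [hy, if_true, Sum.inr.injEq, Prod.mk.injEq, and_true] at hr'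
              obtain ⟨q9, -, hz9⟩ := hback i r0 t' hy
              rw [hzq] at hz9
              have := he.injective hz9
              rw [mkp_inj] at this
              exact ⟨rfl, hzq, this.2.symm, hr'.symm⟩
            · right; right
              simp only [hy, hrz, if_false, Sum.inr.injEq, Prod.mk.injEq, and_true] at hr'
              refine ⟨hrz, ?_, hr'.symm⟩
              by_contra hcon
              push Not at hcon
              exact hrz (h7 r0 (hZ i r0 t' hy) hcon.1 hcon.2)
          · simp only [sub1, hy, Sum.inr.injEq, Prod.mk.injEq] at hr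
            obtain ⟨rfl, rfl⟩ := hr
            simp only [hy, Sum.inr.injEq, Prod.mk.injEq, and_true] at hr'
            exact Or.inl ⟨rfl, hy'k i _ hy, hr'.symm⟩
        intro i j a1 t1 a1' a2 t2 a2' e1 e2' e3 e4
        have hga := hgab q
        have hgb := hgab q'
        rcases hG i a1 t1 a1' e1 e2' with ⟨rfl, hk1, rfl⟩ | ⟨rfl, -, hk1, rfl⟩ | ⟨hz1, hr1', rfl⟩ <;>
        rcases hG j a2 t2 a2' e3 e4 with ⟨h9, hk2, rfl⟩ | ⟨rfl, -, hk2, rfl⟩ | ⟨hz2, hr2', rfl⟩
        · -- both variable
          subst h9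
          rw [hk1, hk2]
          exact ⟨fun h => absurd h (lt_irrefl _), fun _ => rfl⟩
        · -- i variable, j at z
          rcases hc with ⟨rfl, hqq⟩ | ⟨rfl, hqq⟩
          · refine ⟨fun _ => by rw [mkp_lt]; exact Or.inl (hg hqq), fun h => ?_⟩
            exact absurd (mkp_inj.1 h).1 (ne_of_lt h4)
          · refine ⟨fun h => ?_, fun h => ?_⟩
            · rw [mkp_lt] at h
              rcases h with h | ⟨h, -⟩
              · exact absurd h (not_lt.2 h5.le)
              · exact absurd h (ne_of_gt h5)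
            · exact absurd (mkp_inj.1 h).1 (ne_of_gt h5)
        · -- i variable, j outside
          have hac : a ≤ a1 ∧ a1 ≤ b := by
            rcases hc with ⟨rfl, -⟩ | ⟨rfl, -⟩
            · exact ⟨le_rfl, (h4.trans h5).le⟩
            · exact ⟨(h4.trans h5).le, le_rfl⟩
          refine ⟨fun h => ?_, fun h => ?_⟩
          · rw [mkp_lt] at h ⊢
            left
            rcases hr2' with h9 | h9
            · rcases h with h | ⟨h, -⟩
              · exact absurd (h.trans h9) (not_lt.2 hac.1)
              · rw [h] at hac; exact absurd h9 (not_lt.2 hac.1)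
            · exact hga.2.trans h9
          · have := (mkp_inj.1 h).1
            rw [this] at hac
            rcases hr2' with h9 | h9
            · exact absurd h9 (not_lt.2 hac.1)
            · exact absurd h9 (not_lt.2 hac.2)
        · -- i at z, j variable
          rcases hc with ⟨rfl, hqq⟩ | ⟨rfl, hqq⟩
          · refine ⟨fun h => ?_, fun h => ?_⟩
            · rw [mkp_lt, h9] at h
              rcases h with h | ⟨h, -⟩
              · exact absurd h (not_lt.2 h4.le)
              · exact absurd h (ne_of_gt h4)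
            · rw [mkp_inj, h9] at h
              exact absurd h.1 (ne_of_gt h4)
          · refine ⟨fun _ => by rw [mkp_lt]; exact Or.inl (hg hqq), fun h => ?_⟩
            rw [mkp_inj, h9] at h
            exact absurd h.1 (ne_of_lt h5)
        · -- both at z
          rw [hk1, hk2]
          exact ⟨fun h => absurd h (lt_irrefl _), fun _ => rfl⟩
        · -- i at z, j outside
          refine ⟨fun h => ?_, fun h => ?_⟩
          · rw [mkp_lt] at h ⊢
            left
            rcases hr2' with h9 | h9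
            · rcases h with h | ⟨h, -⟩
              · exact absurd (h4.trans (h.trans h9)) (lt_irrefl _)
              · exact absurd h.symm hz2
            · exact hgb.2.trans h9
          · exact absurd (mkp_inj.1 h).1.symm hz2
        · -- i outside, j variable
          subst h9
          have hac : a ≤ a2 ∧ a2 ≤ b := by
            rcases hc with ⟨h9, -⟩ | ⟨h9, -⟩
            · rw [h9]; exact ⟨le_rfl, (h4.trans h5).le⟩
            · rw [h9]; exact ⟨(h4.trans h5).le, le_rfl⟩
          refine ⟨fun h => ?_, fun h => ?_⟩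
          · rw [mkp_lt] at h ⊢
            left
            rcases hr1' with h9 | h9
            · exact h9.trans hga.1
            · rcases h with h | ⟨h, -⟩
              · exact absurd (h9.trans h) (not_lt.2 hac.2)
              · rw [← h] at hac; exact absurd h9 (not_lt.2 hac.2)
          · have := (mkp_inj.1 h).1
            rw [← this] at hac
            rcases hr1' with h9 | h9
            · exact absurd h9 (not_lt.2 hac.1)
            · exact absurd h9 (not_lt.2 hac.2)
        · -- i outside, j at z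
          refine ⟨fun h => ?_, fun h => ?_⟩
          · rw [mkp_lt] at h ⊢
            left
            rcases hr1' with h9 | h9
            · exact h9.trans hgb.1
            · rcases h with h | ⟨h, -⟩
              · exact absurd (h5.trans (h9.trans h)) (lt_irrefl _)
              · exact absurd h hz1
          · exact absurd (mkp_inj.1 h).1 hz1
        · -- both outside
          exact ⟨fun h => h, fun h => (mkp_inj.1 h).1⟩
    rw [← hmain a 0 1 (Or.inl ⟨rfl, by norm_num⟩), ← hmain b 1 0 (Or.inr ⟨rfl, by norm_num⟩)]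
    exact h8

end

end Run7.h46
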