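import Pool.Agent.Run7.h46.Good

namespace Run7.h46

open Filter Function FirstOrder FirstOrder.Language

section

variable {L : FirstOrder.Language.{0, 0}} {K : Type} [LinearOrder K] {T : Type} (srt : T → K)

/-- The condition defining the family `J`: same quantifier-free type over the parameters as the
template tuple at position `0`. -/
def QJ (D : Str L (Un ℕ T)) (E : Set (Un ℕ T)) {N : Type} (A : Str L N) (e : E → N) (k : K)
    (w : T → N) : Prop :=
  SameQ A D (Sum.elim (rs srt k w) e) (Sum.elim (rs srt k (cc 0)) Subtype.val)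

/-- far positions -/
def Far (E : Set (Un ℕ T)) : Prop := ∀ q t, (Sum.inr (q, t) : Un ℕ T) ∈ E → q ≤ -2 ∨ 2 ≤ q

theorem exists_F [Finite T] {B : Str L ℕ} {D : Str L (Un ℕ T)} (hD : D ∈ Cls srt B) (k : K)
    (π : T → T) : ∃ F : Set (Un ℕ T), F.Finite ∧ Far F ∧
      (∀ q t t', (Sum.inr (q, t) : Un ℕ T) ∈ F → srt t = srt t' → (Sum.inr (q, t') : Un ℕ T) ∈ F) ∧
      ((∀ t, srt t = k → srt (π t) = k) →
        ¬ (∀ (R : Σ n, L.Relations n) (x : Fin R.1 → Un ℕ T), D R x ↔ D R (pmx srt k π 0 ∘ x)) →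
        ∃ (R : Σ n, L.Relations n) (x : Fin R.1 → Un ℕ T),
          (∀ i, x i ∈ F ∨ ∃ t, srt t = k ∧ x i = Sum.inr (0, t)) ∧
          ¬ (D R x ↔ D R (pmx srt k π 0 ∘ x))) := by
  classical
  by_cases hb : (∀ t, srt t = k → srt (π t) = k) ∧
      ¬ (∀ (R : Σ n, L.Relations n) (x : Fin R.1 → Un ℕ T), D R x ↔ D R (pmx srt k π 0 ∘ x))
  · obtain ⟨hπ, hb⟩ := hb
    push Not at hb
    obtain ⟨R, x, hx⟩ := hb
    have hx : ¬ (D R x ↔ D R (pmx srt k π 0 ∘ x)) := by
      intro h
      rcases hx with h' | h'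
      · exact h'.2 (h.1 h'.1)
      · exact h'.1 (h.2 h'.2)
    let g : Ps K → ℚ := fun p => if p < mkp 0 k then rc p - 2 else if p = mkp 0 k then 0
      else rc p + 2
    have hg1 : ∀ p, p < mkp 0 k → g p = rc p - 2 ∧ g p ≤ -2 := by
      intro p hp
      have h1 : g p = rc p - 2 := by simp only [g]; rw [if_pos hp]
      refine ⟨h1, ?_⟩
      have hp' : mkp (rc p) (kc p) < mkp 0 k := hp
      rw [mkp_lt] at hp'
      rw [h1]
      rcases hp' with h | ⟨h, -⟩ <;> linarith
    have hg2 : g (mkp 0 k) = 0 := by simp [g]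
    have hg3 : ∀ p, mkp 0 k < p → g p = rc p + 2 ∧ 2 ≤ g p := by
      intro p hp
      have h1 : g p = rc p + 2 := by
        simp only [g]; rw [if_neg (not_lt.2 hp.le), if_neg hp.ne']
      refine ⟨h1, ?_⟩
      have hp' : mkp 0 k < mkp (rc p) (kc p) := hp
      rw [mkp_lt] at hp'
      rw [h1]
      rcases hp' with h | ⟨h, -⟩ <;> linarith
    have hmono : ∀ S : Set (Ps K), StrictMonoOn (mv g) S := by
      intro S p _ p' _ hlt
      have hlt' : mkp (rc p) (kc p) < mkp (rc p') (kc p') := hlt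
      rw [mkp_lt] at hlt'
      rw [mv, mv, mkp_lt]
      rcases lt_trichotomy p (mkp 0 k) with h | h | h <;>
      rcases lt_trichotomy p' (mkp 0 k) with h' | h' | h'
      · rw [(hg1 p h).1, (hg1 p' h').1]
        rcases hlt' with h5 | ⟨h5, h6⟩
        · left; linarith
        · right; exact ⟨by rw [h5], h6⟩
      · rw [h', hg2]
        left
        have := (hg1 p h).2
        linarith
      · left
        have h5 := (hg1 p h).2
        have h6 := (hg3 p' h').2
        linarith
      · exact absurd (h ▸ hlt) (not_lt.2 h'.le)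
      · exact absurd (h.trans h'.symm) hlt.ne
      · rw [h, hg2]
        left
        have := (hg3 p' h').2
        linarith
      · exact absurd (h.trans (hlt.trans h')) (lt_irrefl _)
      · exact absurd (h.trans (hlt.trans_eq h')) (lt_irrefl _)
      · rw [(hg3 p h).1, (hg3 p' h').1]
        rcases hlt' with h5 | ⟨h5, h6⟩
        · left; linarith
        · right; exact ⟨by rw [h5], h6⟩
    have hcomm : ∀ r k', g (mkp r k') = 0 ∧ k' = k ↔ r = 0 ∧ k' = k := by
      intro r k'
      constructor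
      · rintro ⟨h, rfl⟩
        refine ⟨?_, rfl⟩
        rcases lt_trichotomy (mkp r k') (mkp 0 k') with h' | h' | h'
        · have := (hg1 _ h').2; rw [h] at this; norm_num at this
        · exact (mkp_inj.1 h').1
        · have := (hg3 _ h').2; rw [h] at this; norm_num at this
      · rintro ⟨rfl, rfl⟩
        exact ⟨hg2, rfl⟩
    let x' := act srt g ∘ x
    have hx' : ¬ (D R x' ↔ D R (pmx srt k π 0 ∘ x')) := by
      have h1 := hD.1 R x g (hmono _)
      have h2 := hD.1 R (pmx srt k π 0 ∘ x) g (hmono _)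
      have h3 : act srt g ∘ pmx srt k π 0 ∘ x = pmx srt k π 0 ∘ x' := by
        funext i
        exact pmx_act_comm srt k π hπ g 0 0 hcomm (x i)
      rw [h3] at h2
      rw [h1, h2] at hx
      exact hx
    let F : Set (Un ℕ T) := {u | (∃ i m, x' i = Sum.inl m ∧ u = Sum.inl m) ∨
      ∃ i q t t', x' i = Sum.inr (q, t') ∧ srt t = srt t' ∧ ¬ (q = 0 ∧ srt t = k) ∧
        u = Sum.inr (q, t)}
    have hfar : Far F := by
      rintro q t (⟨i, m, h1, h2⟩ | ⟨i, q1, t1, t', h1, h2, h3, h4⟩)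
      · simp at h2
      · simp only [Sum.inr.injEq, Prod.mk.injEq] at h4
        obtain ⟨rfl, rfl⟩ := h4
        rcases hxi : x i with m | ⟨q0, t0⟩
        · simp [x', hxi] at h1
        · simp only [x', comp_apply, hxi, act_inr, Sum.inr.injEq, Prod.mk.injEq] at h1
          obtain ⟨h5, rfl⟩ := h1
          rcases lt_trichotomy (mkp q0 (srt t0)) (mkp 0 k) with h | h | h
          · left; rw [← h5]; exact (hg1 _ h).2
          · exfalso
            apply h3
            rw [← h5, h, h2]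
            exact ⟨hg2, (mkp_inj.1 h).2⟩
          · right; rw [← h5]; exact (hg3 _ h).2
    refine ⟨F, ?_, hfar, ?_, fun _ _ => ⟨R, x', ?_, hx'⟩⟩
    · have : F ⊆ ⋃ i : Fin R.1, ({x' i} ∪ Set.range fun t : T => match x' i with
        | Sum.inl m => Sum.inl m
        | Sum.inr y => Sum.inr (y.1, t)) := by
        rintro u (⟨i, m, h1, rfl⟩ | ⟨i, q1, t1, t', h1, h2, h3, rfl⟩)
        · rw [Set.mem_iUnion]
          exact ⟨i, Or.inl h1.symm⟩
        · rw [Set.mem_iUnion]
          refine ⟨i, Or.inr ⟨t1, ?_⟩⟩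
          simp [h1]
      refine Set.Finite.subset (Set.finite_iUnion fun i => ?_) this
      exact (Set.finite_singleton _).union (Set.finite_range _)
    · rintro q t t' (⟨i, m, h1, h2⟩ | ⟨i, q1, t1, t2, h1, h2, h3, h4⟩) hs
      · simp at h2
      · simp only [Sum.inr.injEq, Prod.mk.injEq] at h4
        obtain ⟨rfl, rfl⟩ := h4
        right
        exact ⟨i, q, t', t2, h1, by rw [← hs, h2], by rw [← hs]; exact h3, rfl⟩
    · intro i
      rcases hxi : x' i with m | ⟨q, t⟩
      · left; left; exact ⟨i, m, hxi, rfl⟩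
      · by_cases h : q = 0 ∧ srt t = k
        · right; exact ⟨t, h.2, by rw [h.1]⟩
        · left; right; exact ⟨i, q, t, t, hxi, rfl, h, rfl⟩
  · refine ⟨∅, Set.finite_empty, fun q t h => absurd h (by simp), fun q t t' h => absurd h (by simp),
      fun h1 h2 => absurd ⟨h1, h2⟩ hb⟩

/-- Two tuples whose M-part agree and with same relative order of positions with respect to a
far set; moving a position inside `(-2,2)`. -/
theorem move_pos {D : Str L (Un ℕ T)} (hD : IsTemp srt D) (E : Set (Un ℕ T)) (hE : Far E)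
    (k : K) (q q' : ℚ) (hq : -2 < q ∧ q < 2) (hq' : -2 < q' ∧ q' < 2)
    (R : Σ n, L.Relations n) (x x' : Fin R.1 → Un ℕ T)
    (h : ∀ i, (x i ∈ E ∧ x' i = x i) ∨ ∃ t, srt t = k ∧ x i = Sum.inr (q, t) ∧
      x' i = Sum.inr (q', t)) : D R x ↔ D R x' := by
  apply hD.sim
  constructor
  · intro i
    rcases h i with ⟨h1, h2⟩ | ⟨t, h1, h2, h3⟩
    · rcases hx : x i with m | ⟨r, t⟩
      · left; exact ⟨m, rfl, by rw [h2, hx]⟩
      · right; exact ⟨r, r, t, rfl, by rw [h2, hx]⟩
    · right; exact ⟨q, q', t, h2, h3⟩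
  · intro i j a1 t1 a1' a2 t2 a2' e1 e2 e3 e4
    rcases h i with ⟨h1, h2⟩ | ⟨t, h1, h2, h3⟩ <;> rcases h j with ⟨h5, h6⟩ | ⟨t', h5, h6, h7⟩
    · rw [h2, e1] at e2
      rw [h6, e3] at e4
      simp only [Sum.inr.injEq, Prod.mk.injEq] at e2 e4
      rw [← e2.1, ← e4.1]
      exact ⟨fun h => h, fun h => (mkp_inj.1 h).1⟩
    · rw [h2, e1] at e2
      rw [e3] at h6
      rw [e4] at h7
      simp only [Sum.inr.injEq, Prod.mk.injEq] at e2 h6 h7
      rw [← e2.1, h6.1, h7.1]
      have := hE a1 t1 (e1 ▸ h1)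
      rw [mkp_lt, mkp_lt, mkp_inj]
      constructor
      · rintro (h | ⟨h, -⟩)
        · left
          rcases this with h8 | h8
          · exact lt_of_le_of_lt h8 hq'.1
          · exact absurd (h8.trans_lt (h.trans hq.2)) (lt_irrefl _)
        · exfalso
          rcases this with h8 | h8
          · rw [h] at h8; exact absurd hq.1 (not_lt.2 h8)
          · rw [h] at h8; exact absurd hq.2 (not_lt.2 h8)
      · rintro ⟨h, -⟩
        exfalso
        rcases this with h8 | h8
        · rw [h] at h8; exact absurd hq.1 (not_lt.2 h8)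
        · rw [h] at h8; exact absurd hq.2 (not_lt.2 h8)
    · rw [h6, e3] at e4
      rw [e1] at h2
      rw [e2] at h3
      simp only [Sum.inr.injEq, Prod.mk.injEq] at e4 h2 h3
      rw [← e4.1, h2.1, h3.1]
      have := hE a2 t2 (e3 ▸ h5)
      rw [mkp_lt, mkp_lt, mkp_inj]
      constructor
      · rintro (h | ⟨h, -⟩)
        · left
          rcases this with h8 | h8
          · exact absurd (hq.1.trans (h.trans_le h8)) (lt_irrefl _)
          · exact lt_of_lt_of_le hq'.2 h8
        · exfalso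
          rcases this with h8 | h8
          · rw [← h] at h8; exact absurd hq.1 (not_lt.2 h8)
          · rw [← h] at h8; exact absurd hq.2 (not_lt.2 h8)
      · rintro ⟨h, -⟩
        exfalso
        rcases this with h8 | h8
        · rw [← h] at h8; exact absurd hq.1 (not_lt.2 h8)
        · rw [← h] at h8; exact absurd hq.2 (not_lt.2 h8)
    · rw [e1] at h2
      rw [e2] at h3
      rw [e3] at h6
      rw [e4] at h7
      simp only [Sum.inr.injEq, Prod.mk.injEq] at h2 h3 h6 h7
      rw [h2.1, h2.2, h3.1, h6.1, h6.2, h7.1, h1, h5]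
      exact ⟨fun h => absurd h (lt_irrefl _), fun _ => rfl⟩

theorem exists_E {B : Str L ℕ} (c : Cfg B) (D : Str L (Un ℕ c.T)) (hD : D ∈ Cls c.srt B)
    (hod : ¬ (D c.R0 (sub2 c.s0 0 1) ↔ D c.R0 (sub2 c.s0 1 0))) :
    ∃ E : Set (Un ℕ c.T), E.Finite ∧ Far E ∧
      (∀ q t t', (Sum.inr (q, t) : Un ℕ c.T) ∈ E → c.srt t = c.srt t' →
        (Sum.inr (q, t') : Un ℕ c.T) ∈ E) ∧
      (∀ i m, c.s0 i = Sum.inl m → (Sum.inl m : Un ℕ c.T) ∈ E) ∧
      ∀ (k : c.K) (w : c.T → Un ℕ c.T), QJ c.srt D E D Subtype.val k w →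
        ∃ (q : ℚ) (π : c.T → c.T), -2 < q ∧ q < 2 ∧ Good c.srt D k π ∧
          ∀ t, c.srt t = k → w t = Sum.inr (q, π t) := by
  classical
  choose F hF1 hF2 hF3 hF4 using fun (p : c.K × (c.T → c.T)) => exists_F c.srt hD p.1 p.2
  let E1 : Set (Un ℕ c.T) := {u | ∃ i m, c.s0 i = Sum.inl m ∧ u = Sum.inl m}
  let E2 : Set (Un ℕ c.T) := {u | ∃ t, u = Sum.inr (-2, t) ∨ u = Sum.inr (2, t)}
  let E : Set (Un ℕ c.T) := E1 ∪ E2 ∪ ⋃ p : c.K × (c.T → c.T), F p
  have hE1 : E1.Finite := by
    have : E1 ⊆ Set.range fun i => (match c.s0 i with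
      | Sum.inl m => Sum.inl m
      | Sum.inr _ => Sum.inl 0 : Un ℕ c.T) := by
      rintro u ⟨i, m, h, rfl⟩
      exact ⟨i, by simp [h]⟩
    exact (Set.finite_range _).subset this
  have hE2 : E2.Finite := by
    have : E2 ⊆ Set.range (fun t : c.T => (Sum.inr (-2, t) : Un ℕ c.T)) ∪
        Set.range (fun t : c.T => (Sum.inr (2, t) : Un ℕ c.T)) := by
      rintro u ⟨t, rfl | rfl⟩
      · left; exact ⟨t, rfl⟩
      · right; exact ⟨t, rfl⟩
    exact ((Set.finite_range _).union (Set.finite_range _)).subset this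
  have hfar : Far E := by
    rintro q t ((⟨i, m, h, h'⟩ | ⟨t', h | h⟩) | h)
    · simp at h'
    · simp only [Sum.inr.injEq, Prod.mk.injEq] at h; left; rw [h.1]
    · simp only [Sum.inr.injEq, Prod.mk.injEq] at h; right; rw [h.1]
    · rw [Set.mem_iUnion] at h
      obtain ⟨p, hp⟩ := h
      exact hF2 p q t hp
  refine ⟨E, (hE1.union hE2).union (Set.finite_iUnion hF1), hfar, ?_, ?_, ?_⟩
  · rintro q t t' ((⟨i, m, h, h'⟩ | ⟨t', h | h⟩) | h) hs
    · simp at h'
    · simp only [Sum.inr.injEq, Prod.mk.injEq] at h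
      exact Or.inl (Or.inr ⟨_, Or.inl (by rw [h.1])⟩)
    · simp only [Sum.inr.injEq, Prod.mk.injEq] at h
      exact Or.inl (Or.inr ⟨_, Or.inr (by rw [h.1])⟩)
    · rw [Set.mem_iUnion] at h
      obtain ⟨p, hp⟩ := h
      right
      rw [Set.mem_iUnion]
      exact ⟨p, hF3 p q t t' hp hs⟩
  · intro i m h
    exact Or.inl (Or.inl ⟨i, m, h, rfl⟩)
  intro k w hw
  have hdis : ∀ t, c.srt t = k → w t ∉ E := by
    intro t ht hE
    have := (hw.1 (Sum.inl ⟨t, ht⟩) (Sum.inr ⟨w t, hE⟩)).1 rfl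
    simp only [Sum.elim_inl, Sum.elim_inr, rs, cc] at this
    have h2 := hfar 0 t (this ▸ hE)
    norm_num at h2
  have hinj : ∀ t t', c.srt t = k → c.srt t' = k → w t = w t' → t = t' := by
    intro t t' ht ht' h
    have := (hw.1 (Sum.inl ⟨t, ht⟩) (Sum.inl ⟨t', ht'⟩)).1 h
    simpa [rs, cc] using this
  have hav : ∀ t', c.srt t' = k → ∀ q t, w t' = Sum.inr (q, t) → q ≠ -2 ∧ q ≠ 2 := by
    intro t' ht' q t h
    constructor
    · rintro rfl
      exact hdis t' ht' (Or.inl (Or.inr ⟨t, Or.inl h⟩))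
    · rintro rfl
      exact hdis t' ht' (Or.inl (Or.inr ⟨t, Or.inr h⟩))
  have hE1' : ∀ i m, c.s0 i = Sum.inl m → (Sum.inl m : Un ℕ c.T) ∈ E := fun i m h =>
    Or.inl (Or.inl ⟨i, m, h, rfl⟩)
  have hE2' : ∀ t, (Sum.inr (-2, t) : Un ℕ c.T) ∈ E := fun t => Or.inl (Or.inr ⟨t, Or.inl rfl⟩)
  have hE2'' : ∀ t, (Sum.inr (2, t) : Un ℕ c.T) ∈ E := fun t => Or.inl (Or.inr ⟨t, Or.inr rfl⟩)
  have hcs := sub2_inv c.srt hD.1 c.R0 c.s0 c.ka c.kb c.hs1 c.hs2
  have hsingle : ∃ q : ℚ, -2 < q ∧ q < 2 ∧ ∀ t', c.srt t' = k → ∃ t, c.srt t = k ∧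
      w t' = Sum.inr (q, t) := by
    by_cases hkb : k = c.kb
    · subst hkb
      let y : Fin c.R0.1 → Un ℕ c.T ⊕ c.T := fun i => match c.s0 i with
        | Sum.inl m => Sum.inl (Sum.inl m)
        | Sum.inr (Sum.inl t) => Sum.inr t
        | Sum.inr (Sum.inr t) => Sum.inl (w t)
      have hyset : {t | ∃ i, y i = Sum.inr t} = {t | ∃ i, c.s0 i = Sum.inr (Sum.inl t)} := by
        ext t
        constructor
        · rintro ⟨i, hi⟩
          rcases hs : c.s0 i with m | t' | t'
          · simp [y, hs] at hi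
          · simp only [y, hs, Sum.inr.injEq] at hi
            exact ⟨i, by rw [hs, hi]⟩
          · simp [y, hs] at hi
        · rintro ⟨i, hi⟩
          exact ⟨i, by simp [y, hi]⟩
      have hval : ∀ q : ℚ, (∀ t, (Sum.inr (q, t) : Un ℕ c.T) ∈ E) →
          (D c.R0 (sub1 y q) ↔ D c.R0 (sub2 c.s0 q 0)) := by
        intro q hq
        have : ∀ i, ∃ v : {t : c.T // c.srt t = c.kb} ⊕ E,
            (Sum.elim (rs c.srt c.kb w) Subtype.val) v = sub1 y q i ∧
            (Sum.elim (rs c.srt c.kb (cc 0)) Subtype.val) v = sub2 c.s0 q 0 i := by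
          intro i
          rcases hs : c.s0 i with m | t' | t'
          · exact ⟨Sum.inr ⟨Sum.inl m, hE1' i m hs⟩, by simp [sub1, y, hs], by simp [sub2, hs]⟩
          · exact ⟨Sum.inr ⟨Sum.inr (q, t'), hq t'⟩, by simp [sub1, y, hs], by simp [sub2, hs]⟩
          · exact ⟨Sum.inl ⟨t', c.hs2 i t' hs⟩, by simp [sub1, y, hs, rs], by simp [sub2, hs, rs, cc]⟩
        choose v hv1 hv2 using this
        have := hw.2 c.R0 v
        rw [show Sum.elim (rs c.srt c.kb w) Subtype.val ∘ v = sub1 y q from funext hv1,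
          show Sum.elim (rs c.srt c.kb (cc 0)) Subtype.val ∘ v = sub2 c.s0 q 0 from funext hv2]
          at this
        exact this
      refine single c.srt hD c.R0 y c.ka c.kb ?_ c.neb w hinj ?_ hav ?_ ?_ ?_
      · intro i t hi
        rcases hs : c.s0 i with m | t' | t'
        · simp [y, hs] at hi
        · simp only [y, hs, Sum.inr.injEq] at hi
          rw [← hi]; exact c.hs1 i t' hs
        · simp [y, hs] at hi
      · intro i u hi
        rcases hs : c.s0 i with m | t' | t'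
        · simp only [y, hs, Sum.inl.injEq] at hi
          exact Or.inl ⟨m, hi.symm⟩
        · simp [y, hs] at hi
        · simp only [y, hs, Sum.inl.injEq] at hi
          exact Or.inr ⟨t', c.hs2 i t' hs, hi.symm⟩
      · rw [hval (-2) hE2', hval 2 hE2'', hcs (-2) 0 0 1 (Or.inl ⟨by norm_num, by norm_num⟩),
          hcs 2 0 1 0 (Or.inr ⟨by norm_num, by norm_num⟩)]
        exact hod
      · rw [hyset]; exact c.minb
      · rw [hyset]; exact c.nnb
    · have hka : k = c.ka := (c.hK k).resolve_right hkb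
      subst hka
      have hne : c.ka ≠ c.kb := hkb
      let y : Fin c.R0.1 → Un ℕ c.T ⊕ c.T := fun i => match c.s0 i with
        | Sum.inl m => Sum.inl (Sum.inl m)
        | Sum.inr (Sum.inr t) => Sum.inr t
        | Sum.inr (Sum.inl t) => Sum.inl (w t)
      have hyset : {t | ∃ i, y i = Sum.inr t} = {t | ∃ i, c.s0 i = Sum.inr (Sum.inr t)} := by
        ext t
        constructor
        · rintro ⟨i, hi⟩
          rcases hs : c.s0 i with m | t' | t'
          · simp [y, hs] at hi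
          · simp [y, hs] at hi
          · simp only [y, hs, Sum.inr.injEq] at hi
            exact ⟨i, by rw [hs, hi]⟩
        · rintro ⟨i, hi⟩
          exact ⟨i, by simp [y, hi]⟩
      have hval : ∀ q : ℚ, (∀ t, (Sum.inr (q, t) : Un ℕ c.T) ∈ E) →
          (D c.R0 (sub1 y q) ↔ D c.R0 (sub2 c.s0 0 q)) := by
        intro q hq
        have : ∀ i, ∃ v : {t : c.T // c.srt t = c.ka} ⊕ E,
            (Sum.elim (rs c.srt c.ka w) Subtype.val) v = sub1 y q i ∧
            (Sum.elim (rs c.srt c.ka (cc 0)) Subtype.val) v = sub2 c.s0 0 q i := by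
          intro i
          rcases hs : c.s0 i with m | t' | t'
          · exact ⟨Sum.inr ⟨Sum.inl m, hE1' i m hs⟩, by simp [sub1, y, hs], by simp [sub2, hs]⟩
          · exact ⟨Sum.inl ⟨t', c.hs1 i t' hs⟩, by simp [sub1, y, hs, rs], by simp [sub2, hs, rs, cc]⟩
          · exact ⟨Sum.inr ⟨Sum.inr (q, t'), hq t'⟩, by simp [sub1, y, hs], by simp [sub2, hs]⟩
        choose v hv1 hv2 using this
        have := hw.2 c.R0 v
        rw [show Sum.elim (rs c.srt c.ka w) Subtype.val ∘ v = sub1 y q from funext hv1,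
          show Sum.elim (rs c.srt c.ka (cc 0)) Subtype.val ∘ v = sub2 c.s0 0 q from funext hv2]
          at this
        exact this
      refine single c.srt hD c.R0 y c.kb c.ka ?_ c.nea w hinj ?_ hav ?_ ?_ ?_
      · intro i t hi
        rcases hs : c.s0 i with m | t' | t'
        · simp [y, hs] at hi
        · simp [y, hs] at hi
        · simp only [y, hs, Sum.inr.injEq] at hi
          rw [← hi]; exact c.hs2 i t' hs
      · intro i u hi
        rcases hs : c.s0 i with m | t' | t'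
        · simp only [y, hs, Sum.inl.injEq] at hi
          exact Or.inl ⟨m, hi.symm⟩
        · simp only [y, hs, Sum.inl.injEq] at hi
          exact Or.inr ⟨t', c.hs1 i t' hs, hi.symm⟩
        · simp [y, hs] at hi
      · rw [hval (-2) hE2', hval 2 hE2'', hcs 0 (-2) 1 0 (Or.inr ⟨by norm_num, by norm_num⟩),
          hcs 0 2 0 1 (Or.inl ⟨by norm_num, by norm_num⟩)]
        exact fun h => hod h.symm
      · rw [hyset]; exact c.mina hne
      · rw [hyset]; exact c.nna hne
  obtain ⟨q, hq1, hq2, hall⟩ := hsingle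
  have hall' : ∀ t', ∃ t, c.srt t' = k → (c.srt t = k ∧ w t' = Sum.inr (q, t)) := by
    intro t'
    by_cases h : c.srt t' = k
    · obtain ⟨t, ht⟩ := hall t' h
      exact ⟨t, fun _ => ht⟩
    · exact ⟨t', fun h' => absurd h' h⟩
  choose π hπ using hall'
  refine ⟨q, π, hq1, hq2, ⟨fun t ht => (hπ t ht).1, ?_, ?_⟩, fun t ht => (hπ t ht).2⟩
  · intro t t' ht ht' h
    apply hinj t t' ht ht'
    rw [(hπ t ht).2, (hπ t' ht').2, h]
  · by_contra hbad
    obtain ⟨R, x, hx, hx'⟩ := hF4 (k, π) (fun t ht => (hπ t ht).1) hbad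
    apply hx'
    have hxE : ∀ i, x i ∈ F (k, π) → x i ∈ E := fun i h => Or.inr (Set.mem_iUnion.2 ⟨_, h⟩)
    have : ∀ i, ∃ v : {t : c.T // c.srt t = k} ⊕ E,
        (Sum.elim (rs c.srt k (cc 0)) Subtype.val) v = x i ∧
        (((Sum.elim (rs c.srt k w) Subtype.val) v ∈ E ∧
          pmx c.srt k π 0 (x i) = (Sum.elim (rs c.srt k w) Subtype.val) v) ∨
          ∃ t, c.srt t = k ∧ (Sum.elim (rs c.srt k w) Subtype.val) v = Sum.inr (q, t) ∧
            pmx c.srt k π 0 (x i) = Sum.inr (0, t)) := by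
      intro i
      rcases hx i with h | ⟨t, ht, hxt⟩
      · refine ⟨Sum.inr ⟨x i, hxE i h⟩, rfl, Or.inl ⟨hxE i h, ?_⟩⟩
        simp only [Sum.elim_inr]
        rcases hxi : x i with m | ⟨r, t⟩
        · rfl
        · simp only [pmx]
          rw [if_neg]
          rintro ⟨rfl, -⟩
          have := hF2 (k, π) 0 t (hxi ▸ h)
          norm_num at this
      · refine ⟨Sum.inl ⟨t, ht⟩, by simp [rs, cc, hxt], Or.inr ⟨π t, (hπ t ht).1, ?_, ?_⟩⟩
        · simp only [Sum.elim_inl, rs]
          exact (hπ t ht).2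
        · rw [hxt]
          simp [pmx, ht]
    choose v hv1 hv2 using this
    have h1 := hw.2 R v
    rw [show Sum.elim (rs c.srt k (cc 0)) Subtype.val ∘ v = x from funext hv1] at h1
    rw [← h1]
    exact move_pos c.srt hD.1 E hfar k q 0 ⟨hq1, hq2⟩ ⟨by norm_num, by norm_num⟩ R _ _ hv2

end

end Run7.h46
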