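import Pool.Agent.Run7.h46.Back6

namespace Run7.h46

open Filter Function FirstOrder FirstOrder.Language

section

variable {L : FirstOrder.Language.{0, 0}}

/-- isomorphic raw structures -/
theorem equiv_pull [L.IsRelational] {M N : Type} (A : Str L M) (e : N ≃ M) :
    @ElementarilyEquivalent L N M (toS (A.pull e)) (toS A) := by
  let _ := toS (A.pull e)
  let _ := toS A
  let E : N ≃[L] M :=
    { toEquiv := e
      map_fun' := fun f _ => isEmptyElim f
      map_rel' := fun R x => Iff.rfl }
  exact StrongHomClass.elementarilyEquivalent E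

theorem FinEmb.pull_equiv {M N : Type} (A : Str L M) (e : N ≃ M) :
    FinEmb A (A.pull e) := by
  intro s
  refine ⟨e.symm, e.symm.injective.injOn, fun R x _ => ?_⟩
  rw [Str.pull_apply]
  have : ⇑e ∘ ⇑e.symm ∘ x = x := by funext i; simp
  rw [this]

/-- The main family in raw form. -/
theorem family [L.IsRelational] [Finite L.Symbols] (B : Str L ℕ) (T : Type) (hT : Finite T)
    (A A' : Set T) (h : ODi B T A A') :
    ∃ F : Set ℕ → Str L ℕ, (∀ S, FinEmb (F S) B ∧ FinEmb B (F S)) ∧
      ∀ S S', S ≠ S' → ¬ @ElementarilyEquivalent L ℕ ℕ (toS (F S)) (toS (F S')) := by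
  classical
  have hfin : Finite (Σ n, L.Relations n) :=
    Finite.of_injective (fun R : (Σ n, L.Relations n) => (Sum.inr R : L.Symbols))
      (fun a b h => Sum.inr_injective h)
  obtain ⟨c, D0, hD0, hod0⟩ := exists_cfg B T hT A A' h
  have : Nonempty c.T := ⟨c.nea.choose⟩
  let G0 : Finset ℕ := Finset.univ.biUnion fun i => match c.s0 i with
    | Sum.inl m => {m}
    | Sum.inr _ => ∅
  have hG0 : ∀ i m, c.s0 i = Sum.inl m → m ∈ G0 := by
    intro i m him
    rw [Finset.mem_biUnion]
    exact ⟨i, Finset.mem_univ _, by rw [him]; simp⟩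
  obtain ⟨D, hD, hAg, hgen⟩ := exists_gen c.srt B D0 hD0 G0
  have hsub : ∀ q q' : ℚ, (D0 c.R0 (sub2 c.s0 q q') ↔ D c.R0 (sub2 c.s0 q q')) := by
    intro q q'
    apply hAg
    intro i m him
    apply hG0 i m
    unfold sub2 at him
    rcases hs : c.s0 i with m' | (t | t)
    · simp only [hs, Sum.inl.injEq] at him
      rw [him]
    · simp [hs] at him
    · simp [hs] at him
  have hod : ¬ (D c.R0 (sub2 c.s0 0 1) ↔ D c.R0 (sub2 c.s0 1 0)) := by
    rw [← hsub, ← hsub]
    exact hod0
  obtain ⟨E, hE1, hE2, hE3, hE4, hE5⟩ := exists_E c D hD hod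
  have hHE : HE c D E := ⟨hD, hod, hE1, hE2, hE3, hE4, hE5⟩
  have hEf : Finite E := hE1
  let code : Set ℕ → Set ℕ := fun S => {1} ∪ {n | ∃ k ∈ S, n = k + 2}
  have hcode1 : ∀ S, (code S).Nonempty := fun S => ⟨1, Or.inl rfl⟩
  have hcode2 : ∀ S, ∀ n ∈ code S, 1 ≤ n := by
    rintro S n (rfl | ⟨k, -, rfl⟩)
    · exact le_refl _
    · omega
  have hcode3 : ∀ S k, k + 2 ∈ code S ↔ k ∈ S := by
    intro S k
    constructor
    · rintro (h1 | ⟨k', h1, h2⟩)
      · simp at h1
      · have : k = k' := by omega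
        rw [this]; exact h1
    · exact fun h1 => Or.inr ⟨k, h1, rfl⟩
  have hbd : ∀ S, Nonempty (BD (code S)) := fun S => exists_BD _ (hcode1 S)
  let bd : ∀ S, BD (code S) := fun S => (hbd S).some
  have hTh : ∀ S n, 1 ≤ n → (Theta c D E n (NC c E (bd S)) (AC c D E (bd S)) default ↔ n ∈ code S) :=
    fun S n hn => ⟨theta_backward hHE hgen (hcode2 S) (hcode1 S) hn,
      fun h1 => theta_forward (bd S) hHE (hcode2 S) h1⟩
  have hcount : ∀ S, Nonempty (ℕ ≃ NC c E (bd S)) := by
    intro S
    have : Infinite (NC c E (bd S)) := Infinite.of_injective (fun m : ℕ => (nl m : NC c E (bd S)))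
      (fun m m' h1 => by
        have := congrArg Subtype.val h1
        simpa [nl] using this)
    exact nonempty_equiv_of_countable
  let ε : ∀ S, ℕ ≃ NC c E (bd S) := fun S => (hcount S).some
  refine ⟨fun S => (AC c D E (bd S)).pull (ε S), fun S => ⟨?_, ?_⟩, ?_⟩
  · refine (FinEmb.of_injective (AC c D E (bd S)) _ (ε S).injective).trans ?_
    exact (FinEmb.of_injective D _ Subtype.val_injective).trans hD.2
  · refine FinEmb.trans ?_ (FinEmb.pull_equiv (AC c D E (bd S)) (ε S))
    intro s
    obtain ⟨f, hf, hf'⟩ := hgen.1 s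
    refine ⟨fun m => nl (f m), ?_, ?_⟩
    · intro a ha b hb hab
      have := congrArg Subtype.val hab
      exact hf ha hb (by simpa [nl] using this)
    · intro R x hx
      rw [hf' R x hx]
      rfl
  · intro S S' hne heq
    have key : ∀ k, (k ∈ S ↔ k ∈ S') := by
      intro k
      have hfo := fo_Theta c D E (k + 2)
      have h1 := iff_of_equiv hfo _ _ heq
      have h2 := iff_of_equiv hfo _ _ (equiv_pull (AC c D E (bd S)) (ε S))
      have h3 := iff_of_equiv hfo _ _ (equiv_pull (AC c D E (bd S')) (ε S'))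
      have h4 := hTh S (k + 2) (by omega)
      have h5 := hTh S' (k + 2) (by omega)
      rw [hcode3] at h4 h5
      rw [← h4, ← h5, ← h2, ← h3]
      exact h1
    exact hne (Set.ext key)

end

end Run7.h46
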