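import Pool.Agent.Run7.h46.NC

namespace Run7.h46

open Filter Function FirstOrder FirstOrder.Language

section

variable {L : FirstOrder.Language.{0, 0}} {B : Str L ℕ} (c : Cfg B) (D : Str L (Un ℕ c.T))
  (E : Set (Un ℕ c.T)) {S : Set ℕ} (bd : BD S)

/-- hypotheses on the parameter set -/
structure HE : Prop where
  hD : D ∈ Cls c.srt B
  hod : ¬ (D c.R0 (sub2 c.s0 0 1) ↔ D c.R0 (sub2 c.s0 1 0))
  fin : E.Finite
  far : Far E
  full : ∀ q t t', (Sum.inr (q, t) : Un ℕ c.T) ∈ E → c.srt t = c.srt t' →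
        (Sum.inr (q, t') : Un ℕ c.T) ∈ E
  par : ∀ i m, c.s0 i = Sum.inl m → (Sum.inl m : Un ℕ c.T) ∈ E
  char : ∀ (k : c.K) (w : c.T → Un ℕ c.T), QJ c.srt D E D Subtype.val k w →
        ∃ (q : ℚ) (π : c.T → c.T), -2 < q ∧ q < 2 ∧ Good c.srt D k π ∧
          ∀ t, c.srt t = k → w t = Sum.inr (q, π t)

variable {c D E} (h : HE c D E)
include h

omit h in
theorem sameQ_AC {V V' N' : Type} {A' : Str L N'} (v : V → NC c E bd) (v' : V → N') :
    SameQ (AC c D E bd) A' v v' ↔ SameQ D A' (Subtype.val ∘ v) v' := by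
  unfold SameQ AC
  constructor
  · rintro ⟨h1, h2⟩
    refine ⟨fun i j => ?_, fun R s => h2 R s⟩
    rw [← h1 i j]
    exact ⟨fun h => Subtype.ext h, fun h => congrArg Subtype.val h⟩
  · rintro ⟨h1, h2⟩
    refine ⟨fun i j => ?_, fun R s => h2 R s⟩
    rw [← h1 i j]
    exact ⟨fun h => congrArg Subtype.val h, fun h => Subtype.ext h⟩

omit h in
theorem two_lt_of_CP {q : ℚ} {k : c.K} (hq : mkp q k ∈ CP c bd) : -2 < q ∧ q < 2 := by
  have := CP_bd c bd hq
  rw [rc_mkp] at this
  constructor <;> linarith [this.1, this.2]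

omit h in
theorem zero_lt : -2 < (0 : ℚ) ∧ (0 : ℚ) < 2 := by norm_num
omit h in
theorem half_lt : -2 < (1 / 2 : ℚ) ∧ (1 / 2 : ℚ) < 2 := by norm_num

theorem notMem_E {q : ℚ} (hq : -2 < q ∧ q < 2) (t : c.T) : (Sum.inr (q, t) : Un ℕ c.T) ∉ E := by
  intro hE
  rcases h.far q t hE with h' | h'
  · exact absurd hq.1 (not_lt.2 h')
  · exact absurd hq.2 (not_lt.2 h')

theorem JJ_iff (k : c.K) (w : c.T → NC c E bd) :
    JJ c D E (AC c D E bd) (e0 c E bd) k w ↔ ∃ q π, At c D E bd k w q π := by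
  unfold JJ QJ
  rw [sameQ_AC (V' := Unit)]
  have hv : Subtype.val ∘ Sum.elim (rs c.srt k w) (e0 c E bd)
      = Sum.elim (rs c.srt k (Subtype.val ∘ w)) Subtype.val := by
    funext i
    rcases i with i | i <;> rfl
  rw [hv]
  constructor
  · intro hQ
    obtain ⟨q, π, h1, h2, h3, h4⟩ := h.char k (Subtype.val ∘ w) hQ
    refine ⟨q, π, ?_, h3, h4⟩
    obtain ⟨t, ht⟩ := exists_sort c k
    have hmem := (w t).2
    have hw := h4 t ht
    rcases hmem with ⟨m, hm⟩ | hm | ⟨q', t', hm, hm'⟩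
    · rw [comp_apply, hm] at hw; simp at hw
    · exfalso
      rw [comp_apply] at hw
      rw [hw] at hm
      exact notMem_E h ⟨h1, h2⟩ _ hm
    · rw [comp_apply, hm] at hw
      simp only [Sum.inr.injEq, Prod.mk.injEq] at hw
      rw [← hw.1, ← h3.1 t ht, ← hw.2]
      exact hm'
  · rintro ⟨q, π, h1, h2, h3⟩
    have hq := two_lt_of_CP bd h1
    constructor
    · rintro (⟨t, ht⟩ | e) (⟨t', ht'⟩ | e')
      · simp only [Sum.elim_inl, rs, comp_apply, cc, Sum.inr.injEq, Prod.mk.injEq, true_and,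
          h3 t ht, h3 t' ht']
        exact ⟨fun hh => h2.2.1 t t' ht ht' hh, fun hh => by rw [hh]⟩
      · simp only [Sum.elim_inl, Sum.elim_inr, rs, comp_apply, cc, h3 t ht]
        exact ⟨fun hh => absurd (hh ▸ e'.2) (notMem_E h hq _),
          fun hh => absurd (hh ▸ e'.2) (notMem_E h zero_lt _)⟩
      · simp only [Sum.elim_inl, Sum.elim_inr, rs, comp_apply, cc, h3 t' ht']
        exact ⟨fun hh => absurd (hh ▸ e.2) (notMem_E h hq _),
          fun hh => absurd (hh ▸ e.2) (notMem_E h zero_lt _)⟩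
      · simp only [Sum.elim_inr]
    · intro R s
      let X0 : Fin R.1 → Un ℕ c.T := fun i => match s i with
        | Sum.inl t => Sum.inr (q, t.1)
        | Sum.inr e => e.1
      have e1 : Sum.elim (rs c.srt k (Subtype.val ∘ w)) Subtype.val ∘ s = pmx c.srt k π q ∘ X0 := by
        funext i
        rcases hs : s i with t | e
        · simp only [comp_apply, hs, Sum.elim_inl, rs, X0, h3 t.1 t.2]
          rw [pmx_same c t.2]
        · simp only [comp_apply, hs, Sum.elim_inr, X0]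
          rw [pmx_far c E h.far hq e.2]
      rw [e1, ← h2.at c.srt h.hD.1 q R X0]
      apply move_pos c.srt h.hD.1 E h.far k q 0 hq zero_lt
      intro i
      rcases hs : s i with t | e
      · right
        exact ⟨t.1, t.2, by simp [X0, hs], by simp [hs, rs, cc]⟩
      · left
        exact ⟨by simp [X0, hs], by simp [X0, hs]⟩

omit h in
theorem ov_of_same {k : c.K} {x y : c.T → NC c E bd} {q : ℚ} {π π' : c.T → c.T}
    (hx : At c D E bd k x q π) (hy : At c D E bd k y q π') : ov c k k x y := by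
  obtain ⟨t, ht⟩ := exists_sort c k
  obtain ⟨t', ht', hπ⟩ := Good.surj c hy.2.1 (π t) (hx.2.1.1 t ht)
  refine ⟨t, t', ht, ht', Subtype.ext ?_⟩
  rw [hx.2.2 t ht, hy.2.2 t' ht', hπ]

omit h in
theorem same_of_ov {k k' : c.K} {x y : c.T → NC c E bd} {q q' : ℚ} {π π' : c.T → c.T}
    (hx : At c D E bd k x q π) (hy : At c D E bd k' y q' π') (ho : ov c k k' x y) :
    mkp q k = mkp q' k' := by
  obtain ⟨t, t', ht, ht', he⟩ := ho
  have := congrArg Subtype.val he
  rw [hx.2.2 t ht, hy.2.2 t' ht'] at this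
  simp only [Sum.inr.injEq, Prod.mk.injEq] at this
  have h1 := hx.2.1.1 t ht
  have h2 := hy.2.1.1 t' ht'
  rw [this.2] at h1
  rw [this.1, ← h1, h2]

theorem lt0_of_lt {k k' : c.K} {x y : c.T → NC c E bd} {q q' : ℚ} {π π' : c.T → c.T}
    (hx : At c D E bd k x q π) (hy : At c D E bd k' y q' π') (hrel : c.rel k k')
    (hlt : mkp q k < mkp q' k') : lt0 c D E (AC c D E bd) (e0 c E bd) k k' x y := by
  refine ⟨hrel, ?_⟩
  rw [sameQ_AC (V' := Unit)]
  have hq := two_lt_of_CP bd hx.1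
  have hq' := two_lt_of_CP bd hy.1
  have hxy : ∀ t t', c.srt t = k → c.srt t' = k' → x t ≠ y t' := by
    intro t t' ht ht' he
    exact hlt.ne (same_of_ov bd hx hy ⟨t, t', ht, ht', he⟩)
  have hxe : ∀ t, c.srt t = k → ∀ e : E, x t ≠ e0 c E bd e := by
    intro t ht e he
    have := congrArg Subtype.val he
    rw [hx.2.2 t ht] at this
    exact notMem_E h hq _ (this ▸ e.2)
  have hye : ∀ t, c.srt t = k' → ∀ e : E, y t ≠ e0 c E bd e := by
    intro t ht e he
    have := congrArg Subtype.val he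
    rw [hy.2.2 t ht] at this
    exact notMem_E h hq' _ (this ▸ e.2)
  constructor
  · rintro ((⟨t, ht⟩ | ⟨t, ht⟩) | e) ((⟨t', ht'⟩ | ⟨t', ht'⟩) | e')
    · simp only [comp_apply, Sum.elim_inl, rs, cc, Sum.inr.injEq, Prod.mk.injEq, true_and,
          hx.2.2 t ht, hx.2.2 t' ht']
      exact ⟨fun hh => hx.2.1.2.1 t t' ht ht' hh, fun hh => by rw [hh]⟩
    · simp only [comp_apply, Sum.elim_inl, Sum.elim_inr, rs, cc, Sum.inr.injEq, Prod.mk.injEq]
      constructor
      · intro hh; exact absurd (Subtype.ext hh) (hxy t t' ht ht')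
      · rintro ⟨hh, -⟩; norm_num at hh
    · simp only [comp_apply, Sum.elim_inl, Sum.elim_inr, rs, cc]
      constructor
      · intro hh; exact absurd (Subtype.ext hh) (hxe t ht e')
      · intro hh; exact absurd (hh ▸ e'.2) (notMem_E h zero_lt _)
    · simp only [comp_apply, Sum.elim_inl, Sum.elim_inr, rs, cc, Sum.inr.injEq, Prod.mk.injEq]
      constructor
      · intro hh; exact absurd (Subtype.ext hh.symm) (hxy t' t ht' ht)
      · rintro ⟨hh, -⟩; norm_num at hh
    · simp only [comp_apply, Sum.elim_inl, Sum.elim_inr, rs, cc, Sum.inr.injEq, Prod.mk.injEq,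
        true_and, hy.2.2 t ht, hy.2.2 t' ht']
      exact ⟨fun hh => hy.2.1.2.1 t t' ht ht' hh, fun hh => by rw [hh]⟩
    · simp only [comp_apply, Sum.elim_inl, Sum.elim_inr, rs, cc]
      constructor
      · intro hh; exact absurd (Subtype.ext hh) (hye t ht e')
      · intro hh; exact absurd (hh ▸ e'.2) (notMem_E h half_lt _)
    · simp only [comp_apply, Sum.elim_inl, Sum.elim_inr, rs, cc]
      constructor
      · intro hh; exact absurd (Subtype.ext hh.symm) (hxe t' ht' e)
      · intro hh; exact absurd (hh ▸ e.2) (notMem_E h zero_lt _)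
    · simp only [comp_apply, Sum.elim_inl, Sum.elim_inr, rs, cc]
      constructor
      · intro hh; exact absurd (Subtype.ext hh.symm) (hye t' ht' e)
      · intro hh; exact absurd (hh ▸ e.2) (notMem_E h half_lt _)
    · simp only [comp_apply, Sum.elim_inr, e0]
  · intro R s
    let X0 : Fin R.1 → Un ℕ c.T := fun i => match s i with
      | Sum.inl (Sum.inl t) => Sum.inr (q, t.1)
      | Sum.inl (Sum.inr t) => Sum.inr (q', t.1)
      | Sum.inr e => e.1
    have e1 : (Subtype.val ∘ Sum.elim (Sum.elim (rs c.srt k x) (rs c.srt k' y)) (e0 c E bd)) ∘ s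
        = pmx c.srt k π q ∘ pmx c.srt k' π' q' ∘ X0 := by
      funext i
      rcases hs : s i with (t | t) | e
      · simp only [comp_apply, hs, Sum.elim_inl, rs, X0, hx.2.2 t.1 t.2]
        rw [pmx_other c t.2 hlt.ne', pmx_same c t.2]
      · simp only [comp_apply, hs, Sum.elim_inl, Sum.elim_inr, rs, X0, hy.2.2 t.1 t.2]
        rw [pmx_same c t.2, pmx_other c (hy.2.1.1 t.1 t.2) hlt.ne]
      · simp only [comp_apply, hs, Sum.elim_inr, X0, e0]
        rw [pmx_far c E h.far hq' e.2, pmx_far c E h.far hq e.2]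
    rw [e1, ← hx.2.1.at c.srt h.hD.1 q R, ← hy.2.1.at c.srt h.hD.1 q' R]
    apply h.hD.1.sim
    constructor
    · intro i
      rcases hs : s i with (t | t) | e
      · right; exact ⟨q, 0, t.1, by simp [X0, hs], by simp [hs, rs, cc]⟩
      · right; exact ⟨q', 1 / 2, t.1, by simp [X0, hs], by simp [hs, rs, cc]⟩
      · rcases he : e.1 with m | ⟨r, t⟩
        · left; exact ⟨m, by simp [X0, hs, he], by simp [hs, he]⟩
        · right; exact ⟨r, r, t, by simp [X0, hs, he], by simp [hs, he]⟩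
    · have key : ∀ i r t r', X0 i = Sum.inr (r, t) →
          (Sum.elim (Sum.elim (rs c.srt k (cc 0)) (rs c.srt k' (cc (1 / 2)))) Subtype.val ∘ s) i
            = (Sum.inr (r', t) : Un ℕ c.T) →
          (r = q ∧ r' = 0 ∧ c.srt t = k) ∨ (r = q' ∧ r' = 1 / 2 ∧ c.srt t = k') ∨
            (r = r' ∧ (r ≤ -2 ∨ 2 ≤ r)) := by
        intro i r t r' h1 h2
        rcases hs : s i with (t' | t') | e
        · simp only [X0, hs, Sum.inr.injEq, Prod.mk.injEq] at h1
          simp only [comp_apply, hs, Sum.elim_inl, rs, cc, Sum.inr.injEq, Prod.mk.injEq] at h2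
          left; exact ⟨h1.1.symm, h2.1.symm, by rw [← h1.2]; exact t'.2⟩
        · simp only [X0, hs, Sum.inr.injEq, Prod.mk.injEq] at h1
          simp only [comp_apply, hs, Sum.elim_inl, Sum.elim_inr, rs, cc, Sum.inr.injEq,
            Prod.mk.injEq] at h2
          right; left; exact ⟨h1.1.symm, h2.1.symm, by rw [← h1.2]; exact t'.2⟩
        · simp only [X0, hs] at h1
          simp only [comp_apply, hs, Sum.elim_inr] at h2
          rw [h1] at h2
          simp only [Sum.inr.injEq, Prod.mk.injEq, and_true] at h2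
          right; right
          exact ⟨h2, h.far r t (h1 ▸ e.2)⟩
      intro i j a1 t1 a1' a2 t2 a2' g1 g2 g3 g4
      have hb1 := CP_bd c bd hx.1
      have hb2 := CP_bd c bd hy.1
      simp only [rc_mkp] at hb1 hb2
      rcases key i a1 t1 a1' g1 g2 with ⟨rfl, rfl, hk1⟩ | ⟨rfl, rfl, hk1⟩ | ⟨rfl, hr1⟩ <;>
      rcases key j a2 t2 a2' g3 g4 with ⟨h9, h8, hk2⟩ | ⟨h9, h8, hk2⟩ | ⟨h9, hr2⟩
      · rw [h9, h8, hk1, hk2]
        exact ⟨fun hh => absurd hh (lt_irrefl _), fun _ => rfl⟩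
      · rw [h9, h8, hk1, hk2]
        refine ⟨fun _ => by rw [mkp_lt]; left; norm_num, fun hh => absurd hh hlt.ne⟩
      · rw [← h9, mkp_lt, mkp_lt, mkp_inj]
        constructor
        · rintro (hh | ⟨hh, -⟩)
          · left
            rcases hr2 with h7 | h7 <;> linarith
          · exfalso; rcases hr2 with h7 | h7 <;> linarith
        · rintro ⟨hh, -⟩; exfalso; rcases hr2 with h7 | h7 <;> linarith
      · rw [h9, h8, hk1, hk2]
        exact ⟨fun hh => absurd hh (not_lt.2 hlt.le), fun hh => absurd hh hlt.ne'⟩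
      · rw [h9, h8, hk1, hk2]
        exact ⟨fun hh => absurd hh (lt_irrefl _), fun _ => rfl⟩
      · rw [← h9, mkp_lt, mkp_lt, mkp_inj]
        constructor
        · rintro (hh | ⟨hh, -⟩)
          · left
            rcases hr2 with h7 | h7 <;> linarith
          · exfalso; rcases hr2 with h7 | h7 <;> linarith
        · rintro ⟨hh, -⟩; exfalso; rcases hr2 with h7 | h7 <;> linarith
      · rw [h9, h8, mkp_lt, mkp_lt, mkp_inj]
        constructor
        · rintro (hh | ⟨hh, -⟩)
          · left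
            rcases hr1 with h7 | h7 <;> linarith
          · exfalso; rcases hr1 with h7 | h7 <;> linarith
        · rintro ⟨hh, -⟩; exfalso; rcases hr1 with h7 | h7 <;> linarith
      · rw [h9, h8, mkp_lt, mkp_lt, mkp_inj]
        constructor
        · rintro (hh | ⟨hh, -⟩)
          · left
            rcases hr1 with h7 | h7 <;> linarith
          · exfalso; rcases hr1 with h7 | h7 <;> linarith
        · rintro ⟨hh, -⟩; exfalso; rcases hr1 with h7 | h7 <;> linarith
      · rw [← h9]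
        exact ⟨fun hh => hh, fun hh => (mkp_inj.1 hh).1⟩

/-- the two template types are different -/
theorem types_ne {k k' : c.K} (hrel : c.rel k k')
    (hs : SameQ D D
      (Sum.elim (Sum.elim (rs c.srt k (cc 0)) (rs c.srt k' (cc (1 / 2)))) (Subtype.val : E → _))
      (Sum.elim (Sum.elim (rs c.srt k (cc (1 / 2))) (rs c.srt k' (cc 0))) (Subtype.val : E → _))) :
    False := by
  apply h.hod
  have hcs := sub2_inv c.srt h.hD.1 c.R0 c.s0 c.ka c.kb c.hs1 c.hs2
  rcases hrel with ⟨rfl, rfl⟩ | ⟨rfl, rfl⟩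
  · have : ∀ i, ∃ v : ({t : c.T // c.srt t = c.ka} ⊕ {t : c.T // c.srt t = c.kb}) ⊕ E,
        (Sum.elim (Sum.elim (rs c.srt c.ka (cc 0)) (rs c.srt c.kb (cc (1 / 2)))) Subtype.val) v
          = sub2 c.s0 0 (1 / 2) i ∧
        (Sum.elim (Sum.elim (rs c.srt c.ka (cc (1 / 2))) (rs c.srt c.kb (cc 0))) Subtype.val) v
          = sub2 c.s0 (1 / 2) 0 i := by
      intro i
      rcases hs : c.s0 i with m | t' | t'
      · exact ⟨Sum.inr ⟨Sum.inl m, h.par i m hs⟩, by simp [sub2, hs], by simp [sub2, hs]⟩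
      · exact ⟨Sum.inl (Sum.inl ⟨t', c.hs1 i t' hs⟩), by simp [sub2, hs, rs, cc],
          by simp [sub2, hs, rs, cc]⟩
      · exact ⟨Sum.inl (Sum.inr ⟨t', c.hs2 i t' hs⟩), by simp [sub2, hs, rs, cc],
          by simp [sub2, hs, rs, cc]⟩
    choose v hv1 hv2 using this
    have h1 := hs.2 c.R0 v
    have e1 : (Sum.elim (Sum.elim (rs c.srt c.ka (cc 0)) (rs c.srt c.kb (cc (1 / 2))))
      (Subtype.val : E → _)) ∘ v = sub2 c.s0 0 (1 / 2) := funext hv1
    have e2 : (Sum.elim (Sum.elim (rs c.srt c.ka (cc (1 / 2))) (rs c.srt c.kb (cc 0)))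
      (Subtype.val : E → _)) ∘ v = sub2 c.s0 (1 / 2) 0 := funext hv2
    rw [e1, e2] at h1
    rw [hcs 0 1 0 (1 / 2) (Or.inl ⟨by norm_num, by norm_num⟩),
      hcs 1 0 (1 / 2) 0 (Or.inr ⟨by norm_num, by norm_num⟩)]
    exact h1
  · have : ∀ i, ∃ v : ({t : c.T // c.srt t = c.kb} ⊕ {t : c.T // c.srt t = c.ka}) ⊕ E,
        (Sum.elim (Sum.elim (rs c.srt c.kb (cc 0)) (rs c.srt c.ka (cc (1 / 2)))) Subtype.val) v
          = sub2 c.s0 (1 / 2) 0 i ∧
        (Sum.elim (Sum.elim (rs c.srt c.kb (cc (1 / 2))) (rs c.srt c.ka (cc 0))) Subtype.val) v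
          = sub2 c.s0 0 (1 / 2) i := by
      intro i
      rcases hs : c.s0 i with m | t' | t'
      · exact ⟨Sum.inr ⟨Sum.inl m, h.par i m hs⟩, by simp [sub2, hs], by simp [sub2, hs]⟩
      · exact ⟨Sum.inl (Sum.inr ⟨t', c.hs1 i t' hs⟩), by simp [sub2, hs, rs, cc],
          by simp [sub2, hs, rs, cc]⟩
      · exact ⟨Sum.inl (Sum.inl ⟨t', c.hs2 i t' hs⟩), by simp [sub2, hs, rs, cc],
          by simp [sub2, hs, rs, cc]⟩
    choose v hv1 hv2 using this
    have h1 := hs.2 c.R0 v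
    have e1 : (Sum.elim (Sum.elim (rs c.srt c.kb (cc 0)) (rs c.srt c.ka (cc (1 / 2))))
      (Subtype.val : E → _)) ∘ v = sub2 c.s0 (1 / 2) 0 := funext hv1
    have e2 : (Sum.elim (Sum.elim (rs c.srt c.kb (cc (1 / 2))) (rs c.srt c.ka (cc 0)))
      (Subtype.val : E → _)) ∘ v = sub2 c.s0 0 (1 / 2) := funext hv2
    rw [e1, e2] at h1
    rw [hcs 0 1 0 (1 / 2) (Or.inl ⟨by norm_num, by norm_num⟩),
      hcs 1 0 (1 / 2) 0 (Or.inr ⟨by norm_num, by norm_num⟩)]
    exact h1.symm

theorem lt0_asymm {N : Type} (A : Str L N) (e : E → N) {k k' : c.K} {x y : c.T → N}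
    (h1 : lt0 c D E A e k k' x y) (h2 : lt0 c D E A e k' k y x) : False := by
  refine types_ne h h1.1 (h1.2.symm.trans ?_)
  let f : ({t : c.T // c.srt t = k} ⊕ {t : c.T // c.srt t = k'}) ⊕ E →
      ({t : c.T // c.srt t = k'} ⊕ {t : c.T // c.srt t = k}) ⊕ E := Sum.map Sum.swap id
  have := h2.2.comp f
  have e1 : Sum.elim (Sum.elim (rs c.srt k' y) (rs c.srt k x)) e ∘ f
      = Sum.elim (Sum.elim (rs c.srt k x) (rs c.srt k' y)) e := by
    funext i; rcases i with (i | i) | i <;> rfl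
  have e2 : Sum.elim (Sum.elim (rs c.srt k' (cc 0)) (rs c.srt k (cc (1 / 2)))) (Subtype.val : E → _)
      ∘ f = Sum.elim (Sum.elim (rs c.srt k (cc (1 / 2))) (rs c.srt k' (cc 0))) Subtype.val := by
    funext i; rcases i with (i | i) | i <;> rfl
  rwa [e1, e2] at this

theorem lt0_iff {k k' : c.K} {x y : c.T → NC c E bd} {q q' : ℚ} {π π' : c.T → c.T}
    (hx : At c D E bd k x q π) (hy : At c D E bd k' y q' π') :
    lt0 c D E (AC c D E bd) (e0 c E bd) k k' x y ↔ c.rel k k' ∧ mkp q k < mkp q' k' := by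
  constructor
  · intro hl
    refine ⟨hl.1, ?_⟩
    rcases lt_trichotomy (mkp q k) (mkp q' k') with h1 | h1 | h1
    · exact h1
    · exfalso
      rw [mkp_inj] at h1
      obtain ⟨rfl, rfl⟩ := h1
      obtain ⟨t, t', ht, ht', he⟩ := ov_of_same bd hx hy
      have := (hl.2.1 (Sum.inl (Sum.inl ⟨t, ht⟩)) (Sum.inl (Sum.inr ⟨t', ht'⟩))).1 he
      simp only [Sum.elim_inl, Sum.elim_inr, rs, cc, Sum.inr.injEq, Prod.mk.injEq] at this
      norm_num at this
    · exact absurd (lt0_of_lt bd h hy hx (rel_symm c hl.1) h1) (fun h2 => lt0_asymm h _ _ hl h2)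
  · rintro ⟨h1, h2⟩
    exact lt0_of_lt bd h hx hy h1 h2

theorem prec_iff {k k' : c.K} {x y : c.T → NC c E bd} {q q' : ℚ} {π π' : c.T → c.T}
    (hx : At c D E bd k x q π) (hy : At c D E bd k' y q' π') :
    prec c D E (AC c D E bd) (e0 c E bd) k k' x y ↔ mkp q k < mkp q' k' := by
  constructor
  · rintro (hl | ⟨k'', z, hz, h1, h2⟩)
    · exact ((lt0_iff bd h hx hy).1 hl).2
    · obtain ⟨q'', π'', hz⟩ := (JJ_iff bd h k'' z).1 hz
      exact ((lt0_iff bd h hx hz).1 h1).2.trans ((lt0_iff bd h hz hy).1 h2).2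
  · intro hlt
    by_cases hr : c.rel k k'
    · exact Or.inl ((lt0_iff bd h hx hy).2 ⟨hr, hlt⟩)
    · obtain ⟨p'', hp'', h1, h2, h3, h4⟩ := altern c bd hx.1 hy.1 hlt hr
      right
      have hp : mkp (rc p'') (kc p'') ∈ CP c bd := hp''
      have hz := At_tup c D E bd hp
      exact ⟨kc p'', tup c E bd (rc p'') (kc p'') hp, (JJ_iff bd h _ _).2 ⟨_, _, hz⟩,
        (lt0_iff bd h hx hz).2 ⟨h3, h1⟩, (lt0_iff bd h hz hy).2 ⟨h4, h2⟩⟩

theorem n3_AC : N3 c D E (AC c D E bd) (e0 c E bd) := by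
  classical
  intro R p u u' d h1 h2 h3
  -- data
  have g1 : ∀ i t, p i = some t → ∃ q π, At c D E bd (c.srt t) (fun s => u (i, s)) q π :=
    fun i t hi => (JJ_iff bd h _ _).1 (h1 i t hi).1
  have g2 : ∀ i t, p i = some t → ∃ q π, At c D E bd (c.srt t) (fun s => u' (i, s)) q π :=
    fun i t hi => (JJ_iff bd h _ _).1 (h1 i t hi).2
  have g1' : ∀ i, ∃ q π, ∀ t, p i = some t → At c D E bd (c.srt t) (fun s => u (i, s)) q π := by
    intro i
    rcases hp : p i with _ | t
    · exact ⟨0, id, fun t h => by simp at h⟩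
    · obtain ⟨q, π, hq⟩ := g1 i t hp
      exact ⟨q, π, fun t' ht' => by
        simp only [Option.some.injEq] at ht'
        rw [← ht']; exact hq⟩
  have g2' : ∀ i, ∃ q π, ∀ t, p i = some t → At c D E bd (c.srt t) (fun s => u' (i, s)) q π := by
    intro i
    rcases hp : p i with _ | t
    · exact ⟨0, id, fun t h => by simp at h⟩
    · obtain ⟨q, π, hq⟩ := g2 i t hp
      exact ⟨q, π, fun t' ht' => by
        simp only [Option.some.injEq] at ht'
        rw [← ht']; exact hq⟩
  choose q π hq using g1'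
  choose q' π' hq' using g2'
  have hd : ∀ i, p i = none → (∃ m, (d i).1 = Sum.inl m) ∨ (d i).1 ∈ E := by
    intro i hi
    rcases (d i).2 with hm | hm | ⟨r, t, hm, hm'⟩
    · exact Or.inl hm
    · exact Or.inr hm
    · exfalso
      have hz := At_tup c D E bd hm'
      refine h3 i hi (c.srt t) (tup c E bd r (c.srt t) hm') ((JJ_iff bd h _ _).2 ⟨_, _, hz⟩) t rfl ?_
      apply Subtype.ext
      rw [hm, tup_val c E bd hm' t rfl]
  -- positions determine the permutation
  have hsame : ∀ i j t t', p i = some t → p j = some t' → mkp (q i) (c.srt t) = mkp (q j) (c.srt t') →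
      ∀ s, c.srt s = c.srt t → π i s = π j s := by
    intro i j t t' hi hj hpos s hs
    rcases h2 i j t t' hi hj with ⟨hk, hss⟩ | ⟨hlt, -⟩ | ⟨hlt, -⟩
    · have := congrArg Subtype.val (hss s hs).1
      have e1 := (hq i t hi).2.2 s hs
      have e2 := (hq j t' hj).2.2 s (hs.trans hk)
      simp only at e1 e2
      rw [e1, e2] at this
      simp only [Sum.inr.injEq, Prod.mk.injEq] at this
      exact this.2
    · rw [prec_iff bd h (hq i t hi) (hq j t' hj)] at hlt
      exact absurd hpos hlt.ne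
    · rw [prec_iff bd h (hq j t' hj) (hq i t hi)] at hlt
      exact absurd hpos hlt.ne'
  have hsame' : ∀ i j t t', p i = some t → p j = some t' →
      mkp (q' i) (c.srt t) = mkp (q' j) (c.srt t') →
      ∀ s, c.srt s = c.srt t → π' i s = π' j s := by
    intro i j t t' hi hj hpos s hs
    rcases h2 i j t t' hi hj with ⟨hk, hss⟩ | ⟨-, hlt⟩ | ⟨-, hlt⟩
    · have := congrArg Subtype.val (hss s hs).2
      have e1 := (hq' i t hi).2.2 s hs
      have e2 := (hq' j t' hj).2.2 s (hs.trans hk)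
      simp only at e1 e2
      rw [e1, e2] at this
      simp only [Sum.inr.injEq, Prod.mk.injEq] at this
      exact this.2
    · rw [prec_iff bd h (hq' i t hi) (hq' j t' hj)] at hlt
      exact absurd hpos hlt.ne
    · rw [prec_iff bd h (hq' j t' hj) (hq' i t hi)] at hlt
      exact absurd hpos hlt.ne'
  -- undo permutations
  have undo : ∀ (r : Fin R.1 → ℚ) (ρ : Fin R.1 → c.T → c.T) (v : Fin R.1 × c.T → NC c E bd),
      (∀ i t, p i = some t → At c D E bd (c.srt t) (fun s => v (i, s)) (r i) (ρ i)) →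
      (∀ i j t t', p i = some t → p j = some t' → mkp (r i) (c.srt t) = mkp (r j) (c.srt t') →
        ∀ s, c.srt s = c.srt t → ρ i s = ρ j s) →
      (D R (fun i => match p i with
        | some t => (v (i, t)).1
        | none => (d i).1) ↔
      D R (fun i => match p i with
        | some t => Sum.inr (r i, t)
        | none => (d i).1)) := by
    intro r ρ v hv hρ
    let X : Finset (Ps c.K) → Fin R.1 → Un ℕ c.T := fun Q i => match p i with
      | some t => if mkp (r i) (c.srt t) ∈ Q then Sum.inr (r i, ρ i t) else Sum.inr (r i, t)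
      | none => (d i).1
    have hX : ∀ Q, D R (X Q) ↔ D R (X ∅) := by
      intro Q
      induction Q using Finset.induction_on with
      | empty => rfl
      | insert p0 Q hp0 ih =>
        rw [← ih]
        by_cases hex : ∃ i t, p i = some t ∧ mkp (r i) (c.srt t) = p0
        · obtain ⟨i0, t0, hi0, hp00⟩ := hex
          have hgood := (hv i0 t0 hi0).2.1
          have hbd := two_lt_of_CP bd (hv i0 t0 hi0).1
          rw [hgood.at c.srt h.hD.1 (r i0) R (X Q)]
          have : X (insert p0 Q) = pmx c.srt (c.srt t0) (ρ i0) (r i0) ∘ X Q := by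
            funext i
            rcases hpi : p i with _ | t
            · simp only [X, hpi, comp_apply]
              rcases hd i hpi with ⟨m, hm⟩ | hm
              · rw [hm]; rfl
              · rw [pmx_far c E h.far hbd hm]
            · by_cases hpos : mkp (r i) (c.srt t) = p0
              · have hnQ : mkp (r i) (c.srt t) ∉ Q := by rw [hpos]; exact hp0
                have hinQ : mkp (r i) (c.srt t) ∈ insert p0 Q := by
                  rw [hpos]; exact Finset.mem_insert_self _ _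
                have heq := hρ i i0 t t0 hpi hi0 (by rw [hpos, hp00]) t rfl
                have h5 : mkp (r i) (c.srt t) = mkp (r i0) (c.srt t0) := by rw [hpos, hp00]
                rw [mkp_inj] at h5
                simp only [X, hpi, comp_apply]
                rw [if_pos hinQ, if_neg hnQ, h5.1, pmx_same c h5.2, heq]
              · have hiff : mkp (r i) (c.srt t) ∈ insert p0 Q ↔ mkp (r i) (c.srt t) ∈ Q := by
                  rw [Finset.mem_insert]
                  exact ⟨fun hh => hh.resolve_left hpos, Or.inr⟩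
                simp only [X, hpi, comp_apply]
                by_cases hin : mkp (r i) (c.srt t) ∈ Q
                · rw [if_pos (hiff.2 hin), if_pos hin]
                  rw [pmx_other c ((hv i t hpi).2.1.1 t rfl) (by rw [hp00]; exact Ne.symm hpos)]
                · rw [if_neg (fun hh => hin (hiff.1 hh)), if_neg hin]
                  rw [pmx_other c rfl (by rw [hp00]; exact Ne.symm hpos)]
          rw [this]
        · have : X (insert p0 Q) = X Q := by
            funext i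
            rcases hpi : p i with _ | t
            · simp only [X, hpi]
            · have hpos : mkp (r i) (c.srt t) ≠ p0 := fun hh => hex ⟨i, t, hpi, hh⟩
              have hiff : mkp (r i) (c.srt t) ∈ insert p0 Q ↔ mkp (r i) (c.srt t) ∈ Q := by
                rw [Finset.mem_insert]
                exact ⟨fun hh => hh.resolve_left hpos, Or.inr⟩
              simp only [X, hpi, hiff]
          rw [this]
    let Q : Finset (Ps c.K) := Finset.univ.biUnion fun i => match p i with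
      | some t => {mkp (r i) (c.srt t)}
      | none => ∅
    have hQ : ∀ i t, p i = some t → mkp (r i) (c.srt t) ∈ Q := by
      intro i t hi
      rw [Finset.mem_biUnion]
      exact ⟨i, Finset.mem_univ _, by simp [hi]⟩
    have e1 : X Q = (fun i => match p i with
        | some t => (v (i, t)).1
        | none => (d i).1) := by
      funext i
      rcases hpi : p i with _ | t
      · simp only [X, hpi]
      · simp only [X, hpi]
        rw [if_pos (hQ i t hpi)]
        exact ((hv i t hpi).2.2 t rfl).symm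
    have e2 : X ∅ = (fun i => match p i with
        | some t => Sum.inr (r i, t)
        | none => (d i).1) := by
      funext i
      rcases hpi : p i with _ | t
      · simp only [X, hpi]
      · simp [X, hpi]
    rw [← e1, ← e2]
    exact hX Q
  have conv : ∀ v : Fin R.1 × c.T → NC c E bd, (AC c D E bd) R (fun i => match p i with
      | some t => v (i, t)
      | none => d i) ↔ D R (fun i => match p i with
        | some t => (v (i, t)).1
        | none => (d i).1) := by
    intro v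
    unfold AC
    rw [Str.pull_apply]
    have : (Subtype.val ∘ fun i => match p i with
      | some t => v (i, t)
      | none => d i) = (fun i => match p i with
        | some t => (v (i, t)).1
        | none => (d i).1) := by
      funext i
      rcases hpi : p i with _ | t <;> simp [hpi]
    rw [this]
  refine (conv u).trans (Iff.trans ?_ (conv u').symm)
  refine (undo q π u hq hsame).trans (Iff.trans ?_ (undo q' π' u' hq' hsame').symm)
  apply h.hD.1.sim
  constructor
  · intro i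
    rcases hpi : p i with _ | t
    · rcases hdi : (d i).1 with m | ⟨r, t⟩
      · left; exact ⟨m, by simp [hpi, hdi], by simp [hpi, hdi]⟩
      · right; exact ⟨r, r, t, by simp [hpi, hdi], by simp [hpi, hdi]⟩
    · right; exact ⟨q i, q' i, t, by simp [hpi], by simp [hpi]⟩
  · have key : ∀ i r t r', (match p i with
        | some t => Sum.inr (q i, t)
        | none => (d i).1 : Un ℕ c.T) = Sum.inr (r, t) → (match p i with
        | some t => Sum.inr (q' i, t)
        | none => (d i).1 : Un ℕ c.T) = Sum.inr (r', t) →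
        (p i = some t ∧ r = q i ∧ r' = q' i ∧ mkp r (c.srt t) ∈ CP c bd ∧
          mkp r' (c.srt t) ∈ CP c bd) ∨ (p i = none ∧ r = r' ∧ (r ≤ -2 ∨ 2 ≤ r)) := by
      intro i r t r' e1 e2
      rcases hpi : p i with _ | t'
      · simp only [hpi] at e1 e2
        right
        rw [e1] at e2
        simp only [Sum.inr.injEq, Prod.mk.injEq, and_true] at e2
        refine ⟨rfl, e2, ?_⟩
        rcases hd i hpi with ⟨m, hm⟩ | hm
        · rw [hm] at e1; simp at e1
        · rw [e1] at hm; exact h.far r t hm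
      · simp only [hpi, Sum.inr.injEq, Prod.mk.injEq] at e1 e2
        left
        refine ⟨by rw [e1.2], e1.1.symm, e2.1.symm, ?_, ?_⟩
        · rw [← e1.1, ← e1.2]; exact (hq i t' hpi).1
        · rw [← e2.1, ← e2.2]; exact (hq' i t' hpi).1
    intro i j a1 t1 a1' a2 t2 a2' f1 f2 f3 f4
    rcases key i a1 t1 a1' f1 f2 with ⟨hp1, rfl, rfl, hc1, hc1'⟩ | ⟨hp1, rfl, hr1⟩ <;>
    rcases key j a2 t2 a2' f3 f4 with ⟨hp2, rfl, rfl, hc2, hc2'⟩ | ⟨hp2, rfl, hr2⟩
    · rcases h2 i j t1 t2 hp1 hp2 with ⟨hk, hss⟩ | ⟨hlt, hlt'⟩ | ⟨hlt, hlt'⟩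
      · -- same position
        have e1 := (hq i t1 hp1).2.2 t1 rfl
        have e2 := (hq j t2 hp2).2.2 t1 hk
        have e1' := (hq' i t1 hp1).2.2 t1 rfl
        have e2' := (hq' j t2 hp2).2.2 t1 hk
        simp only at e1 e2 e1' e2'
        have e3 := congrArg Subtype.val (hss t1 rfl).1
        have e3' := congrArg Subtype.val (hss t1 rfl).2
        rw [e1, e2] at e3
        rw [e1', e2'] at e3'
        simp only [Sum.inr.injEq, Prod.mk.injEq] at e3 e3'
        rw [e3.1, e3'.1, hk]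
        exact ⟨fun hh => absurd hh (lt_irrefl _), fun _ => rfl⟩
      · rw [prec_iff bd h (hq i t1 hp1) (hq j t2 hp2)] at hlt
        rw [prec_iff bd h (hq' i t1 hp1) (hq' j t2 hp2)] at hlt'
        exact ⟨fun _ => hlt', fun hh => absurd hh hlt.ne⟩
      · rw [prec_iff bd h (hq j t2 hp2) (hq i t1 hp1)] at hlt
        rw [prec_iff bd h (hq' j t2 hp2) (hq' i t1 hp1)] at hlt'
        exact ⟨fun hh => absurd hh (not_lt.2 hlt.le), fun hh => absurd hh hlt.ne'⟩
    · have b1 := CP_bd c bd hc1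
      have b2 := CP_bd c bd hc1'
      simp only [rc_mkp] at b1 b2
      rw [mkp_lt, mkp_lt, mkp_inj]
      constructor
      · rintro (hh | ⟨hh, -⟩)
        · left; rcases hr2 with h7 | h7 <;> linarith
        · exfalso; rcases hr2 with h7 | h7 <;> linarith
      · rintro ⟨hh, -⟩; exfalso; rcases hr2 with h7 | h7 <;> linarith
    · have b1 := CP_bd c bd hc2
      have b2 := CP_bd c bd hc2'
      simp only [rc_mkp] at b1 b2
      rw [mkp_lt, mkp_lt, mkp_inj]
      constructor
      · rintro (hh | ⟨hh, -⟩)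
        · left; rcases hr1 with h7 | h7 <;> linarith
        · exfalso; rcases hr1 with h7 | h7 <;> linarith
      · rintro ⟨hh, -⟩; exfalso; rcases hr1 with h7 | h7 <;> linarith
    · exact ⟨fun hh => hh, fun hh => (mkp_inj.1 hh).1⟩

theorem nice_AC : Nice c D E (AC c D E bd) (e0 c E bd) := by
  refine ⟨?_, ?_, ?_, ?_, ?_, n3_AC bd h⟩
  · intro k k' x y hx hy ho
    obtain ⟨q, π, hx⟩ := (JJ_iff bd h k x).1 hx
    obtain ⟨q', π', hy⟩ := (JJ_iff bd h k' y).1 hy
    have := same_of_ov bd hx hy ho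
    rw [mkp_inj] at this
    obtain ⟨rfl, rfl⟩ := this
    refine ⟨rfl, fun t ht => ?_⟩
    obtain ⟨t', ht', hπ⟩ := Good.surj c hy.2.1 (π t) (hx.2.1.1 t ht)
    refine ⟨t', ht', Subtype.ext ?_⟩
    rw [hx.2.2 t ht, hy.2.2 t' ht', hπ]
  · intro k k' x y hx hy ho
    obtain ⟨q, π, hx⟩ := (JJ_iff bd h k x).1 hx
    obtain ⟨q', π', hy⟩ := (JJ_iff bd h k' y).1 hy
    rw [prec_iff bd h hx hy, same_of_ov bd hx hy ho]
    exact lt_irrefl _
  · intro k k' k'' x y z hx hy hz h1 h2
    obtain ⟨q, π, hx⟩ := (JJ_iff bd h k x).1 hx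
    obtain ⟨q', π', hy⟩ := (JJ_iff bd h k' y).1 hy
    obtain ⟨q'', π'', hz⟩ := (JJ_iff bd h k'' z).1 hz
    rw [prec_iff bd h hx hy] at h1
    rw [prec_iff bd h hy hz] at h2
    rw [prec_iff bd h hx hz]
    exact h1.trans h2
  · intro k k' x y hx hy
    obtain ⟨q, π, hx⟩ := (JJ_iff bd h k x).1 hx
    obtain ⟨q', π', hy⟩ := (JJ_iff bd h k' y).1 hy
    rw [prec_iff bd h hx hy, prec_iff bd h hy hx]
    rcases lt_trichotomy (mkp q k) (mkp q' k') with h1 | h1 | h1
    · exact Or.inr (Or.inl h1)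
    · left
      rw [mkp_inj] at h1
      obtain ⟨rfl, rfl⟩ := h1
      exact ov_of_same bd hx hy
    · exact Or.inr (Or.inr h1)
  · intro k k' x y hr hx hy
    obtain ⟨q, π, hx⟩ := (JJ_iff bd h k x).1 hx
    obtain ⟨q', π', hy⟩ := (JJ_iff bd h k' y).1 hy
    rw [lt0_iff bd h hx hy, lt0_iff bd h hy hx]
    rcases lt_trichotomy (mkp q k) (mkp q' k') with h1 | h1 | h1
    · exact Or.inr (Or.inl ⟨hr, h1⟩)
    · left
      rw [mkp_inj] at h1
      obtain ⟨rfl, rfl⟩ := h1
      exact ov_of_same bd hx hy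
    · exact Or.inr (Or.inr ⟨rel_symm c hr, h1⟩)

theorem adj_iff {k k' : c.K} {x y : c.T → NC c E bd} {q q' : ℚ} {π π' : c.T → c.T}
    (hx : At c D E bd k x q π) (hy : At c D E bd k' y q' π') :
    Adj c D E (AC c D E bd) (e0 c E bd) k k' x y ↔ mkp q k < mkp q' k' ∧
      ¬ ∃ p ∈ CP c bd, mkp q k < p ∧ p < mkp q' k' := by
  unfold Adj
  rw [prec_iff bd h hx hy]
  refine and_congr_right fun _ => not_congr ?_
  constructor
  · rintro ⟨k'', z, hz, h1, h2⟩
    obtain ⟨q'', π'', hz⟩ := (JJ_iff bd h k'' z).1 hz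
    rw [prec_iff bd h hx hz] at h1
    rw [prec_iff bd h hz hy] at h2
    exact ⟨_, hz.1, h1, h2⟩
  · rintro ⟨p, hp, h1, h2⟩
    have hp' : mkp (rc p) (kc p) ∈ CP c bd := hp
    have hz := At_tup c D E bd hp'
    exact ⟨kc p, _, (JJ_iff bd h _ _).2 ⟨_, _, hz⟩, (prec_iff bd h hx hz).2 h1,
      (prec_iff bd h hz hy).2 h2⟩

theorem start_iff (hS : ∀ n ∈ S, 1 ≤ n) {n : ℕ} (hn : n ∈ S) (i : bd.I) (hi : bd.ν i = n)
    : ∃ x : c.T → NC c E bd, At c D E bd c.ka x (bd.f i 0) id ∧
      St c D E (AC c D E bd) (e0 c E bd) n x := by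
  classical
  have hn1 := hS n hn
  have hCP : ∀ j : Fin (2 * n), mkp (bd.f i j) (c.col j) ∈ CP c bd := fun j =>
    ⟨i, j, by rw [hi]; exact j.2, rfl⟩
  have hAt : ∀ j : Fin (2 * n), At c D E bd (c.col j) (tup c E bd _ _ (hCP j)) (bd.f i j) id :=
    fun j => At_tup c D E bd (hCP j)
  refine ⟨tup c E bd _ _ (hCP ⟨0, by omega⟩), hAt ⟨0, by omega⟩,
    fun y => tup c E bd _ _ (hCP y.1) y.2, ⟨?_, ?_, ?_, ?_⟩, ⟨0, by omega⟩, rfl, fun t => rfl⟩
  · intro j
    exact (JJ_iff bd h _ _).2 ⟨_, _, hAt j⟩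
  · intro j j' hj
    rw [adj_iff bd h (hAt j) (hAt j')]
    refine ⟨(posn_lt c bd).2 (Or.inr ⟨rfl, by omega⟩), ?_⟩
    rintro ⟨_, ⟨i', j'', -, rfl⟩, h1, h2⟩
    have h1' := (posn_lt c bd (i := i) (j := j)).1 h1
    have h2' := (posn_lt c bd (i' := i) (j' := j')).1 h2
    rcases h1' with h3 | ⟨h3, h4⟩ <;> rcases h2' with h5 | ⟨h5, h6⟩
    · exact absurd (h3.trans h5) (lt_irrefl _)
    · exact absurd h5 h3.ne'
    · exact absurd h3 h5.ne'
    · omega
  · intro j hj k y hy hadj
    obtain ⟨q, π, hy⟩ := (JJ_iff bd h k y).1 hy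
    rw [adj_iff bd h hy (hAt j)] at hadj
    obtain ⟨hlt, hno⟩ := hadj
    obtain ⟨i', j', hj', hp⟩ := hy.1
    rw [hp] at hlt hno
    have hlt' := (posn_lt c bd (i' := i) (j' := j)).1 hlt
    have hii : i' < i := by
      rcases hlt' with h1 | ⟨h1, h2⟩
      · exact h1
      · omega
    obtain ⟨i'', h1, h2, h3⟩ := bd.dense i' i hii n hn
    apply hno
    refine ⟨posn c bd i'' 0, ⟨i'', 0, by omega, rfl⟩, (posn_lt c bd).2 (Or.inl h1),
      (posn_lt c bd).2 (Or.inl h2)⟩
  · intro j hj k y hy hadj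
    obtain ⟨q, π, hy⟩ := (JJ_iff bd h k y).1 hy
    rw [adj_iff bd h (hAt j) hy] at hadj
    obtain ⟨hlt, hno⟩ := hadj
    obtain ⟨i', j', hj', hp⟩ := hy.1
    rw [hp] at hlt hno
    have hlt' := (posn_lt c bd (i := i) (j := j)).1 hlt
    have hii : i < i' := by
      rcases hlt' with h1 | ⟨h1, h2⟩
      · exact h1
      · subst h1; omega
    obtain ⟨i'', h1, h2, h3⟩ := bd.dense i i' hii n hn
    apply hno
    refine ⟨posn c bd i'' 0, ⟨i'', 0, by omega, rfl⟩, (posn_lt c bd).2 (Or.inl h1),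
      (posn_lt c bd).2 (Or.inl h2)⟩

theorem start_zero (hS : ∀ n ∈ S, 1 ≤ n) {n : ℕ} {x : c.T → NC c E bd}
    (hx : St c D E (AC c D E bd) (e0 c E bd) n x) :
    ∃ i π, At c D E bd c.ka x (bd.f i 0) π := by
  obtain ⟨w, ⟨h1, h2, h3, h4⟩, j0, hj0, hw⟩ := hx
  have hwx : (fun s => w (j0, s)) = x := funext hw
  have hJ := h1 j0
  rw [hwx] at hJ
  have hc0 : c.col j0 = c.ka := col_even c (by omega)
  rw [hc0] at hJ
  obtain ⟨q, π, hx⟩ := (JJ_iff bd h _ _).1 hJ
  obtain ⟨i, j, hj, hp⟩ := hx.1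
  rw [posn, mkp_inj] at hp
  have hj0' : j = 0 := by
    by_contra hne
    have hCP : mkp (bd.f i (j - 1)) (c.col (j - 1)) ∈ CP c bd := ⟨i, j - 1, by omega, rfl⟩
    have hy := At_tup c D E bd hCP
    apply h3 j0 hj0 (c.col (j - 1)) _ ((JJ_iff bd h _ _).2 ⟨_, _, hy⟩)
    rw [hwx, hc0, adj_iff bd h hy hx]
    have hpos : mkp q c.ka = posn c bd i j := by rw [posn, mkp_inj]; exact hp
    rw [hpos]
    refine ⟨(posn_lt c bd).2 (Or.inr ⟨rfl, by omega⟩), ?_⟩
    rintro ⟨_, ⟨i', j'', -, rfl⟩, h5, h6⟩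
    have h5' := (posn_lt c bd (i := i) (j := j - 1)).1 h5
    have h6' := (posn_lt c bd (i' := i) (j' := j)).1 h6
    rcases h5' with h7 | ⟨h7, h8⟩ <;> rcases h6' with h9 | ⟨h9, h10⟩
    · exact absurd (h7.trans h9) (lt_irrefl _)
    · exact absurd h9 h7.ne'
    · exact absurd h7 h9.ne'
    · omega
  subst hj0'
  refine ⟨i, π, ?_⟩
  rw [← hp.1]
  exact hx

/-- The forward direction. -/
theorem theta_forward (hS : ∀ n ∈ S, 1 ≤ n) {n : ℕ} (hn : n ∈ S) :
    Theta c D E n (NC c E bd) (AC c D E bd) default := by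
  refine ⟨e0 c E bd, nice_AC bd h, ?_, ?_⟩
  · obtain ⟨j, hj⟩ := bd.up (bd.emb 0)
    obtain ⟨i1, h1, h2, h3⟩ := bd.dense _ _ hj n hn
    obtain ⟨i2, h4, h5, h6⟩ := bd.dense _ _ h2 n hn
    obtain ⟨x1, hx1, hs1⟩ := start_iff bd h hS hn i1 h3
    obtain ⟨x2, hx2, hs2⟩ := start_iff bd h hS hn i2 h6
    refine ⟨x1, x2, hs1, hs2, (prec_iff bd h hx1 hx2).2 ?_⟩
    rw [mkp_lt]
    exact Or.inl (bd.hf _ _ _ _ (Or.inl h4))
  · intro x y hx hy hxy
    obtain ⟨i, π, hx'⟩ := start_zero bd h hS hx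
    obtain ⟨i', π', hy'⟩ := start_zero bd h hS hy
    rw [prec_iff bd h hx' hy', mkp_lt] at hxy
    have hii : i < i' := by
      rcases hxy with h1 | ⟨-, h1⟩
      · rcases (f_lt bd).1 h1 with h2 | ⟨-, h2⟩
        · exact h2
        · omega
      · exact absurd h1 (lt_irrefl _)
    obtain ⟨i'', h1, h2, h3⟩ := bd.dense _ _ hii n hn
    obtain ⟨z, hz, hs⟩ := start_iff bd h hS hn i'' h3
    refine ⟨z, hs, (prec_iff bd h hx' hz).2 ?_, (prec_iff bd h hz hy').2 ?_⟩
    · rw [mkp_lt]; exact Or.inl (bd.hf _ _ _ _ (Or.inl h1))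
    · rw [mkp_lt]; exact Or.inl (bd.hf _ _ _ _ (Or.inl h2))

end

end Run7.h46
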