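import Pool.Agent.Run7.h46.ESet

namespace Run7.h46

open Filter Function FirstOrder FirstOrder.Language

section

variable {L : FirstOrder.Language.{0, 0}} {K : Type} [LinearOrder K] {T : Type} (srt : T → K)

/-- Same type of two tuples from the `ℕ`-part over all positions. -/
def SameT (D : Str L (Un ℕ T)) {V : Type} (u v : V → ℕ) : Prop :=
  (∀ i j, u i = u j ↔ v i = v j) ∧
  ∀ (R : Σ n, L.Relations n) (x : Fin R.1 → V ⊕ (ℚ × T)),
    D R (Sum.map u id ∘ x) ↔ D R (Sum.map v id ∘ x)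

theorem SameT.comp {D : Str L (Un ℕ T)} {V W : Type} {u v : V → ℕ} (h : SameT D u v)
    (f : W → V) : SameT D (u ∘ f) (v ∘ f) := by
  refine ⟨fun i j => h.1 (f i) (f j), ?_⟩
  intro R x
  have := h.2 R (Sum.map f id ∘ x)
  have e : ∀ w : V → ℕ, (Sum.map w id ∘ (Sum.map f id ∘ x) : Fin R.1 → Un ℕ T)
      = Sum.map (w ∘ f) id ∘ x := by
    intro w
    funext i
    rcases x i with m | y <;> simp
  rwa [e, e] at this

/-- The template is generic in its class. -/
def IsGen (B : Str L ℕ) (D : Str L (Un ℕ T)) : Prop :=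
  (∀ s : Finset ℕ, ∃ f : ℕ → ℕ, Set.InjOn f s ∧
      ∀ (R : Σ n, L.Relations n) (x : Fin R.1 → ℕ), (∀ i, x i ∈ s) →
        (B R x ↔ D R (Sum.inl ∘ f ∘ x))) ∧
  ∀ (m k : ℕ) (a b : Fin m → ℕ) (b' : Fin k → ℕ),
    (∃ z : Fin k → ℕ, SameT D (Sum.elim a z) (Sum.elim b b')) ∨
    ∃ G, ∀ D' ∈ Cls srt B, Agree G D D' →
      ¬ ∃ z : Fin k → ℕ, SameT D' (Sum.elim a z) (Sum.elim b b')

theorem exists_gen [Finite L.Symbols] [Finite T] [Nonempty T] (B : Str L ℕ)
    (D0 : Str L (Un ℕ T)) (hD0 : D0 ∈ Cls srt B) (G0 : Finset ℕ) :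
    ∃ D ∈ Cls srt B, Agree G0 D0 D ∧ IsGen srt B D := by
  classical
  let ι := (Finset ℕ) ⊕ (Σ p : ℕ × ℕ, (Fin p.1 → ℕ) × (Fin p.1 → ℕ) × (Fin p.2 → ℕ))
  let U : ι → Set (Str L (Un ℕ T)) := fun i => match i with
    | Sum.inl s => {D | ∃ f : ℕ → ℕ, Set.InjOn f s ∧
      ∀ (R : Σ n, L.Relations n) (x : Fin R.1 → ℕ), (∀ i, x i ∈ s) →
        (B R x ↔ D R (Sum.inl ∘ f ∘ x))}
    | Sum.inr ⟨p, a, b, b'⟩ => {D | ∃ z : Fin p.2 → ℕ, SameT D (Sum.elim a z) (Sum.elim b b')}
  have hU : ∀ n D, D ∈ U n → ∃ G, ∀ D', Agree G D D' → D' ∈ U n := by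
    rintro (s | ⟨p, a, b, b'⟩) D hD
    · obtain ⟨f, hf, hf'⟩ := hD
      refine ⟨s.image f, fun D' hA => ⟨f, hf, fun R x hx => ?_⟩⟩
      rw [hf' R x hx]
      apply hA
      intro i m him
      simp only [comp_apply, Sum.inl.injEq] at him
      rw [← him]
      exact Finset.mem_image_of_mem _ (hx i)
    · obtain ⟨z, hz⟩ := hD
      refine ⟨Finset.univ.image (Sum.elim a z) ∪ Finset.univ.image (Sum.elim b b'),
        fun D' hA => ⟨z, hz.1, fun R x => ?_⟩⟩
      rw [← hA, ← hA]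
      · exact hz.2 R x
      · intro i m him
        rcases hx : x i with v | y
        · simp only [comp_apply, hx, Sum.map_inl, Sum.inl.injEq] at him
          rw [← him]
          exact Finset.mem_union_right _ (Finset.mem_image_of_mem _ (Finset.mem_univ _))
        · simp [hx] at him
      · intro i m him
        rcases hx : x i with v | y
        · simp only [comp_apply, hx, Sum.map_inl, Sum.inl.injEq] at him
          rw [← him]
          exact Finset.mem_union_left _ (Finset.mem_image_of_mem _ (Finset.mem_univ _))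
        · simp [hx] at him
  obtain ⟨D, hD, hA, hgen⟩ := exists_generic srt B U hU D0 hD0 G0
  refine ⟨D, hD, hA, ?_, ?_⟩
  · intro s
    rcases hgen (Sum.inl s) with h | ⟨G, hG⟩
    · exact h
    · obtain ⟨D', hD', hA', hf⟩ := exists_joint srt B D hD G s
      exact absurd hf (hG D' hD' hA')
  · intro m k a b b'
    rcases hgen (Sum.inr ⟨(m, k), a, b, b'⟩) with h | ⟨G, hG⟩
    · exact Or.inl h
    · exact Or.inr ⟨G, hG⟩

theorem IsGen.use {B : Str L ℕ} {D : Str L (Un ℕ T)} (hgen : IsGen srt B D)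
    {V W : Type} [Finite V] [Finite W] (a b : V → ℕ) (b' : W → ℕ)
    (h : ∀ G : Finset ℕ, ∃ D' ∈ Cls srt B, Agree G D D' ∧
      ∃ z : W → ℕ, SameT D' (Sum.elim a z) (Sum.elim b b')) :
    ∃ z : W → ℕ, SameT D (Sum.elim a z) (Sum.elim b b') := by
  obtain ⟨m, ⟨eV⟩⟩ := Finite.exists_equiv_fin V
  obtain ⟨k, ⟨eW⟩⟩ := Finite.exists_equiv_fin W
  have key : ∀ (D : Str L (Un ℕ T)), (∃ z : W → ℕ, SameT D (Sum.elim a z) (Sum.elim b b')) ↔
      ∃ z : Fin k → ℕ, SameT D (Sum.elim (a ∘ eV.symm) z)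
        (Sum.elim (b ∘ eV.symm) (b' ∘ eW.symm)) := by
    intro D
    constructor
    · rintro ⟨z, hz⟩
      refine ⟨z ∘ eW.symm, ?_⟩
      have := hz.comp (Sum.map eV.symm eW.symm)
      have e1 : Sum.elim a z ∘ Sum.map eV.symm eW.symm = Sum.elim (a ∘ eV.symm) (z ∘ eW.symm) := by
        funext i; rcases i with i | i <;> simp
      have e2 : Sum.elim b b' ∘ Sum.map eV.symm eW.symm
          = Sum.elim (b ∘ eV.symm) (b' ∘ eW.symm) := by
        funext i; rcases i with i | i <;> simp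
      rwa [e1, e2] at this
    · rintro ⟨z, hz⟩
      refine ⟨z ∘ eW, ?_⟩
      have := hz.comp (Sum.map eV eW)
      have e1 : Sum.elim (a ∘ eV.symm) z ∘ Sum.map eV eW = Sum.elim a (z ∘ eW) := by
        funext i; rcases i with i | i <;> simp
      have e2 : Sum.elim (b ∘ eV.symm) (b' ∘ eW.symm) ∘ Sum.map eV eW = Sum.elim b b' := by
        funext i; rcases i with i | i <;> simp
      rwa [e1, e2] at this
  rcases hgen.2 m k (a ∘ eV.symm) (b ∘ eV.symm) (b' ∘ eW.symm) with h1 | ⟨G, hG⟩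
  · exact (key D).2 h1
  · obtain ⟨D', hD', hA, hz⟩ := h G
    exact absurd ((key D').1 hz) (hG D' hD' hA)

/-- Block data: a dense order of blocks, block sizes in `S`, every size in `S` occurring densely,
embedded into the rationals in `(-1,1)`. -/
structure BD (S : Set ℕ) where
  I : Type
  lin : LinearOrder I
  ν : I → ℕ
  hν : ∀ i, ν i ∈ S
  dense : ∀ i j : I, i < j → ∀ n ∈ S, ∃ k, i < k ∧ k < j ∧ ν k = n
  up : ∀ i : I, ∃ j, i < j
  down : ∀ i : I, ∃ j, j < i
  f : I → ℕ → ℚ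
  hf : ∀ i j i' j', (i < i' ∨ (i = i' ∧ j < j')) → f i j < f i' j'
  hf1 : ∀ i j, -1 < f i j
  hf2 : ∀ i j, f i j < 1
  emb : ℚ → I
  hemb : StrictMono emb

attribute [instance] BD.lin

/-- the index set of blocks -/
def BI : Type := ℚ × ℕ

/-- value of a block index -/
noncomputable def BI.v (p : BI) : ℝ := (p.1 : ℝ) + p.2 * Real.sqrt 2

theorem BI.v_inj : Injective BI.v := by
  rintro ⟨q, k⟩ ⟨q', k'⟩ h
  simp only [BI.v] at h
  by_cases hk : k = k'
  · subst hk
    have : (q : ℝ) = q' := by linarith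
    rw [Rat.cast_inj.1 this]
  · exfalso
    have hne : ((k : ℝ) - k') ≠ 0 := by
      rw [sub_ne_zero]; exact_mod_cast hk
    have : Real.sqrt 2 = ((q' - q) / ((k : ℚ) - k') : ℚ) := by
      push_cast
      field_simp
      linarith
    exact irrational_sqrt_two.ne_rat _ this

noncomputable instance : LinearOrder BI := LinearOrder.lift' BI.v BI.v_inj

theorem BI.lt_iff (a b : BI) : a < b ↔ BI.v a < BI.v b := Iff.rfl

instance : Countable BI := inferInstanceAs (Countable (ℚ × ℕ))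

theorem exists_BD (S : Set ℕ) (hS : S.Nonempty) : Nonempty (BD S) := by
  classical
  obtain ⟨s, hs⟩ := (Set.to_countable S).exists_eq_range hS
  have hlt' := BI.lt_iff
  have : Countable (BI ×ₗ ℕ) := inferInstanceAs (Countable (BI × ℕ))
  obtain ⟨e, he, he'⟩ := exists_embIoo (BI ×ₗ ℕ) (-1) 1 (by norm_num)
  refine ⟨{
    I := BI
    lin := inferInstance
    ν := fun i => s i.2
    hν := fun i => by rw [hs]; exact ⟨_, rfl⟩
    dense := ?_
    up := fun i => ⟨(i.1 + 1, i.2), by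
      rw [hlt']; simp only [BI.v]; push_cast; linarith⟩
    down := fun i => ⟨(i.1 - 1, i.2), by
      rw [hlt']; simp only [BI.v]; push_cast; linarith⟩
    f := fun i j => e (toLex (i, j))
    hf := ?_
    hf1 := fun i j => (he' _).1
    hf2 := fun i j => (he' _).2
    emb := fun q => (q, 0)
    hemb := ?_ }⟩
  · intro i j hij n hn
    rw [hs] at hn
    obtain ⟨k, rfl⟩ := hn
    rw [hlt'] at hij
    obtain ⟨q, hq1, hq2⟩ := exists_rat_btwn (show BI.v i - k * Real.sqrt 2 < BI.v j - k * Real.sqrt 2 by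
      linarith)
    refine ⟨(q, k), ?_, ?_, rfl⟩
    · rw [hlt']; simp only [BI.v] at *; linarith
    · rw [hlt']; simp only [BI.v] at *; linarith
  · intro i j i' j' h
    apply he
    rw [Prod.Lex.toLex_lt_toLex]
    exact h
  · intro q q' h
    rw [hlt']
    simp only [BI.v]
    have : (q : ℝ) < q' := by exact_mod_cast h
    push_cast
    linarith

end

end Run7.h46
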