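import Pool.Agent.Run7.h46.Config

namespace Run7.h46

open Filter Function FirstOrder FirstOrder.Language

section

variable {L : FirstOrder.Language.{0, 0}}

/-- Same quantifier-free type (including equality). -/
def SameQ {V N N' : Type} (A : Str L N) (A' : Str L N') (v : V → N) (v' : V → N') : Prop :=
  (∀ i j, v i = v j ↔ v' i = v' j) ∧
    ∀ (R : Σ n, L.Relations n) (s : Fin R.1 → V), A R (v ∘ s) ↔ A' R (v' ∘ s)

theorem SameQ.symm {V N N' : Type} {A : Str L N} {A' : Str L N'} {v : V → N} {v' : V → N'}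
    (h : SameQ A A' v v') : SameQ A' A v' v :=
  ⟨fun i j => (h.1 i j).symm, fun R s => (h.2 R s).symm⟩

theorem SameQ.trans {V N N' N'' : Type} {A : Str L N} {A' : Str L N'} {A'' : Str L N''}
    {v : V → N} {v' : V → N'} {v'' : V → N''}
    (h : SameQ A A' v v') (h' : SameQ A' A'' v' v'') : SameQ A A'' v v'' :=
  ⟨fun i j => (h.1 i j).trans (h'.1 i j), fun R s => (h.2 R s).trans (h'.2 R s)⟩

theorem SameQ.comp {V W N N' : Type} {A : Str L N} {A' : Str L N'} {v : V → N} {v' : V → N'}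
    (h : SameQ A A' v v') (f : W → V) : SameQ A A' (v ∘ f) (v' ∘ f) :=
  ⟨fun i j => h.1 (f i) (f j), fun R s => h.2 R (f ∘ s)⟩

theorem SameQ.refl {V N : Type} (A : Str L N) (v : V → N) : SameQ A A v v :=
  ⟨fun _ _ => Iff.rfl, fun _ _ => Iff.rfl⟩

variable {K : Type} [LinearOrder K] {T : Type} (srt : T → K)

/-- Restrict a tuple to the coordinates of a given sort. -/
def rs {N : Type} (k : K) (w : T → N) : {t : T // srt t = k} → N := fun t => w t.1

/-- The template tuple at a rational. -/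
def cc {M : Type} (q : ℚ) : T → Un M T := fun t => Sum.inr (q, t)

open Classical in
/-- permute the coordinates of sort `k` at the position `q` -/
noncomputable def pmx {M : Type} (k : K) (π : T → T) (q : ℚ) : Un M T → Un M T
  | Sum.inl m => Sum.inl m
  | Sum.inr (r, t) => if r = q ∧ srt t = k then Sum.inr (r, π t) else Sum.inr (r, t)

/-- A good permutation of the coordinates of sort `k`. -/
def Good {M : Type} (D : Str L (Un M T)) (k : K) (π : T → T) : Prop :=
  (∀ t, srt t = k → srt (π t) = k) ∧ (∀ t t', srt t = k → srt t' = k → π t = π t' → t = t') ∧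
    ∀ (R : Σ n, L.Relations n) (x : Fin R.1 → Un M T), D R x ↔ D R (pmx srt k π 0 ∘ x)

theorem pmx_act_comm {M : Type} (k : K) (π : T → T) (hπ : ∀ t, srt t = k → srt (π t) = k)
    (g : Ps K → ℚ) (q q' : ℚ)
    (hg : ∀ r k', g (mkp r k') = q' ∧ k' = k ↔ r = q ∧ k' = k) (u : Un M T) :
    act srt g (pmx srt k π q u) = pmx srt k π q' (act srt g u) := by
  rcases u with m | ⟨r, t⟩
  · rfl
  · by_cases h : r = q ∧ srt t = k
    · have h' := (hg r (srt t)).2 h
      simp only [pmx, h, act_inr, and_self, if_true, hπ t h.2]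
      obtain ⟨rfl, h2⟩ := h
      rw [h2] at h'
      simp [h'.1]
    · have h' : ¬ (g (mkp r (srt t)) = q' ∧ srt t = k) := fun h' => h ((hg r (srt t)).1 h')
      simp only [pmx, act_inr]
      rw [if_neg h, if_neg h']
      rfl

theorem Good.at {M : Type} {D : Str L (Un M T)} (hD : IsTemp srt D) {k : K} {π : T → T}
    (hπ : Good srt D k π) (q : ℚ) (R : Σ n, L.Relations n) (x : Fin R.1 → Un M T) :
    D R x ↔ D R (pmx srt k π q ∘ x) := by
  have hmono : ∀ (a : ℚ) (S : Set (Ps K)), StrictMonoOn (mv (fun p : Ps K => rc p + a)) S := by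
    intro a S p _ p' _ h
    have h' : mkp (rc p) (kc p) < mkp (rc p') (kc p') := h
    rw [mkp_lt] at h'
    rw [mv, mv, mkp_lt]
    rcases h' with h' | ⟨h', h''⟩
    · left; linarith
    · right; exact ⟨by rw [h'], h''⟩
  rw [hD R x (fun p => rc p + (-q)) (hmono _ _), hπ.2.2]
  rw [hD R (pmx srt k π q ∘ x) (fun p => rc p + (-q)) (hmono _ _)]
  have : pmx srt k π 0 ∘ act srt (fun p => rc p + (-q)) ∘ x
      = act srt (fun p => rc p + (-q)) ∘ pmx srt k π q ∘ x := by
    funext i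
    simp only [comp_apply]
    rw [pmx_act_comm srt k π hπ.1 _ q 0]
    intro r k'
    simp only [rc_mkp]
    constructor
    · rintro ⟨h, h'⟩; exact ⟨by linarith, h'⟩
    · rintro ⟨h, h'⟩; exact ⟨by rw [h]; ring, h'⟩
  rw [this]

/-- Consequence of the crossing lemma and minimality: a tuple which is cut properly must sit at a
single position. -/
theorem single [Countable K] [Finite T] {B : Str L ℕ} {D : Str L (Un ℕ T)}
    (hD : D ∈ Cls srt B)
    (R : Σ n, L.Relations n) (y : Fin R.1 → Un ℕ T ⊕ T) (k κ : K)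
    (hk : ∀ i t, y i = Sum.inr t → srt t = k) (hne0 : ∃ t, srt t = κ)
    (W : T → Un ℕ T) (hW : ∀ t t', srt t = κ → srt t' = κ → W t = W t' → t = t')
    (hyW : ∀ i u, y i = Sum.inl u → (∃ m, u = Sum.inl m) ∨ ∃ t', srt t' = κ ∧ u = W t')
    (hav : ∀ t', srt t' = κ → ∀ q t, W t' = Sum.inr (q, t) → q ≠ -2 ∧ q ≠ 2)
    (hne : ¬ (D R (sub1 y (-2)) ↔ D R (sub1 y 2)))
    (hmin : ∀ A' : Set T, ODi B T {t | ∃ i, y i = Sum.inr t} A' →
      {t | srt t = κ}.ncard ≤ A'.ncard)
    (hnn : ∀ (k' : K) (A' : Set T), A' ⊆ {t | srt t = k'} →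
      ODi B T {t | ∃ i, y i = Sum.inr t} A' → A'.ncard ≤ {t | srt t = κ}.ncard → k' = κ) :
    ∃ q : ℚ, -2 < q ∧ q < 2 ∧ ∀ t', srt t' = κ → ∃ t, srt t = κ ∧ W t' = Sum.inr (q, t) := by
  classical
  have hpar : ∀ i q t, y i = Sum.inl (Sum.inr (q, t)) → ∃ t', srt t' = κ ∧ W t' = Sum.inr (q, t) := by
    intro i q t h
    rcases hyW i _ h with ⟨m, hm⟩ | ⟨t', ht', hu⟩
    · simp at hm
    · exact ⟨t', ht', hu.symm⟩
  obtain ⟨q, k', hq1, hq2, hod⟩ := crossing srt hD R y k hk (-2) 2 (by norm_num)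
    (by
      intro i t h
      obtain ⟨t', ht', hW'⟩ := hpar i _ t h
      exact absurd rfl (hav t' ht' _ t hW').1)
    (by
      intro i t h
      obtain ⟨t', ht', hW'⟩ := hpar i _ t h
      exact absurd rfl (hav t' ht' _ t hW').2) hne
  set A' : Set T := {t | srt t = k' ∧ ∃ i, y i = Sum.inl (Sum.inr (q, t))} with hA'
  -- the image of A' is inside the range of W
  have hsub : (fun t => (Sum.inr (q, t) : Un ℕ T)) '' A' ⊆ W '' {t | srt t = κ} := by
    rintro _ ⟨t, ⟨-, i, hi⟩, rfl⟩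
    obtain ⟨t', ht', hW'⟩ := hpar i q t hi
    exact ⟨t', ht', hW'⟩
  have hc1 : ((fun t => (Sum.inr (q, t) : Un ℕ T)) '' A').ncard = A'.ncard :=
    Set.ncard_image_of_injective _ (fun a b h => by simpa using h)
  have hc2 : (W '' {t | srt t = κ}).ncard = {t | srt t = κ}.ncard :=
    Set.ncard_image_of_injOn (fun a ha b hb h => hW a b ha hb h)
  have hfin : (W '' {t | srt t = κ}).Finite := Set.toFinite _
  have hle := Set.ncard_le_ncard hsub hfin
  rw [hc1, hc2] at hle
  have hk' : k' = κ := hnn k' A' (fun t ht => ht.1) hod hle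
  have heq : (fun t => (Sum.inr (q, t) : Un ℕ T)) '' A' = W '' {t | srt t = κ} := by
    apply Set.eq_of_subset_of_ncard_le hsub _ hfin
    rw [hc1, hc2]
    exact hmin A' hod
  have hall : ∀ t', srt t' = κ → ∃ t, srt t = κ ∧ W t' = Sum.inr (q, t) := by
    intro t' ht'
    have : W t' ∈ (fun t => (Sum.inr (q, t) : Un ℕ T)) '' A' := by
      rw [heq]; exact ⟨t', ht', rfl⟩
    obtain ⟨t, ht, htW⟩ := this
    exact ⟨t, by rw [ht.1, hk'], htW.symm⟩
  refine ⟨q, ?_, ?_, hall⟩
  · rw [mkp_lt] at hq1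
    rcases hq1 with h | ⟨h, -⟩
    · exact h
    · obtain ⟨t', ht'⟩ := hne0
      obtain ⟨t, -, htW⟩ := hall t' ht'
      exact absurd h.symm (hav t' ht' q t htW).1
  · rw [mkp_lt] at hq2
    rcases hq2 with h | ⟨h, -⟩
    · exact h
    · obtain ⟨t', ht'⟩ := hne0
      obtain ⟨t, -, htW⟩ := hall t' ht'
      exact absurd h (hav t' ht' q t htW).2

/-- For two sort pattern, only the order of the positions matters. -/
theorem sub2_inv {D : Str L (Un ℕ T)} (hD : IsTemp srt D) (R : Σ n, L.Relations n)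
    (s : Fin R.1 → ℕ ⊕ (T ⊕ T)) (ka kb : K) (h1 : ∀ i t, s i = Sum.inr (Sum.inl t) → srt t = ka)
    (h2 : ∀ i t, s i = Sum.inr (Sum.inr t) → srt t = kb) (a b a' b' : ℚ)
    (hab : (a < b ∧ a' < b') ∨ (b < a ∧ b' < a')) :
    D R (sub2 s a b) ↔ D R (sub2 s a' b') := by
  apply hD.sim
  constructor
  · intro i
    rcases hs : s i with m | t' | t'
    · left; exact ⟨m, by simp [sub2, hs], by simp [sub2, hs]⟩
    · right; exact ⟨a, a', t', by simp [sub2, hs], by simp [sub2, hs]⟩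
    · right; exact ⟨b, b', t', by simp [sub2, hs], by simp [sub2, hs]⟩
  · intro i j a1 t1 a1' a2 t2 a2' e1 e2 e3 e4
    rcases hs : s i with m | t' | t'
    · simp [sub2, hs] at e1
    · rcases hs' : s j with m | t'' | t''
      · simp [sub2, hs'] at e3
      · simp only [sub2, hs, hs', Sum.inr.injEq, Prod.mk.injEq] at e1 e2 e3 e4
        obtain ⟨rfl, rfl⟩ := e1
        obtain ⟨rfl, -⟩ := e2
        obtain ⟨rfl, rfl⟩ := e3
        obtain ⟨rfl, -⟩ := e4
        rw [h1 i _ hs, h1 j _ hs']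
        exact ⟨fun h => absurd h (lt_irrefl _), fun _ => rfl⟩
      · simp only [sub2, hs, hs', Sum.inr.injEq, Prod.mk.injEq] at e1 e2 e3 e4
        obtain ⟨rfl, rfl⟩ := e1
        obtain ⟨rfl, -⟩ := e2
        obtain ⟨rfl, rfl⟩ := e3
        obtain ⟨rfl, -⟩ := e4
        rw [mkp_lt, mkp_lt, mkp_inj]
        rcases hab with ⟨h5, h6⟩ | ⟨h5, h6⟩
        · exact ⟨fun _ => Or.inl h6, fun h => absurd h.1 (ne_of_lt h5)⟩
        · refine ⟨fun h => ?_, fun h => absurd h.1 (ne_of_gt h5)⟩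
          rcases h with h | h
          · exact absurd h (not_lt.2 h5.le)
          · exact absurd h.1 (ne_of_gt h5)
    · rcases hs' : s j with m | t'' | t''
      · simp [sub2, hs'] at e3
      · simp only [sub2, hs, hs', Sum.inr.injEq, Prod.mk.injEq] at e1 e2 e3 e4
        obtain ⟨rfl, rfl⟩ := e1
        obtain ⟨rfl, -⟩ := e2
        obtain ⟨rfl, rfl⟩ := e3
        obtain ⟨rfl, -⟩ := e4
        rw [mkp_lt, mkp_lt, mkp_inj]
        rcases hab with ⟨h5, h6⟩ | ⟨h5, h6⟩
        · refine ⟨fun h => ?_, fun h => absurd h.1 (ne_of_gt h5)⟩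
          rcases h with h | h
          · exact absurd h (not_lt.2 h5.le)
          · exact absurd h.1 (ne_of_gt h5)
        · exact ⟨fun _ => Or.inl h6, fun h => absurd h.1 (ne_of_lt h5)⟩
      · simp only [sub2, hs, hs', Sum.inr.injEq, Prod.mk.injEq] at e1 e2 e3 e4
        obtain ⟨rfl, rfl⟩ := e1
        obtain ⟨rfl, -⟩ := e2
        obtain ⟨rfl, rfl⟩ := e3
        obtain ⟨rfl, -⟩ := e4
        rw [h2 i _ hs, h2 j _ hs']
        exact ⟨fun h => absurd h (lt_irrefl _), fun _ => rfl⟩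

end

end Run7.h46
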