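import Pool.Agent.Run7.h46.Forward

namespace Run7.h46

open Filter Function FirstOrder FirstOrder.Language

section

variable {L : FirstOrder.Language.{0, 0}} {B : Str L ℕ} (c : Cfg B) (D : Str L (Un ℕ c.T))
  (E : Set (Un ℕ c.T)) {N : Type} (A : Str L N) (e : E → N)

/-- A member of `J` with its sort. -/
structure JE where
  k : c.K
  w : c.T → N
  mem : JJ c D E A e k w

variable {c D E A e}

/-- overlapping members -/
def JE.ov (z z' : JE c D E A e) : Prop := Run7.h46.ov c z.k z'.k z.w z'.w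
/-- the order of members -/
def JE.lt (z z' : JE c D E A e) : Prop := prec c D E A e z.k z'.k z.w z'.w
/-- the basic relation of members -/
def JE.l0 (z z' : JE c D E A e) : Prop := lt0 c D E A e z.k z'.k z.w z'.w

theorem JE.ov_refl (z : JE c D E A e) : z.ov z := by
  obtain ⟨t, ht⟩ := exists_sort c z.k
  exact ⟨t, t, ht, ht, rfl⟩

theorem JE.ov_symm {z z' : JE c D E A e} (h : z.ov z') : z'.ov z := by
  obtain ⟨t, t', ht, ht', he⟩ := h
  exact ⟨t', t, ht', ht, he.symm⟩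

theorem JE.lt_of_l0 {z z' : JE c D E A e} (h : z.l0 z') : z.lt z' := Or.inl h

section nice

variable (hN : Nice c D E A e)
include hN

theorem JE.ov_k {z z' : JE c D E A e} (h : z.ov z') : z.k = z'.k := (hN.1 _ _ _ _ z.mem z'.mem h).1

theorem JE.ov_range {z z' : JE c D E A e} (h : z.ov z') :
    ∀ t, c.srt t = z.k → ∃ t', c.srt t' = z'.k ∧ z.w t = z'.w t' :=
  (hN.1 _ _ _ _ z.mem z'.mem h).2

theorem JE.ov_trans {z z' z'' : JE c D E A e} (h : z.ov z') (h' : z'.ov z'') : z.ov z'' := by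
  obtain ⟨t, t', ht, ht', he⟩ := h
  obtain ⟨t2, ht2, he2⟩ := JE.ov_range hN h' t' ht'
  exact ⟨t, t2, ht, ht2, he.trans he2⟩

theorem JE.not_lt_of_ov {z z' : JE c D E A e} (h : z.ov z') : ¬ z.lt z' :=
  hN.2.1 _ _ _ _ z.mem z'.mem h

theorem JE.lt_trans {z z' z'' : JE c D E A e} (h : z.lt z') (h' : z'.lt z'') : z.lt z'' :=
  hN.2.2.1 _ _ _ _ _ _ z.mem z'.mem z''.mem h h'

theorem JE.lt_irrefl (z : JE c D E A e) : ¬ z.lt z := JE.not_lt_of_ov hN z.ov_refl

theorem JE.lt_asymm {z z' : JE c D E A e} (h : z.lt z') : ¬ z'.lt z := fun h' =>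
  JE.lt_irrefl hN z (JE.lt_trans hN h h')

theorem JE.tri (z z' : JE c D E A e) : z.ov z' ∨ z.lt z' ∨ z'.lt z :=
  hN.2.2.2.1 _ _ _ _ z.mem z'.mem

theorem JE.lt_of_lt_ov {z z' z'' : JE c D E A e} (h : z.lt z') (h' : z'.ov z'') : z.lt z'' := by
  rcases JE.tri hN z z'' with h1 | h1 | h1
  · exact absurd h (JE.not_lt_of_ov hN (JE.ov_trans hN h1 (JE.ov_symm h')))
  · exact h1
  · exact absurd (JE.lt_trans hN h1 h) (JE.not_lt_of_ov hN (JE.ov_symm h'))

theorem JE.lt_of_ov_lt {z z' z'' : JE c D E A e} (h : z.ov z') (h' : z'.lt z'') : z.lt z'' := by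
  rcases JE.tri hN z z'' with h1 | h1 | h1
  · exact absurd h' (JE.not_lt_of_ov hN (JE.ov_trans hN (JE.ov_symm h) h1))
  · exact h1
  · exact absurd (JE.lt_trans hN h' h1) (JE.not_lt_of_ov hN (JE.ov_symm h))

theorem JE.l0_of_lt {z z' : JE c D E A e} (hr : c.rel z.k z'.k) (h : z.lt z') : z.l0 z' := by
  rcases hN.2.2.2.2.1 _ _ _ _ hr z.mem z'.mem with h1 | h1 | h1
  · exact absurd h (JE.not_lt_of_ov hN h1)
  · exact h1
  · exact absurd (JE.lt_of_l0 h1) (JE.lt_asymm hN h)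

end nice

/-- adjacency of members -/
def JE.adj (z z' : JE c D E A e) : Prop := z.lt z' ∧ ¬ ∃ y : JE c D E A e, z.lt y ∧ y.lt z'

theorem JE.adj_iff (z z' : JE c D E A e) : Adj c D E A e z.k z'.k z.w z'.w ↔ z.adj z' := by
  constructor
  · rintro ⟨h1, h2⟩
    exact ⟨h1, fun ⟨y, h3, h4⟩ => h2 ⟨y.k, y.w, y.mem, h3, h4⟩⟩
  · rintro ⟨h1, h2⟩
    exact ⟨h1, fun ⟨k, y, hy, h3, h4⟩ => h2 ⟨⟨k, y, hy⟩, h3, h4⟩⟩

/-- Data of a block of members. -/
structure Block (n : ℕ) (x : Fin (2 * n) → JE c D E A e) : Prop where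
  col : ∀ j, (x j).k = c.col j
  adj : ∀ j j' : Fin (2 * n), j.1 + 1 = j'.1 → (x j).adj (x j')
  first : ∀ j : Fin (2 * n), j.1 = 0 → ∀ y : JE c D E A e, ¬ y.adj (x j)
  last : ∀ j : Fin (2 * n), j.1 + 1 = 2 * n → ∀ y : JE c D E A e, ¬ (x j).adj y

/-- starts of blocks, as members -/
def IsStart (n : ℕ) (z : JE c D E A e) : Prop := z.k = c.ka ∧ St c D E A e n z.w

theorem IsStart.block {n : ℕ} {z : JE c D E A e} (hz : IsStart n z) :
    ∃ x : Fin (2 * n) → JE c D E A e, Block n x ∧ ∃ j : Fin (2 * n), j.1 = 0 ∧ x j = z := by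
  obtain ⟨hk, w, ⟨h1, h2, h3, h4⟩, j0, hj0, hw⟩ := hz
  refine ⟨fun j => ⟨c.col j, fun s => w (j, s), h1 j⟩, ⟨fun j => rfl, ?_, ?_, ?_⟩, j0, hj0, ?_⟩
  · intro j j' h
    exact (JE.adj_iff _ _).1 (h2 j j' h)
  · intro j hj y hy
    exact h3 j hj y.k y.w y.mem ((JE.adj_iff _ _).2 hy)
  · intro j hj y hy
    exact h4 j hj y.k y.w y.mem ((JE.adj_iff _ _).2 hy)
  · have h5 : c.col j0 = z.k := by rw [hk]; exact col_even c (by omega)
    have h6 : (fun s => w (j0, s)) = z.w := funext hw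
    cases z
    simp only at h5 h6
    subst h6
    subst h5
    rfl

theorem IsStart.mem {n : ℕ} {x : c.T → N} (hx : St c D E A e n x) : JJ c D E A e c.ka x := by
  obtain ⟨w, ⟨h1, h2, h3, h4⟩, j0, hj0, hw⟩ := hx
  have h5 : c.col j0 = c.ka := col_even c (by omega)
  have h6 : (fun s => w (j0, s)) = x := funext hw
  have := h1 j0
  rw [h5, h6] at this
  exact this

/-- Assumptions extracted from `Theta`. -/
structure ThetaH (n : ℕ) : Prop where
  nice : Nice c D E A e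
  ex : ∃ x y : JE c D E A e, IsStart n x ∧ IsStart n y ∧ x.lt y
  dense : ∀ x y : JE c D E A e, IsStart n x → IsStart n y → x.lt y →
    ∃ z, IsStart n z ∧ x.lt z ∧ z.lt y

theorem theta_iff {n : ℕ} (h : Theta c D E n N A default) :
    ∃ e : E → N, ThetaH (c := c) (D := D) (E := E) (A := A) (e := e) n := by
  obtain ⟨e, hN, ⟨x, y, hx, hy, hxy⟩, hd⟩ := h
  refine ⟨e, hN, ⟨⟨c.ka, x, IsStart.mem hx⟩, ⟨c.ka, y, IsStart.mem hy⟩, ⟨rfl, hx⟩, ⟨rfl, hy⟩, hxy⟩,
    ?_⟩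
  rintro ⟨k, x, hxm⟩ ⟨k', y, hym⟩ ⟨hk, hx⟩ ⟨hk', hy⟩ hlt
  simp only at hk hk'
  subst hk
  subst hk'
  obtain ⟨z, hz, h1, h2⟩ := hd x y hx hy hlt
  exact ⟨⟨c.ka, z, IsStart.mem hz⟩, ⟨rfl, hz⟩, h1, h2⟩

section region

variable {n : ℕ} (hT : ThetaH (c := c) (D := D) (E := E) (A := A) (e := e) n)
include hT

/-- `z` meets the set `X` -/
def JE.meets (X : Set N) (z : JE c D E A e) : Prop := ∃ t, c.srt t = z.k ∧ z.w t ∈ X

omit hT in
theorem JE.meets_of_ov (hN : Nice c D E A e) {X : Set N} {z z' : JE c D E A e} (h : z.ov z')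
    (hz : z.meets X) : z'.meets X := by
  obtain ⟨t, ht, hX⟩ := hz
  obtain ⟨t', ht', he⟩ := JE.ov_range hN h t ht
  exact ⟨t', ht', he ▸ hX⟩

/-- Step 3: an interval between starts avoiding a finite set. -/
theorem avoid (X : Finset N) : ∀ x y : JE c D E A e, IsStart n x → IsStart n y → x.lt y →
    ∃ x' y' : JE c D E A e, IsStart n x' ∧ IsStart n y' ∧ x'.lt y' ∧ x.lt x' ∧ y'.lt y ∧
      ∀ z : JE c D E A e, z.meets (X : Set N) → z.lt x' ∨ y'.lt z := by
  classical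
  have hN := hT.nice
  induction X using Finset.induction_on with
  | empty =>
    intro x y hx hy hxy
    obtain ⟨z, hz, h1, h2⟩ := hT.dense x y hx hy hxy
    obtain ⟨z', hz', h3, h4⟩ := hT.dense z y hz hy h2
    refine ⟨z, z', hz, hz', h3, h1, h4, ?_⟩
    rintro z'' ⟨t, -, ht⟩
    simp at ht
  | insert a X ha ih =>
    intro x y hx hy hxy
    obtain ⟨x1, y1, hx1, hy1, h1, h2, h3, h4⟩ := ih x y hx hy hxy
    obtain ⟨d1, hd1, h5, h6⟩ := hT.dense x1 y1 hx1 hy1 h1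
    obtain ⟨d2, hd2, h7, h8⟩ := hT.dense d1 y1 hd1 hy1 h6
    by_cases hc : ∃ z : JE c D E A e, z.meets {a} ∧ ¬ (z.lt x1 ∨ d1.lt z)
    · obtain ⟨z, hza, hz⟩ := hc
      push Not at hz
      refine ⟨d2, y1, hd2, hy1, h8, JE.lt_trans hN h2 (JE.lt_trans hN h5 h7), h3, ?_⟩
      intro z' hz'
      obtain ⟨t, ht, hX⟩ := hz'
      rw [Finset.coe_insert, Set.mem_insert_iff] at hX
      rcases hX with hX | hX
      · left
        have hov : z'.ov z := by
          obtain ⟨t2, ht2, hX2⟩ := hza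
          exact ⟨t, t2, ht, ht2, by rw [hX, hX2]⟩
        have hzd2 : z.lt d2 := by
          rcases JE.tri hN z d1 with h9 | h9 | h9
          · exact JE.lt_of_ov_lt hN h9 h7
          · exact JE.lt_trans hN h9 h7
          · exact absurd h9 hz.2
        exact JE.lt_of_ov_lt hN hov hzd2
      · rcases h4 z' ⟨t, ht, hX⟩ with h9 | h9
        · left
          exact JE.lt_trans hN h9 (JE.lt_trans hN h5 h7)
        · exact Or.inr h9
    · push Not at hc
      refine ⟨x1, d1, hx1, hd1, h5, h2, JE.lt_trans hN h6 h3, ?_⟩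
      intro z' hz'
      obtain ⟨t, ht, hX⟩ := hz'
      rw [Finset.coe_insert, Set.mem_insert_iff] at hX
      rcases hX with hX | hX
      · exact hc z' ⟨t, ht, hX⟩
      · rcases h4 z' ⟨t, ht, hX⟩ with h9 | h9
        · exact Or.inl h9
        · exact Or.inr (JE.lt_trans hN h6 h9)

/-- an increasing sequence of starts -/
theorem exists_seq (x y : JE c D E A e) (hx : IsStart n x) (hy : IsStart n y) (hxy : x.lt y) :
    ∃ d : ℕ → JE c D E A e, (∀ k, IsStart n (d k)) ∧ (∀ k, x.lt (d k)) ∧ (∀ k, (d k).lt y) ∧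
      ∀ k k', k < k' → (d k).lt (d k') := by
  have hN := hT.nice
  let St' := {z : JE c D E A e // IsStart n z ∧ x.lt z ∧ z.lt y}
  have step : ∀ z : St', ∃ z' : St', z.1.lt z'.1 := by
    rintro ⟨z, hz, h1, h2⟩
    obtain ⟨z', hz', h3, h4⟩ := hT.dense z y hz hy h2
    exact ⟨⟨z', hz', JE.lt_trans hN h1 h3, h4⟩, h3⟩
  choose F hF using step
  obtain ⟨z0, hz0, h1, h2⟩ := hT.dense x y hx hy hxy
  let s : ℕ → St' := fun k => Nat.rec ⟨z0, hz0, h1, h2⟩ (fun _ z => F z) k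
  have hs : ∀ k, (s k).1.lt (s (k + 1)).1 := fun k => hF (s k)
  refine ⟨fun k => (s k).1, fun k => (s k).2.1, fun k => (s k).2.2.1, fun k => (s k).2.2.2, ?_⟩
  intro k k' hk
  induction k', hk using Nat.le_induction with
  | base => exact hs k
  | succ m _ ih => exact JE.lt_trans hN ih (hs m)

omit hT in
/-- A start which is above a member is above the next member of a block. -/
theorem next_lt (hN : Nice c D E A e) {z z' s : JE c D E A e} (hadj : z.adj z')
    (hs : ∀ y : JE c D E A e, ¬ y.adj s) (h : z.lt s) : z'.lt s := by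
  rcases JE.tri hN z' s with h1 | h1 | h1
  · exfalso
    apply hs z
    refine ⟨h, fun ⟨y, h2, h3⟩ => hadj.2 ⟨y, h2, JE.lt_of_lt_ov hN h3 (JE.ov_symm h1)⟩⟩
  · exact h1
  · exact absurd ⟨s, h, h1⟩ hadj.2

omit hT in
theorem block_lt (hN : Nice c D E A e) {x : Fin (2 * n) → JE c D E A e} (hx : Block n x)
    {s : JE c D E A e}
    (hs : ∀ y : JE c D E A e, ¬ y.adj s) (j0 : Fin (2 * n)) (hj0 : j0.1 = 0)
    (h : (x j0).lt s) : ∀ j, (x j).lt s := by
  have : ∀ m (hm : m < 2 * n), (x ⟨m, hm⟩).lt s := by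
    intro m
    induction m with
    | zero =>
      intro hm
      have : (⟨0, hm⟩ : Fin (2 * n)) = j0 := Fin.ext hj0.symm
      rw [this]; exact h
    | succ m ih =>
      intro hm
      exact next_lt hN (hx.adj ⟨m, by omega⟩ ⟨m + 1, hm⟩ rfl) hs (ih (by omega))
  exact fun j => this j.1 j.2

omit hT in
theorem block_ge (hN : Nice c D E A e) {x : Fin (2 * n) → JE c D E A e} (hx : Block n x)
    {s : JE c D E A e} (j0 : Fin (2 * n)) (hj0 : j0.1 = 0)
    (h : s.lt (x j0)) : ∀ j, s.lt (x j) := by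
  have : ∀ m (hm : m < 2 * n), s.lt (x ⟨m, hm⟩) := by
    intro m
    induction m with
    | zero =>
      intro hm
      have : (⟨0, hm⟩ : Fin (2 * n)) = j0 := Fin.ext hj0.symm
      rw [this]; exact h
    | succ m ih =>
      intro hm
      exact JE.lt_trans hN (ih (by omega)) (hx.adj ⟨m, by omega⟩ ⟨m + 1, hm⟩ rfl).1
  exact fun j => this j.1 j.2

end region

end

end Run7.h46
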