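import Pool.Agent.Run7.h46.VL

namespace Run7.h46

open Filter Function FirstOrder FirstOrder.Language

/-- The universe of a template over `M` with tuples indexed by `T`. -/
abbrev Un (M T : Type) : Type := M ⊕ (ℚ × T)

/-- Positions: a rational together with a sort, ordered lexicographically. -/
abbrev Ps (K : Type) : Type := ℚ ×ₗ K

section

variable {L : FirstOrder.Language.{0, 0}} {K : Type} [LinearOrder K] {T : Type} (srt : T → K)
  {M N : Type}

/-- A position. -/
def mkp (q : ℚ) (k : K) : Ps K := toLex (q, k)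

theorem mkp_lt {q q' : ℚ} {k k' : K} : mkp q k < mkp q' k' ↔ q < q' ∨ (q = q' ∧ k < k') := by
  unfold mkp
  rw [Prod.Lex.toLex_lt_toLex]

theorem mkp_inj {q q' : ℚ} {k k' : K} : mkp q k = mkp q' k' ↔ q = q' ∧ k = k' := by
  unfold mkp
  simp

/-- the rational coordinate of a position -/
def rc (p : Ps K) : ℚ := (ofLex p).1
/-- the sort of a position -/
def kc (p : Ps K) : K := (ofLex p).2

@[simp] theorem rc_mkp (q : ℚ) (k : K) : rc (mkp q k) = q := rfl
@[simp] theorem kc_mkp (q : ℚ) (k : K) : kc (mkp q k) = k := rfl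
@[simp] theorem mkp_rc_kc (p : Ps K) : mkp (rc p) (kc p) = p := rfl

/-- move a position, keeping its sort -/
def mv (g : Ps K → ℚ) (p : Ps K) : Ps K := mkp (g p) (kc p)

@[simp] theorem kc_mv (g : Ps K → ℚ) (p : Ps K) : kc (mv g p) = kc p := rfl
@[simp] theorem rc_mv (g : Ps K → ℚ) (p : Ps K) : rc (mv g p) = g p := rfl

/-- the action of a position map on a template universe -/
def act (g : Ps K → ℚ) : Un M T → Un M T
  | Sum.inl m => Sum.inl m
  | Sum.inr y => Sum.inr (g (mkp y.1 (srt y.2)), y.2)

@[simp] theorem act_inl (g : Ps K → ℚ) (m : M) : act srt g (Sum.inl m : Un M T) = Sum.inl m := rfl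
@[simp] theorem act_inr (g : Ps K → ℚ) (q : ℚ) (t : T) :
    act srt g (Sum.inr (q, t) : Un M T) = Sum.inr (g (mkp q (srt t)), t) := rfl

/-- positions of a tuple, as a set -/
def pset {n : ℕ} (x : Fin n → Un M T) : Set (Ps K) :=
  {p | ∃ i q t, x i = Sum.inr (q, t) ∧ p = mkp q (srt t)}

theorem pset_finite {n : ℕ} (x : Fin n → Un M T) : (pset srt x).Finite := by
  have : pset srt x ⊆ ⋃ i : Fin n, (match x i with
    | Sum.inl _ => ∅
    | Sum.inr y => {mkp y.1 (srt y.2)} : Set (Ps K)) := by
    rintro p ⟨i, q, t, hx, rfl⟩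
    rw [Set.mem_iUnion]
    refine ⟨i, ?_⟩
    rw [hx]
    simp
  refine Set.Finite.subset (Set.finite_iUnion fun i => ?_) this
  cases x i <;> simp

/-- A template: a structure invariant under order and sort preserving changes of positions. -/
def IsTemp (D : Str L (Un M T)) : Prop :=
  ∀ (R : Σ n, L.Relations n) (x : Fin R.1 → Un M T) (g : Ps K → ℚ),
    StrictMonoOn (mv g) (pset srt x) → (D R x ↔ D R (act srt g ∘ x))

theorem pset_act {n : ℕ} (x : Fin n → Un M T) (g : Ps K → ℚ) :
    pset srt (act srt g ∘ x) = mv g '' pset srt x := by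
  ext p
  constructor
  · rintro ⟨i, q, t, hx, rfl⟩
    rcases h : x i with m | ⟨q', t'⟩
    · simp [h] at hx
    · simp [h] at hx
      obtain ⟨h1, h2⟩ := hx
      subst h2
      exact ⟨mkp q' (srt t'), ⟨i, q', t', h, rfl⟩, by rw [mv, h1]; rfl⟩
  · rintro ⟨p, ⟨i, q, t, hx, rfl⟩, rfl⟩
    exact ⟨i, g (mkp q (srt t)), t, by simp [hx], rfl⟩

/-- evaluation -/
def evl (c : ℕ → T → N) (h : Ps K → ℕ) : Un N T → N
  | Sum.inl n => n
  | Sum.inr y => c (h (mkp y.1 (srt y.2))) y.2

open Classical in
/-- The limit template of a sequence of tuples. -/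
noncomputable def lim (A : Str L N) (c : ℕ → T → N) : Str L (Un N T) := fun R x =>
  ∀ᶠ h in (VL ((pset_finite srt x).toFinset.sort) 0 : Filter (Ps K → ℕ)), A R (evl srt c h ∘ x)

open Classical in
theorem lim_eq (A : Str L N) (c : ℕ → T → N) (R : Σ n, L.Relations n) (x : Fin R.1 → Un N T)
    (s : Finset (Ps K)) (hs : pset srt x ⊆ s) :
    lim srt A c R x ↔ ∀ᶠ h in (VL s.sort 0 : Filter (Ps K → ℕ)), A R (evl srt c h ∘ x) := by
  rw [ev_filter (pset srt x)]
  · have : s.sort.filter (· ∈ pset srt x) = (pset_finite srt x).toFinset.sort := by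
      apply List.SortedLT.eq_of_mem_iff
      · have h1 := (s.sortedLT_sort).pairwise
        exact (h1.filter _).sortedLT
      · exact Finset.sortedLT_sort _
      · intro p
        rw [List.mem_filter]
        simp only [Finset.mem_sort, decide_eq_true_eq, Set.Finite.mem_toFinset]
        constructor
        · exact fun h => h.2
        · exact fun h => ⟨hs h, h⟩
    rw [this]
    rfl
  · intro h h' hh
    have : evl srt c h ∘ x = evl srt c h' ∘ x := by
      funext i
      rcases hx : x i with m | ⟨q, t⟩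
      · simp [hx, evl]
      · simp only [comp_apply, hx, evl]
        rw [hh _ ⟨i, q, t, hx, rfl⟩]
    rw [this]

theorem lim_isTemp (A : Str L N) (c : ℕ → T → N) : IsTemp srt (lim srt A c) := by
  classical
  intro R x g hg
  unfold lim
  have hs : (pset_finite srt (act srt g ∘ x)).toFinset.sort
      = ((pset_finite srt x).toFinset.sort).map (mv g) := by
    apply List.SortedLT.eq_of_mem_iff
    · exact Finset.sortedLT_sort _
    · have h1 := ((pset_finite srt x).toFinset.sortedLT_sort).pairwise
      have h2 : List.Pairwise (fun a b => mv g a < mv g b) ((pset_finite srt x).toFinset.sort) := by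
        refine List.Pairwise.imp_of_mem ?_ h1
        intro a b ha hb hab
        exact hg (by simpa using ha) (by simpa using hb) hab
      exact (List.pairwise_map.2 h2).sortedLT
    · intro p
      rw [List.mem_map]
      simp only [Finset.mem_sort, Set.Finite.mem_toFinset, pset_act]
      rfl
  rw [hs]
  refine ev_transport (mv g) (pset srt x) hg.injOn _ _ ?_ _ (by simp) _ _ (by simp)
  intro h h' hh
  have : evl srt c h ∘ x = evl srt c h' ∘ (act srt g ∘ x) := by
    funext i
    rcases hx : x i with m | ⟨q, t⟩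
    · simp [hx, evl]
    · simp only [comp_apply, hx, evl, act_inr]
      rw [hh _ ⟨i, q, t, hx, rfl⟩]
      rfl
  rw [this]

theorem lim_inl (A : Str L N) (c : ℕ → T → N) (R : Σ n, L.Relations n) (y : Fin R.1 → N) :
    lim srt A c R (Sum.inl ∘ y) ↔ A R y := by
  classical
  rw [lim_eq srt A c R (Sum.inl ∘ y) ∅]
  · rw [Finset.sort_empty, ev_nil]
    rfl
  · rintro p ⟨i, q, t, hx, -⟩
    simp at hx

open Classical in
theorem lim_finEmb [Finite L.Symbols] (A : Str L N) (c : ℕ → T → N)
    (hc : Injective (fun p : ℕ × T => c p.1 p.2)) : FinEmb (lim srt A c) A := by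
  intro s
  -- positions of s
  let S : Finset (Ps K) := s.biUnion fun u => match u with
    | Sum.inl _ => ∅
    | Sum.inr y => {mkp y.1 (srt y.2)}
  have hS : ∀ q t, (Sum.inr (q, t) : Un N T) ∈ s → mkp q (srt t) ∈ S := by
    intro q t h
    rw [Finset.mem_biUnion]
    exact ⟨_, h, by simp⟩
  -- large enough bound to avoid elements
  have havoid : ∃ m : ℕ, ∀ n : N, (Sum.inl n : Un N T) ∈ s → ∀ i t, m < i → c i t ≠ n := by
    have : ∀ n : N, ∃ m : ℕ, ∀ i t, m < i → c i t ≠ n := by
      intro n
      by_cases h : ∃ i t, c i t = n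
      · obtain ⟨i, t, h⟩ := h
        refine ⟨i, fun j t' hj h' => ?_⟩
        have := @hc (i, t) (j, t') (by simp [h, h'])
        simp at this
        omega
      · exact ⟨0, fun i t _ h' => h ⟨i, t, h'⟩⟩
    choose m hm using this
    refine ⟨s.sup (fun u => match u with
      | Sum.inl n => m n
      | Sum.inr _ => 0), fun n hn i t hi => hm n i t (lt_of_le_of_lt ?_ hi)⟩
    exact Finset.le_sup (f := fun u : Un N T => match u with
      | Sum.inl n => m n
      | Sum.inr _ => 0) hn
  obtain ⟨m, hm⟩ := havoid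
  have e1 := ev_gt m S.sort (Finset.sort_nodup _ _) (0 : Ps K → ℕ)
  have e2 := ev_pairwise S.sort (Finset.sort_nodup _ _) (0 : Ps K → ℕ)
  have e3 : ∀ᶠ h in (VL S.sort 0 : Filter (Ps K → ℕ)),
      ∀ (R : Σ n, L.Relations n) (x : Fin R.1 → s),
        (lim srt A c R (fun i => (x i : Un N T)) ↔ A R (evl srt c h ∘ fun i => (x i : Un N T))) := by
    have hfin : Finite (Σ R : (Σ n, L.Relations n), (Fin R.1 → s)) := by
      have : Finite (Σ n, L.Relations n) := by
        have := ‹Finite L.Symbols›
        exact Finite.of_injective (fun R : (Σ n, L.Relations n) => (Sum.inr R : L.Symbols))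
          (fun a b h => Sum.inr_injective h)
      infer_instance
    have : ∀ p : (Σ R : (Σ n, L.Relations n), (Fin R.1 → s)),
        ∀ᶠ h in (VL S.sort 0 : Filter (Ps K → ℕ)),
        (lim srt A c p.1 (fun i => (p.2 i : Un N T)) ↔
          A p.1 (evl srt c h ∘ fun i => (p.2 i : Un N T))) := by
      rintro ⟨R, x⟩
      have h0 := lim_eq srt A c R (fun i => (x i : Un N T)) S (by
        rintro p ⟨i, q, t, hx, rfl⟩
        have := (x i).2
        simp only at hx
        rw [hx] at this
        exact hS q t this)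
      by_cases h : lim srt A c R (fun i => (x i : Un N T))
      · filter_upwards [h0.1 h] with h' hh'
        exact ⟨fun _ => hh', fun _ => h⟩
      · have : ∀ᶠ h in (VL S.sort 0 : Filter (Ps K → ℕ)),
            ¬ A R (evl srt c h ∘ fun i => (x i : Un N T)) := by
          rw [Ultrafilter.eventually_not]
          exact fun h1 => h (h0.2 h1)
        filter_upwards [this] with h' hh'
        exact ⟨fun h1 => absurd h1 h, fun h1 => absurd h1 hh'⟩
    rw [← eventually_all] at this
    filter_upwards [this] with h hh R x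
    exact hh ⟨R, x⟩
  obtain ⟨h, h1, h2, h3⟩ := (e1.and (e2.and e3)).exists
  have hlt : ∀ p ∈ S, ∀ p' ∈ S, p < p' → h p < h p' := by
    intro p hp p' hp' hpp
    have hsort := (S.sortedLT_sort).pairwise
    have hboth := List.Pairwise.and hsort h2
    -- use pairwise on distinct elements
    have : ∀ a ∈ S.sort, ∀ b ∈ S.sort, a < b → h a < h b := by
      have : List.Pairwise (fun a b => (a < b → h a < h b) ∧ (b < a → h b < h a)) S.sort := by
        refine hboth.imp ?_
        rintro a b ⟨hab, hh⟩
        exact ⟨fun _ => hh, fun hba => absurd hba (not_lt.2 hab.le)⟩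
      intro a ha b hb hab
      have hsym : Std.Symm (fun a b => (a < b → h a < h b) ∧ (b < a → h b < h a)) :=
        ⟨fun a b h => ⟨h.2, h.1⟩⟩
      exact (this.forall ha hb (ne_of_lt hab)).1 hab
    exact this p (by simpa using hp) p' (by simpa using hp') hpp
  refine ⟨evl srt c h, ?_, ?_⟩
  · intro u hu v hv huv
    rcases u with n | ⟨q, t⟩ <;> rcases v with n' | ⟨q', t'⟩
    · simp only [evl] at huv; rw [huv]
    · exfalso
      simp only [evl] at huv
      exact hm n hu _ t' (h1 _ (by simpa using hS q' t' hv)) huv.symm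
    · exfalso
      simp only [evl] at huv
      exact hm n' hv _ t (h1 _ (by simpa using hS q t hu)) huv
    · simp only [evl] at huv
      have := @hc (h (mkp q (srt t)), t) (h (mkp q' (srt t')), t') huv
      rw [Prod.mk.injEq] at this
      obtain ⟨ha, rfl⟩ := this
      rcases lt_trichotomy (mkp q (srt t)) (mkp q' (srt t)) with hlt1 | heq | hlt1
      · exact absurd ha (ne_of_lt (hlt _ (hS q t hu) _ (hS q' t hv) hlt1))
      · rw [(mkp_inj.1 heq).1]
      · exact absurd ha (ne_of_gt (hlt _ (hS q' t hv) _ (hS q t hu) hlt1))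
  · intro R x hx
    exact h3 R (fun i => ⟨x i, hx i⟩)

end

end Run7.h46
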