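import Pool.Agent.Run7.h46.Limit

namespace Run7.h46

open Filter Function FirstOrder FirstOrder.Language

section

variable {L : FirstOrder.Language.{0, 0}} {K : Type} [LinearOrder K] {T : Type} (srt : T → K)
  {M N : Type}

open Classical in
theorem lim_emb [Finite L.Symbols] (A : Str L N) (c : ℕ → T → N)
    (hc : Injective (fun p : ℕ × T => c p.1 p.2)) (s : Finset (Un N T)) :
    ∃ h : Ps K → ℕ, (∀ q t, (Sum.inr (q, t) : Un N T) ∈ s → ∀ q' t',
        (Sum.inr (q', t') : Un N T) ∈ s → mkp q (srt t) < mkp q' (srt t') →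
        h (mkp q (srt t)) < h (mkp q' (srt t'))) ∧ Set.InjOn (evl srt c h) s ∧
      ∀ (R : Σ n, L.Relations n) (x : Fin R.1 → Un N T), (∀ i, x i ∈ s) →
        (lim srt A c R x ↔ A R (evl srt c h ∘ x)) := by
  -- positions of s
  let S : Finset (Ps K) := s.biUnion fun u => match u with
    | Sum.inl _ => ∅
    | Sum.inr y => {mkp y.1 (srt y.2)}
  have hS : ∀ q t, (Sum.inr (q, t) : Un N T) ∈ s → mkp q (srt t) ∈ S := by
    intro q t h
    rw [Finset.mem_biUnion]
    exact ⟨_, h, by simp⟩
  -- large enough bound to avoid elements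
  have havoid : ∃ m : ℕ, ∀ n : N, (Sum.inl n : Un N T) ∈ s → ∀ i t, m < i → c i t ≠ n := by
    have : ∀ n : N, ∃ m : ℕ, ∀ i t, m < i → c i t ≠ n := by
      intro n
      by_cases h : ∃ i t, c i t = n
      · obtain ⟨i, t, h⟩ := h
        refine ⟨i, fun j t' hj h' => ?_⟩
        have := @hc (i, t) (j, t') (by simp [h, h'])
        simp at this
        omega
      · exact ⟨0, fun i t _ h' => h ⟨i, t, h'⟩⟩
    choose m hm using this
    refine ⟨s.sup (fun u => match u with
      | Sum.inl n => m n
      | Sum.inr _ => 0), fun n hn i t hi => hm n i t (lt_of_le_of_lt ?_ hi)⟩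
    exact Finset.le_sup (f := fun u : Un N T => match u with
      | Sum.inl n => m n
      | Sum.inr _ => 0) hn
  obtain ⟨m, hm⟩ := havoid
  have e1 := ev_gt m S.sort (Finset.sort_nodup _ _) (0 : Ps K → ℕ)
  have e2 := ev_pairwise S.sort (Finset.sort_nodup _ _) (0 : Ps K → ℕ)
  have e3 : ∀ᶠ h in (VL S.sort 0 : Filter (Ps K → ℕ)),
      ∀ (R : Σ n, L.Relations n) (x : Fin R.1 → s),
        (lim srt A c R (fun i => (x i : Un N T)) ↔ A R (evl srt c h ∘ fun i => (x i : Un N T))) := by
    have hfin : Finite (Σ R : (Σ n, L.Relations n), (Fin R.1 → s)) := by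
      have : Finite (Σ n, L.Relations n) := by
        have := ‹Finite L.Symbols›
        exact Finite.of_injective (fun R : (Σ n, L.Relations n) => (Sum.inr R : L.Symbols))
          (fun a b h => Sum.inr_injective h)
      infer_instance
    have : ∀ p : (Σ R : (Σ n, L.Relations n), (Fin R.1 → s)),
        ∀ᶠ h in (VL S.sort 0 : Filter (Ps K → ℕ)),
        (lim srt A c p.1 (fun i => (p.2 i : Un N T)) ↔
          A p.1 (evl srt c h ∘ fun i => (p.2 i : Un N T))) := by
      rintro ⟨R, x⟩
      have h0 := lim_eq srt A c R (fun i => (x i : Un N T)) S (by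
        rintro p ⟨i, q, t, hx, rfl⟩
        have := (x i).2
        simp only at hx
        rw [hx] at this
        exact hS q t this)
      by_cases h : lim srt A c R (fun i => (x i : Un N T))
      · filter_upwards [h0.1 h] with h' hh'
        exact ⟨fun _ => hh', fun _ => h⟩
      · have : ∀ᶠ h in (VL S.sort 0 : Filter (Ps K → ℕ)),
            ¬ A R (evl srt c h ∘ fun i => (x i : Un N T)) := by
          rw [Ultrafilter.eventually_not]
          exact fun h1 => h (h0.2 h1)
        filter_upwards [this] with h' hh'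
        exact ⟨fun h1 => absurd h1 h, fun h1 => absurd h1 hh'⟩
    rw [← eventually_all] at this
    filter_upwards [this] with h hh R x
    exact hh ⟨R, x⟩
  obtain ⟨h, h1, h2, h3⟩ := (e1.and (e2.and e3)).exists
  have hlt : ∀ p ∈ S, ∀ p' ∈ S, p < p' → h p < h p' := by
    intro p hp p' hp' hpp
    have hsort := (S.sortedLT_sort).pairwise
    have hboth := List.Pairwise.and hsort h2
    -- use pairwise on distinct elements
    have : ∀ a ∈ S.sort, ∀ b ∈ S.sort, a < b → h a < h b := by
      have : List.Pairwise (fun a b => (a < b → h a < h b) ∧ (b < a → h b < h a)) S.sort := by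
        refine hboth.imp ?_
        rintro a b ⟨hab, hh⟩
        exact ⟨fun _ => hh, fun hba => absurd hba (not_lt.2 hab.le)⟩
      intro a ha b hb hab
      have hsym : Std.Symm (fun a b => (a < b → h a < h b) ∧ (b < a → h b < h a)) :=
        ⟨fun a b h => ⟨h.2, h.1⟩⟩
      exact (this.forall ha hb (ne_of_lt hab)).1 hab
    exact this p (by simpa using hp) p' (by simpa using hp') hpp
  refine ⟨h, fun q t hq q' t' hq' hlt1 => hlt _ (hS q t hq) _ (hS q' t' hq') hlt1, ?_, ?_⟩
  · intro u hu v hv huv
    rcases u with n | ⟨q, t⟩ <;> rcases v with n' | ⟨q', t'⟩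
    · simp only [evl] at huv; rw [huv]
    · exfalso
      simp only [evl] at huv
      exact hm n hu _ t' (h1 _ (by simpa using hS q' t' hv)) huv.symm
    · exfalso
      simp only [evl] at huv
      exact hm n' hv _ t (h1 _ (by simpa using hS q t hu)) huv
    · simp only [evl] at huv
      have := @hc (h (mkp q (srt t)), t) (h (mkp q' (srt t')), t') huv
      rw [Prod.mk.injEq] at this
      obtain ⟨ha, rfl⟩ := this
      rcases lt_trichotomy (mkp q (srt t)) (mkp q' (srt t)) with hlt1 | heq | hlt1
      · exact absurd ha (ne_of_lt (hlt _ (hS q t hu) _ (hS q' t hv) hlt1))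
      · rw [(mkp_inj.1 heq).1]
      · exact absurd ha (ne_of_gt (hlt _ (hS q' t hv) _ (hS q t hu) hlt1))
  · intro R x hx
    exact h3 R (fun i => ⟨x i, hx i⟩)

end

end Run7.h46
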