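import Pool.Agent.Run7.h46.Theta

namespace Run7.h46

open Filter Function FirstOrder FirstOrder.Language

section

variable {L : FirstOrder.Language.{0, 0}} {B : Str L ℕ} (c : Cfg B) (D : Str L (Un ℕ c.T))
  (E : Set (Un ℕ c.T)) {S : Set ℕ} (bd : BD S)

/-- position of the `j`th element of block `i` -/
def posn (i : bd.I) (j : ℕ) : Ps c.K := mkp (bd.f i j) (c.col j)

/-- the coding positions -/
def CP : Set (Ps c.K) := {p | ∃ i j, j < 2 * bd.ν i ∧ p = posn c bd i j}

/-- the universe of the coding structure -/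
def NC : Set (Un ℕ c.T) := {u | (∃ m, u = Sum.inl m) ∨ u ∈ E ∨
  ∃ q t, u = Sum.inr (q, t) ∧ mkp q (c.srt t) ∈ CP c bd}

/-- the coding structure -/
def AC : Str L (NC c E bd) := D.pull Subtype.val

/-- the parameters -/
def e0 : E → NC c E bd := fun u => ⟨u.1, Or.inr (Or.inl u.2)⟩

theorem f_lt {i i' : bd.I} {j j' : ℕ} : bd.f i j < bd.f i' j' ↔ (i < i' ∨ (i = i' ∧ j < j')) := by
  constructor
  · intro h
    by_contra hcon
    push Not at hcon
    obtain ⟨h1, h2⟩ := hcon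
    rcases h1.lt_or_eq with h3 | h3
    · exact absurd h (not_lt.2 (bd.hf _ _ _ _ (Or.inl h3)).le)
    · subst h3
      rcases (h2 rfl).lt_or_eq with h4 | h4
      · exact absurd h (not_lt.2 (bd.hf _ _ _ _ (Or.inr ⟨rfl, h4⟩)).le)
      · subst h4; exact absurd h (lt_irrefl _)
  · exact bd.hf _ _ _ _

theorem f_inj {i i' : bd.I} {j j' : ℕ} : bd.f i j = bd.f i' j' ↔ (i = i' ∧ j = j') := by
  constructor
  · intro h
    have h1 := (f_lt bd (i := i) (i' := i') (j := j) (j' := j')).not.1 (h ▸ lt_irrefl _)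
    have h2 := (f_lt bd (i := i') (i' := i) (j := j') (j' := j)).not.1 (h ▸ lt_irrefl _)
    push Not at h1 h2
    have h3 := le_antisymm h2.1 h1.1
    refine ⟨h3, le_antisymm (h2.2 h3.symm) (h1.2 h3)⟩
  · rintro ⟨rfl, rfl⟩; rfl

theorem posn_lt {i i' : bd.I} {j j' : ℕ} :
    posn c bd i j < posn c bd i' j' ↔ (i < i' ∨ (i = i' ∧ j < j')) := by
  rw [posn, posn, mkp_lt, f_lt, f_inj]
  constructor
  · rintro (h | ⟨⟨rfl, rfl⟩, h⟩)
    · exact h
    · exact absurd h (lt_irrefl _)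
  · exact Or.inl

theorem posn_inj {i i' : bd.I} {j j' : ℕ} :
    posn c bd i j = posn c bd i' j' ↔ (i = i' ∧ j = j') := by
  rw [posn, posn, mkp_inj, f_inj]
  constructor
  · exact fun h => h.1
  · rintro ⟨rfl, rfl⟩; exact ⟨⟨rfl, rfl⟩, rfl⟩

theorem col_even {j : ℕ} (h : j % 2 = 0) : c.col j = c.ka := by simp [Cfg.col, h]
theorem col_odd {j : ℕ} (h : j % 2 = 1) : c.col j = c.kb := by simp [Cfg.col, h]

theorem col_eq_of (j j' : ℕ) (h : j % 2 = j' % 2) : c.col j = c.col j' := by simp [Cfg.col, h]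

theorem rel_symm {k k' : c.K} (h : c.rel k k') : c.rel k' k := by
  rcases h with ⟨h, h'⟩ | ⟨h, h'⟩
  · exact Or.inr ⟨h', h⟩
  · exact Or.inl ⟨h', h⟩

theorem col_succ_rel (j : ℕ) : c.rel (c.col j) (c.col (j + 1)) := by
  rcases Nat.mod_two_eq_zero_or_one j with h | h
  · left; exact ⟨col_even c h, col_odd c (by omega)⟩
  · right; exact ⟨col_odd c h, col_even c (by omega)⟩

/-- alternation of colours -/
theorem altern {p p' : Ps c.K} (hp : p ∈ CP c bd) (hp' : p' ∈ CP c bd) (hlt : p < p')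
    (hrel : ¬ c.rel (kc p) (kc p')) :
    ∃ p'' ∈ CP c bd, p < p'' ∧ p'' < p' ∧ c.rel (kc p) (kc p'') ∧ c.rel (kc p'') (kc p') := by
  obtain ⟨i, j, hj, rfl⟩ := hp
  obtain ⟨i', j', hj', rfl⟩ := hp'
  have hcol : j % 2 = j' % 2 := by
    by_contra hne
    apply hrel
    change c.rel (c.col j) (c.col j')
    rcases Nat.mod_two_eq_zero_or_one j with h | h <;>
    rcases Nat.mod_two_eq_zero_or_one j' with h' | h'
    · omega
    · exact Or.inl ⟨col_even c h, col_odd c h'⟩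
    · exact Or.inr ⟨col_odd c h, col_even c h'⟩
    · omega
  rw [posn_lt] at hlt
  rcases hlt with h | ⟨rfl, h⟩
  · rcases Nat.mod_two_eq_zero_or_one j with h0 | h0
    · refine ⟨posn c bd i (j + 1), ⟨i, j + 1, by omega, rfl⟩, ?_, ?_, ?_, ?_⟩
      · rw [posn_lt]; right; exact ⟨rfl, by omega⟩
      · rw [posn_lt]; left; exact h
      · exact col_succ_rel c j
      · change c.rel (c.col (j + 1)) (c.col j')
        rw [col_eq_of c j' j hcol.symm]
        exact rel_symm c (col_succ_rel c j)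
    · have h1 : j' % 2 = 1 := by omega
      refine ⟨posn c bd i' (j' - 1), ⟨i', j' - 1, by omega, rfl⟩, ?_, ?_, ?_, ?_⟩
      · rw [posn_lt]; left; exact h
      · rw [posn_lt]; right; exact ⟨rfl, by omega⟩
      · change c.rel (c.col j) (c.col (j' - 1))
        rw [col_eq_of c j j' hcol]
        have := col_succ_rel c (j' - 1)
        rw [show j' - 1 + 1 = j' by omega] at this
        exact rel_symm c this
      · change c.rel (c.col (j' - 1)) (c.col j')
        have := col_succ_rel c (j' - 1)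
        rwa [show j' - 1 + 1 = j' by omega] at this
  · refine ⟨posn c bd i (j + 1), ⟨i, j + 1, by omega, rfl⟩, ?_, ?_, ?_, ?_⟩
    · rw [posn_lt]; right; exact ⟨rfl, by omega⟩
    · rw [posn_lt]; right; exact ⟨rfl, by omega⟩
    · exact col_succ_rel c j
    · change c.rel (c.col (j + 1)) (c.col j')
      rw [col_eq_of c j' j hcol.symm]
      exact rel_symm c (col_succ_rel c j)

theorem CP_bd {p : Ps c.K} (hp : p ∈ CP c bd) : -1 < rc p ∧ rc p < 1 := by
  obtain ⟨i, j, hj, rfl⟩ := hp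
  exact ⟨bd.hf1 i j, bd.hf2 i j⟩

theorem exists_sort (k : c.K) : ∃ t, c.srt t = k := by
  rcases c.hK k with rfl | rfl
  · exact c.nea
  · exact c.neb

open Classical in
/-- the tuple at position `(q, k)` in the coding structure -/
noncomputable def tup (q : ℚ) (k : c.K) (h : mkp q k ∈ CP c bd) : c.T → NC c E bd := fun t =>
  if ht : c.srt t = k then ⟨Sum.inr (q, t), Or.inr (Or.inr ⟨q, t, rfl, ht ▸ h⟩)⟩
    else ⟨Sum.inl 0, Or.inl ⟨0, rfl⟩⟩

theorem tup_val {q : ℚ} {k : c.K} (h : mkp q k ∈ CP c bd) (t : c.T) (ht : c.srt t = k) :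
    (tup c E bd q k h t).1 = Sum.inr (q, t) := by
  simp [tup, ht]

/-- `x` is a good copy of the tuple at `(q,k)` -/
def At (k : c.K) (x : c.T → NC c E bd) (q : ℚ) (π : c.T → c.T) : Prop :=
  mkp q k ∈ CP c bd ∧ Good c.srt D k π ∧ ∀ t, c.srt t = k → (x t).1 = Sum.inr (q, π t)

theorem Good.surj {D : Str L (Un ℕ c.T)} {k : c.K} {π : c.T → c.T} (h : Good c.srt D k π) :
    ∀ t, c.srt t = k → ∃ t', c.srt t' = k ∧ π t' = t := by
  intro t ht
  let g : {t : c.T // c.srt t = k} → {t : c.T // c.srt t = k} := fun t => ⟨π t.1, h.1 t.1 t.2⟩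
  have hg : Injective g := by
    intro a b hab
    exact Subtype.ext (h.2.1 a.1 b.1 a.2 b.2 (congrArg Subtype.val hab))
  obtain ⟨t', ht'⟩ := (Finite.injective_iff_surjective.1 hg) ⟨t, ht⟩
  exact ⟨t'.1, t'.2, congrArg Subtype.val ht'⟩

theorem good_id (k : c.K) : Good c.srt D k id := by
  refine ⟨fun t h => h, fun t t' _ _ h => h, fun R x => ?_⟩
  have : pmx c.srt k id 0 ∘ x = x := by
    funext i
    rcases h : x i with m | ⟨q, t⟩
    · simp [h, pmx]
    · simp [h, pmx]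
  rw [this]

theorem At_tup {q : ℚ} {k : c.K} (h : mkp q k ∈ CP c bd) : At c D E bd k (tup c E bd q k h) q id :=
  ⟨h, good_id c D k, fun t ht => by rw [tup_val c E bd h t ht]; rfl⟩

theorem pmx_far (hE : Far E) {k : c.K} {π : c.T → c.T} {q : ℚ} (hq : -2 < q ∧ q < 2)
    {u : Un ℕ c.T} (hu : u ∈ E) : pmx c.srt k π q u = u := by
  rcases u with m | ⟨r, t⟩
  · rfl
  · simp only [pmx]
    rw [if_neg]
    rintro ⟨rfl, -⟩
    rcases hE r t hu with h | h
    · exact absurd hq.1 (not_lt.2 h)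
    · exact absurd hq.2 (not_lt.2 h)

theorem pmx_other {k k' : c.K} {π : c.T → c.T} {q q' : ℚ} {t : c.T} (ht : c.srt t = k')
    (hne : mkp q k ≠ mkp q' k') : pmx (M := ℕ) c.srt k π q (Sum.inr (q', t)) = Sum.inr (q', t) := by
  simp only [pmx]
  rw [if_neg]
  rintro ⟨rfl, h⟩
  exact hne (by rw [← ht, h])

theorem pmx_same {k : c.K} {π : c.T → c.T} {q : ℚ} {t : c.T} (ht : c.srt t = k) :
    pmx (M := ℕ) c.srt k π q (Sum.inr (q, t)) = Sum.inr (q, π t) := by
  simp [pmx, ht]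

end

end Run7.h46
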