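import Pool.Agent.Run7.h46.Gen

namespace Run7.h46

open Filter Function FirstOrder FirstOrder.Language

section

variable {L : FirstOrder.Language.{0, 0}} {B : Str L ℕ} (c : Cfg B) (D : Str L (Un ℕ c.T))
  (E : Set (Un ℕ c.T))

/-- colours along a block -/
def Cfg.col (j : ℕ) : c.K := if j % 2 = 0 then c.ka else c.kb

/-- comparable sorts -/
def Cfg.rel (k k' : c.K) : Prop := (k = c.ka ∧ k' = c.kb) ∨ (k = c.kb ∧ k' = c.ka)

section defs

variable {N : Type} (A : Str L N) (e : E → N)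

/-- basic order relation -/
def lt0 (k k' : c.K) (x y : c.T → N) : Prop :=
  c.rel k k' ∧ SameQ A D (Sum.elim (Sum.elim (rs c.srt k x) (rs c.srt k' y)) e)
    (Sum.elim (Sum.elim (rs c.srt k (cc 0)) (rs c.srt k' (cc (1 / 2)))) Subtype.val)

/-- members of `J` -/
def JJ (k : c.K) (w : c.T → N) : Prop := QJ c.srt D E A e k w

/-- overlapping -/
def ov (k k' : c.K) (x y : c.T → N) : Prop := ∃ t t', c.srt t = k ∧ c.srt t' = k' ∧ x t = y t'

/-- the order on `J` -/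
def prec (k k' : c.K) (x y : c.T → N) : Prop :=
  lt0 c D E A e k k' x y ∨ ∃ k'', ∃ z : c.T → N, JJ c D E A e k'' z ∧ lt0 c D E A e k k'' x z ∧
    lt0 c D E A e k'' k' z y

/-- the indiscernibility condition -/
def N3 : Prop :=
  ∀ (R : Σ n, L.Relations n) (p : Fin R.1 → Option c.T) (u u' : Fin R.1 × c.T → N)
    (d : Fin R.1 → N),
    (∀ i t, p i = some t → JJ c D E A e (c.srt t) (fun s => u (i, s)) ∧
      JJ c D E A e (c.srt t) (fun s => u' (i, s))) →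
    (∀ i j t t', p i = some t → p j = some t' →
      ((c.srt t = c.srt t' ∧ ∀ s, c.srt s = c.srt t → u (i, s) = u (j, s) ∧ u' (i, s) = u' (j, s)) ∨
      (prec c D E A e (c.srt t) (c.srt t') (fun s => u (i, s)) (fun s => u (j, s)) ∧
        prec c D E A e (c.srt t) (c.srt t') (fun s => u' (i, s)) (fun s => u' (j, s))) ∨
      (prec c D E A e (c.srt t') (c.srt t) (fun s => u (j, s)) (fun s => u (i, s)) ∧
        prec c D E A e (c.srt t') (c.srt t) (fun s => u' (j, s)) (fun s => u' (i, s))))) →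
    (∀ i, p i = none → ∀ (k : c.K) (w : c.T → N), JJ c D E A e k w →
      ∀ t, c.srt t = k → w t ≠ d i) →
    (A R (fun i => match p i with | some t => u (i, t) | none => d i) ↔
      A R (fun i => match p i with | some t => u' (i, t) | none => d i))

/-- niceness -/
def Nice : Prop :=
  (∀ (k k' : c.K) (x y : c.T → N), JJ c D E A e k x → JJ c D E A e k' y → ov c k k' x y →
    (k = k' ∧ ∀ t, c.srt t = k → ∃ t', c.srt t' = k' ∧ x t = y t')) ∧
  (∀ (k k' : c.K) (x y : c.T → N), JJ c D E A e k x → JJ c D E A e k' y → ov c k k' x y →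
    ¬ prec c D E A e k k' x y) ∧
  (∀ (k k' k'' : c.K) (x y z : c.T → N), JJ c D E A e k x → JJ c D E A e k' y →
    JJ c D E A e k'' z → prec c D E A e k k' x y → prec c D E A e k' k'' y z →
    prec c D E A e k k'' x z) ∧
  (∀ (k k' : c.K) (x y : c.T → N), JJ c D E A e k x → JJ c D E A e k' y → ov c k k' x y ∨
    prec c D E A e k k' x y ∨ prec c D E A e k' k y x) ∧
  (∀ (k k' : c.K) (x y : c.T → N), c.rel k k' → JJ c D E A e k x → JJ c D E A e k' y →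
    ov c k k' x y ∨ lt0 c D E A e k k' x y ∨ lt0 c D E A e k' k y x) ∧
  N3 c D E A e

/-- adjacency -/
def Adj (k k' : c.K) (x y : c.T → N) : Prop :=
  prec c D E A e k k' x y ∧ ¬ ∃ k'', ∃ z : c.T → N, JJ c D E A e k'' z ∧
    prec c D E A e k k'' x z ∧ prec c D E A e k'' k' z y

/-- a block of `n` pairs -/
def IsBlk (n : ℕ) (w : Fin (2 * n) × c.T → N) : Prop :=
  (∀ j : Fin (2 * n), JJ c D E A e (c.col j) (fun s => w (j, s))) ∧
  (∀ j j' : Fin (2 * n), j.1 + 1 = j'.1 →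
    Adj c D E A e (c.col j) (c.col j') (fun s => w (j, s)) (fun s => w (j', s))) ∧
  (∀ j : Fin (2 * n), j.1 = 0 → ∀ (k : c.K) (y : c.T → N), JJ c D E A e k y →
    ¬ Adj c D E A e k (c.col j) y (fun s => w (j, s))) ∧
  (∀ j : Fin (2 * n), j.1 + 1 = 2 * n → ∀ (k : c.K) (y : c.T → N), JJ c D E A e k y →
    ¬ Adj c D E A e (c.col j) k (fun s => w (j, s)) y)

/-- start of a block -/
def St (n : ℕ) (x : c.T → N) : Prop :=
  ∃ w : Fin (2 * n) × c.T → N, IsBlk c D E A e n w ∧ ∃ j : Fin (2 * n), j.1 = 0 ∧ ∀ t, w (j, t) = x t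

end defs

/-- the sentence `Θ_n` -/
def Theta (n : ℕ) (N : Type) (A : Str L N) (_ : Empty → N) : Prop :=
  ∃ e : E → N, Nice c D E A e ∧
    (∃ x : c.T → N, ∃ y : c.T → N, St c D E A e n x ∧ St c D E A e n y ∧
      prec c D E A e c.ka c.ka x y) ∧
    ∀ x : c.T → N, ∀ y : c.T → N, St c D E A e n x → St c D E A e n y →
      prec c D E A e c.ka c.ka x y → ∃ z : c.T → N, St c D E A e n z ∧
        prec c D E A e c.ka c.ka x z ∧ prec c D E A e c.ka c.ka z y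

section FO

variable [L.IsRelational] [Finite (Σ n, L.Relations n)] [Finite E]

theorem fo_sameQ {V N0 : Type} [Finite V] (D0 : Str L N0) (v0 : V → N0) :
    IsFO (L := L) V (fun _ A v => SameQ A D0 v v0) :=
  (IsFO.finall fun i => IsFO.finall fun j => (IsFO.eq i j).iff (IsFO.const _)).and
    (IsFO.finall fun R => IsFO.finall fun s => (IsFO.rel R s).iff (IsFO.const _))

theorem fo_JJ {V : Type} (a : E → V) (b : c.T → V) (k : c.K) :
    IsFO (L := L) V (fun _ A v => JJ c D E A (v ∘ a) k (v ∘ b)) := by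
  refine ((fo_sameQ D (Sum.elim (rs c.srt k (cc 0)) Subtype.val)).reindex
    (Sum.elim (rs c.srt k b) a)).congr ?_
  intro N A v
  unfold JJ QJ
  have : v ∘ Sum.elim (rs c.srt k b) a = Sum.elim (rs c.srt k (v ∘ b)) (v ∘ a) := by
    funext i; rcases i with i | i <;> rfl
  rw [this]

theorem fo_lt0 {V : Type} (a : E → V) (b b' : c.T → V) (k k' : c.K) :
    IsFO (L := L) V (fun _ A v => lt0 c D E A (v ∘ a) k k' (v ∘ b) (v ∘ b')) := by
  refine (IsFO.const _).and (((fo_sameQ D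
    (Sum.elim (Sum.elim (rs c.srt k (cc 0)) (rs c.srt k' (cc (1 / 2)))) Subtype.val)).reindex
    (Sum.elim (Sum.elim (rs c.srt k b) (rs c.srt k' b')) a)).congr ?_)
  intro N A v
  have : v ∘ Sum.elim (Sum.elim (rs c.srt k b) (rs c.srt k' b')) a
      = Sum.elim (Sum.elim (rs c.srt k (v ∘ b)) (rs c.srt k' (v ∘ b'))) (v ∘ a) := by
    funext i; rcases i with (i | i) | i <;> rfl
  rw [this]

theorem fo_prec {V : Type} (a : E → V) (b b' : c.T → V) (k k' : c.K) :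
    IsFO (L := L) V (fun _ A v => prec c D E A (v ∘ a) k k' (v ∘ b) (v ∘ b')) := by
  refine (fo_lt0 c D E a b b' k k').or (IsFO.finex fun k'' => IsFO.ex ?_)
  exact (fo_JJ c D E (Sum.inl ∘ a) Sum.inr k'').and
    ((fo_lt0 c D E (Sum.inl ∘ a) (Sum.inl ∘ b) Sum.inr k k'').and
      (fo_lt0 c D E (Sum.inl ∘ a) Sum.inr (Sum.inl ∘ b') k'' k'))

theorem fo_ov {V : Type} (b b' : c.T → V) (k k' : c.K) :
    IsFO (L := L) V (fun _ _ v => ov c k k' (v ∘ b) (v ∘ b')) :=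
  IsFO.finex fun _ => IsFO.finex fun _ => (IsFO.const _).and ((IsFO.const _).and (IsFO.eq _ _))

theorem fo_Adj {V : Type} (a : E → V) (b b' : c.T → V) (k k' : c.K) :
    IsFO (L := L) V (fun _ A v => Adj c D E A (v ∘ a) k k' (v ∘ b) (v ∘ b')) := by
  refine (fo_prec c D E a b b' k k').and (IsFO.not (IsFO.finex fun k'' => IsFO.ex ?_))
  exact (fo_JJ c D E (Sum.inl ∘ a) Sum.inr k'').and
    ((fo_prec c D E (Sum.inl ∘ a) (Sum.inl ∘ b) Sum.inr k k'').and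
      (fo_prec c D E (Sum.inl ∘ a) Sum.inr (Sum.inl ∘ b') k'' k'))

theorem fo_IsBlk {V : Type} (a : E → V) (n : ℕ) (b : Fin (2 * n) × c.T → V) :
    IsFO (L := L) V (fun _ A v => IsBlk c D E A (v ∘ a) n (v ∘ b)) := by
  refine IsFO.and ?_ (IsFO.and ?_ (IsFO.and ?_ ?_))
  · exact IsFO.finall fun j => fo_JJ c D E a (fun s => b (j, s)) (c.col j)
  · exact IsFO.finall fun j => IsFO.finall fun j' => (IsFO.const _).imp
      (fo_Adj c D E a (fun s => b (j, s)) (fun s => b (j', s)) (c.col j) (c.col j'))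
  · refine IsFO.finall fun j => (IsFO.const _).imp (IsFO.finall fun k => IsFO.all ?_)
    exact (fo_JJ c D E (Sum.inl ∘ a) Sum.inr k).imp
      (IsFO.not (fo_Adj c D E (Sum.inl ∘ a) Sum.inr (fun s => Sum.inl (b (j, s))) k (c.col j)))
  · refine IsFO.finall fun j => (IsFO.const _).imp (IsFO.finall fun k => IsFO.all ?_)
    exact (fo_JJ c D E (Sum.inl ∘ a) Sum.inr k).imp
      (IsFO.not (fo_Adj c D E (Sum.inl ∘ a) (fun s => Sum.inl (b (j, s))) Sum.inr (c.col j) k))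

theorem fo_St {V : Type} (a : E → V) (n : ℕ) (b : c.T → V) :
    IsFO (L := L) V (fun _ A v => St c D E A (v ∘ a) n (v ∘ b)) := by
  refine IsFO.ex (IsFO.and ?_ ?_)
  · exact fo_IsBlk c D E (Sum.inl ∘ a) n Sum.inr
  · exact IsFO.finex fun j => (IsFO.const _).and (IsFO.finall fun t => IsFO.eq _ _)

theorem fo_N3 {V : Type} (a : E → V) : IsFO (L := L) V (fun _ A v => N3 c D E A (v ∘ a)) := by
  refine IsFO.finall fun R => IsFO.finall fun p => IsFO.all (IsFO.all (IsFO.all ?_))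
  refine IsFO.imp ?_ (IsFO.imp ?_ (IsFO.imp ?_ ?_))
  · refine IsFO.finall fun i => IsFO.finall fun t => (IsFO.const _).imp (IsFO.and ?_ ?_)
    · exact fo_JJ c D E (Sum.inl ∘ Sum.inl ∘ Sum.inl ∘ a)
        (fun s => Sum.inl (Sum.inl (Sum.inr (i, s)))) (c.srt t)
    · exact fo_JJ c D E (Sum.inl ∘ Sum.inl ∘ Sum.inl ∘ a)
        (fun s => Sum.inl (Sum.inr (i, s))) (c.srt t)
  · refine IsFO.finall fun i => IsFO.finall fun j => IsFO.finall fun t => IsFO.finall fun t' =>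
      (IsFO.const _).imp ((IsFO.const _).imp (IsFO.or ?_ (IsFO.or ?_ ?_)))
    · exact (IsFO.const _).and (IsFO.finall fun s => (IsFO.const _).imp
        ((IsFO.eq _ _).and (IsFO.eq _ _)))
    · exact (fo_prec c D E (Sum.inl ∘ Sum.inl ∘ Sum.inl ∘ a)
        (fun s => Sum.inl (Sum.inl (Sum.inr (i, s)))) (fun s => Sum.inl (Sum.inl (Sum.inr (j, s))))
        (c.srt t) (c.srt t')).and
        (fo_prec c D E (Sum.inl ∘ Sum.inl ∘ Sum.inl ∘ a)
        (fun s => Sum.inl (Sum.inr (i, s))) (fun s => Sum.inl (Sum.inr (j, s)))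
        (c.srt t) (c.srt t'))
    · exact (fo_prec c D E (Sum.inl ∘ Sum.inl ∘ Sum.inl ∘ a)
        (fun s => Sum.inl (Sum.inl (Sum.inr (j, s)))) (fun s => Sum.inl (Sum.inl (Sum.inr (i, s))))
        (c.srt t') (c.srt t)).and
        (fo_prec c D E (Sum.inl ∘ Sum.inl ∘ Sum.inl ∘ a)
        (fun s => Sum.inl (Sum.inr (j, s))) (fun s => Sum.inl (Sum.inr (i, s)))
        (c.srt t') (c.srt t))
  · refine IsFO.finall fun i => (IsFO.const _).imp (IsFO.finall fun k => IsFO.all ?_)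
    refine IsFO.imp ?_ (IsFO.finall fun t => (IsFO.const _).imp (IsFO.not (IsFO.eq _ _)))
    exact fo_JJ c D E (Sum.inl ∘ Sum.inl ∘ Sum.inl ∘ Sum.inl ∘ a) Sum.inr k
  · refine IsFO.iff ?_ ?_
    · refine (IsFO.rel R (fun i => match p i with
        | some t => Sum.inl (Sum.inl (Sum.inr (i, t)))
        | none => Sum.inr i)).congr ?_
      intro N A v
      rw [iff_eq_eq]
      congr 1
      funext i
      rcases h : p i with _ | t <;> simp [h]
    · refine (IsFO.rel R (fun i => match p i with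
        | some t => Sum.inl (Sum.inr (i, t))
        | none => Sum.inr i)).congr ?_
      intro N A v
      rw [iff_eq_eq]
      congr 1
      funext i
      rcases h : p i with _ | t <;> simp [h]

theorem fo_Nice {V : Type} (a : E → V) : IsFO (L := L) V (fun _ A v => Nice c D E A (v ∘ a)) := by
  refine IsFO.and ?_ (IsFO.and ?_ (IsFO.and ?_ (IsFO.and ?_ (IsFO.and ?_ ?_))))
  · refine IsFO.finall fun k => IsFO.finall fun k' => IsFO.all (IsFO.all ?_)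
    refine IsFO.imp ?_ (IsFO.imp ?_ (IsFO.imp ?_ ?_))
    · exact fo_JJ c D E (Sum.inl ∘ Sum.inl ∘ a) (Sum.inl ∘ Sum.inr) k
    · exact fo_JJ c D E (Sum.inl ∘ Sum.inl ∘ a) Sum.inr k'
    · exact fo_ov c (Sum.inl ∘ Sum.inr) Sum.inr k k'
    · exact (IsFO.const _).and (IsFO.finall fun t => (IsFO.const _).imp (IsFO.finex fun t' =>
        (IsFO.const _).and (IsFO.eq _ _)))
  · refine IsFO.finall fun k => IsFO.finall fun k' => IsFO.all (IsFO.all ?_)
    refine IsFO.imp ?_ (IsFO.imp ?_ (IsFO.imp ?_ ?_))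
    · exact fo_JJ c D E (Sum.inl ∘ Sum.inl ∘ a) (Sum.inl ∘ Sum.inr) k
    · exact fo_JJ c D E (Sum.inl ∘ Sum.inl ∘ a) Sum.inr k'
    · exact fo_ov c (Sum.inl ∘ Sum.inr) Sum.inr k k'
    · exact IsFO.not (fo_prec c D E (Sum.inl ∘ Sum.inl ∘ a) (Sum.inl ∘ Sum.inr) Sum.inr k k')
  · refine IsFO.finall fun k => IsFO.finall fun k' => IsFO.finall fun k'' =>
      IsFO.all (IsFO.all (IsFO.all ?_))
    refine IsFO.imp ?_ (IsFO.imp ?_ (IsFO.imp ?_ (IsFO.imp ?_ (IsFO.imp ?_ ?_))))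
    · exact fo_JJ c D E (Sum.inl ∘ Sum.inl ∘ Sum.inl ∘ a) (Sum.inl ∘ Sum.inl ∘ Sum.inr) k
    · exact fo_JJ c D E (Sum.inl ∘ Sum.inl ∘ Sum.inl ∘ a) (Sum.inl ∘ Sum.inr) k'
    · exact fo_JJ c D E (Sum.inl ∘ Sum.inl ∘ Sum.inl ∘ a) Sum.inr k''
    · exact fo_prec c D E (Sum.inl ∘ Sum.inl ∘ Sum.inl ∘ a) (Sum.inl ∘ Sum.inl ∘ Sum.inr)
        (Sum.inl ∘ Sum.inr) k k'
    · exact fo_prec c D E (Sum.inl ∘ Sum.inl ∘ Sum.inl ∘ a) (Sum.inl ∘ Sum.inr) Sum.inr k' k''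
    · exact fo_prec c D E (Sum.inl ∘ Sum.inl ∘ Sum.inl ∘ a) (Sum.inl ∘ Sum.inl ∘ Sum.inr)
        Sum.inr k k''
  · refine IsFO.finall fun k => IsFO.finall fun k' => IsFO.all (IsFO.all ?_)
    refine IsFO.imp ?_ (IsFO.imp ?_ (IsFO.or ?_ (IsFO.or ?_ ?_)))
    · exact fo_JJ c D E (Sum.inl ∘ Sum.inl ∘ a) (Sum.inl ∘ Sum.inr) k
    · exact fo_JJ c D E (Sum.inl ∘ Sum.inl ∘ a) Sum.inr k'
    · exact fo_ov c (Sum.inl ∘ Sum.inr) Sum.inr k k'
    · exact fo_prec c D E (Sum.inl ∘ Sum.inl ∘ a) (Sum.inl ∘ Sum.inr) Sum.inr k k'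
    · exact fo_prec c D E (Sum.inl ∘ Sum.inl ∘ a) Sum.inr (Sum.inl ∘ Sum.inr) k' k
  · refine IsFO.finall fun k => IsFO.finall fun k' => IsFO.all (IsFO.all ?_)
    refine IsFO.imp (IsFO.const _) (IsFO.imp ?_ (IsFO.imp ?_ (IsFO.or ?_ (IsFO.or ?_ ?_))))
    · exact fo_JJ c D E (Sum.inl ∘ Sum.inl ∘ a) (Sum.inl ∘ Sum.inr) k
    · exact fo_JJ c D E (Sum.inl ∘ Sum.inl ∘ a) Sum.inr k'
    · exact fo_ov c (Sum.inl ∘ Sum.inr) Sum.inr k k'
    · exact fo_lt0 c D E (Sum.inl ∘ Sum.inl ∘ a) (Sum.inl ∘ Sum.inr) Sum.inr k k'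
    · exact fo_lt0 c D E (Sum.inl ∘ Sum.inl ∘ a) Sum.inr (Sum.inl ∘ Sum.inr) k' k
  · exact fo_N3 c D E a

theorem fo_Theta (n : ℕ) : IsFO (L := L) Empty (Theta c D E n) := by
  refine IsFO.ex (IsFO.and (fo_Nice c D E Sum.inr) (IsFO.and ?_ ?_))
  · refine IsFO.ex (IsFO.ex (IsFO.and ?_ (IsFO.and ?_ ?_)))
    · exact fo_St c D E (Sum.inl ∘ Sum.inl ∘ Sum.inr) n (Sum.inl ∘ Sum.inr)
    · exact fo_St c D E (Sum.inl ∘ Sum.inl ∘ Sum.inr) n Sum.inr
    · exact fo_prec c D E (Sum.inl ∘ Sum.inl ∘ Sum.inr) (Sum.inl ∘ Sum.inr) Sum.inr c.ka c.ka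
  · refine IsFO.all (IsFO.all (IsFO.imp ?_ (IsFO.imp ?_ (IsFO.imp ?_ (IsFO.ex
      (IsFO.and ?_ (IsFO.and ?_ ?_)))))))
    · exact fo_St c D E (Sum.inl ∘ Sum.inl ∘ Sum.inr) n (Sum.inl ∘ Sum.inr)
    · exact fo_St c D E (Sum.inl ∘ Sum.inl ∘ Sum.inr) n Sum.inr
    · exact fo_prec c D E (Sum.inl ∘ Sum.inl ∘ Sum.inr) (Sum.inl ∘ Sum.inr) Sum.inr c.ka c.ka
    · exact fo_St c D E (Sum.inl ∘ Sum.inl ∘ Sum.inl ∘ Sum.inr) n Sum.inr
    · exact fo_prec c D E (Sum.inl ∘ Sum.inl ∘ Sum.inl ∘ Sum.inr) (Sum.inl ∘ Sum.inl ∘ Sum.inr)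
        Sum.inr c.ka c.ka
    · exact fo_prec c D E (Sum.inl ∘ Sum.inl ∘ Sum.inl ∘ Sum.inr) Sum.inr (Sum.inl ∘ Sum.inr)
        c.ka c.ka

end FO

end

end Run7.h46
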