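import Pool.Agent.Run7.h46.LimitE
import Pool.Agent.Run7.h46.Fin1

namespace Run7.h46

open Filter Function FirstOrder FirstOrder.Language

section

variable {L : FirstOrder.Language.{0, 0}}

theorem term_sameQ [L.IsRelational] {V : Type} (t : L.Term V) : ∃ i, t = Term.var i := by
  cases t with
  | var i => exact ⟨i, rfl⟩
  | func f _ => exact isEmptyElim f

theorem qf_iff [L.IsRelational] {V N N' : Type} (A : Str L N) (A' : Str L N') (v : V → N)
    (v' : V → N') {n : ℕ} (φ : L.BoundedFormula V n) (hφ : φ.IsQF) (xs : Fin n → N)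
    (xs' : Fin n → N') (h : SameQ A A' (Sum.elim v xs) (Sum.elim v' xs')) :
    @BoundedFormula.Realize L N (toS A) V n φ v xs ↔
      @BoundedFormula.Realize L N' (toS A') V n φ v' xs' := by
  let _ := toS A
  let _ := toS A'
  induction hφ with
  | falsum => exact Iff.rfl
  | of_isAtomic ha =>
    rcases ha with ⟨t1, t2⟩ | ⟨R, ts⟩
    · obtain ⟨i, rfl⟩ := term_sameQ t1
      obtain ⟨j, rfl⟩ := term_sameQ t2
      rw [BoundedFormula.realize_bdEqual, BoundedFormula.realize_bdEqual]
      exact h.1 i j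
    · choose s hs using fun i => term_sameQ (ts i)
      rw [BoundedFormula.realize_rel, BoundedFormula.realize_rel]
      have h1 := h.2 ⟨_, R⟩ s
      have e1 : (fun i => (ts i).realize (Sum.elim v xs)) = Sum.elim v xs ∘ s := by
        funext i; rw [hs i]; rfl
      have e2 : (fun i => (ts i).realize (Sum.elim v' xs')) = Sum.elim v' xs' ∘ s := by
        funext i; rw [hs i]; rfl
      rw [e1, e2]
      exact h1
  | imp _ _ ih1 ih2 =>
    rw [BoundedFormula.realize_imp, BoundedFormula.realize_imp]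
    exact imp_congr ih1 ih2

theorem qf_iff' [L.IsRelational] {V N N' : Type} (A : Str L N) (A' : Str L N') (v : V → N)
    (v' : V → N') (φ : L.Formula V) (hφ : φ.IsQF) (h : SameQ A A' v v') :
    @Formula.Realize L N (toS A) V φ v ↔ @Formula.Realize L N' (toS A') V φ v' := by
  apply qf_iff A A' v v' φ hφ
  constructor
  · rintro (i | i) (j | j)
    · exact h.1 i j
    · exact j.elim0
    · exact i.elim0
    · exact i.elim0
  · intro R s
    have : ∀ i, ∃ j, s i = Sum.inl j := by
      intro i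
      rcases s i with j | j
      · exact ⟨j, rfl⟩
      · exact j.elim0
    choose s' hs' using this
    have e1 : Sum.elim v (default : Fin 0 → N) ∘ s = v ∘ s' := by funext i; simp [hs']
    have e2 : Sum.elim v' (default : Fin 0 → N') ∘ s = v' ∘ s' := by funext i; simp [hs']
    rw [e1, e2]
    exact h.2 R s'

/-- Thinning out a sequence of finite tuples. -/
theorem thin {N V : Type} [Finite V] (d : ℕ → V → N) :
    ∃ (T : Type) (_ : Finite T) (κ : ℕ → ℕ) (c : ℕ → T → N) (ρ : V → N ⊕ T), StrictMono κ ∧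
      Injective (fun p : ℕ × T => c p.1 p.2) ∧ ∀ k v, d (κ k) v = Sum.elim id (c k) (ρ v) := by
  classical
  let 𝒰 : Ultrafilter ℕ := hyperfilter ℕ
  have h𝒰 : (𝒰 : Filter ℕ) ≤ atTop := by
    rw [← Nat.cofinite_eq_atTop]; exact hyperfilter_le_cofinite
  let P : V → N → Prop := fun v n => ∀ᶠ i in (𝒰 : Filter ℕ), d i v = n
  let sim : V → V → Prop := fun v w => ∀ᶠ i in (𝒰 : Filter ℕ), d i v = d i w
  have hsr : ∀ v, sim v v := fun v => Eventually.of_forall fun i => rfl
  have hss : ∀ v w, sim v w → sim w v := fun v w h => h.mono fun i hi => hi.symm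
  have hst : ∀ u v w, sim u v → sim v w → sim u w := fun u v w h h' => by
    filter_upwards [h, h'] with i h1 h2
    exact h1.trans h2
  let r : V → V := fun v => @Classical.epsilon _ ⟨v⟩ (fun w => sim w v)
  have hr1 : ∀ v, sim (r v) v := fun v =>
    Classical.epsilon_spec (p := fun w => sim w v) ⟨v, hsr v⟩
  have hr2 : ∀ v w, sim v w → r v = r w := by
    intro v w h
    have : (fun u => sim u v) = fun u => sim u w := by
      funext u
      exact propext ⟨fun h1 => hst _ _ _ h1 h, fun h1 => hst _ _ _ h1 (hss _ _ h)⟩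
    simp only [r]
    rw [this]
  let T := {v : V // (¬ ∃ n, P v n) ∧ r v = v}
  have hrT : ∀ v, (¬ ∃ n, P v n) → (¬ ∃ n, P (r v) n) ∧ r (r v) = r v := by
    intro v hv
    refine ⟨?_, hr2 _ _ (hr1 v)⟩
    rintro ⟨n, hn⟩
    apply hv
    refine ⟨n, ?_⟩
    filter_upwards [hn, hr1 v] with i h1 h2
    rw [← h2, h1]
  let ρ : V → N ⊕ T := fun v => if h : ∃ n, P v n then Sum.inl h.choose else
    Sum.inr ⟨r v, hrT v h⟩
  let G : Set ℕ := {i | (∀ v, d i v = Sum.elim id (fun t : T => d i t.1) (ρ v)) ∧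
    ∀ t t' : T, t ≠ t' → d i t.1 ≠ d i t'.1}
  have hG : G ∈ (𝒰 : Filter ℕ) := by
    have h1 : ∀ v, ∀ᶠ i in (𝒰 : Filter ℕ), d i v = Sum.elim id (fun t : T => d i t.1) (ρ v) := by
      intro v
      by_cases h : ∃ n, P v n
      · have h2 : ρ v = Sum.inl h.choose := by simp only [ρ, dif_pos h]
        rw [h2]
        exact h.choose_spec
      · have h2 : ρ v = Sum.inr ⟨r v, hrT v h⟩ := by simp only [ρ, dif_neg h]
        rw [h2]
        exact hss _ _ (hr1 v)
    have h2 : ∀ t t' : T, ∀ᶠ i in (𝒰 : Filter ℕ), t ≠ t' → d i t.1 ≠ d i t'.1 := by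
      intro t t'
      by_cases h : t = t'
      · exact Eventually.of_forall fun i h' => absurd h h'
      · have : ¬ sim t.1 t'.1 := by
          intro hs
          have := hr2 _ _ hs
          rw [t.2.2, t'.2.2] at this
          exact h (Subtype.ext this)
        have := (Ultrafilter.eventually_not (f := 𝒰)).2 this
        exact this.mono fun i hi _ => hi
    have h3 := (eventually_all.2 h1).and (eventually_all.2 fun t => eventually_all.2 fun t' => h2 t t')
    exact h3
  have hH : ∀ m : ℕ, ∃ i, m < i ∧ i ∈ G ∧ ∀ (t t' : T), ∀ j ≤ m, d i t.1 ≠ d j t'.1 := by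
    intro m
    have h1 : ∀ᶠ i in (𝒰 : Filter ℕ), m < i := h𝒰 (eventually_gt_atTop m)
    have h2 : ∀ᶠ i in (𝒰 : Filter ℕ), ∀ (t t' : T), ∀ j : Fin (m + 1), d i t.1 ≠ d j t'.1 := by
      rw [eventually_all]; intro t
      rw [eventually_all]; intro t'
      rw [eventually_all]; intro j
      apply (Ultrafilter.eventually_not (f := 𝒰)).2
      intro hP
      exact t.2.1 ⟨_, hP⟩
    obtain ⟨i, h3, h4, h5⟩ := (h1.and ((show ∀ᶠ i in (𝒰 : Filter ℕ), i ∈ G from hG).and h2)).exists
    exact ⟨i, h3, h4, fun t t' j hj => h5 t t' ⟨j, by omega⟩⟩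
  choose nx hnx1 hnx2 hnx3 using hH
  let κ : ℕ → ℕ := fun k => Nat.rec (nx 0) (fun _ m => nx m) k
  have hκs : ∀ k, κ (k + 1) = nx (κ k) := fun k => rfl
  have hκ : StrictMono κ := strictMono_nat_of_lt_succ fun k => by rw [hκs]; exact hnx1 _
  have hκG : ∀ k, κ k ∈ G := by
    intro k
    rcases k with _ | k
    · exact hnx2 0
    · rw [hκs]; exact hnx2 _
  have hne : ∀ k k' (t t' : T), k < k' → d (κ k') t.1 ≠ d (κ k) t'.1 := by
    intro k k' t t' hkk
    obtain ⟨m, rfl⟩ : ∃ m, k' = m + 1 := ⟨k' - 1, by omega⟩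
    rw [hκs]
    exact hnx3 _ t t' _ (hκ.monotone (by omega))
  refine ⟨T, inferInstance, κ, fun k t => d (κ k) t.1, ρ, hκ, ?_, fun k v => (hκG k).1 v⟩
  rintro ⟨k, t⟩ ⟨k', t'⟩ h
  simp only at h
  rcases lt_trichotomy k k' with h1 | rfl | h1
  · exact absurd h.symm (hne _ _ _ _ h1)
  · by_cases h2 : t = t'
    · rw [h2]
    · exact absurd h ((hκG k).2 t t' h2)
  · exact absurd h (hne _ _ _ _ h1)

/-- From an infinite half-graph to order dependence. -/
theorem odi_of_halfgraph [L.IsRelational] [Finite L.Symbols] {N : Type} [Infinite N] (A : Str L N)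
    (B : Str L ℕ) (hAB : FinEmb A B) {X Y : Type} [Finite X] [Finite Y] (φ : L.Formula (X ⊕ Y))
    (hφ : φ.IsQF) (a : ℕ → X → N) (b : ℕ → Y → N)
    (hab : ∀ i j, i ≠ j → (@Formula.Realize L N (toS A) _ φ (Sum.elim (a i) (b j)) ↔ i < j)) :
    ∃ (T : Type) (_ : Finite T), ODi B T Set.univ Set.univ := by
  classical
  obtain ⟨T, hT, κ, c, ρ, hκ, hc, hd⟩ := thin (fun i => Sum.elim (a i) (b i))
  refine ⟨T, hT, ?_⟩
  have hreal : ∀ k k', Sum.elim (a (κ k)) (b (κ k')) =
      Sum.elim (fun x => Sum.elim id (c k) (ρ (Sum.inl x)))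
        (fun y => Sum.elim id (c k') (ρ (Sum.inr y))) := by
    intro k k'
    funext v
    rcases v with x | y
    · exact hd k (Sum.inl x)
    · exact hd k' (Sum.inr y)
  have hTn : Nonempty T := by
    by_contra hT0
    rw [not_nonempty_iff] at hT0
    have h01 : κ 0 < κ 1 := hκ (by norm_num)
    have e : Sum.elim (a (κ 0)) (b (κ 1)) = Sum.elim (a (κ 1)) (b (κ 0)) := by
      rw [hreal, hreal]
      have : c 0 = c 1 := by funext t; exact isEmptyElim t
      rw [this]
    have h1 := hab (κ 0) (κ 1) h01.ne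
    have h2 := hab (κ 1) (κ 0) h01.ne'
    rw [e] at h1
    exact absurd (h2.1 (h1.2 h01)) (not_lt.2 h01.le)
  have hTf : Fintype T := Fintype.ofFinite T
  have hXf : Fintype X := Fintype.ofFinite X
  have hYf : Fintype Y := Fintype.ofFinite Y
  let srt : T → Unit := fun _ => ()
  let vv : ℚ → ℚ → X ⊕ Y → Un N T := fun q q' => Sum.elim
    (fun x => Sum.elim Sum.inl (fun t => Sum.inr (q, t)) (ρ (Sum.inl x)))
    (fun y => Sum.elim Sum.inl (fun t => Sum.inr (q', t)) (ρ (Sum.inr y)))
  let s : Finset (Un N T) := Finset.univ.image (vv 0 1) ∪ (Finset.univ.image (vv 1 0) ∪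
    (Finset.univ.image (fun t => (Sum.inr (0, t) : Un N T)) ∪
      Finset.univ.image (fun t => (Sum.inr (1, t) : Un N T))))
  obtain ⟨h, h1, h2, h3⟩ := lim_emb srt A c hc s
  obtain ⟨t0⟩ := hTn
  have h01 : h (mkp 0 ()) < h (mkp 1 ()) := h1 0 t0 (by simp [s]) 1 t0 (by simp [s])
    (by rw [mkp_lt]; left; norm_num)
  have hev : ∀ q q', evl srt c h ∘ vv q q' =
      Sum.elim (a (κ (h (mkp q ())))) (b (κ (h (mkp q' ())))) := by
    intro q q'
    rw [hreal]
    funext v
    rcases v with x | y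
    · rcases hρ : ρ (Sum.inl x) with n | t
      · simp [vv, hρ, evl]
      · simp [vv, hρ, evl, srt]
    · rcases hρ : ρ (Sum.inr y) with n | t
      · simp [vv, hρ, evl]
      · simp [vv, hρ, evl, srt]
  let D1 : Str L (Un N T) := lim srt A c
  have hsq : ∀ q q', (∀ v, vv q q' v ∈ s) → SameQ D1 A (vv q q') (evl srt c h ∘ vv q q') := by
    intro q q' hs
    constructor
    · intro i j
      exact ⟨fun hh => by simp only [comp_apply, hh], fun hh => h2 (hs i) (hs j) hh⟩
    · intro R f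
      exact h3 R _ fun i => hs (f i)
  have hsq1 := hsq 0 1 (fun v => by simp [s])
  have hsq2 := hsq 1 0 (fun v => by simp [s])
  rw [hev] at hsq1 hsq2
  have hκ01 := hκ h01
  have hno : ¬ SameQ D1 D1 (vv 0 1) (vv 1 0) := by
    intro hh
    have h4 := qf_iff' _ _ _ _ φ hφ ((hsq1.symm.trans hh).trans hsq2)
    rw [hab _ _ hκ01.ne, hab _ _ hκ01.ne'] at h4
    exact absurd (h4.1 hκ01) (not_lt.2 hκ01.le)
  have hrel : ∃ (R : Σ n, L.Relations n) (f : Fin R.1 → X ⊕ Y),
      ¬ (D1 R (vv 0 1 ∘ f) ↔ D1 R (vv 1 0 ∘ f)) := by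
    by_contra hcon
    push Not at hcon
    apply hno
    constructor
    · intro i j
      rcases i with x | y <;> rcases j with x' | y' <;> simp only [vv, Sum.elim_inl, Sum.elim_inr]
      · rcases ρ (Sum.inl x) with n | t <;> rcases ρ (Sum.inl x') with n' | t' <;> simp
      · rcases ρ (Sum.inl x) with n | t <;> rcases ρ (Sum.inr y') with n' | t' <;> simp
      · rcases ρ (Sum.inr y) with n | t <;> rcases ρ (Sum.inl x') with n' | t' <;> simp
      · rcases ρ (Sum.inr y) with n | t <;> rcases ρ (Sum.inr y') with n' | t' <;> simp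
    · intro R f
      exact hcon R f
  obtain ⟨R, f, hRf⟩ := hrel
  -- a countable part containing the constants
  obtain ⟨ι, hι, hιr⟩ : ∃ ι : ℕ → N, Injective ι ∧ ∀ v n, ρ v = Sum.inl n → ∃ m, ι m = n := by
    let C : Set N := {n | ∃ v, ρ v = Sum.inl n}
    have hC : C.Finite := by
      have : C ⊆ Set.range (fun v => match ρ v with
        | Sum.inl n => n
        | Sum.inr _ => (Infinite.natEmbedding N) 0) := by
        rintro n ⟨v, hv⟩
        exact ⟨v, by simp [hv]⟩
      exact (Set.finite_range _).subset this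
    let M0 : Set N := C ∪ Set.range (Infinite.natEmbedding N)
    have hc0 : M0.Countable := hC.countable.union (Set.countable_range _)
    have : Countable M0 := hc0
    have : Infinite M0 := Set.infinite_coe_iff.2 ((Set.infinite_range_of_injective
      (Infinite.natEmbedding N).injective).mono Set.subset_union_right)
    obtain ⟨ε⟩ : Nonempty (ℕ ≃ M0) := nonempty_equiv_of_countable
    refine ⟨fun m => (ε m).1, Subtype.val_injective.comp ε.injective, fun v n hv => ?_⟩
    exact ⟨ε.symm ⟨n, Or.inl ⟨v, hv⟩⟩, by simp⟩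
  choose g hg using hιr
  let D2 : Str L (Un ℕ T) := D1.pull (Sum.map ι id)
  have hD2 : D2 ∈ Cls srt B := ⟨IsTemp.pull_inl srt (lim_isTemp srt A c) ι,
    (FinEmb.of_injective D1 _ (Sum.map_injective.2 ⟨hι, injective_id⟩)).trans
      ((lim_finEmb srt A c hc).trans hAB)⟩
  let cv : ∀ v, ∃ y : ℕ ⊕ T, Sum.map ι id y = ρ v := by
    intro v
    rcases hρ : ρ v with n | t
    · exact ⟨Sum.inl (g v n hρ), by simp [hg]⟩
    · exact ⟨Sum.inr t, rfl⟩
  choose y hy using cv
  let p : Fin R.1 → ℕ ⊕ (T ⊕ T) := fun i => match f i with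
    | Sum.inl x => Sum.map id Sum.inl (y (Sum.inl x))
    | Sum.inr x => Sum.map id Sum.inr (y (Sum.inr x))
  have hp : ∀ q q', (Sum.map ι id : Un ℕ T → Un N T) ∘ sub2 p q q' = vv q q' ∘ f := by
    intro q q'
    funext i
    rcases hf : f i with x | x
    · have h5 := hy (Sum.inl x)
      rcases hyx : y (Sum.inl x) with m | t
      · rw [hyx] at h5
        simp [sub2, p, hf, vv, ← h5, hyx]
      · rw [hyx] at h5
        simp [sub2, p, hf, vv, ← h5, hyx]
    · have h5 := hy (Sum.inr x)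
      rcases hyx : y (Sum.inr x) with m | t
      · rw [hyx] at h5
        simp [sub2, p, hf, vv, ← h5, hyx]
      · rw [hyx] at h5
        simp [sub2, p, hf, vv, ← h5, hyx]
  refine ⟨D2, hD2, R, p, fun _ _ _ => trivial, fun _ _ _ => trivial, ?_⟩
  change ¬ (D1 R ((Sum.map ι id : Un ℕ T → Un N T) ∘ sub2 p 0 1) ↔
    D1 R ((Sum.map ι id : Un ℕ T → Un N T) ∘ sub2 p 1 0))
  rw [hp, hp]
  exact hRf

end

end Run7.h46
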