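import Pool.Agent.Run7.h46.Unst2

open FirstOrder FirstOrder.Language Run7.h46

/-- Let `M` be a countable structure in a finite relational language in which some quantifier-free
formula has arbitrarily long finite half-graphs. Then there are continuum many pairwise
non-elementarily equivalent structures on `ℕ` with the same age as `M`, and this age is not
cellular. -/
theorem Run7.h46.unstable_result
    (L : FirstOrder.Language.{0, 0}) [L.IsRelational] [Finite L.Symbols]
    (M : Type) [L.Structure M] [Countable M] (X Y : Type) [Finite X] [Finite Y]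
    (φ : L.Formula (X ⊕ Y)) (hφ : φ.IsQF)
    (hord : ∀ n : ℕ, ∃ (a : Fin n → X → M) (b : Fin n → Y → M),
      ∀ i j, (φ.Realize (Sum.elim (a i) (b j)) ↔ i < j)) :
    (∃ F : Set ℕ → L.Structure ℕ, (∀ S, @Language.age L ℕ (F S) = L.age M) ∧
      ∀ S S', S ≠ S' → ¬ @Language.ElementarilyEquivalent L ℕ ℕ (F S) (F S')) ∧
    ¬ CellularAge L (L.age M) :=
  unstable_main L M X Y φ hφ hord
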