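import Pool.Agent.Run7.h46.Basic

namespace Run7.h46

open Filter Function

/-- Iterated ultrafilter along a list of indices. -/
noncomputable def VL {Q : Type} [DecidableEq Q] : List Q → (Q → ℕ) → Ultrafilter (Q → ℕ)
  | [], g => pure g
  | q :: l, g => Ultrafilter.bind (hyperfilter ℕ) (fun i => VL l (update g q i))

section VL

variable {Q : Type} [DecidableEq Q]

theorem ev_nil (g : Q → ℕ) (P : (Q → ℕ) → Prop) : (∀ᶠ h in (VL [] g : Filter (Q → ℕ)), P h) ↔ P g := by
  simp [VL]

theorem ev_cons (q : Q) (l : List Q) (g : Q → ℕ) (P : (Q → ℕ) → Prop) :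
    (∀ᶠ h in (VL (q :: l) g : Filter (Q → ℕ)), P h) ↔
      ∀ᶠ i in (hyperfilter ℕ : Filter ℕ), ∀ᶠ h in (VL l (update g q i) : Filter (Q → ℕ)), P h :=
  Iff.rfl

theorem ev_transport {Q' : Type} [DecidableEq Q'] (σ : Q → Q') (S : Set Q) (hσ : Set.InjOn σ S)
    (P : (Q → ℕ) → Prop) (P' : (Q' → ℕ) → Prop)
    (hP : ∀ h h', (∀ q ∈ S, h q = h' (σ q)) → (P h ↔ P' h')) :
    ∀ (l : List Q) (_ : ∀ q ∈ l, q ∈ S) (g : Q → ℕ) (g' : Q' → ℕ) (_ : ∀ q ∈ S, g q = g' (σ q)),
      ((∀ᶠ h in (VL l g : Filter (Q → ℕ)), P h) ↔
        ∀ᶠ h in (VL (l.map σ) g' : Filter (Q' → ℕ)), P' h) := by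
  intro l
  induction l with
  | nil =>
    intro _ g g' hg
    rw [List.map_nil, ev_nil, ev_nil]
    exact hP g g' hg
  | cons q l ih =>
    intro hl g g' hg
    rw [List.map_cons, ev_cons, ev_cons]
    refine Filter.eventually_congr (Filter.Eventually.of_forall fun i => ?_)
    apply ih (fun q hq => hl q (List.mem_cons_of_mem _ hq))
    intro r hr
    by_cases h : r = q
    · subst h
      simp
    · have : σ r ≠ σ q := fun e => h (hσ hr (hl q (List.mem_cons_self)) e)
      rw [update_of_ne h, update_of_ne this]
      exact hg r hr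

theorem ev_filter (S : Set Q) [DecidablePred (· ∈ S)] (P : (Q → ℕ) → Prop)
    (hP : ∀ h h', (∀ q ∈ S, h q = h' q) → (P h ↔ P h')) :
    ∀ (l : List Q) (g : Q → ℕ),
      ((∀ᶠ h in (VL l g : Filter (Q → ℕ)), P h) ↔
        ∀ᶠ h in (VL (l.filter (· ∈ S)) g : Filter (Q → ℕ)), P h) := by
  intro l
  induction l with
  | nil => intro g; rfl
  | cons q l ih =>
    intro g
    rw [List.filter_cons]
    by_cases hq : q ∈ S
    · simp only [hq, decide_true, if_true]
      rw [ev_cons, ev_cons]
      exact Filter.eventually_congr (Filter.Eventually.of_forall fun i => ih _)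
    · simp only [hq, decide_false]
      rw [ev_cons]
      have key : ∀ i, (∀ᶠ h in (VL l (update g q i) : Filter (Q → ℕ)), P h) ↔
          ∀ᶠ h in (VL (l.filter (· ∈ S)) g : Filter (Q → ℕ)), P h := by
        intro i
        rw [ih]
        have := ev_transport (Q := Q) (Q' := Q) id S (Set.injOn_id S) P P
          (fun h h' hh => hP h h' hh) (l.filter (· ∈ S))
          (fun q hq => by simpa using (List.mem_filter.1 hq).2) (update g q i) g
          (fun r hr => by
            rw [update_of_ne]
            · rfl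
            · rintro rfl; exact hq hr)
        rw [List.map_id] at this
        exact this
      simp only [key]
      simp

theorem ev_gt (m : ℕ) : ∀ (l : List Q) (_ : l.Nodup) (g : Q → ℕ),
    ∀ᶠ h in (VL l g : Filter (Q → ℕ)), ∀ q ∈ l, m < h q := by
  intro l
  induction l with
  | nil => intro _ g; simp
  | cons q l ih =>
    intro hl g
    rw [ev_cons]
    have h1 : ∀ᶠ i in (hyperfilter ℕ : Filter ℕ), m < i := by
      have : {i : ℕ | ¬ m < i}.Finite := (Set.finite_Iic m).subset (fun i hi => by simpa using hi)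
      have := this.compl_mem_hyperfilter
      filter_upwards [this] with i hi
      simpa using hi
    filter_upwards [h1] with i hi
    have h2 := ih hl.of_cons (update g q i)
    have h3 : ∀ᶠ h in (VL l (update g q i) : Filter (Q → ℕ)), h q = i := by
      have hq : q ∉ l := (List.nodup_cons.1 hl).1
      clear h2 ih
      have : ∀ (l : List Q) (g : Q → ℕ), q ∉ l → g q = i →
          ∀ᶠ h in (VL l g : Filter (Q → ℕ)), h q = i := by
        intro l
        induction l with
        | nil => intro g _ hg; rw [ev_nil]; exact hg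
        | cons r l ih =>
          intro g hq hg
          rw [ev_cons]
          refine Filter.Eventually.of_forall fun j => ih _ (fun h => hq (List.mem_cons_of_mem _ h)) ?_
          rw [update_of_ne]
          · exact hg
          · rintro rfl; exact hq List.mem_cons_self
      exact this l _ hq (by simp)
    filter_upwards [h2, h3] with h h2 h3
    intro r hr
    rcases List.mem_cons.1 hr with rfl | hr
    · rw [h3]; exact hi
    · exact h2 r hr

theorem ev_fix (q : Q) (i : ℕ) : ∀ (l : List Q) (g : Q → ℕ), q ∉ l → g q = i →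
    ∀ᶠ h in (VL l g : Filter (Q → ℕ)), h q = i := by
  intro l
  induction l with
  | nil => intro g _ hg; rw [ev_nil]; exact hg
  | cons r l ih =>
    intro g hq hg
    rw [ev_cons]
    refine Filter.Eventually.of_forall fun j => ih _ (fun h => hq (List.mem_cons_of_mem _ h)) ?_
    rw [update_of_ne]
    · exact hg
    · rintro rfl; exact hq List.mem_cons_self

theorem ev_pairwise : ∀ (l : List Q) (_ : l.Nodup) (g : Q → ℕ),
    ∀ᶠ h in (VL l g : Filter (Q → ℕ)), l.Pairwise (fun q r => h q < h r) := by
  intro l
  induction l with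
  | nil => intro _ g; simp
  | cons q l ih =>
    intro hl g
    rw [ev_cons]
    refine Filter.Eventually.of_forall fun i => ?_
    have h1 := ih hl.of_cons (update g q i)
    have h2 := ev_gt i l hl.of_cons (update g q i)
    have h3 := ev_fix q i l (update g q i) (List.nodup_cons.1 hl).1 (by simp)
    filter_upwards [h1, h2, h3] with h h1 h2 h3
    rw [List.pairwise_cons]
    refine ⟨fun r hr => ?_, h1⟩
    rw [h3]
    exact h2 r hr

end VL

end Run7.h46
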